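import Pool.Agent.Lib.MP_33d9ce_co.Cst.MDefs

/-!
# Spanning hypercubes, constant density: random placements with hidden labels, statements

The analogous statements for the special case of the landed theorem are in `Star/Law.lean`, `Star/Bayes.lean`, `Star/ExA.lean`,
`Star/ExB.lean`, `Star/Block.lean`, `Star/Exist.lean`, `Slack/Cyl.lean`, `Slack/Birkhoff.lean`; their proofs can be adapted.
-/

set_option autoImplicit false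

noncomputable section

open Classical Finset

namespace Pool.Agent.Lib.MP_33d9ce_co.Cst

/-- **law**: existence of the random placements.  For good `ξ`: `Slack.exists_inj_law` (file `Slack/Birkhoff.lean`) applied to the matrix
`fun p s => D.u ξ p i s` (rows sum to 1 because `al` is nonempty).  For the other `ξ`: the product law
`μ ξ i τ = ∏ p, D.u ξ p i (τ p)` (`Finset.prod_univ_sum`, `Fintype.piFinset_univ`; the marginal: `if τ p = s` selects the coordinate `p`). -/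
def S_law : Prop := ∀ (P I S Y T Ξ : Type) [Fintype P] [Fintype I] [Fintype S] [Fintype Y] [Fintype T] [Fintype Ξ]
  (D : Mod P I S Y T Ξ) (good : Ξ → Prop), (∀ ξ p i, (D.al ξ p i).Nonempty) →
  (∀ ξ, good ξ → ∀ i s, ∑ p, D.u ξ p i s ≤ 1) → ∃ μ : Ξ → I → (P → S) → ℝ, D.IsLaw good μ

/-- **lin**: `Ex` is a positive linear functional.  (1) additive, (2) homogeneous, (3) finite sums, (4) monotone on the pairs
`(ξ, σ)` of positive weight, (5) `Ex 1 = 1` (`∑ σ, ∏ i, μ ξ i (σ i) = ∏ i, ∑ τ, μ ξ i τ = 1`), (6) if `Ex F < 1` then `F ξ σ < 1` for some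
`(ξ, σ)` of positive weight. -/
def S_lin : Prop := ∀ (P I S Y T Ξ : Type) [Fintype P] [Fintype I] [Fintype S] [Fintype Y] [Fintype T] [Fintype Ξ] [Nonempty Ξ]
  (D : Mod P I S Y T Ξ) (good : Ξ → Prop) (μ : Ξ → I → (P → S) → ℝ), D.IsLaw good μ →
  (∀ F G : Ξ → (I → P → S) → ℝ, Ex μ (fun ξ σ => F ξ σ + G ξ σ) = Ex μ F + Ex μ G) ∧
  (∀ (c : ℝ) (F : Ξ → (I → P → S) → ℝ), Ex μ (fun ξ σ => c * F ξ σ) = c * Ex μ F) ∧
  (∀ (K : Type) (s : Finset K) (F : K → Ξ → (I → P → S) → ℝ),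
    Ex μ (fun ξ σ => ∑ k ∈ s, F k ξ σ) = ∑ k ∈ s, Ex μ (F k)) ∧
  (∀ F G : Ξ → (I → P → S) → ℝ, (∀ ξ σ, (∏ i, μ ξ i (σ i)) ≠ 0 → F ξ σ ≤ G ξ σ) → Ex μ F ≤ Ex μ G) ∧
  (∀ c : ℝ, Ex μ (fun _ _ => c) = c) ∧
  ∀ F : Ξ → (I → P → S) → ℝ, Ex μ F < 1 → ∃ ξ σ, (∏ i, μ ξ i (σ i)) ≠ 0 ∧ F ξ σ < 1

/-- **pos**: pairs of positive weight.  `σ i` has positive probability for every `i`, so it is injective for good `ξ`; and
`u ξ p i (σ i p) ≥ μ ξ i (σ i) > 0` by `marg` (as in `exist_pos` of `Star/Exist.lean`), so `law ξ y (im σ y) ≠ 0`. -/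
def S_pos : Prop := ∀ (P I S Y T Ξ : Type) [Fintype P] [Fintype I] [Fintype S] [Fintype Y] [Fintype T] [Fintype Ξ]
  (D : Mod P I S Y T Ξ) (good : Ξ → Prop) (μ : Ξ → I → (P → S) → ℝ), D.IsLaw good μ →
  ∀ ξ σ, (∏ i, μ ξ i (σ i)) ≠ 0 → (good ξ → ∀ i, Function.Injective (σ i)) ∧
    (∀ y, D.law ξ y (D.im σ y) ≠ 0) ∧ ∀ p i, σ i p ∈ D.al ξ p i

/-- **im**: the law of the images of the neighbours of one odd vertex, and of two odd vertices without common groups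
(`Slack.cyl` in `Slack/Cyl.lean`; for two vertices with `J = T ⊕ T`, see the beginning of `Ex_far` in `Star/ExB.lean`). -/
def S_im : Prop := ∀ (P I S Y T Ξ : Type) [Fintype P] [Fintype I] [Fintype S] [Fintype Y] [Fintype T] [Fintype Ξ]
  (D : Mod P I S Y T Ξ) (good : Ξ → Prop) (μ : Ξ → I → (P → S) → ℝ), D.IsLaw good μ →
  (∀ y, Function.Injective fun t => (D.nb y t).2) →
  (∀ (y : Y) (F : Ξ → (T → S) → ℝ), Ex μ (fun ξ σ => F ξ (D.im σ y)) =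
    (Fintype.card Ξ : ℝ)⁻¹ * ∑ ξ, ∑ a, D.law ξ y a * F ξ a) ∧
  ∀ (y y' : Y) (F F' : Ξ → (T → S) → ℝ), (∀ t t', (D.nb y t).2 ≠ (D.nb y' t').2) →
    Ex μ (fun ξ σ => F ξ (D.im σ y) * F' ξ (D.im σ y')) =
      (Fintype.card Ξ : ℝ)⁻¹ * ∑ ξ, (∑ a, D.law ξ y a * F ξ a) * ∑ a, D.law ξ y' a * F' ξ a

/-- **lawsum**: `law` is a probability distribution if the allowed sets are nonempty. -/
def S_lawsum : Prop := ∀ (P I S Y T Ξ : Type) [Fintype P] [Fintype I] [Fintype S] [Fintype Y] [Fintype T] [Fintype Ξ]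
  (D : Mod P I S Y T Ξ), (∀ ξ p i, (D.al ξ p i).Nonempty) →
  ∀ ξ y, (∀ a, 0 ≤ D.law ξ y a) ∧ ∑ a, D.law ξ y a = 1 ∧ ∀ a, D.law ξ y a ≠ 0 → ∀ t, a t ∈ D.al ξ (D.nb y t).1 (D.nb y t).2

/-- **ind**: functions of disjoint sets of labels are uncorrelated (swap trick, `avg_mul` in `Star/Avg.lean`).  `pc a b` has the labels of
`a` on the set and the labels of `b` outside. -/
def S_ind : Prop := ∀ (Ξ : Type) [Fintype Ξ] (pc : Ξ → Ξ → Ξ) (F G : Ξ → ℝ),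
  (∀ a b, pc (pc a b) (pc b a) = a) → (∀ a b, F (pc a b) = F a) → (∀ a b, G (pc a b) = G b) →
  (Fintype.card Ξ : ℝ) * ∑ ξ, F ξ * G ξ = (∑ ξ, F ξ) * ∑ ξ, G ξ

/-- **L2**: second moments of column sums, from `lin`.  With `e y v = Ex (Φ y v)`:
`Ex ∑ v (∑ y Φ y v - ∑ y e y v)^2 = ∑ v ∑ y ∑ y' (Ex (Φ y v Φ y' v) - e y v e y' v)`; the terms with `¬ near y y'` are `0`, the others are at most
`Ex (Φ y v Φ y' v) ≤ (Ex (Φ y v)^2 + Ex (Φ y' v)^2) / 2` (`Φ ≥ 0`, so `e y v e y' v ≥ 0`); sum over the near pairs (symmetric, at most `Δ` for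
every `y`).  See `Ex_K` in `Star/ExB.lean`. -/
def S_L2 : Prop := ∀ (P I S Y T Ξ V : Type) [Fintype P] [Fintype I] [Fintype S] [Fintype Y] [Fintype T] [Fintype Ξ] [Nonempty Ξ]
  [Fintype V] (D : Mod P I S Y T Ξ) (good : Ξ → Prop) (μ : Ξ → I → (P → S) → ℝ), D.IsLaw good μ →
  ∀ (Φ : Y → V → Ξ → (I → P → S) → ℝ) (near : Y → Y → Prop) (Δ : ℝ),
  (∀ y v ξ σ, 0 ≤ Φ y v ξ σ) → (∀ y y', near y y' → near y' y) →
  (∀ y, (({y' | near y y'} : Finset Y).card : ℝ) ≤ Δ) →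
  (∀ y y', ¬ near y y' → ∀ v, Ex μ (fun ξ σ => Φ y v ξ σ * Φ y' v ξ σ) = Ex μ (Φ y v) * Ex μ (Φ y' v)) →
  Ex μ (fun ξ σ => ∑ v, ((∑ y, Φ y v ξ σ) - ∑ y, Ex μ (Φ y v)) ^ 2) ≤
    Δ * ∑ y, ∑ v, Ex μ (fun ξ σ => Φ y v ξ σ ^ 2)

/-- **block**: a block of odd vertices without common groups; all their neighbours have at least `|P|` allowed positions.  See `block_mass` and
`block` in `Star/Block.lean` (same proof: the good positions have mass at least `1 - η`, independence by `Slack.cyl`). -/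
def S_block : Prop := ∀ (P I S Y T Ξ : Type) [Fintype P] [Fintype I] [Fintype S] [Fintype Y] [Fintype T] [Fintype Ξ] [Nonempty P]
  (D : Mod P I S Y T Ξ) (good : Ξ → Prop) (μ : Ξ → I → (P → S) → ℝ), D.IsLaw good μ →
  (∀ ξ p i, (D.al ξ p i).Nonempty) → (∀ y, Function.Injective fun t => (D.nb y t).2) →
  ∀ (ξ : Ξ) (okv : I → S → Prop) (η : ℝ), 0 ≤ η → η ≤ 1 →
  (∀ i, (({s | ¬ okv i s} : Finset S).card : ℝ) ≤ η * Fintype.card P) →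
  ∀ β : Finset Y, (∀ y ∈ β, ∀ y' ∈ β, y ≠ y' → ∀ t t', (D.nb y t).2 ≠ (D.nb y' t').2) →
  (∀ y ∈ β, ∀ t, Fintype.card P ≤ (D.al ξ (D.nb y t).1 (D.nb y t).2).card) →
  ∑ σ : I → P → S, (∏ i, μ ξ i (σ i)) *
      (if ∀ y ∈ β, ¬ ∀ t, okv (D.nb y t).2 (D.im σ y t) then 1 else 0) ≤
    (1 - (1 - η) ^ Fintype.card T) ^ β.card

/-- **bayes**: the exact expectation of the posterior.  Let `Z ξ a = ∑ c', pw ξ a c'`; by `idem`, `pw`, `Z` and `post` do not change if `ξ` is replaced by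
`up ξ c`.  (1), (2) clear (`post = 0` if `Z = 0`).  (3) if `cl ξ` and `lw ξ a ≠ 0` then `Z ≥ lw ξ a > 0` by `real`.
(4) by `avg`, `|C| ∑ ξ [cl ξ] ∑ a lw ξ a * post ξ a c = ∑ ξ ∑ c' ∑ a pw ξ a c' * post ξ a c = ∑ ξ ∑ a Z ξ a * post ξ a c = ∑ ξ ∑ a pw ξ a c`
(if `Z = 0` then `pw = 0`, sum of nonnegative terms) `= ∑ ξ [cl (up ξ c)]`. -/
def S_bayes : Prop := ∀ (Ξ C A : Type) [Fintype Ξ] [Fintype C] [Fintype A] (lw : Ξ → A → ℝ) (cl : Ξ → Prop)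
  (up : Ξ → C → Ξ), Up up → (∀ ξ a, 0 ≤ lw ξ a) → (∀ ξ, ∑ a, lw ξ a = 1) →
  (∀ ξ a c, 0 ≤ post lw cl up ξ a c) ∧ (∀ ξ a, ∑ c, post lw cl up ξ a c ≤ 1) ∧
  (∀ ξ a, cl ξ → lw ξ a ≠ 0 → ∑ c, post lw cl up ξ a c = 1) ∧
  ∀ c, (Fintype.card C : ℝ) * ∑ ξ, (if cl ξ then ∑ a, lw ξ a * post lw cl up ξ a c else 0) =
    (({ξ | cl (up ξ c)} : Finset Ξ).card : ℝ)

/-- **big**: the posterior has rarely large atoms.  By `avg` and the invariance of `post` under `up`, with `b ξ a` the indicator of the event,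
`|C| * (left side) = ∑ ξ ∑ a Z ξ a * b ξ a`, and if `b ξ a = 1` then `Z ξ a < z * |C| * pw ξ a c ≤ z * |C| * hat a` for some `c`. -/
def S_big : Prop := ∀ (Ξ C A : Type) [Fintype Ξ] [Fintype C] [Nonempty C] [Fintype A] (lw : Ξ → A → ℝ) (cl : Ξ → Prop)
  (up : Ξ → C → Ξ), Up up → (∀ ξ a, 0 ≤ lw ξ a) → (∀ ξ, ∑ a, lw ξ a = 1) → ∀ Λ z : ℝ, 0 ≤ z →
  (∀ ξ, ∃ hat : A → ℝ, (∀ a, 0 ≤ hat a) ∧ ∑ a, hat a ≤ Λ ∧ ∀ c, cl (up ξ c) → ∀ a, lw (up ξ c) a ≤ hat a) →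
  ∑ ξ, (if cl ξ then ∑ a, lw ξ a *
    (if ∃ c, 1 < post lw cl up ξ a c * (z * Fintype.card C) then 1 else 0) else 0) ≤ z * Λ * Fintype.card Ξ

/-- **sq**: the square norm of the posterior.  `|C| * (left side) = ∑ ξ ∑ a Z * ∑ c (pw ξ a c / Z) ^ 2 = ∑ ξ ∑ a ∑ c pw ξ a c ^ 2 / Z` and
`∑ c pw ^ 2 / Z ≤ max pw ≤ hat a`. -/
def S_sq : Prop := ∀ (Ξ C A : Type) [Fintype Ξ] [Fintype C] [Nonempty C] [Fintype A] (lw : Ξ → A → ℝ) (cl : Ξ → Prop)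
  (up : Ξ → C → Ξ), Up up → (∀ ξ a, 0 ≤ lw ξ a) → (∀ ξ, ∑ a, lw ξ a = 1) → ∀ Λ : ℝ,
  (∀ ξ, ∃ hat : A → ℝ, (∀ a, 0 ≤ hat a) ∧ ∑ a, hat a ≤ Λ ∧ ∀ c, cl (up ξ c) → ∀ a, lw (up ξ c) a ≤ hat a) →
  ∑ ξ, (if cl ξ then ∑ a, lw ξ a * ∑ c, post lw cl up ξ a c ^ 2 else 0) ≤
    Λ * (Fintype.card C : ℝ)⁻¹ * Fintype.card Ξ

/-- **trunc**: truncated marginals.  `r` is a distribution on `B ^ a` with density at most `Dn`.  Let
`Hv i = {v | H < mg r i v * |B|}` (heavy), `|Hv i| ≤ |B| / H` (since `∑ v mg r i v ≤ 1`).  For a set `J` of `t` coordinates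
`∑ {r w : w i ∈ Hv i for all i ∈ J} ≤ Dn / |B|^a * (|B|/H)^t |B|^(a-t) = Dn / H^t`, so the mass of the `w` with at least `t` heavy coordinates is at most
`2^a Dn / H^t ≤ 1/a`.  So `∑ i ∑ v (heavy) mg r i v = ∑ w r w #{i | w i ∈ Hv i} ≤ t + a * (1/a) = t + 1` and
`∑ v trc r H v = (2/a) (a - heavy mass) ≥ (2/a) (a - (t+1)) ≥ 1` because `2 (t+1) ≤ a`.  The other claims are immediate (each of the
`a` terms is at most `H/|B|`, resp. `mg r i v`). -/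
def S_trunc : Prop := ∀ (B : Type) [Fintype B] [Nonempty B] (a t : ℕ) (r : (Fin a → B) → ℝ) (Dn H : ℝ),
  (∀ w, 0 ≤ r w) → ∑ w, r w = 1 → (∀ w, r w * (Fintype.card B : ℝ) ^ a ≤ Dn) → 0 < H → 2 * (t + 1) ≤ a →
  a * (2 ^ a * Dn) ≤ H ^ t →
  (∀ v, 0 ≤ trc r H v) ∧ 1 ≤ ∑ v, trc r H v ∧ (∀ v, trc r H v * Fintype.card B ≤ 2 * H) ∧
  (∀ v, trc r H v ≤ 2 / a * ∑ i, mg r i v) ∧ ∑ v, trc r H v ≤ 2

end Pool.Agent.Lib.MP_33d9ce_co.Cst
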