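import Pool.Agent.Lib.MP_33d9ce_co.Cst.StmC2
import Pool.Agent.Lib.MP_33d9ce_co.Cst.StmM

/-!
# Spanning hypercubes, constant density: rows, definitions
-/

set_option autoImplicit false

noncomputable section

open Classical Finset

namespace Pool.Agent.Lib.MP_33d9ce_co.Cst

open Slack (Cell Ev Od Dir nbr shift)

section

variable {κ m r : ℕ} {S X W0 Ω : Type} [Fintype S] [Fintype X] [Fintype W0] [Fintype Ω]

/-- the posterior distribution of the label of the family `j` of the cell of `y`, in the class `cls j y.1` -/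
def pR (e : Env κ (Ev κ m r) S X W0 Ω) (y : Cell κ × Od κ m r) (j : ℕ) (ξ : e.Xi) (b : Dir κ m r → S) (w : Ω) : ℝ :=
  if h : w ∈ e.W (min j e.L) then
    post (fun ξ b => (e.mod m r).law ξ y b) (e.cls j y.1) (e.upA (e.cell y.1, ⟨min j e.L, by omega⟩)) ξ b ⟨w, h⟩
  else 0

/-- the posterior of the family `j` has a large atom -/
def bigR (e : Env κ (Ev κ m r) S X W0 Ω) (z0 : ℝ) (y : Cell κ × Od κ m r) (j : ℕ) (ξ : e.Xi)
    (b : Dir κ m r → S) : Prop :=
  ∃ w, 1 < pR e y j ξ b w * (z0 * (e.W (min j e.L)).card)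

/-- the posterior distribution of the label of the family `0` of the cell of `y`, for the odd vertices of the family 0 -/
def pR0 (e : Env κ (Ev κ m r) S X W0 Ω) (y : Cell κ × Od κ m r) (ξ : e.Xi) (b : Dir κ m r → S) (w : W0) : ℝ :=
  if e.yf ξ.2 y.1 = 0 then
    post (fun ξ b => (e.mod m r).law ξ y b) (fun ξ => e.yf ξ.2 y.1 = 0) (e.up0 (e.cell y.1)) ξ b w
  else 0

end

/-- the row of an odd vertex of a family `j ≥ 1` -/
def Fr {κ m r aa : ℕ} {S X W0 B : Type} [Fintype S] [Fintype X] [Fintype W0] [Fintype B]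
    (e : Env κ (Ev κ m r) S X W0 (Fin aa → B)) (z0 H : ℝ) (y : Cell κ × Od κ m r) (v : B) (ξ : e.Xi)
    (b : Dir κ m r → S) : ℝ :=
  ∑ j ∈ Icc 1 e.L, if e.cls j y.1 ξ ∧ ¬ bigR e z0 y j ξ b then trc (pR e y j ξ b) H v else 0

/-- numerical conditions for the truncation -/
structure Trn {κ m r aa : ℕ} {S X W0 B : Type} [Fintype S] [Fintype X] [Fintype W0] [Fintype B]
    (e : Env κ (Ev κ m r) S X W0 (Fin aa → B)) (z0 H Dn : ℝ) (t : ℕ) : Prop where
  nonemptyB : Nonempty B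
  z0_pos : 0 < z0
  H_pos : 0 < H
  aa_ge : 2 * (t + 1) ≤ aa
  dens : ∀ j, 1 ≤ j → j ≤ e.L → (Fintype.card B : ℝ) ^ aa ≤ Dn * (z0 * (e.W j).card)
  trunc : aa * (2 ^ aa * Dn) ≤ H ^ t

/-- all standing hypotheses on the probabilities of high levels -/
structure Lvl {κ : ℕ} {I S X W0 Ω : Type} [Fintype I] [Fintype S] [Fintype X] [Fintype W0] [Fintype Ω]
    (e : Env κ I S X W0 Ω) (om ep g : ℕ → ℝ) (δ : ℝ) : Prop where
  out : TOut e.ok e.L kap e.al om ep e.W e.E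
  ep_nonneg : ∀ l, 0 ≤ ep l
  geo : ∀ l, 1 ≤ l → l ≤ e.L → (({u | geom e.cell kap e.L l u} : Finset (Cell κ)).card : ℝ) ≤ g l * 2 ^ κ
  cells : ∀ u, (({v | e.cell v = e.cell u} : Finset (Cell κ)).card : ℝ) ≤ δ

end Pool.Agent.Lib.MP_33d9ce_co.Cst
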