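import Mathlib

/-!
# Spanning hypercubes, constant density: random placements with hidden labels, definitions

`X = P × I` is the set of the even vertices (`I` groups), `Y` the set of the odd vertices, `T` the directions, `S` the
positions of a group, `Ξ` the label configurations (uniform).  Given the labels `ξ`, the vertex `(p, i)` is placed uniformly in the set
`al ξ p i` of its allowed positions, the groups are independent.
-/

set_option autoImplicit false

noncomputable section

open Classical Finset

namespace Pool.Agent.Lib.MP_33d9ce_co.Cst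

/-- a placement problem with hidden labels -/
structure Mod (P I S Y T Ξ : Type) where
  /-- the neighbours of an odd vertex -/
  nb : Y → T → P × I
  /-- the allowed positions -/
  al : Ξ → P → I → Finset S

variable {P I S Y T Ξ : Type} [Fintype P] [Fintype I] [Fintype S] [Fintype Y] [Fintype T] [Fintype Ξ]

namespace Mod

variable (D : Mod P I S Y T Ξ)

/-- the uniform law on the allowed positions -/
def u (ξ : Ξ) (p : P) (i : I) (s : S) : ℝ :=
  if s ∈ D.al ξ p i then ((D.al ξ p i).card : ℝ)⁻¹ else 0

/-- the law of the images of the neighbours of `y` -/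
def law (ξ : Ξ) (y : Y) (a : T → S) : ℝ := ∏ t, D.u ξ (D.nb y t).1 (D.nb y t).2 (a t)

/-- the images of the neighbours of `y` -/
def im (σ : I → P → S) (y : Y) : T → S := fun t => σ (D.nb y t).2 (D.nb y t).1

/-- random maps with the right marginals; they are injective for good labels -/
structure IsLaw (good : Ξ → Prop) (μ : Ξ → I → (P → S) → ℝ) : Prop where
  nonneg : ∀ ξ i τ, 0 ≤ μ ξ i τ
  sum_one : ∀ ξ i, ∑ τ, μ ξ i τ = 1
  inj : ∀ ξ, good ξ → ∀ i τ, μ ξ i τ ≠ 0 → Function.Injective τ
  marg : ∀ ξ i p s, ∑ τ, (if τ p = s then μ ξ i τ else 0) = D.u ξ p i s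

end Mod

/-- the expectation over the labels and the placements -/
def Ex (μ : Ξ → I → (P → S) → ℝ) (F : Ξ → (I → P → S) → ℝ) : ℝ :=
  (Fintype.card Ξ : ℝ)⁻¹ * ∑ ξ : Ξ, ∑ σ : I → P → S, (∏ i, μ ξ i (σ i)) * F ξ σ

/-- resampling of one label: `up ξ c` is `ξ` with this label replaced by `c` -/
structure Up {Ξ C : Type} [Fintype Ξ] [Fintype C] (up : Ξ → C → Ξ) : Prop where
  idem : ∀ ξ c c', up (up ξ c) c' = up ξ c'
  real : ∀ ξ, ∃ c, up ξ c = ξ
  avg : ∀ G : Ξ → ℝ, (Fintype.card C : ℝ) * ∑ ξ, G ξ = ∑ ξ, ∑ c, G (up ξ c)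

section

variable {C A : Type} [Fintype C] [Fintype A]

/-- the weight of the label `c`, given the other labels and the images `a`, in the class `cl` -/
def pw (lw : Ξ → A → ℝ) (cl : Ξ → Prop) (up : Ξ → C → Ξ) (ξ : Ξ) (a : A) (c : C) : ℝ :=
  if cl (up ξ c) then lw (up ξ c) a else 0

/-- the posterior distribution of the label, given the other labels, the images `a` and the class `cl` -/
def post (lw : Ξ → A → ℝ) (cl : Ξ → Prop) (up : Ξ → C → Ξ) (ξ : Ξ) (a : A) (c : C) : ℝ :=
  pw lw cl up ξ a c / ∑ c', pw lw cl up ξ a c'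

end

/-- the marginal of the coordinate `i` of a distribution on `B ^ a` -/
def mg {B : Type} [Fintype B] {a : ℕ} (r : (Fin a → B) → ℝ) (i : Fin a) (v : B) : ℝ :=
  ∑ w, if w i = v then r w else 0

/-- the truncated average marginal -/
def trc {B : Type} [Fintype B] {a : ℕ} (r : (Fin a → B) → ℝ) (H : ℝ) (v : B) : ℝ :=
  2 / a * ∑ i, if mg r i v * Fintype.card B ≤ H then mg r i v else 0

end Pool.Agent.Lib.MP_33d9ce_co.Cst
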