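import Pool.Agent.Lib.MP_33d9ce_co.Cst.Ifc
import Pool.Agent.Lib.MP_33d9ce_co.Cst.MDefs

/-!
# Spanning hypercubes, constant density: labels and levels, definitions

The base cube is `Cell κ`, the cells of the partition are given by `cell : Cell κ → Cell κ`.  Every cell `q` carries a label
`ξ.1 q : W0` of the family `0` and labels `vw ξ.2 q j ∈ W j` of the families `j = 1, ..., L`.
-/

set_option autoImplicit false

noncomputable section

open Classical Finset

namespace Pool.Agent.Lib.MP_33d9ce_co.Cst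

open Slack (Cell Ev Od Dir nbr)

/-- the data of the construction: `X` vertices available for the even vertices, `W0` labels of the family `0`, `Ω` labels of
the other families, `f i s` the vertex at the position `s` of the group `i` -/
structure Env (κ : ℕ) (I S X W0 Ω : Type) where
  /-- the cells of the base cube -/
  cell : Cell κ → Cell κ
  /-- the top level -/
  L : ℕ
  /-- the label sets -/
  W : ℕ → Finset Ω
  /-- the restrictions -/
  E : ℕ → ℕ → Finset X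
  /-- lower bounds for the proportions of compatible vertices -/
  al : ℕ → ℝ
  /-- compatibility with the labels of the family 0 -/
  ok0 : X → W0 → Prop
  /-- compatibility with the other labels -/
  ok : X → Ω → Prop
  /-- the array -/
  f : I → S → X

section levels

variable {κ : ℕ} {X Ω : Type} [Fintype X]

/-- the vertices which are allowed at the level `l` for the labels `w` of the cells in `st` -/
def rr (ok : X → Ω → Prop) (E : ℕ → ℕ → Finset X) (st : Finset (Cell κ)) (w : Cell κ → ℕ → Ω) (l : ℕ) : Finset X :=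
  (E l st.card).filter fun x => ∀ q ∈ st, ok x (w q (l - 1)) ∧ ok x (w q l)

/-- the same, the label `z = (q, j)` being ignored -/
def rrm (ok : X → Ω → Prop) (E : ℕ → ℕ → Finset X) (st : Finset (Cell κ)) (w : Cell κ → ℕ → Ω) (l : ℕ)
    (z : Cell κ × ℕ) : Finset X :=
  (E l st.card).filter fun x => ∀ q ∈ st, ((q, l - 1) ≠ z → ok x (w q (l - 1))) ∧ ((q, l) ≠ z → ok x (w q l))

/-- the labels of the cells in `st` are bad at the level `l` -/
def tbad (ok : X → Ω → Prop) (E : ℕ → ℕ → Finset X) (al : ℕ → ℝ) (st : Finset (Cell κ)) (w : Cell κ → ℕ → Ω)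
    (l : ℕ) : Prop :=
  ((rr ok E st w l).card : ℝ) < al l * Fintype.card X ∨
    ∃ q ∈ st, ∃ j, (j = l - 1 ∨ j = l) ∧ 2 * (rr ok E st w l).card < (rrm ok E st w l (q, j)).card

/-- the point `u` is bad at the level `l` -/
def bad (ok : X → Ω → Prop) (E : ℕ → ℕ → Finset X) (al : ℕ → ℝ) (cell : Cell κ → Cell κ) (w : Cell κ → ℕ → Ω)
    (l : ℕ) (u : Cell κ) : Prop :=
  kap l < (nc cell 1 u).card ∨ (2 ≤ l ∧ tbad ok E al (nc cell 1 u) w l)

/-- the level of `u` -/
def lev (ok : X → Ω → Prop) (E : ℕ → ℕ → Finset X) (al : ℕ → ℝ) (cell : Cell κ → Cell κ) (L : ℕ)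
    (w : Cell κ → ℕ → Ω) (u : Cell κ) : ℕ :=
  ((range L ×ˢ (univ : Finset (Cell κ))).filter fun p => bad ok E al cell w p.1 p.2).sup
    fun p => p.1 + 1 - (hammingDist u p.2 + 1) / 2

/-- the ball of radius 1 -/
def b1 (u : Cell κ) : Finset (Cell κ) := {v | hammingDist u v ≤ 1}

theorem b1_nonempty (u : Cell κ) : (b1 u).Nonempty := ⟨u, by simp [b1]⟩

/-- the family of the odd vertices over `u` -/
def yl (ok : X → Ω → Prop) (E : ℕ → ℕ → Finset X) (al : ℕ → ℝ) (cell : Cell κ → Cell κ) (L : ℕ)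
    (w : Cell κ → ℕ → Ω) (u : Cell κ) : ℕ :=
  (b1 u).inf' (b1_nonempty u) (lev ok E al cell L w)

end levels

namespace Env

variable {κ : ℕ} {I S X W0 Ω : Type} [Fintype I] [Fintype S] [Fintype X] [Fintype W0] [Fintype Ω]

/-- the labels of the families `1, ..., L` (the family `0` is not used here) -/
abbrev L1 (e : Env κ I S X W0 Ω) : Type := {ω : Cell κ × Fin (e.L + 1) → Ω // ∀ z, ω z ∈ e.W z.2}

/-- all labels -/
abbrev Xi (e : Env κ I S X W0 Ω) : Type := (Cell κ → W0) × e.L1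

variable (e : Env κ I S X W0 Ω)

/-- the label of the family `j` of the cell `q` -/
def vw (ω : e.L1) (q : Cell κ) (j : ℕ) : Ω := ω.1 (q, ⟨min j e.L, by omega⟩)

/-- replace the label `z` by `c` -/
def up1 (ω : e.L1) (z : Cell κ × Fin (e.L + 1)) (c : {w // w ∈ e.W z.2}) : e.L1 :=
  ⟨Function.update ω.1 z c.1, by
    intro z'
    by_cases h : z' = z
    · subst h
      rw [Function.update_self]
      exact c.2
    · rw [Function.update_of_ne h]
      exact ω.2 z'⟩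

/-- replace the label `z` by `c` -/
def upA (z : Cell κ × Fin (e.L + 1)) (ξ : e.Xi) (c : {w // w ∈ e.W z.2}) : e.Xi := (ξ.1, e.up1 ξ.2 z c)

/-- replace the label of the family 0 of the cell `q` by `c` -/
def up0 (q : Cell κ) (ξ : e.Xi) (c : W0) : e.Xi := (Function.update ξ.1 q c, ξ.2)

/-- `ξ` on the cells of `A`, `ξ'` on the others -/
def pc (A : Finset (Cell κ)) (ξ ξ' : e.Xi) : e.Xi :=
  (fun q => if q ∈ A then ξ.1 q else ξ'.1 q,
    ⟨fun z => if z.1 ∈ A then ξ.2.1 z else ξ'.2.1 z, by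
      intro z
      dsimp only
      split_ifs
      · exact ξ.2.2 z
      · exact ξ'.2.2 z⟩)

/-- `F` depends only on the labels of the cells in `A` -/
def Loc {β : Type} (A : Finset (Cell κ)) (F : e.Xi → β) : Prop :=
  ∀ ξ ξ' : e.Xi, (∀ q ∈ A, ξ.1 q = ξ'.1 q ∧ ∀ j, ξ.2.1 (q, j) = ξ'.2.1 (q, j)) → F ξ = F ξ'

/-- bad points -/
abbrev bd (ω : e.L1) (l : ℕ) (u : Cell κ) : Prop := bad e.ok e.E e.al e.cell (e.vw ω) l u

/-- levels -/
abbrev lv (ω : e.L1) (u : Cell κ) : ℕ := lev e.ok e.E e.al e.cell e.L (e.vw ω) u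

/-- families -/
abbrev yf (ω : e.L1) (u : Cell κ) : ℕ := yl e.ok e.E e.al e.cell e.L (e.vw ω) u

/-- the positions of the group `i` which are allowed for `u` if it has the level `l` -/
def pos (l : ℕ) (ξ : e.Xi) (u : Cell κ) (i : I) : Finset S :=
  {s | (l ≤ 1 → ∀ q ∈ nc e.cell 1 u, e.ok0 (e.f i s) (ξ.1 q)) ∧
    (l = 1 → ∀ q ∈ nc e.cell 1 u, e.ok (e.f i s) (e.vw ξ.2 q 1)) ∧
    (2 ≤ l → e.f i s ∈ rr e.ok e.E (nc e.cell 1 u) (e.vw ξ.2) l)}

/-- the same, the label `z` being ignored -/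
def posm (l : ℕ) (ξ : e.Xi) (u : Cell κ) (i : I) (z : Cell κ × ℕ) : Finset S :=
  {s | (l ≤ 1 → ∀ q ∈ nc e.cell 1 u, e.ok0 (e.f i s) (ξ.1 q)) ∧
    (l = 1 → ∀ q ∈ nc e.cell 1 u, (q, 1) ≠ z → e.ok (e.f i s) (e.vw ξ.2 q 1)) ∧
    (2 ≤ l → e.f i s ∈ rrm e.ok e.E (nc e.cell 1 u) (e.vw ξ.2) l z)}

/-- the allowed positions -/
def alw (ξ : e.Xi) (u : Cell κ) (i : I) : Finset S :=
  if (e.pos (e.lv ξ.2 u) ξ u i).Nonempty then e.pos (e.lv ξ.2 u) ξ u i else univ

/-- good labels: no point is bad at the top level, and the points of high level do not need too much room -/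
def good (ξ : e.Xi) : Prop :=
  (∀ u, ¬ e.bd ξ.2 e.L u) ∧
    ∑ u ∈ univ.filter (fun u : Cell κ => 2 ≤ e.lv ξ.2 u), (e.al (e.lv ξ.2 u))⁻¹ ≤ 2 ^ κ / 1000

/-- the class of the family `j` for the odd vertices over `u` -/
def cls (j : ℕ) (u : Cell κ) (ξ : e.Xi) : Prop :=
  e.yf ξ.2 u = j ∧ ∀ v ∈ b1 u, ¬ e.bd ξ.2 e.L v

/-- the cells which influence the odd vertices over `u` -/
def zone (u : Cell κ) : Finset (Cell κ) := nc e.cell (2 * e.L + 4) u

end Env

/-- the hypotheses on the data; `η`: proportion of the positions killed by one vertex, `a`: length of the labels in `Ω`,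
`x`: accuracy of the array -/
structure Env.Ok {κ : ℕ} {I S X W0 Ω : Type} [Fintype I] [Fintype S] [Fintype X] [Fintype W0] [Fintype Ω]
    (e : Env κ I S X W0 Ω) (η x : ℝ) (a : ℕ) : Prop where
  nonempty : ∀ j, (e.W j).Nonempty
  nonempty0 : Nonempty W0
  nonemptyX : Nonempty X
  nonemptyI : Nonempty I
  L_ge : 2 ≤ e.L
  top : κ + 1 ≤ kap e.L
  below : kap (e.L - 1) ≤ κ
  cardS : 16 * Fintype.card S = 17 * 2 ^ κ
  η_pos : 0 < η
  room : 32 * (kap 0 * ((4 + a) * η)) ≤ 1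
  fair0 : ∀ i w, (({s | ¬ e.ok0 (e.f i s) w} : Finset S).card : ℝ) ≤ 4 * η * 2 ^ κ
  fair1 : ∀ i w, (({s | ¬ e.ok (e.f i s) w} : Finset S).card : ℝ) ≤ a * η * 2 ^ κ
  fairr : ∀ (i : I) (u : Cell κ) (w : Cell κ → ℕ → Ω) (l : ℕ), 2 ≤ l → l ≤ e.L →
    |(({s | e.f i s ∈ rr e.ok e.E (nc e.cell 1 u) w l} : Finset S).card : ℝ) -
      Fintype.card S * (((rr e.ok e.E (nc e.cell 1 u) w l).card : ℝ) / Fintype.card X)| ≤ x * Fintype.card S
  fairm : ∀ (i : I) (u : Cell κ) (w : Cell κ → ℕ → Ω) (l : ℕ) (z : Cell κ × ℕ), 2 ≤ l → l ≤ e.L →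
    |(({s | e.f i s ∈ rrm e.ok e.E (nc e.cell 1 u) w l z} : Finset S).card : ℝ) -
      Fintype.card S * (((rrm e.ok e.E (nc e.cell 1 u) w l z).card : ℝ) / Fintype.card X)| ≤ x * Fintype.card S
  x_nonneg : 0 ≤ x
  al_ge : ∀ l, 2 ≤ l → l ≤ e.L → 8 * x ≤ e.al l
  al_pos : ∀ l, 0 < e.al l
  al_le : ∀ l, e.al l ≤ 1

/-- the placement problem on the cube -/
def Env.mod {κ : ℕ} {S X W0 Ω : Type} (m r : ℕ) [Fintype S] [Fintype X] [Fintype W0] [Fintype Ω]
    (e : Env κ (Ev κ m r) S X W0 Ω) : Mod (Cell κ) (Ev κ m r) S (Cell κ × Od κ m r) (Dir κ m r) e.Xi where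
  nb := nbr
  al := e.alw

end Pool.Agent.Lib.MP_33d9ce_co.Cst
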