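import Pool.Agent.Lib.MP_33d9ce_co.Cst.TDefs
import Pool.Agent.Lib.MP_33d9ce_co.Slack.CubeDefs

/-!
# Spanning hypercubes, constant density: interfaces of the parts

* `S_G`: the partition of the base cube (section 1 of the blueprint)
* `S_T`: the label sets (section 2)
* `S_A`: the fair array (section 4)
* `S_H`: the matching (section 6)
-/

set_option autoImplicit false

noncomputable section

open Classical Finset

namespace Pool.Agent.Lib.MP_33d9ce_co.Cst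

open Slack (Cell)

/-- the cells meeting the ball of radius `D` around `u` -/
def nc {κ : ℕ} (cell : Cell κ → Cell κ) (D : ℕ) (u : Cell κ) : Finset (Cell κ) :=
  ({v | hammingDist u v ≤ D} : Finset (Cell κ)).image cell

/-- many cells near `u`: for some `i` with `j - 1 ≤ i < L` more than `kap i` cells meet the ball of radius
`2 (i + 1 - j) + 1` around `u` -/
def geom {κ : ℕ} (cell : Cell κ → Cell κ) (kap : ℕ → ℕ) (L j : ℕ) (u : Cell κ) : Prop :=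
  ∃ i, j ≤ i + 1 ∧ i < L ∧ kap i < (nc cell (2 * (i + 1 - j) + 1) u).card

/-- the caps -/
abbrev kap : ℕ → ℕ := kp (10 ^ 7) 2500

/-- **G**: the partition of the base cube -/
def S_G : Prop := ∀ κ L : ℕ, 10000 ≤ κ → 100 * (L + 1) ≤ κ → ∃ cell : Cell κ → Cell κ,
  (∀ u, (({v | cell v = cell u} : Finset (Cell κ)).card : ℝ) ≤ (337 / 192) ^ κ) ∧
  ∀ j, 1 ≤ j → j ≤ L → (({u | geom cell kap L j u} : Finset (Cell κ)).card : ℝ) ≤
    Real.exp (-(kap (j - 1) / 20000 : ℝ)) * 2 ^ κ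

/-- **T**: the label sets -/
def S_T : Prop := ∀ (X Ω : Type) [Fintype X] [Fintype Ω] [Nonempty X] [Nonempty Ω] (θ : ℝ) (ok : X → Ω → Prop)
  (L : ℕ), Fair θ ok → θ ≤ 1 / 10 ^ 19 → ∃ (W : ℕ → Finset Ω) (E : ℕ → ℕ → Finset X),
  TOut ok L kap (fun l => 1 / 4 * (1 - 8 * θ) ^ (kap l + kap (l + 1)))
    (fun j => 1 / 8 * (1 - 8 * θ) ^ (100 * kap (j + 1) + 100 * kap (j + 2)))
    (fun l => 2 * (1 / 2) ^ (12 * kap (l + 1))) W E

/-- **A**: a fair array.  `A` is filled bijectively by the positions `(i, s)`, such that every column `i` contains the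
right proportion of each set `Rs r`. -/
def S_A : Prop := ∀ (V I S 𝓡 : Type) [Fintype V] [Fintype I] [Fintype S] [Fintype 𝓡] [Nonempty I] [Nonempty S]
  (A : Finset V) (Rs : 𝓡 → V → Prop) (ξ : ℝ), 0 < ξ →
  A.card = Fintype.card I * Fintype.card S →
  2 * (Fintype.card 𝓡 : ℝ) * Fintype.card I * Real.exp (-(ξ ^ 2 * Fintype.card S / 4)) < 1 →
  ∃ f : I → S → {v // v ∈ A}, Function.Injective (fun x : I × S => f x.1 x.2) ∧
    ∀ r i, |(({s | Rs r (f i s)} : Finset S).card : ℝ) -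
      Fintype.card S * (((A.filter fun v => Rs r v).card : ℝ) / A.card)| ≤ ξ * Fintype.card S

/-- **H**: the matching.  `rare` odd vertices satisfy an expansion condition, for the others there are rows on the
quadruples of labels with nearly constant column sums. -/
def S_H : Prop := ∀ (V Y : Type) [Fintype V] [Fintype Y] (A Φ : Finset V) (_ : Φ ⊆ A) (M : ℝ) (_ : 0 < M)
  (_ : (Fintype.card V : ℝ) = 2 * M) (_ : (Fintype.card Y : ℝ) = M) (_ : (Φ.card : ℝ) = M)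
  (_ : (A.card : ℝ) = (1 + 1 / 16) * M) (C : Y → Finset V) (rare : Y → Prop)
  (row : Y → Slack.Lab A → ℝ)
  (_ : ∀ y w, 0 ≤ row y w) (_ : ∀ y, ¬ rare y → ∑ w, row y w = 1) (_ : ∀ y, rare y → ∀ w, row y w = 0)
  (_ : ∀ y w, row y w ≠ 0 → (w.1.1 : V) ∈ C y ∧ (w.1.2 : V) ∈ C y ∧ (w.2.1 : V) ∈ C y ∧ (w.2.2 : V) ∈ C y)
  (τ ρ e μ : ℝ) (_ : 0 < τ) (_ : 0 < ρ) (_ : 0 ≤ e) (_ : 1000 * e ≤ τ) (_ : 1000 * e ≤ ρ)
  (_ : 1 - 1 / 1000 ≤ μ) (_ : μ ≤ 1)
  (_ : ∀ v, τ * M ≤ (({y | v ∈ C y} : Finset Y).card : ℝ))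
  (_ : ∑ y ∈ univ.filter (fun y => ¬ rare y), (((C y).filter (· ∉ A)).card : ℝ)⁻¹ ^ 2 < (ρ * M)⁻¹)
  (_ : ∑ w, ((∑ y, row y w) - μ * M * (Fintype.card (Slack.Lab A) : ℝ)⁻¹) ^ 2 ≤
    (e * M) ^ 2 * (Fintype.card (Slack.Lab A) : ℝ)⁻¹)
  (_ : ∀ Z : Finset Y, (∀ y ∈ Z, rare y) → 1000 * Z.card ≤ ((Z.biUnion C).filter (· ∉ A)).card),
  ∃ g : Y → V, Function.Injective g ∧ ∀ y, g y ∈ C y ∧ g y ∉ Φ

end Pool.Agent.Lib.MP_33d9ce_co.Cst
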