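import Pool.Agent.Lib.MP_33d9ce_co.Cst.Ifc

/-!
# Spanning hypercubes, constant density: the matching
-/

set_option autoImplicit false

noncomputable section

open Classical Finset

namespace Pool.Agent.Lib.MP_33d9ce_co.Cst

/-- the elementary inequality -/
lemma H_elem (a b μ e z0 zr : ℝ) (ha : 0 ≤ a) (ha' : a ≤ 1 / 16) (hb : 0 ≤ b) (hb' : b ≤ 15 / 16)
    (he : 0 ≤ e) (hμ : 1 - 1 / 1000 ≤ μ) (hμ' : μ ≤ 1)
    (h0 : z0 ≤ μ * ((16 / 15 * b) ^ 2 * (16 / 17 * (1 + a)) ^ 2) + e)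
    (hr : zr ≤ b / 1000) (hr' : zr ≤ 1 - μ + e) (h : a + b < z0 + zr) :
    a + b ≤ 200 * e ∨ 1 - 200 * e ≤ a + b := by
  have hμ0 : 0 ≤ μ := by linarith
  by_cases hc : b ≤ 869 / 1000
  · left
    have h1 : (16 / 17 * (1 + a)) ^ 2 ≤ 1 := by nlinarith
    have h2 : (16 / 15 * b) ^ 2 * (16 / 17 * (1 + a)) ^ 2 ≤ (16 / 15 * b) ^ 2 := by
      nlinarith [sq_nonneg (16 / 15 * b)]
    have h3 : (0 : ℝ) ≤ (16 / 15 * b) ^ 2 * (16 / 17 * (1 + a)) ^ 2 := by positivity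
    have h4 : μ * ((16 / 15 * b) ^ 2 * (16 / 17 * (1 + a)) ^ 2) ≤ (16 / 15 * b) ^ 2 := by
      nlinarith
    have h5 : b ^ 2 ≤ 869 / 1000 * b := by nlinarith
    nlinarith
  · right
    push Not at hc
    obtain ⟨x, hx⟩ : ∃ x, x = 1 - 16 / 15 * b := ⟨_, rfl⟩
    obtain ⟨y, hy⟩ : ∃ y, y = 1 - 16 / 17 * (1 + a) := ⟨_, rfl⟩
    have hbx : 16 / 15 * b = 1 - x := by linarith
    have hay : 16 / 17 * (1 + a) = 1 - y := by linarith
    have hx0 : 0 ≤ x := by linarith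
    have hx1 : x ≤ 74 / 1000 := by linarith
    have hy0 : 0 ≤ y := by linarith
    have hy1 : y ≤ 59 / 1000 := by linarith
    rw [hbx, hay] at h0
    have hp0 : 0 ≤ (1 - x) * (1 - y) := mul_nonneg (by linarith) (by linarith)
    have hp : (1 - x) * (1 - y) ≤ 1 - 95 / 100 * (x + y) := by nlinarith
    have hq : (1 - x) ^ 2 * (1 - y) ^ 2 ≤ 1 - 17 / 10 * (x + y) := by
      have h1 : ((1 - x) * (1 - y)) ^ 2 ≤ (1 - 95 / 100 * (x + y)) ^ 2 :=
        pow_le_pow_left₀ hp0 hp 2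
      have h2 : (1 - 95 / 100 * (x + y)) ^ 2 ≤ 1 - 17 / 10 * (x + y) := by nlinarith
      calc (1 - x) ^ 2 * (1 - y) ^ 2 = ((1 - x) * (1 - y)) ^ 2 := by ring
        _ ≤ _ := h1.trans h2
    have hq' : μ * ((1 - x) ^ 2 * (1 - y) ^ 2) ≤ μ - 16 / 10 * (x + y) := by
      have h1 : μ * ((1 - x) ^ 2 * (1 - y) ^ 2) ≤ μ * (1 - 17 / 10 * (x + y)) :=
        mul_le_mul_of_nonneg_left hq hμ0
      nlinarith
    linarith

/-- Cauchy–Schwarz: a set of labels gets its share up to `e M` -/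
lemma H_cs {W : Type} [Fintype W] (K : W → ℝ) (c e' : ℝ) (he0 : 0 ≤ e')
    (hK : ∑ w, (K w - c) ^ 2 ≤ e' ^ 2 * (Fintype.card W : ℝ)⁻¹) (s : Finset W) :
    |∑ w ∈ s, K w - s.card * c| ≤ e' := by
  have hx : (s.card : ℝ) * (Fintype.card W : ℝ)⁻¹ ≤ 1 := by
    rcases isEmpty_or_nonempty W with hW | hW
    · have : s.card = 0 := by
        rw [Finset.card_eq_zero]; exact Finset.eq_empty_of_isEmpty s
      rw [this]; simp
    · have hc : (0 : ℝ) < Fintype.card W := by exact_mod_cast Fintype.card_pos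
      have hs : (s.card : ℝ) ≤ Fintype.card W := by exact_mod_cast Finset.card_le_univ s
      rw [← div_eq_mul_inv, div_le_one hc]; exact hs
  have h1 : (∑ w ∈ s, (K w - c)) ^ 2 ≤ e' ^ 2 := by
    calc (∑ w ∈ s, (K w - c)) ^ 2
        ≤ s.card * ∑ w ∈ s, (K w - c) ^ 2 := sq_sum_le_card_mul_sum_sq
      _ ≤ s.card * ∑ w, (K w - c) ^ 2 := by
          refine mul_le_mul_of_nonneg_left ?_ (Nat.cast_nonneg _)
          exact Finset.sum_le_sum_of_subset_of_nonneg (Finset.subset_univ _)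
                fun _ _ _ => sq_nonneg _
      _ ≤ s.card * (e' ^ 2 * (Fintype.card W : ℝ)⁻¹) :=
          mul_le_mul_of_nonneg_left hK (Nat.cast_nonneg _)
      _ = e' ^ 2 * ((s.card : ℝ) * (Fintype.card W : ℝ)⁻¹) := by ring
      _ ≤ e' ^ 2 * 1 := mul_le_mul_of_nonneg_left hx (sq_nonneg _)
      _ = _ := by ring
  have h2 : ∑ w ∈ s, (K w - c) = ∑ w ∈ s, K w - s.card * c := by
    rw [Finset.sum_sub_distrib, Finset.sum_const, nsmul_eq_mul]
  rw [h2] at h1
  exact abs_le_of_sq_le_sq h1 he0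

lemma H_card_sub {V : Type} (p : V → Prop) [DecidablePred p] [Fintype {v // p v}] (D : Finset V) :
    (univ.filter fun v : {v // p v} => (v : V) ∈ D).card = (D.filter p).card := by
  refine Finset.card_bij (fun v _ => (v : V)) ?_ ?_ ?_
  · intro v hv
    rw [Finset.mem_filter] at hv ⊢
    exact ⟨hv.2, v.2⟩
  · intro v _ w _ h
    exact Subtype.ext h
  · intro v hv
    rw [Finset.mem_filter] at hv
    exact ⟨⟨v, hv.2⟩, by rw [Finset.mem_filter]; exact ⟨Finset.mem_univ _, hv.1⟩, rfl⟩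

/-- the labels with all entries in `D` -/
def H_in {V : Type} [Fintype V] (A D : Finset V) : Finset (Slack.Lab A) :=
  univ.filter fun w => (w.1.1 : V) ∈ D ∧ (w.1.2 : V) ∈ D ∧ (w.2.1 : V) ∈ D ∧ (w.2.2 : V) ∈ D

lemma H_mem_in {V : Type} [Fintype V] (A D : Finset V) (w : Slack.Lab A) :
    w ∈ H_in A D ↔
      (w.1.1 : V) ∈ D ∧ (w.1.2 : V) ∈ D ∧ (w.2.1 : V) ∈ D ∧ (w.2.2 : V) ∈ D := by
  unfold H_in
  rw [Finset.mem_filter]
  exact ⟨fun h => h.2, fun h => ⟨Finset.mem_univ _, h⟩⟩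

lemma H_card_in {V : Type} [Fintype V] (A D : Finset V) :
    ((H_in A D).card : ℝ) =
      ((D.filter (· ∉ A)).card : ℝ) ^ 2 * ((D.filter (· ∈ A)).card : ℝ) ^ 2 := by
  have h3 : H_in A D =
      ((univ.filter fun v : {v // v ∉ A} => (v : V) ∈ D) ×ˢ
        (univ.filter fun v : {v // v ∉ A} => (v : V) ∈ D)) ×ˢ
      ((univ.filter fun v : {v // v ∈ A} => (v : V) ∈ D) ×ˢ
        (univ.filter fun v : {v // v ∈ A} => (v : V) ∈ D)) := by
    ext ⟨⟨b1, b2⟩, ⟨a1, a2⟩⟩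
    rw [H_mem_in, Finset.mem_product, Finset.mem_product, Finset.mem_product,
      Finset.mem_filter, Finset.mem_filter, Finset.mem_filter, Finset.mem_filter]
    have u1 := Finset.mem_univ b1
    have u2 := Finset.mem_univ b2
    have u3 := Finset.mem_univ a1
    have u4 := Finset.mem_univ a2
    tauto
  have eB := H_card_sub (fun v => v ∉ A) D
  have eA := H_card_sub (fun v => v ∈ A) D
  rw [h3, Finset.card_product, Finset.card_product, Finset.card_product, eB, eA]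
  push_cast
  ring

/-- Hall's condition -/
lemma H_cond {V Y : Type} [Fintype V] [Fintype Y] (A Φ : Finset V) (hΦ : Φ ⊆ A) (M : ℝ) (hM : 0 < M)
    (cV : (Fintype.card V : ℝ) = 2 * M) (cY : (Fintype.card Y : ℝ) = M) (cΦ : (Φ.card : ℝ) = M)
    (cA : (A.card : ℝ) = (1 + 1 / 16) * M) (C : Y → Finset V) (rare : Y → Prop)
    (row : Y → Slack.Lab A → ℝ)
    (r0 : ∀ y w, 0 ≤ row y w) (r1 : ∀ y, ¬ rare y → ∑ w, row y w = 1)
    (r2 : ∀ y, rare y → ∀ w, row y w = 0)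
    (r3 : ∀ y w, row y w ≠ 0 →
      (w.1.1 : V) ∈ C y ∧ (w.1.2 : V) ∈ C y ∧ (w.2.1 : V) ∈ C y ∧ (w.2.2 : V) ∈ C y)
    (τ ρ e μ : ℝ) (hτ : 0 < τ) (hρ : 0 < ρ) (he : 0 ≤ e) (heτ : 1000 * e ≤ τ) (heρ : 1000 * e ≤ ρ)
    (hμ : 1 - 1 / 1000 ≤ μ) (hμ' : μ ≤ 1)
    (h1 : ∀ v, τ * M ≤ (({y | v ∈ C y} : Finset Y).card : ℝ))
    (h2 : ∑ y ∈ univ.filter (fun y => ¬ rare y), (((C y).filter (· ∉ A)).card : ℝ)⁻¹ ^ 2 < (ρ * M)⁻¹)
    (h3 : ∑ w, ((∑ y, row y w) - μ * M * (Fintype.card (Slack.Lab A) : ℝ)⁻¹) ^ 2 ≤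
      (e * M) ^ 2 * (Fintype.card (Slack.Lab A) : ℝ)⁻¹)
    (h4 : ∀ Z : Finset Y, (∀ y ∈ Z, rare y) → 1000 * Z.card ≤ ((Z.biUnion C).filter (· ∉ A)).card)
    (Z : Finset Y) : Z.card ≤ ((Z.biUnion C).filter (· ∉ Φ)).card := by
  by_contra hcon
  push Not at hcon
  obtain ⟨D, hD⟩ : ∃ D, D = Z.biUnion C := ⟨_, rfl⟩
  rw [← hD] at hcon
  have hCD : ∀ y ∈ Z, C y ⊆ D := fun y hy => by
    rw [hD]; exact Finset.subset_biUnion_of_mem C hy
  obtain ⟨Z0, hZ0⟩ : ∃ Z0, Z0 = Z.filter (fun y => ¬ rare y) := ⟨_, rfl⟩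
  obtain ⟨Zr, hZr⟩ : ∃ Zr, Zr = Z.filter (fun y => rare y) := ⟨_, rfl⟩
  have hZZ : Zr.card + Z0.card = Z.card := by
    rw [hZ0, hZr]; exact Finset.card_filter_add_card_filter_not (s := Z) (fun y => rare y)
  have mem0 : ∀ y, y ∈ Z0 ↔ y ∈ Z ∧ ¬ rare y := fun y => by rw [hZ0, Finset.mem_filter]
  have memr : ∀ y, y ∈ Zr ↔ y ∈ Z ∧ rare y := fun y => by rw [hZr, Finset.mem_filter]
  -- cardinalities
  have cBt : (Fintype.card {v // v ∉ A} : ℝ) = 15 / 16 * M := by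
    have h1 : Fintype.card {v // v ∉ A} = (Aᶜ).card := by
      rw [Fintype.card_subtype]
      congr 1
      ext v; rw [Finset.mem_filter, Finset.mem_compl]
      exact ⟨fun h => h.2, fun h => ⟨Finset.mem_univ _, h⟩⟩
    rw [h1, Finset.card_compl, Nat.cast_sub (Finset.card_le_univ _), cV, cA]; ring
  have cAt : (Fintype.card {v // v ∈ A} : ℝ) = 17 / 16 * M := by
    rw [Fintype.card_coe, cA]; ring
  have cW : (Fintype.card (Slack.Lab A) : ℝ) = (15 / 16 * M) ^ 2 * (17 / 16 * M) ^ 2 := by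
    unfold Slack.Lab
    rw [Fintype.card_prod, Fintype.card_prod, Fintype.card_prod, Nat.cast_mul, Nat.cast_mul,
      Nat.cast_mul, cBt, cAt]
    ring
  have cW0 : (0 : ℝ) < (Fintype.card (Slack.Lab A) : ℝ) := by rw [cW]; positivity
  -- the parts of `D`
  obtain ⟨m, hm⟩ : ∃ m, m = (D.filter (· ∉ Φ)).card := ⟨_, rfl⟩
  obtain ⟨nB, hnB⟩ : ∃ nB, nB = (D.filter (· ∉ A)).card := ⟨_, rfl⟩
  obtain ⟨nA, hnA⟩ : ∃ nA, nA = ((D.filter (· ∈ A)).filter (· ∉ Φ)).card := ⟨_, rfl⟩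
  have hmAB : nA + nB = m := by
    have h := Finset.card_filter_add_card_filter_not (s := D.filter (· ∉ Φ)) (fun v => v ∈ A)
    have e1 : (D.filter (· ∉ Φ)).filter (fun v => v ∈ A) = (D.filter (· ∈ A)).filter (· ∉ Φ) := by
      ext v; simp only [Finset.mem_filter]; tauto
    have e2 : (D.filter (· ∉ Φ)).filter (fun v => ¬ v ∈ A) = D.filter (· ∉ A) := by
      ext v; simp only [Finset.mem_filter]
      constructor
      · rintro ⟨⟨a1, a2⟩, a3⟩; exact ⟨a1, a3⟩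
      · rintro ⟨a1, a3⟩; exact ⟨⟨a1, fun h => a3 (hΦ h)⟩, a3⟩
    rw [e1, e2, ← hnA, ← hnB, ← hm] at h
    exact h
  have hDA : ((D.filter (· ∈ A)).card : ℝ) ≤ M + nA := by
    have h := Finset.card_filter_add_card_filter_not (s := D.filter (· ∈ A)) (fun v => v ∈ Φ)
    have e1 : ((D.filter (· ∈ A)).filter (fun v => v ∈ Φ)).card ≤ Φ.card :=
      Finset.card_le_card fun v hv => (Finset.mem_filter.1 hv).2
    have e2 : ((D.filter (· ∈ A)).filter (fun v => ¬ v ∈ Φ)).card = nA := hnA.symm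
    have e3 : (D.filter (· ∈ A)).card ≤ Φ.card + nA := by omega
    rw [← cΦ]; exact_mod_cast e3
  have hnA1 : (nA : ℝ) ≤ 1 / 16 * M := by
    have : nA ≤ (A \ Φ).card := by
      rw [hnA]
      refine Finset.card_le_card (fun v hv => ?_)
      rw [Finset.mem_filter, Finset.mem_filter] at hv
      exact Finset.mem_sdiff.2 ⟨hv.1.2, hv.2⟩
    have h2 : (nA : ℝ) ≤ ((A \ Φ).card : ℝ) := by exact_mod_cast this
    rw [Finset.card_sdiff_of_subset hΦ, Nat.cast_sub (Finset.card_le_card hΦ), cΦ, cA] at h2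
    linarith
  have hnB1 : (nB : ℝ) ≤ 15 / 16 * M := by
    have : nB ≤ (Aᶜ).card := by
      rw [hnB]
      refine Finset.card_le_card (fun v hv => ?_)
      rw [Finset.mem_filter] at hv
      exact Finset.mem_compl.2 hv.2
    have h2 : (nB : ℝ) ≤ ((Aᶜ).card : ℝ) := by exact_mod_cast this
    rw [Finset.card_compl, Nat.cast_sub (Finset.card_le_univ _), cV, cA] at h2
    linarith
  have hmR : (nA : ℝ) + nB = m := by exact_mod_cast hmAB
  have hconR : (m : ℝ) < Zr.card + Z0.card := by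
    rw [← hm, ← hZZ] at hcon; exact_mod_cast hcon
  have hZM : (Z.card : ℝ) ≤ M := by rw [← cY]; exact_mod_cast Finset.card_le_univ Z
  have hZZR : (Zr.card : ℝ) + Z0.card = Z.card := by exact_mod_cast hZZ
  -- rare vertices
  have hrB : 1000 * Zr.card ≤ nB := by
    refine (h4 Zr fun y hy => ((memr y).1 hy).2).trans ?_
    rw [hnB]
    refine Finset.card_le_card fun v hv => ?_
    rw [Finset.mem_filter, Finset.mem_biUnion] at hv
    obtain ⟨⟨y, hy, hv1⟩, hv2⟩ := hv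
    exact Finset.mem_filter.2 ⟨hCD y ((memr y).1 hy).1 hv1, hv2⟩
  have hrBR : 1000 * (Zr.card : ℝ) ≤ nB := by exact_mod_cast hrB
  have hsumrow : ∀ w, ∑ y, row y w = ∑ y ∈ univ.filter (fun y => ¬ rare y), row y w := by
    intro w
    symm
    refine Finset.sum_subset (Finset.subset_univ _) fun y _ hy => ?_
    refine r2 y ?_ w
    by_contra hh
    exact hy (Finset.mem_filter.2 ⟨Finset.mem_univ _, hh⟩)
  have hnr : ∑ w, ∑ y, row y w = ((univ.filter (fun y => ¬ rare y)).card : ℝ) := by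
    calc ∑ w, ∑ y, row y w = ∑ w, ∑ y ∈ univ.filter (fun y => ¬ rare y), row y w :=
          Finset.sum_congr rfl fun w _ => hsumrow w
      _ = ∑ y ∈ univ.filter (fun y => ¬ rare y), ∑ w, row y w := Finset.sum_comm
      _ = ∑ y ∈ univ.filter (fun y => ¬ rare y), (1 : ℝ) :=
          Finset.sum_congr rfl fun y hy => r1 y (Finset.mem_filter.1 hy).2
      _ = _ := by rw [Finset.sum_const, nsmul_eq_mul, mul_one]
  have heM : 0 ≤ e * M := mul_nonneg he hM.le
  have hcs := H_cs (fun w => ∑ y, row y w) (μ * M * (Fintype.card (Slack.Lab A) : ℝ)⁻¹) (e * M) heM h3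
  have hr2 : (Zr.card : ℝ) ≤ (1 - μ + e) * M := by
    have g1 := (abs_le.1 (hcs univ)).1
    rw [hnr, Finset.card_univ] at g1
    have g2 : (Fintype.card (Slack.Lab A) : ℝ) * (μ * M * (Fintype.card (Slack.Lab A) : ℝ)⁻¹) = μ * M := by
      field_simp
    rw [g2] at g1
    have g3 : Zr.card + (univ.filter (fun y => ¬ rare y)).card ≤ Fintype.card Y := by
      have g4 := Finset.card_filter_add_card_filter_not (s := (univ : Finset Y)) (fun y => rare y)
      have g5 : Zr.card ≤ (univ.filter (fun y => rare y)).card :=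
        Finset.card_le_card fun y hy => Finset.mem_filter.2 ⟨Finset.mem_univ _, ((memr y).1 hy).2⟩
      rw [Finset.card_univ] at g4
      omega
    have g6 : (Zr.card : ℝ) + ((univ.filter (fun y => ¬ rare y)).card : ℝ) ≤ M := by
      rw [← cY]; exact_mod_cast g3
    nlinarith
  -- common vertices
  have h0 : (Z0.card : ℝ) ≤ ((H_in A D).card : ℝ) * (μ * M * (Fintype.card (Slack.Lab A) : ℝ)⁻¹) + e * M := by
    have g1 := (abs_le.1 (hcs (H_in A D))).2
    have g2 : (Z0.card : ℝ) ≤ ∑ w ∈ H_in A D, ∑ y, row y w := by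
      calc (Z0.card : ℝ) = ∑ y ∈ Z0, (1 : ℝ) := by rw [Finset.sum_const, nsmul_eq_mul, mul_one]
        _ = ∑ y ∈ Z0, ∑ w, row y w := Finset.sum_congr rfl fun y hy => (r1 y ((mem0 y).1 hy).2).symm
        _ = ∑ y ∈ Z0, ∑ w ∈ H_in A D, row y w := by
            refine Finset.sum_congr rfl fun y hy => ?_
            symm
            refine Finset.sum_subset (Finset.subset_univ _) fun w _ hw => ?_
            by_contra hne
            obtain ⟨a1, a2, a3, a4⟩ := r3 y w hne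
            have hs := hCD y ((mem0 y).1 hy).1
            exact hw ((H_mem_in A D w).2 ⟨hs a1, hs a2, hs a3, hs a4⟩)
        _ = ∑ w ∈ H_in A D, ∑ y ∈ Z0, row y w := Finset.sum_comm
        _ ≤ _ := Finset.sum_le_sum fun w _ =>
            Finset.sum_le_sum_of_subset_of_nonneg (Finset.subset_univ _) fun y _ _ => r0 y w
    linarith
  have hMne : M ≠ 0 := hM.ne'
  have h0' : (Z0.card : ℝ) / M ≤
      μ * ((16 / 15 * (nB / M)) ^ 2 * (16 / 17 * (1 + nA / M)) ^ 2) + e := by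
    rw [div_le_iff₀ hM]
    refine h0.trans ?_
    have g1 : ((H_in A D).card : ℝ) ≤ (nB : ℝ) ^ 2 * (M + nA) ^ 2 := by
      rw [H_card_in, ← hnB]
      have : ((D.filter (· ∈ A)).card : ℝ) ^ 2 ≤ (M + nA) ^ 2 :=
        pow_le_pow_left₀ (Nat.cast_nonneg _) hDA 2
      exact mul_le_mul_of_nonneg_left this (sq_nonneg _)
    have g2 : ((H_in A D).card : ℝ) * (μ * M * (Fintype.card (Slack.Lab A) : ℝ)⁻¹) ≤
        ((nB : ℝ) ^ 2 * (M + nA) ^ 2) * (μ * M * (Fintype.card (Slack.Lab A) : ℝ)⁻¹) := by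
      refine mul_le_mul_of_nonneg_right g1 ?_
      have : 0 ≤ μ := by linarith
      positivity
    have g3 : ((nB : ℝ) ^ 2 * (M + nA) ^ 2) * (μ * M * (Fintype.card (Slack.Lab A) : ℝ)⁻¹) =
        μ * ((16 / 15 * (nB / M)) ^ 2 * (16 / 17 * (1 + nA / M)) ^ 2) * M := by
      rw [cW]
      field_simp
    rw [add_mul]
    linarith
  have hel := H_elem (nA / M) (nB / M) μ e (Z0.card / M) (Zr.card / M) (by positivity)
    ((div_le_iff₀ hM).2 hnA1) (by positivity) ((div_le_iff₀ hM).2 hnB1) he hμ hμ' h0'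
    (by rw [div_le_iff₀ hM]; field_simp; linarith) ((div_le_iff₀ hM).2 hr2)
    (by rw [← add_div, ← add_div]; exact div_lt_div_of_pos_right (by linarith) hM)
  rw [← add_div, hmR, div_le_iff₀ hM, le_div_iff₀ hM] at hel
  rcases hel with hel | hel
  · -- few candidates
    have hsub : ∀ y ∈ Z0, ((C y).filter (· ∉ A)).card ≤ m := by
      intro y hy
      rw [hm]
      refine Finset.card_le_card fun v hv => ?_
      rw [Finset.mem_filter] at hv ⊢
      exact ⟨hCD y ((mem0 y).1 hy).1 hv.1, fun h => hv.2 (hΦ h)⟩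
    have hpos : ∀ y ∈ Z0, 0 < ((C y).filter (· ∉ A)).card := by
      intro y hy
      have : ∃ w, row y w ≠ 0 := by
        by_contra hc
        push Not at hc
        have := r1 y ((mem0 y).1 hy).2
        rw [Finset.sum_eq_zero (fun w _ => hc w)] at this
        exact zero_ne_one this
      obtain ⟨w, hw⟩ := this
      exact Finset.card_pos.2 ⟨w.1.1, Finset.mem_filter.2 ⟨(r3 y w hw).1, w.1.1.2⟩⟩
    have hZ0c : m + 1 ≤ Zr.card + Z0.card := by rw [← hm, ← hZZ] at hcon; omega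
    have hZ0p : 0 < Z0.card := by
      have : 1000 * Zr.card ≤ m := by omega
      omega
    obtain ⟨y0, hy0⟩ := Finset.card_pos.1 hZ0p
    have hm1 : 1 ≤ m := le_trans (hpos y0 hy0) (hsub y0 hy0)
    have hmpos : (0 : ℝ) < m := by exact_mod_cast hm1
    have hZ0m : 999 / 1000 * (m : ℝ) ≤ Z0.card := by
      have g1 : (nB : ℝ) ≤ m := by rw [← hmR]; linarith [Nat.cast_nonneg (α := ℝ) nA]
      linarith
    have hsum : 999 / 1000 * (m : ℝ)⁻¹ ≤
        ∑ y ∈ univ.filter (fun y => ¬ rare y), (((C y).filter (· ∉ A)).card : ℝ)⁻¹ ^ 2 := by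
      calc 999 / 1000 * (m : ℝ)⁻¹ = (999 / 1000 * (m : ℝ)) * ((m : ℝ)⁻¹) ^ 2 := by
            field_simp
        _ ≤ (Z0.card : ℝ) * ((m : ℝ)⁻¹) ^ 2 :=
            mul_le_mul_of_nonneg_right hZ0m (sq_nonneg _)
        _ = ∑ y ∈ Z0, ((m : ℝ)⁻¹) ^ 2 := by rw [Finset.sum_const, nsmul_eq_mul]
        _ ≤ ∑ y ∈ Z0, (((C y).filter (· ∉ A)).card : ℝ)⁻¹ ^ 2 := by
            refine Finset.sum_le_sum fun y hy => ?_
            have g3 : (0 : ℝ) < ((C y).filter (· ∉ A)).card := by exact_mod_cast hpos y hy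
            have g4 : (((C y).filter (· ∉ A)).card : ℝ) ≤ m := by exact_mod_cast hsub y hy
            exact pow_le_pow_left₀ (inv_nonneg.2 hmpos.le) (inv_anti₀ g3 g4) 2
        _ ≤ _ := Finset.sum_le_sum_of_subset_of_nonneg
            (fun y hy => Finset.mem_filter.2 ⟨Finset.mem_univ _, ((mem0 y).1 hy).2⟩)
            fun _ _ _ => sq_nonneg _
    have g5 : 999 / 1000 * (m : ℝ)⁻¹ < (ρ * M)⁻¹ := lt_of_le_of_lt hsum h2
    have hρM : 0 < ρ * M := mul_pos hρ hM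
    have g6 : 999 / 1000 * (ρ * M) < m := by
      have e1 : 999 / 1000 * (m : ℝ)⁻¹ * (m * (ρ * M)) < (ρ * M)⁻¹ * (m * (ρ * M)) :=
        mul_lt_mul_of_pos_right g5 (mul_pos hmpos hρM)
      have e2 : 999 / 1000 * (m : ℝ)⁻¹ * (m * (ρ * M)) = 999 / 1000 * (ρ * M) := by
        field_simp
      have e3 : (ρ * M)⁻¹ * (m * (ρ * M)) = m := by
        field_simp
      rwa [e2, e3] at e1
    have g7 : 1000 * e * M ≤ ρ * M := mul_le_mul_of_nonneg_right heρ hM.le
    nlinarith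
  · -- almost all candidates
    have hlt : m < Z.card := by rw [← hm] at hcon; exact hcon
    obtain ⟨v, hv⟩ : ∃ v, v ∉ Φ ∧ v ∉ D := by
      by_contra hc
      push Not at hc
      have g1 : (Φᶜ : Finset V).card ≤ m := by
        rw [hm]
        refine Finset.card_le_card fun v hv => ?_
        rw [Finset.mem_compl] at hv
        exact Finset.mem_filter.2 ⟨hc v hv, hv⟩
      have g2 : ((Φᶜ : Finset V).card : ℝ) = M := by
        rw [Finset.card_compl, Nat.cast_sub (Finset.card_le_univ _), cV, cΦ]; ring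
      have g3 : M ≤ m := by rw [← g2]; exact_mod_cast g1
      have g4 : (m : ℝ) < Z.card := by exact_mod_cast hlt
      linarith
    have g1 := h1 v
    have g2 : ({y | v ∈ C y} : Finset Y).card + Z.card ≤ Fintype.card Y := by
      rw [← Finset.card_union_of_disjoint]
      · exact Finset.card_le_univ _
      · rw [Finset.disjoint_left]
        intro y hy hyZ
        rw [Finset.mem_filter] at hy
        exact hv.2 (hCD y hyZ hy.2)
    have g3 : (({y | v ∈ C y} : Finset Y).card : ℝ) + Z.card ≤ M := by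
      rw [← cY]; exact_mod_cast g2
    have g4 : (m : ℝ) < Z.card := by exact_mod_cast hlt
    have g5 : 1000 * e * M ≤ τ * M := mul_le_mul_of_nonneg_right heτ hM.le
    have g6 : 0 < τ * M := mul_pos hτ hM
    nlinarith

theorem p_H : S_H := by
  intro V Y _ _ A Φ hΦ M hM cV cY cΦ cA C rare row r0 r1 r2 r3 τ ρ e μ hτ hρ he heτ heρ hμ hμ' h1 h2 h3 h4
  obtain ⟨g, hg, hgC⟩ := (Finset.all_card_le_biUnion_card_iff_exists_injective
    (fun y : Y => (C y).filter (· ∉ Φ))).1 (by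
      intro Z
      refine (H_cond A Φ hΦ M hM cV cY cΦ cA C rare row r0 r1 r2 r3 τ ρ e μ hτ hρ he heτ heρ hμ hμ'
        h1 h2 h3 h4 Z).trans (Finset.card_le_card fun v hv => ?_)
      rw [Finset.mem_filter, Finset.mem_biUnion] at hv
      obtain ⟨⟨y, hy, hv1⟩, hv2⟩ := hv
      exact Finset.mem_biUnion.2 ⟨y, hy, Finset.mem_filter.2 ⟨hv1, hv2⟩⟩)
  exact ⟨g, hg, fun y => Finset.mem_filter.1 (hgC y)⟩

end Pool.Agent.Lib.MP_33d9ce_co.Cst
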