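import Pool.Agent.Lib.MP_33d9ce_co.Cst.StmM

/-!
# Spanning hypercubes, constant density: second moments of column sums
-/

set_option autoImplicit false

noncomputable section

open Classical Finset

namespace Pool.Agent.Lib.MP_33d9ce_co.Cst

/-- the double sum over the near pairs -/
private theorem L2_near {Y : Type} [Fintype Y] (near : Y → Y → Prop) (Δ : ℝ) (q : Y → ℝ)
    (hq : ∀ y, 0 ≤ q y) (hsym : ∀ y y', near y y' → near y' y)
    (hΔ : ∀ y, (({y' | near y y'} : Finset Y).card : ℝ) ≤ Δ) :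
    ∑ y, ∑ y', (if near y y' then (q y + q y') / 2 else 0) ≤ Δ * ∑ y, q y := by
  have h1 : ∑ y, ∑ y', (if near y y' then q y / 2 else 0) ≤ Δ / 2 * ∑ y, q y := by
    rw [Finset.mul_sum]
    refine Finset.sum_le_sum fun y _ => ?_
    rw [← Finset.sum_filter, Finset.sum_const, nsmul_eq_mul]
    have h := mul_le_mul_of_nonneg_right (hΔ y) (div_nonneg (hq y) (by norm_num : (0 : ℝ) ≤ 2))
    linarith
  have h2 : ∑ y, ∑ y', (if near y y' then q y' / 2 else 0) =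
      ∑ y, ∑ y', (if near y y' then q y / 2 else 0) := by
    rw [Finset.sum_comm]
    refine Finset.sum_congr rfl fun y _ => Finset.sum_congr rfl fun y' _ => ?_
    by_cases h : near y y'
    · rw [if_pos h, if_pos (hsym _ _ h)]
    · rw [if_neg h, if_neg fun h' => h (hsym _ _ h')]
  have h3 : ∑ y, ∑ y', (if near y y' then (q y + q y') / 2 else 0) =
      ∑ y, ∑ y', (if near y y' then q y / 2 else 0) +
        ∑ y, ∑ y', (if near y y' then q y' / 2 else 0) := by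
    rw [← Finset.sum_add_distrib]
    refine Finset.sum_congr rfl fun y _ => ?_
    rw [← Finset.sum_add_distrib]
    refine Finset.sum_congr rfl fun y' _ => ?_
    split_ifs
    · ring
    · ring
  rw [h3, h2]
  linarith

theorem p_L2 (h1 : S_lin) : S_L2 := by
  intro P I S Y T Ξ V _ _ _ _ _ _ _ _ D good μ hμ Φ near Δ h0 hsym hΔ hfar
  obtain ⟨hadd, hmul, hsum, hmono, hconst, -⟩ := h1 P I S Y T Ξ D good μ hμ
  have hnn : ∀ F : Ξ → (I → P → S) → ℝ, (∀ ξ σ, 0 ≤ F ξ σ) → 0 ≤ Ex μ F := by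
    intro F hF
    have := hmono (fun _ _ => 0) F (fun ξ σ _ => hF ξ σ)
    rwa [hconst] at this
  have key : ∀ v, Ex μ (fun ξ σ => ((∑ y, Φ y v ξ σ) - ∑ y, Ex μ (Φ y v)) ^ 2) ≤
      Δ * ∑ y, Ex μ (fun ξ σ => Φ y v ξ σ ^ 2) := by
    intro v
    have hA : Ex μ (fun ξ σ => ∑ y, Φ y v ξ σ) = ∑ y, Ex μ (Φ y v) :=
      hsum Y univ (fun y => Φ y v)
    have hA2 : Ex μ (fun ξ σ => ∑ y, ∑ y', Φ y v ξ σ * Φ y' v ξ σ) =
        ∑ y, ∑ y', Ex μ (fun ξ σ => Φ y v ξ σ * Φ y' v ξ σ) := by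
      rw [hsum Y univ (fun y ξ σ => ∑ y', Φ y v ξ σ * Φ y' v ξ σ)]
      refine sum_congr rfl fun y _ => ?_
      exact hsum Y univ (fun y' ξ σ => Φ y v ξ σ * Φ y' v ξ σ)
    obtain ⟨B, hB⟩ : ∃ B, B = ∑ y, Ex μ (Φ y v) := ⟨_, rfl⟩
    have hexp : Ex μ (fun ξ σ => ((∑ y, Φ y v ξ σ) - B) ^ 2) =
        (∑ y, ∑ y', Ex μ (fun ξ σ => Φ y v ξ σ * Φ y' v ξ σ)) - B ^ 2 := by
      have e1 : (fun (ξ : Ξ) (σ : I → P → S) => ((∑ y, Φ y v ξ σ) - B) ^ 2) =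
          fun ξ σ => (∑ y, ∑ y', Φ y v ξ σ * Φ y' v ξ σ) +
            ((-2 * B) * (∑ y, Φ y v ξ σ) + B ^ 2) := by
        funext ξ σ
        rw [← Finset.sum_mul_sum]
        ring
      rw [e1, hadd, hadd, hmul, hA, hconst, hA2, ← hB]
      ring
    rw [← hB, hexp]
    have hB2 : B ^ 2 = ∑ y, ∑ y', Ex μ (Φ y v) * Ex μ (Φ y' v) := by
      rw [← Finset.sum_mul_sum, ← hB]
      ring
    rw [hB2, ← Finset.sum_sub_distrib]
    simp only [← Finset.sum_sub_distrib]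
    refine le_trans ?_ (L2_near near Δ (fun y => Ex μ (fun ξ σ => Φ y v ξ σ ^ 2))
      (fun y => hnn _ fun ξ σ => sq_nonneg _) hsym hΔ)
    refine Finset.sum_le_sum fun y _ => Finset.sum_le_sum fun y' _ => ?_
    by_cases hn : near y y'
    · rw [if_pos hn]
      have f1 : 0 ≤ Ex μ (Φ y v) * Ex μ (Φ y' v) :=
        mul_nonneg (hnn _ (h0 y v)) (hnn _ (h0 y' v))
      have f2 : Ex μ (fun ξ σ => Φ y v ξ σ * Φ y' v ξ σ) ≤
          Ex μ (fun ξ σ => (1 / 2 : ℝ) * (Φ y v ξ σ ^ 2 + Φ y' v ξ σ ^ 2)) := by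
        refine hmono _ _ fun ξ σ _ => ?_
        nlinarith [sq_nonneg (Φ y v ξ σ - Φ y' v ξ σ)]
      rw [hmul, hadd] at f2
      linarith
    · rw [if_neg hn, hfar y y' hn v, sub_self]
  rw [hsum V univ (fun v ξ σ => ((∑ y, Φ y v ξ σ) - ∑ y, Ex μ (Φ y v)) ^ 2)]
  calc ∑ v, Ex μ (fun ξ σ => ((∑ y, Φ y v ξ σ) - ∑ y, Ex μ (Φ y v)) ^ 2)
      ≤ ∑ v, Δ * ∑ y, Ex μ (fun ξ σ => Φ y v ξ σ ^ 2) := Finset.sum_le_sum fun v _ => key v
    _ = Δ * ∑ y, ∑ v, Ex μ (fun ξ σ => Φ y v ξ σ ^ 2) := by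
        rw [← Finset.mul_sum, Finset.sum_comm]

end Pool.Agent.Lib.MP_33d9ce_co.Cst
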