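import Pool.Agent.Lib.MP_33d9ce_co.Cst.StmD

set_option autoImplicit false

noncomputable section

open Classical Finset

namespace Pool.Agent.Lib.MP_33d9ce_co.Cst

open Slack (Cell Ev Od Dir nbr shift Lab)

private theorem arr_enum {Ω : Type} (T : Finset Ω) (N : ℕ) (h : T.card ≤ N) :
    ∃ c : Fin N → Option Ω, ∀ ω, ω ∈ T ↔ ∃ i, c i = some ω := by
  refine ⟨fun i => if hi : i.1 < T.card then some (T.equivFin.symm ⟨i.1, hi⟩).1 else none, fun ω => ?_⟩
  constructor
  · intro hω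
    refine ⟨⟨(T.equivFin ⟨ω, hω⟩).1, lt_of_lt_of_le (T.equivFin ⟨ω, hω⟩).2 h⟩, ?_⟩
    dsimp only
    rw [dif_pos (T.equivFin ⟨ω, hω⟩).2]
    simp
  · rintro ⟨i, hi⟩
    dsimp only at hi
    by_cases hc : i.1 < T.card
    · rw [dif_pos hc, Option.some.injEq] at hi
      rw [← hi]
      exact (T.equivFin.symm ⟨i.1, hc⟩).2
    · rw [dif_neg hc] at hi
      exact absurd hi (by simp)

/-- the restricted sets as subsets of `V` -/
private def arr_R {V : Type} (adj : V → V → Prop) (A : Finset V) {aa : ℕ} (E : Finset {v // v ∈ A}) {N : ℕ}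
    (c : Fin N → Option (Fin aa → {v // v ∉ A})) (a : V) : Prop :=
  ∃ h : a ∈ A, (⟨a, h⟩ : {v // v ∈ A}) ∈ E ∧ ∀ i ω, c i = some ω → okb adj A ⟨a, h⟩ ω

/-- the vertices of `E` compatible with all labels in `T` -/
private def arr_T {V : Type} (adj : V → V → Prop) (A : Finset V) {aa : ℕ} (E : Finset {v // v ∈ A})
    (T : Finset (Fin aa → {v // v ∉ A})) : Finset {v // v ∈ A} :=
  E.filter (fun x => ∀ ω ∈ T, okb adj A x ω)

private theorem arr_T_mem {V : Type} (adj : V → V → Prop) (A : Finset V) {aa : ℕ} (E : Finset {v // v ∈ A})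
    (T : Finset (Fin aa → {v // v ∉ A})) (x : {v // v ∈ A}) :
    x ∈ arr_T adj A E T ↔ x ∈ E ∧ ∀ ω ∈ T, okb adj A x ω := by
  unfold arr_T
  rw [mem_filter]

private theorem arr_R_iff {V : Type} (adj : V → V → Prop) (A : Finset V) {aa : ℕ} (E : Finset {v // v ∈ A}) {N : ℕ}
    (c : Fin N → Option (Fin aa → {v // v ∉ A})) (T : Finset (Fin aa → {v // v ∉ A}))
    (hc : ∀ ω, ω ∈ T ↔ ∃ i, c i = some ω) (x : {v // v ∈ A}) :
    arr_R adj A E c x.1 ↔ x ∈ arr_T adj A E T := by
  rw [arr_T_mem]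
  constructor
  · rintro ⟨h, h1, h2⟩
    refine ⟨h1, fun ω hω => ?_⟩
    obtain ⟨i, hi⟩ := (hc ω).1 hω
    exact h2 i ω hi
  · rintro ⟨h1, h2⟩
    exact ⟨x.2, h1, fun i ω hi => h2 ω ((hc ω).2 ⟨i, hi⟩)⟩

private theorem arr_R_card {V : Type} (adj : V → V → Prop) (A : Finset V) {aa : ℕ} (E : Finset {v // v ∈ A}) {N : ℕ}
    (c : Fin N → Option (Fin aa → {v // v ∉ A})) (T : Finset (Fin aa → {v // v ∉ A}))
    (hc : ∀ ω, ω ∈ T ↔ ∃ i, c i = some ω) :
    (A.filter fun a => arr_R adj A E c a).card = (arr_T adj A E T).card := by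
  rw [← card_map (Function.Embedding.subtype fun v => v ∈ A)]
  congr 1
  ext a
  simp only [mem_filter, mem_map, Function.Embedding.coe_subtype]
  constructor
  · rintro ⟨h1, h2⟩
    exact ⟨⟨a, h1⟩, (arr_R_iff adj A E c T hc ⟨a, h1⟩).1 h2, rfl⟩
  · rintro ⟨x, hx, rfl⟩
    exact ⟨x.2, (arr_R_iff adj A E c T hc x).2 hx⟩

theorem p_arr (h1 : S_A) : S_arr := by
  intro κ L aa V I S _ _ _ _ _ adj A E x hx hA hexp
  let Ω : Type := Fin aa → {v // v ∉ A}
  let 𝓡 : Type := V ⊕ (Fin (L + 1) × Fin (κ + 2) × (Fin (2 * (κ + 1)) → Option Ω))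
  let Rs : 𝓡 → V → Prop := fun r a => match r with
    | Sum.inl v => ¬ adj a v
    | Sum.inr (l, k, c) => arr_R adj A (E l k) c a
  have hΩc : Fintype.card Ω ≤ Fintype.card V ^ aa := by
    show Fintype.card (Fin aa → {v // v ∉ A}) ≤ _
    rw [Fintype.card_fun, Fintype.card_fin]
    exact Nat.pow_le_pow_left (Fintype.card_subtype_le _) _
  have hRc : (Fintype.card 𝓡 : ℝ) ≤
      (Fintype.card V : ℝ) + (L + 1) * (κ + 2) * ((Fintype.card V : ℝ) ^ aa + 1) ^ (2 * (κ + 1)) := by
    have h2 : Fintype.card 𝓡 = Fintype.card V + (L + 1) * ((κ + 2) * (Fintype.card Ω + 1) ^ (2 * (κ + 1))) := by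
      show Fintype.card (V ⊕ (Fin (L + 1) × Fin (κ + 2) × (Fin (2 * (κ + 1)) → Option Ω))) = _
      rw [Fintype.card_sum, Fintype.card_prod, Fintype.card_prod, Fintype.card_fun, Fintype.card_option,
        Fintype.card_fin, Fintype.card_fin, Fintype.card_fin]
    rw [h2]
    push_cast
    have h3 : (Fintype.card Ω : ℝ) ≤ (Fintype.card V : ℝ) ^ aa := by exact_mod_cast hΩc
    have h4 : ((Fintype.card Ω : ℝ) + 1) ^ (2 * (κ + 1)) ≤ ((Fintype.card V : ℝ) ^ aa + 1) ^ (2 * (κ + 1)) :=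
      pow_le_pow_left₀ (by positivity) (by linarith) _
    have h5 : (0 : ℝ) ≤ (L + 1) * (κ + 2) := by positivity
    nlinarith [mul_le_mul_of_nonneg_left h4 h5]
  have hexp' : 2 * (Fintype.card 𝓡 : ℝ) * Fintype.card I * Real.exp (-(x ^ 2 * Fintype.card S / 4)) < 1 := by
    refine lt_of_le_of_lt ?_ hexp
    refine mul_le_mul_of_nonneg_right ?_ (Real.exp_pos _).le
    refine mul_le_mul_of_nonneg_right ?_ (by positivity)
    linarith
  obtain ⟨f, hf, hf2⟩ := h1 V I S 𝓡 A Rs x hx hA hexp'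
  refine ⟨f, hf, fun v i => by
    have h := hf2 (Sum.inl v) i
    convert h, ?_⟩
  have hAc : (A.card : ℝ) = Fintype.card {v // v ∈ A} := by
    rw [Fintype.card_coe]
  have hgen : ∀ (i : I) (l k : ℕ) (T : Finset Ω), l ≤ L → k ≤ κ + 1 → T.card ≤ 2 * (κ + 1) →
      |(({s | f i s ∈ arr_T adj A (E l k) T} : Finset S).card : ℝ) -
        Fintype.card S * (((arr_T adj A (E l k) T).card : ℝ) /
          Fintype.card {v // v ∈ A})| ≤ x * Fintype.card S := by
    intro i l k T hl hk hT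
    obtain ⟨c, hc⟩ := arr_enum T _ hT
    have h2 := hf2 (Sum.inr (⟨l, Nat.lt_succ_of_le hl⟩, ⟨k, by omega⟩, c)) i
    have h3 : (A.filter fun v => Rs (Sum.inr (⟨l, Nat.lt_succ_of_le hl⟩, ⟨k, by omega⟩, c)) v).card =
        (arr_T adj A (E l k) T).card := by
      rw [← arr_R_card adj A (E l k) c T hc]
    have h4 : (univ.filter fun s : S => Rs (Sum.inr (⟨l, Nat.lt_succ_of_le hl⟩, ⟨k, by omega⟩, c)) (f i s).1) =
        univ.filter fun s : S => f i s ∈ arr_T adj A (E l k) T := by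
      ext s
      rw [mem_filter, mem_filter]
      exact and_congr_right fun _ => arr_R_iff adj A (E l k) c T hc (f i s)
    rw [h3, h4, hAc] at h2
    exact h2
  intro i st w l hst hl
  constructor
  · have hT : (st.image (fun q => w q (l - 1)) ∪ st.image (fun q => w q l)).card ≤ 2 * (κ + 1) := by
      refine (card_union_le _ _).trans ?_
      have := card_image_le (s := st) (f := fun q => w q (l - 1))
      have := card_image_le (s := st) (f := fun q => w q l)
      omega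
    have h2 := hgen i l st.card _ hl hst hT
    have h3 : rr (okb adj A) E st w l = arr_T adj A (E l st.card)
        (st.image (fun q => w q (l - 1)) ∪ st.image (fun q => w q l)) := by
      ext x
      simp only [rr, arr_T_mem, mem_filter, mem_union, mem_image]
      refine and_congr_right fun _ => ⟨?_, ?_⟩
      · rintro h ω (⟨q, hq, rfl⟩ | ⟨q, hq, rfl⟩)
        · exact (h q hq).1
        · exact (h q hq).2
      · intro h q hq
        exact ⟨h _ (Or.inl ⟨q, hq, rfl⟩), h _ (Or.inr ⟨q, hq, rfl⟩)⟩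
    rw [← h3] at h2
    exact h2
  · intro z
    have hT : ((st.filter fun q => (q, l - 1) ≠ z).image (fun q => w q (l - 1)) ∪
        (st.filter fun q => (q, l) ≠ z).image (fun q => w q l)).card ≤ 2 * (κ + 1) := by
      refine (card_union_le _ _).trans ?_
      have := card_image_le (s := st.filter fun q => (q, l - 1) ≠ z) (f := fun q => w q (l - 1))
      have := card_image_le (s := st.filter fun q => (q, l) ≠ z) (f := fun q => w q l)
      have := card_filter_le st fun q => (q, l - 1) ≠ z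
      have := card_filter_le st fun q => (q, l) ≠ z
      omega
    have h2 := hgen i l st.card _ hl hst hT
    have h3 : rrm (okb adj A) E st w l z = arr_T adj A (E l st.card)
        ((st.filter fun q => (q, l - 1) ≠ z).image (fun q => w q (l - 1)) ∪
        (st.filter fun q => (q, l) ≠ z).image (fun q => w q l)) := by
      ext x
      simp only [rrm, arr_T_mem, mem_filter, mem_union, mem_image]
      refine and_congr_right fun _ => ⟨?_, ?_⟩
      · rintro h ω (⟨q, ⟨hq, hz⟩, rfl⟩ | ⟨q, ⟨hq, hz⟩, rfl⟩)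
        · exact (h q hq).1 hz
        · exact (h q hq).2 hz
      · intro h q hq
        exact ⟨fun hz => h _ (Or.inl ⟨q, ⟨hq, hz⟩, rfl⟩), fun hz => h _ (Or.inr ⟨q, ⟨hq, hz⟩, rfl⟩)⟩
    rw [← h3] at h2
    exact h2

end Pool.Agent.Lib.MP_33d9ce_co.Cst
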