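import Pool.Agent.Lib.MP_33d9ce_co.Cst.StmM

/-!
# Spanning hypercubes, constant density: the exact expectation of the posterior
-/

set_option autoImplicit false

noncomputable section

open Classical Finset

namespace Pool.Agent.Lib.MP_33d9ce_co.Cst

section

variable {Ξ C A : Type} [Fintype Ξ] [Fintype C] [Fintype A] {lw : Ξ → A → ℝ} {cl : Ξ → Prop}
  {up : Ξ → C → Ξ}

private theorem bayes_pw_nonneg (h0 : ∀ ξ a, 0 ≤ lw ξ a) (ξ : Ξ) (a : A) (c : C) :
    0 ≤ pw lw cl up ξ a c := by
  unfold pw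
  split_ifs
  · exact h0 _ _
  · exact le_rfl

private theorem bayes_pw_up (hup : Up up) (ξ : Ξ) (a : A) (c c' : C) :
    pw lw cl up (up ξ c) a c' = pw lw cl up ξ a c' := by
  unfold pw
  rw [hup.idem]

private theorem bayes_post_up (hup : Up up) (ξ : Ξ) (a : A) (c c' : C) :
    post lw cl up (up ξ c) a c' = post lw cl up ξ a c' := by
  unfold post
  simp only [bayes_pw_up hup]

private theorem bayes_sum_mul (h0 : ∀ ξ a, 0 ≤ lw ξ a) (ξ : Ξ) (a : A) (c : C) :
    (∑ c', pw lw cl up ξ a c') * post lw cl up ξ a c = pw lw cl up ξ a c := by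
  unfold post
  by_cases hZ : ∑ c', pw lw cl up ξ a c' = 0
  · have h1 := (Finset.sum_eq_zero_iff_of_nonneg
      (fun c' _ => bayes_pw_nonneg (cl := cl) (up := up) h0 ξ a c')).1 hZ c (Finset.mem_univ c)
    rw [h1, hZ]
    simp
  · rw [mul_div_assoc']
    rw [mul_comm, mul_div_assoc, div_self hZ, mul_one]

private theorem bayes_sum_pw (h1 : ∀ ξ, ∑ a, lw ξ a = 1) (ξ : Ξ) (c : C) :
    ∑ a, pw lw cl up ξ a c = if cl (up ξ c) then 1 else 0 := by
  unfold pw
  split_ifs
  · exact h1 _
  · simp

end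

theorem p_bayes : S_bayes := by
  intro Ξ C A _ _ _ lw cl up hup h0 h1
  refine ⟨?_, ?_, ?_, ?_⟩
  · intro ξ a c
    unfold post
    exact div_nonneg (bayes_pw_nonneg h0 ξ a c)
      (Finset.sum_nonneg fun c' _ => bayes_pw_nonneg h0 ξ a c')
  · intro ξ a
    unfold post
    rw [← Finset.sum_div]
    exact div_self_le_one _
  · intro ξ a hcl hne
    unfold post
    rw [← Finset.sum_div]
    refine div_self ?_
    obtain ⟨c, hc⟩ := hup.real ξ
    have hpos : 0 < pw lw cl up ξ a c := by
      unfold pw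
      rw [hc, if_pos hcl]
      exact lt_of_le_of_ne (h0 ξ a) (Ne.symm hne)
    have hle : pw lw cl up ξ a c ≤ ∑ c', pw lw cl up ξ a c' :=
      Finset.single_le_sum (f := fun c' => pw lw cl up ξ a c')
        (fun c' _ => bayes_pw_nonneg h0 ξ a c') (Finset.mem_univ c)
    exact (lt_of_lt_of_le hpos hle).ne'
  · intro c
    rw [hup.avg]
    have key : ∀ ξ, ∑ c', (if cl (up ξ c') then
        ∑ a, lw (up ξ c') a * post lw cl up (up ξ c') a c else 0) =
        if cl (up ξ c) then 1 else 0 := by
      intro ξ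
      rw [← bayes_sum_pw h1 ξ c]
      have h2 : ∀ c', (if cl (up ξ c') then
          ∑ a, lw (up ξ c') a * post lw cl up (up ξ c') a c else 0) =
          ∑ a, pw lw cl up ξ a c' * post lw cl up ξ a c := by
        intro c'
        simp only [bayes_post_up hup]
        by_cases h : cl (up ξ c')
        · simp only [pw, if_pos h]
        · simp only [pw, if_neg h, zero_mul, Finset.sum_const_zero]
      simp only [h2]
      rw [Finset.sum_comm]
      refine Finset.sum_congr rfl fun a _ => ?_
      rw [← Finset.sum_mul]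
      exact bayes_sum_mul h0 ξ a c
    rw [Finset.sum_congr rfl fun ξ _ => key ξ]
    rw [Finset.sum_ite]
    simp

end Pool.Agent.Lib.MP_33d9ce_co.Cst
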