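import Pool.Agent.Lib.MP_33d9ce_co.Cst.StmM

/-!
# The posterior has rarely large atoms
-/

set_option autoImplicit false

noncomputable section

open Classical Finset

namespace Pool.Agent.Lib.MP_33d9ce_co.Cst

section

variable {Ξ C A : Type} [Fintype Ξ] [Fintype C] [Fintype A] {lw : Ξ → A → ℝ} {cl : Ξ → Prop} {up : Ξ → C → Ξ}

theorem big_pw (h : Up up) (ξ : Ξ) (c c' : C) (a : A) : pw lw cl up (up ξ c) a c' = pw lw cl up ξ a c' := by
  simp [pw, h.idem]

theorem big_post (h : Up up) (ξ : Ξ) (c c' : C) (a : A) : post lw cl up (up ξ c) a c' = post lw cl up ξ a c' := by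
  simp [post, big_pw h]

theorem big_avg (h : Up up) (b : Ξ → A → ℝ) (hb : ∀ ξ c a, b (up ξ c) a = b ξ a) :
    (Fintype.card C : ℝ) * ∑ ξ, (if cl ξ then ∑ a, lw ξ a * b ξ a else 0) =
      ∑ ξ, ∑ a, (∑ c, pw lw cl up ξ a c) * b ξ a := by
  rw [h.avg]
  refine sum_congr rfl fun ξ _ => ?_
  simp only [sum_mul]
  rw [sum_comm]
  refine sum_congr rfl fun c _ => ?_
  by_cases hc : cl (up ξ c)
  · simp [hc, pw, hb]
  · simp [hc, pw]

theorem big_pw_nonneg (hl : ∀ ξ a, 0 ≤ lw ξ a) (ξ : Ξ) (a : A) (c : C) : 0 ≤ pw lw cl up ξ a c := by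
  unfold pw
  split_ifs
  · exact hl _ _
  · exact le_rfl

theorem big_pw_le {ξ : Ξ} {hat : A → ℝ} (h0 : ∀ a, 0 ≤ hat a) (h1 : ∀ c, cl (up ξ c) → ∀ a, lw (up ξ c) a ≤ hat a)
    (a : A) (c : C) : pw lw cl up ξ a c ≤ hat a := by
  unfold pw
  split_ifs with hc
  · exact h1 c hc a
  · exact h0 a

end

theorem p_big (_h1 : S_bayes) : S_big := by
  intro Ξ C A _ _ _ _ lw cl up hup hl _ Λ z hz hhat
  have hC : (0 : ℝ) < Fintype.card C := by exact_mod_cast Fintype.card_pos
  set b : Ξ → A → ℝ := fun ξ a => if ∃ c, 1 < post lw cl up ξ a c * (z * Fintype.card C) then 1 else 0 with hbdef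
  have hb : ∀ ξ c a, b (up ξ c) a = b ξ a := by
    intro ξ c a
    simp only [hbdef, big_post hup]
  have key := big_avg (lw := lw) (cl := cl) hup b hb
  have hle : ∑ ξ, ∑ a, (∑ c, pw lw cl up ξ a c) * b ξ a ≤ ∑ _ξ : Ξ, z * Fintype.card C * Λ := by
    refine sum_le_sum fun ξ _ => ?_
    obtain ⟨hat, h0, hs, hm⟩ := hhat ξ
    have hterm : ∀ a, (∑ c, pw lw cl up ξ a c) * b ξ a ≤ z * Fintype.card C * hat a := by
      intro a
      by_cases hba : ∃ c, 1 < post lw cl up ξ a c * (z * Fintype.card C)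
      · have hb1 : b ξ a = 1 := if_pos hba
        obtain ⟨c, hc⟩ := hba
        have hZ0 : 0 ≤ ∑ c', pw lw cl up ξ a c' := sum_nonneg fun c' _ => big_pw_nonneg hl ξ a c'
        rcases hZ0.eq_or_lt with hZ | hZ
        · rw [← hZ, zero_mul]
          exact mul_nonneg (mul_nonneg hz hC.le) (h0 a)
        · rw [hb1, mul_one]
          have h2 : 1 < pw lw cl up ξ a c / (∑ c', pw lw cl up ξ a c') * (z * Fintype.card C) := hc
          rw [div_mul_eq_mul_div, one_lt_div hZ] at h2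
          have h3 : pw lw cl up ξ a c * (z * Fintype.card C) ≤ hat a * (z * Fintype.card C) :=
            mul_le_mul_of_nonneg_right (big_pw_le h0 hm a c) (mul_nonneg hz hC.le)
          calc (∑ c', pw lw cl up ξ a c') ≤ pw lw cl up ξ a c * (z * Fintype.card C) := h2.le
            _ ≤ hat a * (z * Fintype.card C) := h3
            _ = z * Fintype.card C * hat a := by ring
      · have hb0 : b ξ a = 0 := if_neg hba
        rw [hb0, mul_zero]
        exact mul_nonneg (mul_nonneg hz hC.le) (h0 a)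
    calc ∑ a, (∑ c, pw lw cl up ξ a c) * b ξ a ≤ ∑ a, z * Fintype.card C * hat a := sum_le_sum fun a _ => hterm a
      _ = z * Fintype.card C * ∑ a, hat a := by rw [mul_sum]
      _ ≤ z * Fintype.card C * Λ := mul_le_mul_of_nonneg_left hs (mul_nonneg hz hC.le)
  rw [← key] at hle
  simp only [sum_const, card_univ, nsmul_eq_mul] at hle
  have h5 : (Fintype.card C : ℝ) * ∑ ξ, (if cl ξ then ∑ a, lw ξ a * b ξ a else 0) ≤
      Fintype.card C * (z * Λ * Fintype.card Ξ) := by
    calc (Fintype.card C : ℝ) * ∑ ξ, (if cl ξ then ∑ a, lw ξ a * b ξ a else 0)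
        ≤ Fintype.card Ξ * (z * Fintype.card C * Λ) := hle
      _ = Fintype.card C * (z * Λ * Fintype.card Ξ) := by ring
  exact le_of_mul_le_mul_left h5 hC

end Pool.Agent.Lib.MP_33d9ce_co.Cst
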