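import Pool.Agent.Lib.MP_33d9ce_co.Cst.StmC3

/-!
# Spanning hypercubes, constant density: large atoms
-/

set_option autoImplicit false

noncomputable section

open Classical Finset

namespace Pool.Agent.Lib.MP_33d9ce_co.Cst

open Slack (Cell Ev Od Dir nbr shift)

private theorem bigE_ne {κ : ℕ} {I S X W0 Ω : Type} [Fintype I] [Fintype S] [Fintype X] [Fintype W0]
    [Fintype Ω] (e : Env κ I S X W0 Ω) (η x : ℝ) (a : ℕ) (h : e.Ok η x a) : Nonempty e.Xi := by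
  obtain ⟨w0⟩ := h.nonempty0
  exact ⟨(fun _ => w0, ⟨fun z => (h.nonempty z.2).choose, fun z => (h.nonempty z.2).choose_spec⟩)⟩

private theorem bigE_univ {α : Type} (i1 i2 : Fintype α) (f : α → ℝ) :
    @Finset.sum α ℝ _ (@Finset.univ α i1) f = @Finset.sum α ℝ _ (@Finset.univ α i2) f := by
  cases Subsingleton.elim i1 i2
  rfl

theorem p_bigE (h1 : S_pr3) (h2 : S_im) (h3 : S_inj) (h4 : S_lin) : S_bigE := by
  intro κ m r S X W0 Ω _ _ _ _ e η x a z0 μ hOk hz hμ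
  have : Nonempty e.Xi := bigE_ne e η x a hOk
  obtain ⟨-, -, hsum, -, -, -⟩ := h4 _ _ _ _ _ _ (e.mod m r) e.good μ hμ
  obtain ⟨him, -⟩ := h2 _ _ _ _ _ _ (e.mod m r) e.good μ hμ (fun y => h3 κ m r y)
  have hcard : (0 : ℝ) < Fintype.card e.Xi := by exact_mod_cast Fintype.card_pos
  have key : ∀ (y : Cell κ × Od κ m r) (j : ℕ), j ∈ Icc 1 e.L →
      Ex μ (fun ξ σ => if e.cls j y.1 ξ ∧ bigR e z0 y j ξ ((e.mod m r).im σ y) then (1 : ℝ) else 0) ≤
        z0 * 6 ^ Fintype.card (Dir κ m r) := by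
    intro y j hj
    rw [Finset.mem_Icc] at hj
    have e1 := him y (fun ξ b => if e.cls j y.1 ξ ∧ bigR e z0 y j ξ b then (1 : ℝ) else 0)
    have e2 := h1 κ m r S X W0 Ω e η x a hOk y j hj.1 hj.2 z0 hz
    have e3 : ∀ ξ : e.Xi, (∑ b, (e.mod m r).law ξ y b *
        (if e.cls j y.1 ξ ∧ bigR e z0 y j ξ b then (1 : ℝ) else 0)) =
        (if e.cls j y.1 ξ then ∑ b, (e.mod m r).law ξ y b * (if bigR e z0 y j ξ b then 1 else 0) else 0) := by
      intro ξ
      by_cases hc : e.cls j y.1 ξ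
      · rw [if_pos hc]
        apply Finset.sum_congr rfl
        intro b _
        by_cases hb : bigR e z0 y j ξ b
        · rw [if_pos ⟨hc, hb⟩, if_pos hb]
        · rw [if_neg (fun h => hb h.2), if_neg hb]
      · rw [if_neg hc]
        apply Finset.sum_eq_zero
        intro b _
        rw [if_neg (fun h => hc h.1), mul_zero]
    have e4 : Ex μ (fun ξ σ => if e.cls j y.1 ξ ∧ bigR e z0 y j ξ ((e.mod m r).im σ y) then (1 : ℝ) else 0) =
        (Fintype.card e.Xi : ℝ)⁻¹ * ∑ ξ : e.Xi, (if e.cls j y.1 ξ then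
          ∑ b, (e.mod m r).law ξ y b * (if bigR e z0 y j ξ b then 1 else 0) else 0) := by
      refine e1.trans ?_
      congr 1
      refine Finset.sum_congr rfl fun ξ _ => ?_
      exact (bigE_univ _ _ _).trans (e3 ξ)
    rw [e4]
    calc (Fintype.card e.Xi : ℝ)⁻¹ * ∑ ξ : e.Xi, (if e.cls j y.1 ξ then
          ∑ b, (e.mod m r).law ξ y b * (if bigR e z0 y j ξ b then 1 else 0) else 0)
        ≤ (Fintype.card e.Xi : ℝ)⁻¹ * (z0 * 6 ^ Fintype.card (Dir κ m r) * Fintype.card e.Xi) :=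
          mul_le_mul_of_nonneg_left e2 (inv_nonneg.mpr hcard.le)
      _ = z0 * 6 ^ Fintype.card (Dir κ m r) := by
          field_simp
  have s1 := hsum (Cell κ × Od κ m r) univ (fun y ξ σ => ∑ j ∈ Icc 1 e.L,
      if e.cls j y.1 ξ ∧ bigR e z0 y j ξ ((e.mod m r).im σ y) then (1 : ℝ) else 0)
  rw [s1]
  have s2 : ∀ y : Cell κ × Od κ m r, Ex μ (fun ξ σ => ∑ j ∈ Icc 1 e.L,
      if e.cls j y.1 ξ ∧ bigR e z0 y j ξ ((e.mod m r).im σ y) then (1 : ℝ) else 0) ≤
      e.L * (z0 * 6 ^ Fintype.card (Dir κ m r)) := by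
    intro y
    have s3 := hsum ℕ (Icc 1 e.L) (fun j ξ σ =>
      if e.cls j y.1 ξ ∧ bigR e z0 y j ξ ((e.mod m r).im σ y) then (1 : ℝ) else 0)
    rw [s3]
    refine (Finset.sum_le_sum (fun j hj => key y j hj)).trans ?_
    rw [Finset.sum_const, Nat.card_Icc, nsmul_eq_mul, Nat.add_sub_cancel]
  refine (Finset.sum_le_sum (fun y _ => s2 y)).trans ?_
  rw [Finset.sum_const, Finset.card_univ, nsmul_eq_mul]

end Pool.Agent.Lib.MP_33d9ce_co.Cst
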