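import Pool.Agent.Lib.MP_33d9ce_co.Cst.StmC3
import Pool.Agent.Lib.MP_33d9ce_co.Slack.CubeB

/-!
# Spanning hypercubes, constant density: blocks of odd vertices of the family 0
-/

set_option autoImplicit false

noncomputable section

open Classical Finset

namespace Pool.Agent.Lib.MP_33d9ce_co.Cst

open Slack (Cell Ev Od Dir nbr shift)

private theorem blkE_eta {κ : ℕ} {I S X W0 Ω : Type} [Fintype I] [Fintype S] [Fintype X] [Fintype W0] [Fintype Ω]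
    {e : Env κ I S X W0 Ω} {η x : ℝ} {a : ℕ} (hok : e.Ok η x a) : η ≤ 1 := by
  have h1 := hok.room
  have h2 : ((kap 0 : ℕ) : ℝ) = 10 ^ 7 := by
    have : kap 0 = 10 ^ 7 := rfl
    rw [this]
    norm_num
  rw [h2] at h1
  have h3 := hok.η_pos
  have h4 : (0 : ℝ) ≤ a * η := mul_nonneg (Nat.cast_nonneg a) h3.le
  nlinarith

private theorem blkE_ite (p : Prop) {d1 d2 : Decidable p} : @ite ℝ p d1 1 0 = @ite ℝ p d2 1 0 := by
  cases Subsingleton.elim d1 d2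
  rfl

private theorem blkE_gen (hB : S_block) {P I S Y T Ξ : Type} [Fintype P] [Fintype I] [Fintype S] [Fintype Y]
    [Fintype T] [Fintype Ξ] [Nonempty P] (D : Mod P I S Y T Ξ) (good : Ξ → Prop) (μ : Ξ → I → (P → S) → ℝ)
    (hμ : D.IsLaw good μ) (hne : ∀ ξ p i, (D.al ξ p i).Nonempty)
    (hinj : ∀ y, Function.Injective fun t => (D.nb y t).2) (ξ : Ξ) (okv : I → S → Prop) (η : ℝ) (h0 : 0 ≤ η)
    (h1 : η ≤ 1) (hv : ∀ i, (({s | ¬ okv i s} : Finset S).card : ℝ) ≤ η * Fintype.card P) (β : Finset Y)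
    (hβ : ∀ y ∈ β, ∀ y' ∈ β, y ≠ y' → ∀ t t', (D.nb y t).2 ≠ (D.nb y' t').2)
    (hc : ∀ y ∈ β, ∀ t, Fintype.card P ≤ (D.al ξ (D.nb y t).1 (D.nb y t).2).card)
    (Q : (I → P → S) → Prop) (hQ : ∀ σ, Q σ → ∀ y ∈ β, ¬ ∀ t, okv (D.nb y t).2 (D.im σ y t)) :
    ∑ σ : I → P → S, (∏ i, μ ξ i (σ i)) * (if Q σ then 1 else 0) ≤
      (1 - (1 - η) ^ Fintype.card T) ^ β.card := by
  have hb := hB P I S Y T Ξ D good μ hμ hne hinj ξ okv η h0 h1 hv β hβ hc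
  refine le_trans (Finset.sum_le_sum fun σ _ => ?_) hb
  refine mul_le_mul_of_nonneg_left ?_ (Finset.prod_nonneg fun i _ => hμ.nonneg ξ i _)
  by_cases h : Q σ
  · rw [if_pos h, if_pos (hQ σ h)]
  · rw [if_neg h]
    split_ifs
    · exact zero_le_one
    · exact le_rfl

/-- the expectation of a double sum of indicators -/
private theorem blkE_Ex {P I S Y V Ξ : Type} [Fintype P] [Fintype I] [Fintype S] [Fintype Y]
    [Fintype V] [Fintype Ξ] [Nonempty Ξ] (μ : Ξ → I → (P → S) → ℝ) (Q : Ξ → (I → P → S) → V → Y → Prop) (q : ℝ)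
    (h : ∀ ξ v y, ∑ σ : I → P → S, (∏ i, μ ξ i (σ i)) * (if Q ξ σ v y then (1 : ℝ) else 0) ≤ q) :
    Ex μ (fun ξ σ => ∑ v : V, ∑ y : Y, if Q ξ σ v y then (1 : ℝ) else 0) ≤
      Fintype.card V * (Fintype.card Y * q) := by
  have hXi0 : 0 < (Fintype.card Ξ : ℝ) := by exact_mod_cast Fintype.card_pos
  have hsum : ∀ ξ : Ξ, ∑ σ : I → P → S, (∏ i, μ ξ i (σ i)) *
      (∑ v : V, ∑ y : Y, if Q ξ σ v y then (1 : ℝ) else 0) ≤ Fintype.card V * (Fintype.card Y * q) := by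
    intro ξ
    have e1 : ∑ σ : I → P → S, (∏ i, μ ξ i (σ i)) * (∑ v : V, ∑ y : Y, if Q ξ σ v y then (1 : ℝ) else 0) =
        ∑ v : V, ∑ y : Y, ∑ σ : I → P → S, (∏ i, μ ξ i (σ i)) * (if Q ξ σ v y then (1 : ℝ) else 0) := by
      simp only [Finset.mul_sum]
      rw [Finset.sum_comm]
      exact Finset.sum_congr rfl fun v _ => Finset.sum_comm
    rw [e1]
    calc _ ≤ ∑ _v : V, ∑ _y : Y, q := Finset.sum_le_sum fun v _ => Finset.sum_le_sum fun y _ => h ξ v y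
      _ = _ := by
          rw [Finset.sum_const, Finset.sum_const, Finset.card_univ, Finset.card_univ, nsmul_eq_mul,
            nsmul_eq_mul]
  unfold Ex
  calc (Fintype.card Ξ : ℝ)⁻¹ * ∑ ξ : Ξ, ∑ σ : I → P → S, (∏ i, μ ξ i (σ i)) *
      (∑ v : V, ∑ y : Y, if Q ξ σ v y then (1 : ℝ) else 0)
      ≤ (Fintype.card Ξ : ℝ)⁻¹ * ∑ _ξ : Ξ, (Fintype.card V * (Fintype.card Y * q)) :=
        mul_le_mul_of_nonneg_left (Finset.sum_le_sum fun ξ _ => hsum ξ) (inv_nonneg.mpr hXi0.le)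
    _ = Fintype.card V * (Fintype.card Y * q) := by
        rw [Finset.sum_const, Finset.card_univ, nsmul_eq_mul, ← mul_assoc, inv_mul_cancel₀ hXi0.ne', one_mul]

private theorem blkE_bd (h1 : S_block) {P I S Y T Ξ V : Type} [Fintype P] [Fintype I] [Fintype S] [Fintype Y]
    [Fintype T] [Fintype Ξ] [Nonempty Ξ] [Nonempty P] [Fintype V] (D : Mod P I S Y T Ξ) (good : Ξ → Prop)
    (μ : Ξ → I → (P → S) → ℝ)
    (hμ : D.IsLaw good μ) (hne : ∀ ξ p i, (D.al ξ p i).Nonempty)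
    (hinj : ∀ y, Function.Injective fun t => (D.nb y t).2) (okv : V → I → S → Prop) (η : ℝ) (h0 : 0 ≤ η)
    (h1' : η ≤ 1) (hv : ∀ v i, (({s | ¬ okv v i s} : Finset S).card : ℝ) ≤ η * Fintype.card P) (β : Y → Finset Y)
    (b : ℕ) (hb : ∀ y, (β y).card = b)
    (hβ : ∀ x, ∀ y ∈ β x, ∀ y' ∈ β x, y ≠ y' → ∀ t t', (D.nb y t).2 ≠ (D.nb y' t').2) (R : Ξ → Y → Prop)
    (hc : ∀ ξ x, R ξ x → ∀ y ∈ β x, ∀ t, Fintype.card P ≤ (D.al ξ (D.nb y t).1 (D.nb y t).2).card)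
    (Q : Ξ → (I → P → S) → V → Y → Prop) (hQR : ∀ ξ σ v y, Q ξ σ v y → R ξ y)
    (hQ : ∀ ξ σ v x, Q ξ σ v x → ∀ y ∈ β x, ¬ ∀ t, okv v (D.nb y t).2 (D.im σ y t)) :
    Ex μ (fun ξ σ => ∑ v : V, ∑ y : Y, if Q ξ σ v y then (1 : ℝ) else 0) ≤
      Fintype.card V * (Fintype.card Y * (1 - (1 - η) ^ Fintype.card T) ^ b) := by
  refine blkE_Ex μ Q _ fun ξ v y => ?_
  by_cases hR : R ξ y
  · rw [← hb y]
    exact blkE_gen h1 D good μ hμ hne hinj ξ (okv v) η h0 h1' (hv v) (β y) (hβ y) (hc ξ y hR)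
      (fun σ => Q ξ σ v y) (fun σ h => hQ ξ σ v y h)
  · have hq0 : 0 ≤ 1 - (1 - η) ^ Fintype.card T := by
      have : (1 - η) ^ Fintype.card T ≤ 1 := pow_le_one₀ (by linarith) (by linarith)
      linarith
    refine le_trans (le_of_eq ?_) (pow_nonneg hq0 _)
    refine Finset.sum_eq_zero fun σ _ => ?_
    rw [if_neg (fun h => hR (hQR ξ σ v y h)), mul_zero]

theorem p_blkE (h1 : S_block) (h2 : S_sup) (h3 : S_alp) (h4 : S_inj) (_h5 : S_lin) : S_blkE := by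
  intro κ m r S X W0 Ω V _ _ _ _ _ e η x a adv μ hok hμ hadv
  have hη0 : 0 ≤ η := hok.η_pos.le
  have hη1 : η ≤ 1 := blkE_eta hok
  have hcell : (Fintype.card (Cell κ) : ℝ) = 2 ^ κ := by simp [ZMod.card]
  have hXi : Nonempty e.Xi :=
    ⟨(fun _ => hok.nonempty0.some, ⟨fun z => (hok.nonempty z.2).choose, fun z => (hok.nonempty z.2).choose_spec⟩)⟩
  have hfin := blkE_bd h1 (e.mod m r) e.good μ hμ (fun ξ p i => (h3 κ (Ev κ m r) S X W0 Ω e η x a hok ξ p i).1)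
    (fun y => h4 κ m r y) (fun v i s => adv (e.f i s) v) η hη0 hη1
    (fun v i => by rw [hcell]; exact hadv v i) (fun y => univ.image fun c : Fin m → ZMod 2 => shift c y) (2 ^ m)
    (fun y => Slack.shift_card y) (fun y z hz z' hz' hne t t' => Slack.shift_disj y z z' hz hz' hne t t')
    (fun ξ y => e.yf ξ.2 y.1 = 0)
    (fun ξ y hy z hz t => by
      obtain ⟨c, -, hcz⟩ := Finset.mem_image.mp hz
      have hz1 : z.1 = y.1 := by rw [← hcz]; rfl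
      have hy' : e.yf ξ.2 z.1 = 0 := by rw [hz1]; exact hy
      exact ((h2 κ m r S X W0 Ω e η x a hok z ξ).2 hy').2 t)
    (fun ξ σ v y => e.yf ξ.2 y.1 = 0 ∧ ∀ c : Fin m → ZMod 2, ¬ ∀ t, adv (e.f (nbr (shift c y) t).2
      ((e.mod m r).im σ (shift c y) t)) v)
    (fun ξ σ v y h => h.1)
    (fun ξ σ v y h z hz => by
      obtain ⟨c, -, hcz⟩ := Finset.mem_image.mp hz
      subst hcz
      exact h.2 c)
  refine le_trans (le_of_eq ?_) hfin
  congr 1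
  funext ξ σ
  refine Finset.sum_congr rfl fun v _ => Finset.sum_congr rfl fun y _ => ?_
  exact blkE_ite _

end Pool.Agent.Lib.MP_33d9ce_co.Cst
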