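import Pool.Agent.Lib.MP_33d9ce_co.Cst.StmC3
import Pool.Agent.Lib.MP_33d9ce_co.Slack.CubeB

/-!
# Spanning hypercubes, constant density: piece `cnt` (counting with blocks)
-/

set_option autoImplicit false

noncomputable section

open Classical Finset

namespace Pool.Agent.Lib.MP_33d9ce_co.Cst

open Slack (Cell Ev Od Dir nbr shift)

theorem p_cnt : S_cnt := by
  intro κ m r P0 Good h
  have h1 : ({y | P0 y.1} : Finset (Cell κ × Od κ m r)) ⊆
      ((univ : Finset (Fin m → ZMod 2)) ×ˢ ({y | Good y} : Finset (Cell κ × Od κ m r))).image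
        fun p => shift p.1 p.2 := by
    intro y hy
    obtain ⟨c, hc⟩ := h y (by simpa using hy)
    rw [mem_image]
    refine ⟨(c, shift c y), ?_, Slack.cubeB_shift_shift c y⟩
    rw [mem_product]
    exact ⟨mem_univ _, by simpa using hc⟩
  refine (card_le_card h1).trans (card_image_le.trans ?_)
  rw [card_product, card_univ]
  simp [ZMod.card]

end Pool.Agent.Lib.MP_33d9ce_co.Cst
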