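import Pool.Agent.Lib.MP_33d9ce_co.Cst.StmC2

/-! Piece col. -/

set_option autoImplicit false

noncomputable section

open Classical Finset

namespace Pool.Agent.Lib.MP_33d9ce_co.Cst

open Slack (Cell Ev Od Dir nbr)

private theorem col_card (κ : ℕ) : (Fintype.card (Cell κ) : ℝ) = 2 ^ κ := by
  have h : Fintype.card (Cell κ) = 2 ^ κ := by simp [Cell]
  rw [h]
  push_cast
  rfl

theorem p_col (h1 : S_alp) : S_col := by
  intro κ I S X W0 Ω _ _ _ _ _ e η x a hok ξ hgood i s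
  have hS : (Fintype.card S : ℝ) = 17 / 16 * 2 ^ κ := by
    have h := hok.cardS
    have h2 : (16 : ℝ) * Fintype.card S = 17 * 2 ^ κ := by exact_mod_cast h
    linarith
  have hk : (0 : ℝ) < 2 ^ κ := by positivity
  have halp := h1 κ I S X W0 Ω e η x a hok ξ
  have hterm : ∀ u : Cell κ, (if s ∈ e.alw ξ u i then ((e.alw ξ u i).card : ℝ)⁻¹ else 0) ≤
      32 / (33 * 2 ^ κ) + (if 2 ≤ e.lv ξ.2 u then 32 / (17 * 2 ^ κ) * (e.al (e.lv ξ.2 u))⁻¹ else 0) := by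
    intro u
    have hle : (if s ∈ e.alw ξ u i then ((e.alw ξ u i).card : ℝ)⁻¹ else 0) ≤
        ((e.alw ξ u i).card : ℝ)⁻¹ := by
      split_ifs
      · exact le_rfl
      · positivity
    refine hle.trans ?_
    obtain ⟨_, ha1, ha2⟩ := halp u i
    by_cases hl : 2 ≤ e.lv ξ.2 u
    · rw [if_pos hl]
      have h3 := (ha2 hl (hgood.1 u)).2.2
      have hal := hok.al_pos (e.lv ξ.2 u)
      rw [hS] at h3
      have h4 : ((e.alw ξ u i).card : ℝ)⁻¹ ≤ (e.al (e.lv ξ.2 u) / 2 * (17 / 16 * 2 ^ κ))⁻¹ := by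
        apply inv_anti₀ (by positivity) h3
      have h5 : (e.al (e.lv ξ.2 u) / 2 * (17 / 16 * 2 ^ κ))⁻¹ =
          32 / (17 * 2 ^ κ) * (e.al (e.lv ξ.2 u))⁻¹ := by
        field_simp
        norm_num
      rw [h5] at h4
      have h6 : (0 : ℝ) ≤ 32 / (33 * 2 ^ κ) := by positivity
      linarith
    · rw [if_neg hl, add_zero]
      have h3 := (ha1 (by omega)).2
      have h4 : ((e.alw ξ u i).card : ℝ)⁻¹ ≤ (33 / 32 * 2 ^ κ)⁻¹ :=
        inv_anti₀ (by positivity) h3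
      have h5 : ((33 : ℝ) / 32 * 2 ^ κ)⁻¹ = 32 / (33 * 2 ^ κ) := by
        field_simp
      rw [h5] at h4
      exact h4
  have hsum := sum_le_sum (fun u (_ : u ∈ (univ : Finset (Cell κ))) => hterm u)
  have hr : ∑ u : Cell κ, (if 2 ≤ e.lv ξ.2 u then 32 / (17 * 2 ^ κ) * (e.al (e.lv ξ.2 u))⁻¹ else 0) =
      32 / (17 * 2 ^ κ) * ∑ u ∈ univ.filter (fun u : Cell κ => 2 ≤ e.lv ξ.2 u),
        (e.al (e.lv ξ.2 u))⁻¹ := by
    rw [← sum_filter, ← mul_sum]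
  rw [sum_add_distrib, sum_const, card_univ, nsmul_eq_mul, col_card, hr] at hsum
  have hg := mul_le_mul_of_nonneg_left hgood.2 (by positivity : (0 : ℝ) ≤ 32 / (17 * 2 ^ κ))
  have e1 : (2 : ℝ) ^ κ * (32 / (33 * 2 ^ κ)) = 32 / 33 := by field_simp
  have e2 : (32 : ℝ) / (17 * 2 ^ κ) * (2 ^ κ / 1000) = 32 / 17000 := by
    field_simp
    norm_num
  rw [e1] at hsum
  rw [e2] at hg
  have h7 : (32 : ℝ) / 33 + 32 / 17000 ≤ 1 := by norm_num
  linarith

end Pool.Agent.Lib.MP_33d9ce_co.Cst
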