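import Pool.Agent.Lib.MP_33d9ce_co.Cst.StmD

/-!
# Spanning hypercubes, constant density: the standing hypotheses for the concrete data
-/

set_option autoImplicit false

noncomputable section

open Classical Finset

namespace Pool.Agent.Lib.MP_33d9ce_co.Cst

open Slack (Cell Ev Od Dir nbr shift Lab)

/-- the ball of radius 1 has at most `κ + 1` points -/
theorem eok_ball {κ : ℕ} (u : Cell κ) :
    ({v | hammingDist u v ≤ 1} : Finset (Cell κ)).card ≤ κ + 1 := by
  have hsub : ({v | hammingDist u v ≤ 1} : Finset (Cell κ)) ⊆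
      insert u ((univ : Finset (Fin κ)).image fun i => u + Pi.single i 1) := by
    intro v hv
    rw [Finset.mem_filter] at hv
    have hv := hv.2
    rw [Finset.mem_insert]
    rcases Nat.lt_or_ge (hammingDist u v) 1 with h0 | h1
    · left
      have : hammingDist u v = 0 := by omega
      exact (hammingDist_eq_zero.1 this).symm
    · right
      have h2 : hammingDist u v = 1 := le_antisymm hv h1
      unfold hammingDist at h2
      rw [Finset.card_eq_one] at h2
      obtain ⟨i, hi⟩ := h2
      rw [Finset.mem_image]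
      refine ⟨i, Finset.mem_univ _, ?_⟩
      funext j
      have hj : u j ≠ v j ↔ j = i := by
        have := Finset.ext_iff.1 hi j
        simpa using this
      by_cases hji : j = i
      · subst hji
        have hne : u j ≠ v j := hj.2 rfl
        rw [Pi.add_apply, Pi.single_eq_same]
        generalize u j = a at *
        generalize v j = b at *
        clear hj hi
        revert a b
        decide
      · have heq : u j = v j := by
          by_contra hne
          exact hji (hj.1 hne)
        rw [Pi.add_apply, Pi.single_eq_of_ne hji, add_zero, heq]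
  refine (Finset.card_le_card hsub).trans ((Finset.card_insert_le _ _).trans ?_)
  exact Nat.succ_le_succ (Finset.card_image_le.trans (by simp))

theorem eok_nc {κ : ℕ} (cell : Cell κ → Cell κ) (u : Cell κ) : (nc cell 1 u).card ≤ κ + 1 :=
  Finset.card_image_le.trans (eok_ball u)

theorem eok_alv (l : ℕ) : 0 < alv l ∧ alv l ≤ 1 := by
  unfold alv
  have h0 : (0 : ℝ) < 1 - 8 * (1 / 10 ^ 19) := by norm_num
  have h1 : (1 - 8 * (1 / 10 ^ 19) : ℝ) ≤ 1 := by norm_num
  have h2 : (0 : ℝ) < (1 - 8 * (1 / 10 ^ 19)) ^ (kap l + kap (l + 1)) := pow_pos h0 _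
  have h3 : (1 - 8 * (1 / 10 ^ 19) : ℝ) ^ (kap l + kap (l + 1)) ≤ 1 := pow_le_one₀ h0.le h1
  generalize (1 - 8 * (1 / 10 ^ 19) : ℝ) ^ (kap l + kap (l + 1)) = t at h2 h3 ⊢
  constructor
  · positivity
  · linarith

/-- few positions are incompatible with a vertex -/
theorem eok_pos {κ n h : ℕ} {V S : Type} [Fintype V] [Fintype S] (adj : V → V → Prop)
    (A : Finset V) (f : S → {v // v ∈ A}) (x : ℝ) (v : V)
    (h1 : (({a | ¬ adj a v} : Finset V).card) ≤ h) (h2 : (A.card : ℝ) = 17 / 16 * 2 ^ (n - 1))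
    (h3 : 16 * Fintype.card S = 17 * 2 ^ κ) (h5 : (h : ℝ) / 2 ^ (n - 1) + 17 / 16 * x ≤ 1 / 10 ^ 12)
    (h12 : |(({s | ¬ adj (f s).1 v} : Finset S).card : ℝ) -
      Fintype.card S * (((A.filter fun a => ¬ adj a v).card : ℝ) / A.card)| ≤ x * Fintype.card S) :
    (({s | ¬ adj (f s).1 v} : Finset S).card : ℝ) ≤ 1 / 10 ^ 12 * 2 ^ κ := by
  have hS : (Fintype.card S : ℝ) = 17 / 16 * 2 ^ κ := by
    have : (16 : ℝ) * Fintype.card S = 17 * 2 ^ κ := by exact_mod_cast h3
    linarith
  have hN : (0 : ℝ) < 2 ^ (n - 1) := by positivity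
  have hK : (0 : ℝ) < 2 ^ κ := by positivity
  have hle : ((A.filter fun a => ¬ adj a v).card : ℝ) ≤ h := by
    have : (A.filter fun a => ¬ adj a v).card ≤ h := by
      refine le_trans (Finset.card_le_card ?_) h1
      intro a ha
      exact Finset.mem_filter.2 ⟨Finset.mem_univ _, (Finset.mem_filter.1 ha).2⟩
    exact_mod_cast this
  have hA : (0 : ℝ) < A.card := by rw [h2]; positivity
  have hq : ((A.filter fun a => ¬ adj a v).card : ℝ) / A.card ≤ h / (17 / 16 * 2 ^ (n - 1)) := by
    rw [← h2]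
    exact div_le_div_of_nonneg_right hle hA.le
  have hup := (abs_le.1 h12).2
  have hS0 : (0 : ℝ) ≤ Fintype.card S := Nat.cast_nonneg _
  have hmul : (Fintype.card S : ℝ) * (((A.filter fun a => ¬ adj a v).card : ℝ) / A.card) ≤
      Fintype.card S * (h / (17 / 16 * 2 ^ (n - 1))) := mul_le_mul_of_nonneg_left hq hS0
  have heq : (Fintype.card S : ℝ) * (h / (17 / 16 * 2 ^ (n - 1))) = (h / 2 ^ (n - 1)) * 2 ^ κ := by
    rw [hS]
    field_simp
  calc (({s | ¬ adj (f s).1 v} : Finset S).card : ℝ)
      ≤ Fintype.card S * (h / (17 / 16 * 2 ^ (n - 1))) + x * Fintype.card S := by linarith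
    _ = ((h : ℝ) / 2 ^ (n - 1) + 17 / 16 * x) * 2 ^ κ := by
        rw [heq, hS]
        ring
    _ ≤ 1 / 10 ^ 12 * 2 ^ κ := mul_le_mul_of_nonneg_right h5 hK.le

/-- union bound for labels of length `a` -/
theorem eok_union {V S : Type} [Fintype S] (adj : V → V → Prop) (A : Finset V) (f : S → {v // v ∈ A})
    (c : ℝ) (h : ∀ v, (({s | ¬ adj (f s).1 v} : Finset S).card : ℝ) ≤ c) (a : ℕ)
    (w : Fin a → {v // v ∉ A}) :
    (({s | ¬ okb adj A (f s) w} : Finset S).card : ℝ) ≤ a * c := by
  have hsub : ({s | ¬ okb adj A (f s) w} : Finset S) ⊆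
      (univ : Finset (Fin a)).biUnion fun i => ({s | ¬ adj (f s).1 (w i).1} : Finset S) := by
    intro s hs
    have hs := (Finset.mem_filter.1 hs).2
    unfold okb at hs
    push Not at hs
    obtain ⟨i, hi⟩ := hs
    exact Finset.mem_biUnion.2 ⟨i, Finset.mem_univ _, Finset.mem_filter.2 ⟨Finset.mem_univ _, hi⟩⟩
  calc (({s | ¬ okb adj A (f s) w} : Finset S).card : ℝ)
      ≤ (((univ : Finset (Fin a)).biUnion fun i =>
          ({s | ¬ adj (f s).1 (w i).1} : Finset S)).card : ℝ) := by
        exact_mod_cast Finset.card_le_card hsub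
    _ ≤ ∑ i : Fin a, (({s | ¬ adj (f s).1 (w i).1} : Finset S).card : ℝ) := by
        exact_mod_cast Finset.card_biUnion_le
    _ ≤ ∑ _i : Fin a, c := Finset.sum_le_sum fun i _ => h _
    _ = a * c := by simp

/-- union bound for labels of length four -/
theorem eok_union4 {V S : Type} [Fintype S] (adj : V → V → Prop) (A : Finset V)
    (f : S → {v // v ∈ A}) (c : ℝ)
    (h : ∀ v, (({s | ¬ adj (f s).1 v} : Finset S).card : ℝ) ≤ c) (w : Lab A) :
    (({s | ¬ okq adj A (f s) w} : Finset S).card : ℝ) ≤ 4 * c := by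
  have hsub : ({s | ¬ okq adj A (f s) w} : Finset S) ⊆
      ((({s | ¬ adj (f s).1 w.1.1.1} : Finset S) ∪ ({s | ¬ adj (f s).1 w.1.2.1} : Finset S)) ∪
        ({s | ¬ adj (f s).1 w.2.1.1} : Finset S)) ∪ ({s | ¬ adj (f s).1 w.2.2.1} : Finset S) := by
    intro s hs
    have hs := (Finset.mem_filter.1 hs).2
    unfold okq at hs
    simp only [Finset.mem_union, Finset.mem_filter, Finset.mem_univ, true_and]
    tauto
  have hnat := (Finset.card_le_card hsub).trans ((Finset.card_union_le _ _).trans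
    (Nat.add_le_add_right ((Finset.card_union_le _ _).trans
      (Nat.add_le_add_right (Finset.card_union_le _ _) _)) _))
  have hreal : (({s | ¬ okq adj A (f s) w} : Finset S).card : ℝ) ≤
      ((({s | ¬ adj (f s).1 w.1.1.1} : Finset S).card : ℝ) +
        (({s | ¬ adj (f s).1 w.1.2.1} : Finset S).card : ℝ)) +
        (({s | ¬ adj (f s).1 w.2.1.1} : Finset S).card : ℝ) +
        (({s | ¬ adj (f s).1 w.2.2.1} : Finset S).card : ℝ) := by
    exact_mod_cast hnat
  linarith [h w.1.1.1, h w.1.2.1, h w.2.1.1, h w.2.2.1]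

/-- independence of the decidability instance -/
theorem eok_inst {S X : Type} [Fintype S] [Fintype X] (f : S → X) (R : Finset X) (c : ℝ)
    (i1 i2 : DecidablePred fun s => f s ∈ R)
    (h : |((@Finset.filter S (fun s => f s ∈ R) i1 univ).card : ℝ) -
      Fintype.card S * ((R.card : ℝ) / Fintype.card X)| ≤ c) :
    |((@Finset.filter S (fun s => f s ∈ R) i2 univ).card : ℝ) -
      Fintype.card S * ((R.card : ℝ) / Fintype.card X)| ≤ c := by
  have hi : i1 = i2 := Subsingleton.elim _ _
  subst hi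
  exact h

theorem p_eok : S_eok := by
  intro κ L n h V I S _ _ _ _ adj A cell W E f x h1 h2 h3 h4 h5 h6 h7 h8 h9 h10 h11 h12 h13
  have key : ∀ v i, (({s | ¬ adj (f i s).1 v} : Finset S).card : ℝ) ≤ 1 / 10 ^ 12 * 2 ^ κ :=
    fun v i => eok_pos adj A (f i) x v (h1 v) h2 h3 h5 (h12 v i)
  refine ⟨?_, key⟩
  constructor
  · exact h10
  · exact h11
  · have hA : (0 : ℝ) < A.card := by rw [h2]; positivity
    have hA' : 0 < A.card := by exact_mod_cast hA
    obtain ⟨a, ha⟩ := Finset.card_pos.1 hA'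
    exact ⟨⟨a, ha⟩⟩
  · infer_instance
  · exact h6
  · exact h7
  · exact h8
  · exact h3
  · norm_num
  · have hk : (kap 0 : ℝ) = 10 ^ 7 := by
      simp only [kap, kp]
      norm_num
    rw [hk]
    norm_num
  · intro i w
    refine (eok_union4 adj A (f i) _ (fun v => key v i) w).trans (le_of_eq ?_)
    ring
  · intro i w
    refine (eok_union adj A (f i) _ (fun v => key v i) 1210 w).trans (le_of_eq ?_)
    ring
  · intro i u w l _ hl
    exact eok_inst (f i) _ _ _ _ (h13 i (nc cell 1 u) w l (eok_nc cell u) hl).1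
  · intro i u w l z _ hl
    exact eok_inst (f i) _ _ _ _ ((h13 i (nc cell 1 u) w l (eok_nc cell u) hl).2 z)
  · exact h4.le
  · exact h9
  · exact fun l => (eok_alv l).1
  · exact fun l => (eok_alv l).2

end Pool.Agent.Lib.MP_33d9ce_co.Cst
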