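import Pool.Agent.Lib.MP_33d9ce_co.Cst.StmC2
import Pool.Agent.Lib.MP_33d9ce_co.Cst.StmM

/-!
# Spanning hypercubes, constant density: piece fac
-/

set_option autoImplicit false

noncomputable section

open Classical Finset

namespace Pool.Agent.Lib.MP_33d9ce_co.Cst

theorem p_fac (h1 : S_ind) : S_fac := by
  intro κ I S X W0 Ω _ _ _ _ _ e A A' F F' hF hF' hd
  refine h1 e.Xi (e.pc A) F F' ?_ ?_ ?_
  · intro a b
    refine Prod.ext ?_ (Subtype.ext ?_)
    · funext q
      simp only [Env.pc]
      split_ifs <;> rfl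
    · funext z
      simp only [Env.pc]
      split_ifs <;> rfl
  · intro a b
    refine hF _ _ fun q hq => ⟨?_, fun j => ?_⟩
    · simp only [Env.pc, if_pos hq]
    · simp only [Env.pc, if_pos hq]
  · intro a b
    refine hF' _ _ fun q hq => ?_
    have hn : q ∉ A := fun h => (Finset.disjoint_left.mp hd) h hq
    refine ⟨?_, fun j => ?_⟩
    · simp only [Env.pc, if_neg hn]
    · simp only [Env.pc, if_neg hn]

end Pool.Agent.Lib.MP_33d9ce_co.Cst
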