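import Pool.Agent.Lib.MP_33d9ce_co.Cst.StmC1

set_option autoImplicit false

noncomputable section

open Classical Finset

namespace Pool.Agent.Lib.MP_33d9ce_co.Cst

open Slack (Cell Ev Od Dir nbr)

theorem p_fam (h1 : S_lip) : S_fam := by
  intro κ X Ω _ ok E al cell L w u
  have hu : u ∈ b1 u := by simp [b1]
  obtain ⟨v0, hv0, hv1⟩ := Finset.exists_mem_eq_inf' (b1_nonempty u) (lev ok E al cell L w)
  have hle : ∀ v ∈ b1 u, yl ok E al cell L w u ≤ lev ok E al cell L w v := fun v hv => Finset.inf'_le _ hv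
  refine ⟨fun v hv => ⟨hle v hv, ?_⟩, ⟨v0, hv0, hv1.symm⟩, hle u hu⟩
  have h2 : hammingDist v v0 ≤ 2 := by
    have e1 : hammingDist u v ≤ 1 := by simpa [b1] using hv
    have e2 : hammingDist u v0 ≤ 1 := by simpa [b1] using hv0
    have e3 := hammingDist_triangle v u v0
    rw [hammingDist_comm v u] at e3
    omega
  have h3 := h1 κ X Ω ok E al cell L w v v0 h2
  have h4 : yl ok E al cell L w u = lev ok E al cell L w v0 := hv1
  rw [h4]
  exact h3

end Pool.Agent.Lib.MP_33d9ce_co.Cst
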