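import Pool.Agent.Lib.MP_33d9ce_co.Cst.StmC3

set_option autoImplicit false

noncomputable section

open Classical Finset

namespace Pool.Agent.Lib.MP_33d9ce_co.Cst

open Slack (Cell Ev Od Dir nbr shift)

/-- the number of label configurations for which a point has a positive family -/
private theorem few_one (h1 : S_plev) (h2 : S_fam) {κ m r : ℕ} {S X W0 Ω : Type} [Fintype S] [Fintype X] [Fintype W0]
    [Fintype Ω] (e : Env κ (Ev κ m r) S X W0 Ω) (η x : ℝ) (a : ℕ) (om ep g : ℕ → ℝ) (δ : ℝ) (ho : e.Ok η x a)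
    (hl : Lvl e om ep g δ) (u : Cell κ) :
    1 - ((if geom e.cell kap e.L 1 u then 1 else 0) + sml e.L ep 1) ≤
      ((({ξ | e.yf ξ.2 u = 0} : Finset e.Xi).card : ℝ) / Fintype.card e.Xi) := by
  have : Nonempty W0 := ho.nonempty0
  have : Nonempty e.L1 := ⟨⟨fun z => (ho.nonempty z.2).choose, fun z => (ho.nonempty z.2).choose_spec⟩⟩
  have : Nonempty e.Xi := inferInstance
  have hX : (0 : ℝ) < Fintype.card e.Xi := by exact_mod_cast Fintype.card_pos
  have hp := (h1 κ (Ev κ m r) S X W0 Ω e om ep hl.out hl.ep_nonneg 1 le_rfl u).1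
  set c : ℝ := (if geom e.cell kap e.L 1 u then 1 else 0) + sml e.L ep 1 with hc
  -- the configurations with level at least one
  have hA : ((univ : Finset e.Xi).filter fun ξ => 1 ≤ e.lv ξ.2 u) =
      (univ : Finset (Cell κ → W0)) ×ˢ ((univ : Finset e.L1).filter fun ω => 1 ≤ e.lv ω u) := by
    ext ξ
    rw [Finset.mem_product, Finset.mem_filter, Finset.mem_filter]
    exact ⟨fun h => ⟨Finset.mem_univ _, Finset.mem_univ _, h.2⟩, fun h => ⟨Finset.mem_univ _, h.2.2⟩⟩
  have hB : (((univ : Finset e.Xi).filter fun ξ => 1 ≤ e.lv ξ.2 u).card : ℝ) ≤ c * Fintype.card e.Xi := by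
    rw [hA, Finset.card_product, Nat.cast_mul, Finset.card_univ, Fintype.card_prod, Nat.cast_mul]
    calc (Fintype.card (Cell κ → W0) : ℝ) * (((univ : Finset e.L1).filter fun ω => 1 ≤ e.lv ω u).card : ℝ) ≤
        (Fintype.card (Cell κ → W0) : ℝ) * (c * Fintype.card e.L1) :=
          mul_le_mul_of_nonneg_left hp (Nat.cast_nonneg _)
      _ = _ := by ring
  have hC : Fintype.card e.Xi ≤ ({ξ | e.yf ξ.2 u = 0} : Finset e.Xi).card +
      ((univ : Finset e.Xi).filter fun ξ => 1 ≤ e.lv ξ.2 u).card := by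
    have hsub : (univ : Finset e.Xi) ⊆ ({ξ | e.yf ξ.2 u = 0} : Finset e.Xi) ∪
        ((univ : Finset e.Xi).filter fun ξ => 1 ≤ e.lv ξ.2 u) := by
      intro ξ _
      rw [Finset.mem_union, Finset.mem_filter, Finset.mem_filter]
      by_cases h0 : e.yf ξ.2 u = 0
      · exact Or.inl ⟨Finset.mem_univ _, h0⟩
      · refine Or.inr ⟨Finset.mem_univ _, ?_⟩
        have h3 := (h2 κ X Ω e.ok e.E e.al e.cell e.L (e.vw ξ.2) u).2.2
        have h4 : e.yf ξ.2 u ≤ e.lv ξ.2 u := h3
        omega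
    have := (Finset.card_le_card hsub).trans (Finset.card_union_le _ _)
    rwa [Finset.card_univ] at this
  have hC' : (Fintype.card e.Xi : ℝ) ≤ (({ξ | e.yf ξ.2 u = 0} : Finset e.Xi).card : ℝ) +
      (((univ : Finset e.Xi).filter fun ξ => 1 ≤ e.lv ξ.2 u).card : ℝ) := by exact_mod_cast hC
  rw [le_div_iff₀ hX]
  have : (1 - c) * (Fintype.card e.Xi : ℝ) = Fintype.card e.Xi - c * Fintype.card e.Xi := by ring
  rw [this]
  linarith

theorem p_few (h1 : S_plev) (h2 : S_fam) : S_few := by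
  intro κ m r S X W0 Ω _ _ _ _ e η x a om ep g δ ho hl
  have hY : (Fintype.card (Cell κ × Od κ m r) : ℝ) = 2 ^ κ * Fintype.card (Od κ m r) := by
    rw [Fintype.card_prod, Nat.cast_mul]
    congr 1
    simp [Cell, ZMod.card]
  have hg := hl.geo 1 le_rfl (by have := ho.L_ge; omega)
  have h3 : ∑ y : Cell κ × Od κ m r, (1 - ((if geom e.cell kap e.L 1 y.1 then (1 : ℝ) else 0) + sml e.L ep 1)) ≤
      ∑ y : Cell κ × Od κ m r, ((({ξ | e.yf ξ.2 y.1 = 0} : Finset e.Xi).card : ℝ) / Fintype.card e.Xi) :=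
    Finset.sum_le_sum fun y _ => few_one h1 h2 e η x a om ep g δ ho hl y.1
  refine le_trans ?_ h3
  have h4 : ∑ y : Cell κ × Od κ m r, (if geom e.cell kap e.L 1 y.1 then (1 : ℝ) else 0) =
      (({u | geom e.cell kap e.L 1 u} : Finset (Cell κ)).card : ℝ) * Fintype.card (Od κ m r) := by
    rw [Fintype.sum_prod_type]
    change ∑ u : Cell κ, ∑ _h : Od κ m r, (if geom e.cell kap e.L 1 u then (1 : ℝ) else 0) = _
    simp only [Finset.sum_const, Finset.card_univ, nsmul_eq_mul]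
    rw [← Finset.mul_sum, Finset.sum_boole, mul_comm]
  rw [Finset.sum_sub_distrib, Finset.sum_add_distrib, h4, Finset.sum_const, Finset.sum_const, Finset.card_univ,
    nsmul_eq_mul, nsmul_eq_mul, hY]
  have h5 := mul_le_mul_of_nonneg_right hg (Nat.cast_nonneg (Fintype.card (Od κ m r)) : (0 : ℝ) ≤ _)
  linarith

end Pool.Agent.Lib.MP_33d9ce_co.Cst
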