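import Pool.Agent.Lib.MP_33d9ce_co.Cst.StmC3

/-!
# Spanning hypercubes, constant density: the rows of the rare odd vertices
-/

set_option autoImplicit false

noncomputable section

open Classical Finset

namespace Pool.Agent.Lib.MP_33d9ce_co.Cst

open Slack (Cell Ev Od Dir nbr shift)

section fr1

variable {B : Type} [Fintype B] {a : ℕ}

theorem fr1_mg_nonneg (r : (Fin a → B) → ℝ) (hr : ∀ w, 0 ≤ r w) (i : Fin a) (v : B) : 0 ≤ mg r i v := by
  unfold mg
  refine sum_nonneg fun w _ => ?_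
  split_ifs
  · exact hr w
  · exact le_rfl

theorem fr1_mg_sum (r : (Fin a → B) → ℝ) (i : Fin a) : ∑ v, mg r i v = ∑ w, r w := by
  unfold mg
  rw [sum_comm]
  refine sum_congr rfl fun w _ => ?_
  simp

theorem fr1_trc_nonneg (r : (Fin a → B) → ℝ) (hr : ∀ w, 0 ≤ r w) (H : ℝ) (v : B) : 0 ≤ trc r H v := by
  unfold trc
  refine mul_nonneg (by positivity) (sum_nonneg fun i _ => ?_)
  split_ifs
  · exact fr1_mg_nonneg r hr i v
  · exact le_rfl

theorem fr1_trc_le (r : (Fin a → B) → ℝ) (hr : ∀ w, 0 ≤ r w) (H : ℝ) (v : B) :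
    trc r H v ≤ 2 / a * ∑ i, mg r i v := by
  unfold trc
  refine mul_le_mul_of_nonneg_left (sum_le_sum fun i _ => ?_) (by positivity)
  split_ifs
  · exact le_rfl
  · exact fr1_mg_nonneg r hr i v

theorem fr1_trc_card (r : (Fin a → B) → ℝ) (H : ℝ) (hH : 0 < H) (ha : 0 < a) (v : B) :
    trc r H v * Fintype.card B ≤ 2 * H := by
  have ha' : (0 : ℝ) < a := by exact_mod_cast ha
  have h : (∑ i, if mg r i v * Fintype.card B ≤ H then mg r i v else 0) * (Fintype.card B : ℝ) ≤ a * H := by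
    rw [sum_mul]
    calc ∑ i, (if mg r i v * Fintype.card B ≤ H then mg r i v else 0) * (Fintype.card B : ℝ)
        ≤ ∑ _i : Fin a, H := by
          refine sum_le_sum fun i _ => ?_
          split_ifs with h
          · exact h
          · rw [zero_mul]
            exact hH.le
      _ = a * H := by simp
  unfold trc
  calc 2 / (a : ℝ) * (∑ i, if mg r i v * Fintype.card B ≤ H then mg r i v else 0) * (Fintype.card B : ℝ)
      = 2 / a * ((∑ i, if mg r i v * Fintype.card B ≤ H then mg r i v else 0) * (Fintype.card B : ℝ)) := by ring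
    _ ≤ 2 / a * (a * H) := mul_le_mul_of_nonneg_left h (by positivity)
    _ = 2 * H := by field_simp

theorem fr1_trc_sum (r : (Fin a → B) → ℝ) (hr : ∀ w, 0 ≤ r w) (hs : ∑ w, r w ≤ 1) (H : ℝ) (ha : 0 < a) :
    ∑ v, trc r H v ≤ 2 := by
  have ha' : (0 : ℝ) < a := by exact_mod_cast ha
  calc ∑ v, trc r H v ≤ ∑ v, 2 / (a : ℝ) * ∑ i, mg r i v := sum_le_sum fun v _ => fr1_trc_le r hr H v
    _ = 2 / a * ∑ i, ∑ v, mg r i v := by rw [← mul_sum, sum_comm]
    _ = 2 / a * (a * ∑ w, r w) := by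
        congr 1
        rw [sum_congr rfl fun i _ => fr1_mg_sum r i]
        simp
    _ = 2 * ∑ w, r w := by field_simp
    _ ≤ 2 := by linarith

theorem fr1_trc_ne (r : (Fin a → B) → ℝ) (H : ℝ) (v : B) (h : trc r H v ≠ 0) : ∃ w i, r w ≠ 0 ∧ w i = v := by
  by_contra hcon
  push_neg at hcon
  apply h
  unfold trc
  have : ∀ i : Fin a, mg r i v = 0 := by
    intro i
    unfold mg
    refine sum_eq_zero fun w _ => ?_
    split_ifs with hw
    · by_contra hne
      exact hcon w i hne hw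
    · rfl
  simp [this]

end fr1

section fr1b

variable {κ m r aa : ℕ} {S X W0 B : Type} [Fintype S] [Fintype X] [Fintype W0] [Fintype B]

theorem fr1_single (e : Env κ (Ev κ m r) S X W0 (Fin aa → B)) (z0 H : ℝ) (y : Cell κ × Od κ m r) (ξ : e.Xi)
    (b : Dir κ m r → S) (j : ℕ) (h1 : 1 ≤ j) (hL : j ≤ e.L) (hc : e.cls j y.1 ξ) (hb : ¬ bigR e z0 y j ξ b) (v : B) :
    Fr e z0 H y v ξ b = trc (pR e y j ξ b) H v := by
  unfold Fr
  rw [sum_eq_single_of_mem j (mem_Icc.2 ⟨h1, hL⟩)]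
  · rw [if_pos ⟨hc, hb⟩]
  · intro k _ hkj
    rw [if_neg]
    rintro ⟨hk', -⟩
    exact hkj (hk'.1.symm.trans hc.1)

theorem fr1_zero (e : Env κ (Ev κ m r) S X W0 (Fin aa → B)) (z0 H : ℝ) (y : Cell κ × Od κ m r) (ξ : e.Xi)
    (b : Dir κ m r → S) (h : ¬ ∃ j, 1 ≤ j ∧ j ≤ e.L ∧ e.cls j y.1 ξ ∧ ¬ bigR e z0 y j ξ b) (v : B) :
    Fr e z0 H y v ξ b = 0 := by
  unfold Fr
  refine sum_eq_zero fun j hj => ?_
  rw [if_neg]
  rintro ⟨hc, hb⟩
  exact h ⟨j, (mem_Icc.1 hj).1, (mem_Icc.1 hj).2, hc, hb⟩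

end fr1b

theorem p_fr1 (h1 : S_pr1) (h2 : S_trunc) : S_fr1 := by
  intro κ m r aa S X W0 B _ _ _ _ e η x z0 H Dn t adj hok hT hadj y ξ b
  have hB := hT.nonemptyB
  have haa : 0 < aa := by
    have := hT.aa_ge
    omega
  have P1 : ∀ j, 1 ≤ j → j ≤ e.L → _ := fun j hj hL => h1 κ m r S X W0 (Fin aa → B) e η x aa hok y j hj hL ξ b
  refine ⟨?_, ?_, ?_, ?_, ?_, ?_⟩
  · intro v
    by_cases hex : ∃ j, 1 ≤ j ∧ j ≤ e.L ∧ e.cls j y.1 ξ ∧ ¬ bigR e z0 y j ξ b
    · obtain ⟨j, hj, hL, hc, hb⟩ := hex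
      rw [fr1_single e z0 H y ξ b j hj hL hc hb v]
      exact fr1_trc_nonneg _ (P1 j hj hL).1 H v
    · rw [fr1_zero e z0 H y ξ b hex v]
  · intro v
    by_cases hex : ∃ j, 1 ≤ j ∧ j ≤ e.L ∧ e.cls j y.1 ξ ∧ ¬ bigR e z0 y j ξ b
    · obtain ⟨j, hj, hL, hc, hb⟩ := hex
      rw [fr1_single e z0 H y ξ b j hj hL hc hb v]
      exact fr1_trc_card _ H hT.H_pos haa v
    · rw [fr1_zero e z0 H y ξ b hex v, zero_mul]
      linarith [hT.H_pos]
  · by_cases hex : ∃ j, 1 ≤ j ∧ j ≤ e.L ∧ e.cls j y.1 ξ ∧ ¬ bigR e z0 y j ξ b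
    · obtain ⟨j, hj, hL, hc, hb⟩ := hex
      rw [sum_congr rfl fun v _ => fr1_single e z0 H y ξ b j hj hL hc hb v]
      exact fr1_trc_sum _ (P1 j hj hL).1 (P1 j hj hL).2.1 H haa
    · rw [sum_congr rfl fun v _ => fr1_zero e z0 H y ξ b hex v]
      simp
  · intro v
    unfold Fr
    refine sum_le_sum fun j hj => ?_
    obtain ⟨hj1, hjL⟩ := mem_Icc.1 hj
    by_cases hc : e.cls j y.1 ξ
    · rw [if_pos hc]
      by_cases hb : bigR e z0 y j ξ b
      · rw [if_neg (fun h => h.2 hb)]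
        exact mul_nonneg (by positivity) (sum_nonneg fun i _ => fr1_mg_nonneg _ (P1 j hj1 hjL).1 i v)
      · rw [if_pos ⟨hc, hb⟩]
        exact fr1_trc_le _ (P1 j hj1 hjL).1 H v
    · rw [if_neg hc, if_neg (fun h => hc h.1)]
  · intro v hv
    by_cases hex : ∃ j, 1 ≤ j ∧ j ≤ e.L ∧ e.cls j y.1 ξ ∧ ¬ bigR e z0 y j ξ b
    · obtain ⟨j, hj, hL, hc, hb⟩ := hex
      rw [fr1_single e z0 H y ξ b j hj hL hc hb v] at hv
      obtain ⟨w, i, hw, hwi⟩ := fr1_trc_ne _ H v hv
      intro t'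
      have := ((P1 j hj hL).2.2.2 w hw).2 t'
      rw [hadj] at this
      rw [← hwi]
      exact this i
    · exact absurd (fr1_zero e z0 H y ξ b hex v) hv
  · intro j hj hL hc hlaw hb
    have hr0 := (P1 j hj hL).1
    have hr1 := (P1 j hj hL).2.2.1 hc hlaw
    have hmin : min j e.L = j := min_eq_left hL
    have hb' : ∀ w, pR e y j ξ b w * (z0 * (e.W j).card) ≤ 1 := by
      intro w
      by_contra hcon
      push_neg at hcon
      apply hb
      refine ⟨w, ?_⟩
      rw [hmin]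
      exact hcon
    have hBpos : (0 : ℝ) < (Fintype.card B : ℝ) ^ aa := by
      have : (0 : ℝ) < Fintype.card B := by exact_mod_cast Fintype.card_pos
      positivity
    have hd := hT.dens j hj hL
    have hzW : 0 ≤ z0 * ((e.W j).card : ℝ) := mul_nonneg hT.z0_pos.le (by positivity)
    have hDn : 0 ≤ Dn := by
      by_contra hneg
      push_neg at hneg
      have := mul_nonpos_of_nonpos_of_nonneg hneg.le hzW
      linarith
    have hdens : ∀ w, pR e y j ξ b w * (Fintype.card B : ℝ) ^ aa ≤ Dn := by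
      intro w
      calc pR e y j ξ b w * (Fintype.card B : ℝ) ^ aa
          ≤ pR e y j ξ b w * (Dn * (z0 * (e.W j).card)) := mul_le_mul_of_nonneg_left hd (hr0 w)
        _ = Dn * (pR e y j ξ b w * (z0 * (e.W j).card)) := by ring
        _ ≤ Dn * 1 := mul_le_mul_of_nonneg_left (hb' w) hDn
        _ = Dn := mul_one _
    constructor
    · rw [sum_congr rfl fun v _ => fr1_single e z0 H y ξ b j hj hL hc hb v]
      exact (h2 B aa t (pR e y j ξ b) Dn H hr0 hr1 hdens hT.H_pos hT.aa_ge hT.trunc).2.1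
    · set Cv : Finset B := {v | ∀ t, adj (e.f (nbr y t).2 (b t)) v} with hCv
      have hsub : (univ.filter fun w : Fin aa → B => pR e y j ξ b w ≠ 0) ⊆ Fintype.piFinset fun _ => Cv := by
        intro w hw
        rw [mem_filter] at hw
        rw [Fintype.mem_piFinset]
        intro i
        rw [hCv, mem_filter]
        refine ⟨mem_univ _, fun t' => ?_⟩
        have := ((P1 j hj hL).2.2.2 w hw.2).2 t'
        rw [hadj] at this
        exact this i
      have hcard : ((univ.filter fun w : Fin aa → B => pR e y j ξ b w ≠ 0).card : ℝ) ≤ (Cv.card : ℝ) ^ aa := by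
        have := card_le_card hsub
        rw [Fintype.card_piFinset] at this
        simp only [prod_const, card_univ, Fintype.card_fin] at this
        exact_mod_cast this
      calc z0 * ((e.W j).card : ℝ) = (∑ w, pR e y j ξ b w) * (z0 * (e.W j).card) := by rw [hr1, one_mul]
        _ = ∑ w, pR e y j ξ b w * (z0 * (e.W j).card) := sum_mul _ _ _
        _ = ∑ w ∈ univ.filter (fun w : Fin aa → B => pR e y j ξ b w ≠ 0), pR e y j ξ b w * (z0 * (e.W j).card) := by
            symm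
            refine sum_subset (subset_univ _) fun w _ hw => ?_
            rw [mem_filter] at hw
            push_neg at hw
            rw [hw (mem_univ _), zero_mul]
        _ ≤ ∑ _w ∈ univ.filter (fun w : Fin aa → B => pR e y j ξ b w ≠ 0), (1 : ℝ) := sum_le_sum fun w _ => hb' w
        _ = ((univ.filter fun w : Fin aa → B => pR e y j ξ b w ≠ 0).card : ℝ) := by simp
        _ ≤ (Cv.card : ℝ) ^ aa := hcard

end Pool.Agent.Lib.MP_33d9ce_co.Cst
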