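import Pool.Agent.Lib.MP_33d9ce_co.Cst.StmD

set_option autoImplicit false

noncomputable section

open Classical Finset

namespace Pool.Agent.Lib.MP_33d9ce_co.Cst

private theorem fth_cnt {aa : ℕ} {B : Type} [Fintype B] (i : Fin aa) (s : Finset B) :
    ({w | w i ∈ s} : Finset (Fin aa → B)).card = s.card * Fintype.card B ^ (aa - 1) := by
  have h : ({w | w i ∈ s} : Finset (Fin aa → B)) =
      Fintype.piFinset (fun j => if j = i then s else univ) := by
    ext w
    simp only [mem_filter, mem_univ, true_and, Fintype.mem_piFinset]
    constructor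
    · intro hw j
      split_ifs with hj
      · subst hj; exact hw
      · exact mem_univ _
    · intro hw
      have := hw i
      rwa [if_pos rfl] at this
  rw [h, Fintype.card_piFinset, ← Finset.mul_prod_erase univ _ (mem_univ i), if_pos rfl]
  congr 1
  rw [Finset.prod_congr rfl (g := fun _ => Fintype.card B), prod_const,
    card_erase_of_mem (mem_univ i), card_univ, Fintype.card_fin]
  intro j hj
  rw [if_neg (ne_of_mem_erase hj), card_univ]

theorem p_fth : S_fth := by
  intro V _ adj A aa h θ hθ0 hθ1 h1 h2 h3 h4
  refine ⟨hθ0, hθ1, ?_, ?_⟩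
  · intro w
    refine le_trans ?_ h3
    have hsub : ({x | ¬ okb adj A x w} : Finset {v // v ∈ A}) ⊆
        univ.biUnion fun i : Fin aa => ({x | ¬ adj x.1 (w i).1} : Finset {v // v ∈ A}) := by
      intro x hx
      simp only [mem_filter, mem_univ, true_and, okb, not_forall] at hx
      simp only [mem_biUnion, mem_filter, mem_univ, true_and]
      exact hx
    have hi : ∀ i : Fin aa, ({x | ¬ adj x.1 (w i).1} : Finset {v // v ∈ A}).card ≤ h := by
      intro i
      refine le_trans ?_ (h1 (w i).1)
      refine card_le_card_of_injOn (fun x => x.1) ?_ ?_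
      · intro x hx
        simp only [coe_filter, mem_univ, true_and, Set.mem_ofPred_eq] at hx ⊢
        exact hx
      · intro x _ y _ hxy
        exact Subtype.ext hxy
    have h5 : ({x | ¬ okb adj A x w} : Finset {v // v ∈ A}).card ≤ aa * h := by
      refine (card_le_card hsub).trans (card_biUnion_le.trans ?_)
      refine (sum_le_sum fun i _ => hi i).trans ?_
      simp
    exact_mod_cast h5
  · intro x
    set B := {v // v ∉ A} with hB
    have hsub : ({w | ¬ okb adj A x w} : Finset (Fin aa → B)) ⊆
        univ.biUnion fun i : Fin aa =>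
          ({w | w i ∈ ({b | ¬ adj x.1 b.1} : Finset B)} : Finset (Fin aa → B)) := by
      intro w hw
      simp only [mem_filter, mem_univ, true_and, okb, not_forall] at hw
      simp only [mem_biUnion, mem_filter, mem_univ, true_and]
      exact hw
    have hb : (({b | ¬ adj x.1 b.1} : Finset B)).card ≤ h := by
      refine le_trans ?_ (h2 x.1)
      refine card_le_card_of_injOn (fun x => x.1) ?_ ?_
      · intro b hb
        simp only [coe_filter, mem_univ, true_and, Set.mem_ofPred_eq] at hb ⊢
        exact hb
      · intro b _ c _ hbc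
        exact Subtype.ext hbc
    have h5 : ({w | ¬ okb adj A x w} : Finset (Fin aa → B)).card ≤
        aa * (h * Fintype.card B ^ (aa - 1)) := by
      refine (card_le_card hsub).trans (card_biUnion_le.trans ?_)
      refine (sum_le_sum fun i _ => ?_).trans
        (le_of_eq (by simp : ∑ i : Fin aa, (h * Fintype.card B ^ (aa - 1)) = _))
      refine (le_of_eq ?_).trans (Nat.mul_le_mul_right _ hb)
      rw [← fth_cnt i ({b | ¬ adj x.1 b.1} : Finset B)]
      congr 1
      ext w
      simp only [mem_filter, mem_univ, true_and]
    have h6 : (({w | ¬ okb adj A x w} : Finset (Fin aa → B)).card : ℝ) ≤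
        aa * (h * (Fintype.card B : ℝ) ^ (aa - 1)) := by exact_mod_cast h5
    refine h6.trans ?_
    rw [Fintype.card_fun, Fintype.card_fin]
    push_cast
    rcases Nat.eq_zero_or_pos aa with h0 | h0
    · subst h0
      simp only [Nat.cast_zero, zero_mul]
      positivity
    · have e : (Fintype.card B : ℝ) ^ aa = Fintype.card B * (Fintype.card B : ℝ) ^ (aa - 1) := by
        rw [← pow_succ', Nat.sub_add_cancel h0]
      rw [e]
      have hp : (0 : ℝ) ≤ (Fintype.card B : ℝ) ^ (aa - 1) := by positivity
      calc (aa : ℝ) * (h * (Fintype.card B : ℝ) ^ (aa - 1))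
          = (aa * h) * (Fintype.card B : ℝ) ^ (aa - 1) := by ring
        _ ≤ (θ * Fintype.card B) * (Fintype.card B : ℝ) ^ (aa - 1) :=
            mul_le_mul_of_nonneg_right h4 hp
        _ = _ := by ring

end Pool.Agent.Lib.MP_33d9ce_co.Cst
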