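import Pool.Agent.Lib.MP_33d9ce_co.Cst.StmC2

/-!
# Spanning hypercubes, constant density: the hat of the family 0
-/

set_option autoImplicit false

noncomputable section

open Classical Finset

namespace Pool.Agent.Lib.MP_33d9ce_co.Cst

open Slack (Cell Ev Od Dir nbr)

private theorem hat0_eta {κ : ℕ} {I S X W0 Ω : Type} [Fintype I] [Fintype S] [Fintype X] [Fintype W0] [Fintype Ω]
    {e : Env κ I S X W0 Ω} {η x : ℝ} {a : ℕ} (h : e.Ok η x a) : 0 < 1 - 4 * η := by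
  have h1 := h.room
  have h2 := h.η_pos
  have h3 : (kap 0 : ℝ) = 10 ^ 7 := by
    show ((kp (10 ^ 7) 2500 0 : ℕ) : ℝ) = 10 ^ 7
    norm_num [kp]
  rw [h3] at h1
  have h4 : (0 : ℝ) ≤ a * η := by positivity
  nlinarith

private theorem hat0_sum {T S : Type} [DecidableEq T] [Fintype T] [Fintype S] (f : T → S → ℝ) :
    ∑ a : T → S, ∏ t, f t (a t) = ∏ t, ∑ s, f t s := by
  rw [prod_univ_sum, Fintype.piFinset_univ]

/-- the positions which satisfy all conditions except the one for the label of family 0 of the cell `q` -/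
private def hat0_L {κ : ℕ} {I S X W0 Ω : Type} [Fintype I] [Fintype S] [Fintype X] [Fintype W0] [Fintype Ω]
    (e : Env κ I S X W0 Ω) (ξ : e.Xi) (q v : Cell κ) (i : I) : Finset S :=
  {s | (∀ q' ∈ nc e.cell 1 v, q' ≠ q → e.ok0 (e.f i s) (ξ.1 q')) ∧
    (e.lv ξ.2 v = 1 → ∀ q' ∈ nc e.cell 1 v, e.ok (e.f i s) (e.vw ξ.2 q' 1))}

private theorem hat0_pos {κ : ℕ} {I S X W0 Ω : Type} [Fintype I] [Fintype S] [Fintype X] [Fintype W0] [Fintype Ω]
    (e : Env κ I S X W0 Ω) (ξ : e.Xi) (q v : Cell κ) (i : I) (hv : e.lv ξ.2 v ≤ 1)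
    (hq : q ∈ nc e.cell 1 v) (c : W0) :
    e.pos (e.lv ξ.2 v) (e.up0 q ξ c) v i = (hat0_L e ξ q v i).filter fun s => e.ok0 (e.f i s) c := by
  ext s
  unfold Env.pos hat0_L Env.up0
  simp only [mem_filter, mem_univ, true_and]
  constructor
  · rintro ⟨h1, h2, -⟩
    refine ⟨⟨fun q' hq' hne => ?_, fun hl => h2 hl⟩, ?_⟩
    · have := h1 hv q' hq'
      rwa [Function.update_of_ne hne] at this
    · have := h1 hv q hq
      rwa [Function.update_self] at this
  · rintro ⟨⟨h1, h2⟩, h3⟩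
    refine ⟨fun _ q' hq' => ?_, fun hl => h2 hl, fun hl => ?_⟩
    · by_cases hne : q' = q
      · rw [hne, Function.update_self]
        exact h3
      · rw [Function.update_of_ne hne]
        exact h1 q' hq' hne
    · omega

/-- the hat of the family 0 -/
theorem p_hat0 (h1 : S_nb1) (h2 : S_alp) (h3 : S_fam) : S_hat0 := by
  intro κ m r S X W0 Ω _ _ _ _ e η x a hok y ξ
  have hη := hat0_eta hok
  have hη0 := hok.η_pos
  by_cases hy : e.yf ξ.2 y.1 = 0
  swap
  · refine ⟨fun _ => 0, fun _ => le_rfl, ?_, ?_⟩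
    · rw [sum_const_zero]
      exact inv_nonneg.2 (pow_nonneg hη.le _)
    · intro c hc
      exact absurd hc hy
  set q := e.cell y.1 with hq
  have hlv : ∀ t, e.lv ξ.2 (nbr y t).1 ≤ 1 := by
    intro t
    have h4 := ((h3 κ X Ω e.ok e.E e.al e.cell e.L (e.vw ξ.2) y.1).1 _ (h1 κ m r y t).1).2
    have h5 : yl e.ok e.E e.al e.cell e.L (e.vw ξ.2) y.1 = 0 := hy
    rw [h5] at h4
    exact h4
  have hqm : ∀ t, q ∈ nc e.cell 1 (nbr y t).1 := fun t => (h1 κ m r y t).2 e.cell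
  -- the allowed positions
  have hal : ∀ t c, e.alw (e.up0 q ξ c) (nbr y t).1 (nbr y t).2 =
      (hat0_L e ξ q (nbr y t).1 (nbr y t).2).filter fun s => e.ok0 (e.f (nbr y t).2 s) c := by
    intro t c
    have h4 := ((h2 κ (Ev κ m r) S X W0 Ω e η x a hok (e.up0 q ξ c) (nbr y t).1 (nbr y t).2).2.1 (hlv t)).1
    rw [h4]
    exact hat0_pos e ξ q _ _ (hlv t) (hqm t) c
  have hsub : ∀ t c, e.alw (e.up0 q ξ c) (nbr y t).1 (nbr y t).2 ⊆ hat0_L e ξ q (nbr y t).1 (nbr y t).2 := by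
    intro t c
    rw [hal t c]
    exact filter_subset _ _
  have hbig : ∀ t c, (2 : ℝ) ^ κ ≤ (e.alw (e.up0 q ξ c) (nbr y t).1 (nbr y t).2).card := by
    intro t c
    have h4 := ((h2 κ (Ev κ m r) S X W0 Ω e η x a hok (e.up0 q ξ c) (nbr y t).1 (nbr y t).2).2.1 (hlv t)).2
    have h5 : (0 : ℝ) < 2 ^ κ := by positivity
    linarith
  have hcard : ∀ t c, (1 - 4 * η) * ((hat0_L e ξ q (nbr y t).1 (nbr y t).2).card : ℝ) ≤
      ((e.alw (e.up0 q ξ c) (nbr y t).1 (nbr y t).2).card : ℝ) := by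
    intro t c
    have h4 : ((hat0_L e ξ q (nbr y t).1 (nbr y t).2).card : ℝ) =
        ((e.alw (e.up0 q ξ c) (nbr y t).1 (nbr y t).2).card : ℝ) +
        (((hat0_L e ξ q (nbr y t).1 (nbr y t).2).filter fun s => ¬ e.ok0 (e.f (nbr y t).2 s) c).card : ℝ) := by
      rw [hal t c]
      exact_mod_cast (card_filter_add_card_filter_not _).symm
    have h5 : (((hat0_L e ξ q (nbr y t).1 (nbr y t).2).filter fun s => ¬ e.ok0 (e.f (nbr y t).2 s) c).card : ℝ) ≤
        (({s | ¬ e.ok0 (e.f (nbr y t).2 s) c} : Finset S).card : ℝ) := by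
      exact_mod_cast card_le_card fun s hs => mem_filter.2 ⟨mem_univ s, (mem_filter.1 hs).2⟩
    have h6 := hok.fair0 (nbr y t).2 c
    have h7 : (2 : ℝ) ^ κ ≤ (hat0_L e ξ q (nbr y t).1 (nbr y t).2).card :=
      (hbig t c).trans (by exact_mod_cast card_le_card (hsub t c))
    have h8 : 4 * η * 2 ^ κ ≤ 4 * η * ((hat0_L e ξ q (nbr y t).1 (nbr y t).2).card : ℝ) :=
      mul_le_mul_of_nonneg_left h7 (by positivity)
    nlinarith
  obtain ⟨c0⟩ := hok.nonempty0
  have hLpos : ∀ t, (0 : ℝ) < (hat0_L e ξ q (nbr y t).1 (nbr y t).2).card := by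
    intro t
    have h5 : (0 : ℝ) < 2 ^ κ := by positivity
    exact h5.trans_le ((hbig t c0).trans (by exact_mod_cast card_le_card (hsub t c0)))
  refine ⟨fun b => ∏ t, if b t ∈ hat0_L e ξ q (nbr y t).1 (nbr y t).2 then
    ((1 - 4 * η) * ((hat0_L e ξ q (nbr y t).1 (nbr y t).2).card : ℝ))⁻¹ else 0, ?_, ?_, ?_⟩
  · intro b
    refine prod_nonneg fun t _ => ?_
    split_ifs
    · exact (inv_pos.2 (mul_pos hη (hLpos t))).le
    · exact le_rfl
  · refine le_of_eq ((hat0_sum (fun t s => if s ∈ hat0_L e ξ q (nbr y t).1 (nbr y t).2 then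
      ((1 - 4 * η) * ((hat0_L e ξ q (nbr y t).1 (nbr y t).2).card : ℝ))⁻¹ else 0)).trans ?_)
    have e1 : ∀ t, ∑ s, (if s ∈ hat0_L e ξ q (nbr y t).1 (nbr y t).2 then
        ((1 - 4 * η) * ((hat0_L e ξ q (nbr y t).1 (nbr y t).2).card : ℝ))⁻¹ else 0) = (1 - 4 * η)⁻¹ := by
      intro t
      rw [sum_ite_mem, univ_inter, sum_const, nsmul_eq_mul, mul_inv, mul_comm (1 - 4 * η)⁻¹, ← mul_assoc,
        mul_inv_cancel₀ (hLpos t).ne', one_mul]
    simp only [e1]
    rw [prod_const, card_univ, inv_pow]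
  · intro c _ b
    unfold Mod.law
    refine prod_le_prod (fun t _ => ?_) fun t _ => ?_
    · unfold Mod.u
      split_ifs
      · positivity
      · exact le_rfl
    · unfold Mod.u
      show (if b t ∈ e.alw (e.up0 q ξ c) (nbr y t).1 (nbr y t).2 then
        ((e.alw (e.up0 q ξ c) (nbr y t).1 (nbr y t).2).card : ℝ)⁻¹ else 0) ≤ _
      by_cases hm : b t ∈ e.alw (e.up0 q ξ c) (nbr y t).1 (nbr y t).2
      · rw [if_pos hm, if_pos (hsub t c hm)]
        exact inv_anti₀ (mul_pos hη (hLpos t)) (hcard t c)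
      · rw [if_neg hm]
        split_ifs
        · exact (inv_pos.2 (mul_pos hη (hLpos t))).le
        · exact le_rfl

end Pool.Agent.Lib.MP_33d9ce_co.Cst
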