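import Pool.Agent.Lib.MP_33d9ce_co.Cst.StmC2

/-!
# Spanning hypercubes, constant density: the hats of the families `j ≥ 1`
-/

set_option autoImplicit false

noncomputable section

open Classical Finset

namespace Pool.Agent.Lib.MP_33d9ce_co.Cst

open Slack (Cell Ev Od Dir nbr)

private theorem hatR_levL {κ : ℕ} {X Ω : Type} [Fintype X] (ok : X → Ω → Prop)
    (E : ℕ → ℕ → Finset X) (al : ℕ → ℝ) (cell : Cell κ → Cell κ) (L : ℕ) (w : Cell κ → ℕ → Ω)
    (u : Cell κ) : lev ok E al cell L w u ≤ L := by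
  unfold lev
  refine Finset.sup_le fun p hp => ?_
  have h1 := (Finset.mem_product.1 (Finset.mem_filter.1 hp).1).1
  rw [Finset.mem_range] at h1
  omega

private theorem hatR_vw {κ : ℕ} {I S X W0 Ω : Type} [Fintype I] [Fintype S] [Fintype X] [Fintype W0]
    [Fintype Ω] (e : Env κ I S X W0 Ω) (ξ : e.Xi) (q : Cell κ) (j : ℕ) (hj : j < e.L + 1)
    (c : {w // w ∈ e.W j}) (q' : Cell κ) (j' : ℕ) (hj' : j' ≤ e.L) (hne : (q', j') ≠ (q, j)) :
    e.vw (e.upA (q, ⟨j, hj⟩) ξ c).2 q' j' = e.vw ξ.2 q' j' := by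
  unfold Env.vw
  show Function.update ξ.2.1 (q, ⟨j, hj⟩) c.1 (q', ⟨min j' e.L, _⟩) = _
  rw [Function.update_of_ne]
  intro h
  apply hne
  have h1 := congrArg Prod.fst h
  have h2 := congrArg (fun z : Cell κ × Fin (e.L + 1) => z.2.1) h
  simp only at h1 h2
  rw [Prod.mk.injEq]
  refine ⟨h1, ?_⟩
  rw [min_eq_left hj'] at h2
  exact h2

private theorem hatR_posm {κ : ℕ} {I S X W0 Ω : Type} [Fintype I] [Fintype S] [Fintype X]
    [Fintype W0] [Fintype Ω] (e : Env κ I S X W0 Ω) (ξ : e.Xi) (q : Cell κ) (j : ℕ)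
    (hj : j < e.L + 1) (c : {w // w ∈ e.W j}) (l : ℕ) (hl : l ≤ e.L) (u : Cell κ) (i : I) :
    e.posm l (e.upA (q, ⟨j, hj⟩) ξ c) u i (q, j) = e.posm l ξ u i (q, j) := by
  unfold Env.posm
  refine Finset.filter_congr fun s _ => ?_
  have e2 : l = 1 → ((∀ q' ∈ nc e.cell 1 u, (q', 1) ≠ (q, j) →
      e.ok (e.f i s) (e.vw (e.upA (q, ⟨j, hj⟩) ξ c).2 q' 1)) ↔
      ∀ q' ∈ nc e.cell 1 u, (q', 1) ≠ (q, j) → e.ok (e.f i s) (e.vw ξ.2 q' 1)) := by
    intro hl1
    refine forall₂_congr fun q' hq' => ?_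
    refine imp_congr_right fun hne => ?_
    rw [hatR_vw e ξ q j hj c q' 1 (by omega) hne]
  have e3 : rrm e.ok e.E (nc e.cell 1 u) (e.vw (e.upA (q, ⟨j, hj⟩) ξ c).2) l (q, j) =
      rrm e.ok e.E (nc e.cell 1 u) (e.vw ξ.2) l (q, j) := by
    unfold rrm
    refine Finset.filter_congr fun x _ => ?_
    refine forall₂_congr fun q' hq' => ?_
    refine and_congr ?_ ?_
    · refine imp_congr_right fun hne => ?_
      rw [hatR_vw e ξ q j hj c q' (l - 1) (by omega) hne]
    · refine imp_congr_right fun hne => ?_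
      rw [hatR_vw e ξ q j hj c q' l hl hne]
  have e1 : (e.upA (q, ⟨j, hj⟩) ξ c).1 = ξ.1 := rfl
  rw [e1, e3]
  refine and_congr Iff.rfl (and_congr ?_ Iff.rfl)
  exact imp_congr_right e2

private theorem hatR_sub {κ : ℕ} {I S X W0 Ω : Type} [Fintype I] [Fintype S] [Fintype X]
    [Fintype W0] [Fintype Ω] (e : Env κ I S X W0 Ω) (ξ : e.Xi) (z : Cell κ × ℕ) (l : ℕ)
    (u : Cell κ) (i : I) : e.pos l ξ u i ⊆ e.posm l ξ u i z := by
  intro s hs
  have h := (Finset.mem_filter.1 hs).2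
  refine Finset.mem_filter.2 ⟨Finset.mem_univ _, h.1, fun h1 q hq _ => h.2.1 h1 q hq, fun h2 => ?_⟩
  have h3 := Finset.mem_filter.1 (h.2.2 h2)
  exact Finset.mem_filter.2 ⟨h3.1, fun q hq => ⟨fun _ => (h3.2 q hq).1, fun _ => (h3.2 q hq).2⟩⟩

/-- the factor of the hat -/
private def hatR_h {S : Type} (Lt : Finset S) (s : S) : ℝ :=
  if s ∈ Lt then 3 / (Lt.card : ℝ) else 0

private theorem hatR_h_nonneg {S : Type} (Lt : Finset S) (s : S) : 0 ≤ hatR_h Lt s := by
  unfold hatR_h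
  split_ifs
  · positivity
  · exact le_rfl

private theorem hatR_h_sum {S : Type} [Fintype S] (Lt : Finset S) : ∑ s, hatR_h Lt s ≤ 3 := by
  unfold hatR_h
  rw [← Finset.sum_filter]
  have h1 : (Finset.univ.filter fun s => s ∈ Lt) = Lt := by
    ext s
    simp
  rw [h1, Finset.sum_const, nsmul_eq_mul]
  rcases Nat.eq_zero_or_pos Lt.card with h | h
  · rw [h]
    norm_num
  · have h' : (0 : ℝ) < Lt.card := by exact_mod_cast h
    have : (Lt.card : ℝ) * (3 / Lt.card) = 3 := by field_simp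
    rw [this]

private theorem hatR_u {S : Type} (al Lt : Finset S) (hsub : al ⊆ Lt) (hc : Lt.card ≤ 3 * al.card)
    (s : S) : (if s ∈ al then ((al.card : ℝ))⁻¹ else 0) ≤ hatR_h Lt s := by
  by_cases hs : s ∈ al
  · rw [if_pos hs]
    unfold hatR_h
    rw [if_pos (hsub hs)]
    have h1 : (0 : ℝ) < al.card := by exact_mod_cast Finset.card_pos.2 ⟨s, hs⟩
    have h2 : (0 : ℝ) < Lt.card := by exact_mod_cast Finset.card_pos.2 ⟨s, hsub hs⟩
    have h3 : (Lt.card : ℝ) ≤ 3 * al.card := by exact_mod_cast hc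
    rw [inv_eq_one_div, div_le_div_iff₀ h1 h2]
    linarith
  · rw [if_neg hs]
    exact hatR_h_nonneg Lt s

theorem p_hatR (h1 : S_nb1) (h2 : S_size) (h3 : S_alp) (h4 : S_fam) : S_hatR := by
  intro κ m r S X W0 Ω _ _ _ _ e η x a hok y j hj1 hj ξ
  obtain ⟨Lt, hLt⟩ : ∃ Lt : Dir κ m r → ℕ → Finset S, ∀ t l, Lt t l =
      e.posm l ξ (nbr y t).1 (nbr y t).2 (e.cell y.1, j) := ⟨_, fun _ _ => rfl⟩
  refine ⟨fun b => ∏ t, (hatR_h (Lt t j) (b t) + hatR_h (Lt t (j + 1)) (b t)), ?_, ?_, ?_⟩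
  · intro b
    exact Finset.prod_nonneg fun t _ => add_nonneg (hatR_h_nonneg _ _) (hatR_h_nonneg _ _)
  · have e1 : ∑ b : Dir κ m r → S, ∏ t, (hatR_h (Lt t j) (b t) + hatR_h (Lt t (j + 1)) (b t)) =
        ∏ t, ∑ s, (hatR_h (Lt t j) s + hatR_h (Lt t (j + 1)) s) := by
      rw [Finset.prod_univ_sum, Fintype.piFinset_univ]
    rw [e1]
    calc ∏ t, ∑ s, (hatR_h (Lt t j) s + hatR_h (Lt t (j + 1)) s)
        ≤ ∏ _t : Dir κ m r, (6 : ℝ) := by
          refine Finset.prod_le_prod (fun t _ => Finset.sum_nonneg fun s _ =>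
            add_nonneg (hatR_h_nonneg _ _) (hatR_h_nonneg _ _)) fun t _ => ?_
          rw [Finset.sum_add_distrib]
          have := hatR_h_sum (Lt t j)
          have := hatR_h_sum (Lt t (j + 1))
          linarith
      _ = 6 ^ Fintype.card (Dir κ m r) := by
          rw [Finset.prod_const, Finset.card_univ]
  · intro c hcls b
    obtain ⟨ξ', hξ'⟩ : ∃ ξ', ξ' = e.upA (e.cell y.1, ⟨j, hj⟩) ξ c := ⟨_, rfl⟩
    rw [← hξ'] at hcls ⊢
    show ∏ t, (e.mod m r).u ξ' (nbr y t).1 (nbr y t).2 (b t) ≤ _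
    refine Finset.prod_le_prod (fun t _ => ?_) fun t _ => ?_
    · unfold Mod.u
      split_ifs
      · positivity
      · exact le_rfl
    · -- one direction
      have hb1 := (h1 κ m r y t).1
      have hq := (h1 κ m r y t).2 e.cell
      obtain ⟨hf1, hf2⟩ := (h4 κ X Ω e.ok e.E e.al e.cell e.L (e.vw ξ'.2) y.1).1 _ hb1
      have hyf : yl e.ok e.E e.al e.cell e.L (e.vw ξ'.2) y.1 = j := hcls.1
      rw [hyf] at hf1 hf2
      have hlL := hatR_levL e.ok e.E e.al e.cell e.L (e.vw ξ'.2) (nbr y t).1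
      obtain ⟨-, ha1, ha2⟩ := h3 κ (Ev κ m r) S X W0 Ω e η x a hok ξ' (nbr y t).1 (nbr y t).2
      obtain ⟨l, hl⟩ : ∃ l, l = e.lv ξ'.2 (nbr y t).1 := ⟨_, rfl⟩
      have hl' : lev e.ok e.E e.al e.cell e.L (e.vw ξ'.2) (nbr y t).1 = l := hl.symm
      rw [hl'] at hf1 hf2 hlL
      rw [← hl] at ha1 ha2
      have hposm : e.posm l ξ' (nbr y t).1 (nbr y t).2 (e.cell y.1, j) = Lt t l := by
        rw [hLt, hξ']
        exact hatR_posm e ξ (e.cell y.1) j hj c l hlL (nbr y t).1 (nbr y t).2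
      have hkey : e.alw ξ' (nbr y t).1 (nbr y t).2 ⊆ Lt t l ∧
          (Lt t l).card ≤ 3 * (e.alw ξ' (nbr y t).1 (nbr y t).2).card := by
        rcases Nat.lt_or_ge l 2 with h | h
        · obtain ⟨hal, hcard⟩ := ha1 (by omega)
          refine ⟨?_, ?_⟩
          · rw [hal, ← hposm]
            exact hatR_sub e ξ' _ l _ _
          · have e1 : (Lt t l).card ≤ Fintype.card S := Finset.card_le_univ _
            have e2 := hok.cardS
            have e3 : (0 : ℝ) < 2 ^ κ := by positivity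
            have e4 : (16 : ℝ) * Fintype.card S = 17 * 2 ^ κ := by exact_mod_cast e2
            have e5 : ((Lt t l).card : ℝ) ≤ Fintype.card S := by exact_mod_cast e1
            have e6 : ((Lt t l).card : ℝ) ≤
                ((3 * (e.alw ξ' (nbr y t).1 (nbr y t).2).card : ℕ) : ℝ) := by
              push_cast
              linarith
            exact_mod_cast e6
        · obtain ⟨hal, htb, -⟩ := ha2 h (hcls.2 _ hb1)
          have hsz := ((h2 κ (Ev κ m r) S X W0 Ω e η x a hok ξ' (nbr y t).1 (nbr y t).2 l).2 h hlL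
            htb).2 (e.cell y.1) hq j (by omega)
          rw [hposm] at hsz
          rw [hal]
          refine ⟨?_, hsz⟩
          rw [← hposm]
          exact hatR_sub e ξ' _ l _ _
      have hu := hatR_u _ _ hkey.1 hkey.2 (b t)
      have hu' : (e.mod m r).u ξ' (nbr y t).1 (nbr y t).2 (b t) ≤ hatR_h (Lt t l) (b t) := hu
      refine hu'.trans ?_
      rcases Nat.lt_or_ge j l with h | h
      · have : l = j + 1 := by omega
        rw [this]
        exact le_add_of_nonneg_left (hatR_h_nonneg _ _)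
      · have : l = j := by omega
        rw [this]
        exact le_add_of_nonneg_right (hatR_h_nonneg _ _)

end Pool.Agent.Lib.MP_33d9ce_co.Cst
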