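import Pool.Agent.Lib.MP_33d9ce_co.Cst.StmM
import Pool.Agent.Lib.MP_33d9ce_co.Slack.Cyl

/-!
# Spanning hypercubes, constant density: the law of the images
-/

set_option autoImplicit false

noncomputable section

open Classical Finset

namespace Pool.Agent.Lib.MP_33d9ce_co.Cst

theorem p_im : S_im := by
  intro P I S Y T Ξ _ _ _ _ _ _ D good μ hμ hinj
  constructor
  · intro y F
    unfold Ex
    congr 1
    refine Finset.sum_congr rfl fun ξ _ => ?_
    have h2 := Slack.cyl (fun i => μ ξ i) (hμ.sum_one ξ) (J := T) (fun t => (D.nb y t).2) (hinj y)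
      (fun t => (D.nb y t).1) (fun a => F ξ a)
    have h3 : ∀ σ : I → P → S, F ξ (D.im σ y) =
        (fun a : T → S => F ξ a) (fun j => σ ((D.nb y j).2) ((D.nb y j).1)) := fun σ => rfl
    simp only [h3]
    rw [h2]
    refine Finset.sum_congr rfl fun a _ => ?_
    simp only [hμ.marg]
    rfl
  · intro y y' F F' hf
    unfold Ex
    congr 1
    refine Finset.sum_congr rfl fun ξ _ => ?_
    have hg : Function.Injective (Sum.elim (fun t => (D.nb y t).2) (fun t => (D.nb y' t).2)) := by
      intro j j' hjj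
      rcases j with t | t <;> rcases j' with t' | t'
      · simp only [Sum.elim_inl] at hjj
        rw [hinj y hjj]
      · exact absurd hjj (hf t t')
      · exact absurd hjj.symm (hf t' t)
      · simp only [Sum.elim_inr] at hjj
        rw [hinj y' hjj]
    have h2 := Slack.cyl (fun i => μ ξ i) (hμ.sum_one ξ) (J := T ⊕ T) _ hg
      (Sum.elim (fun t => (D.nb y t).1) (fun t => (D.nb y' t).1))
      (fun a => F ξ (fun t => a (.inl t)) * F' ξ (fun t => a (.inr t)))
    have h3 : ∀ σ : I → P → S, F ξ (D.im σ y) * F' ξ (D.im σ y') =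
        (fun a : T ⊕ T → S => F ξ (fun t => a (.inl t)) *
          F' ξ (fun t => a (.inr t))) (fun j => σ
            (Sum.elim (fun t => (D.nb y t).2) (fun t => (D.nb y' t).2) j)
            (Sum.elim (fun t => (D.nb y t).1) (fun t => (D.nb y' t).1) j)) := fun σ => rfl
    simp only [h3]
    rw [h2]
    simp only [hμ.marg]
    simp only [Fintype.prod_sum_type, Sum.elim_inl, Sum.elim_inr]
    have h8 := Fintype.sum_equiv (Equiv.sumArrowEquivProdArrow T T S)
      (fun x : T ⊕ T → S => ((∏ a₁, D.u ξ (D.nb y a₁).1 (D.nb y a₁).2 (x (Sum.inl a₁))) *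
          ∏ a₂, D.u ξ (D.nb y' a₂).1 (D.nb y' a₂).2 (x (Sum.inr a₂))) *
        (F ξ (fun t => x (Sum.inl t)) * F' ξ (fun t => x (Sum.inr t))))
      (fun x : (T → S) × (T → S) => (D.law ξ y x.1 * F ξ x.1) *
        (D.law ξ y' x.2 * F' ξ x.2)) (fun x => by
          simp only [Equiv.sumArrowEquivProdArrow, Equiv.coe_fn_mk, Mod.law, Function.comp_def]
          ring)
    refine Eq.trans ?_ (h8.trans ?_)
    · exact Finset.sum_congr (by ext; simp) fun _ _ => rfl
    · rw [Fintype.sum_prod_type, Finset.sum_mul_sum]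

end Pool.Agent.Lib.MP_33d9ce_co.Cst
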