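import Pool.Agent.Lib.MP_33d9ce_co.Cst.StmC3

/-!
# Spanning hypercubes, constant density: the neighbours of an odd vertex lie in different groups
-/

set_option autoImplicit false

noncomputable section

open Classical Finset

namespace Pool.Agent.Lib.MP_33d9ce_co.Cst

open Slack (Cell Ev Od Dir nbr dg R spread)

private lemma inj_dg {κ m r : ℕ} : Function.Injective (dg (k := κ) (m := m) (r := r)) := by
  have h01 : (1 : ZMod 2) ≠ 0 := by decide
  have key : ∀ (i : Fin κ) (s : R κ m r), dg (.inl i) ≠ dg (k := κ) (m := m) (r := r) (.inr s) := by
    intro i s h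
    have h0 := congrFun h (.inl (0, i))
    have h1 := congrFun h (.inl (1, i))
    simp only [dg, spread, Pi.single_eq_same] at h0 h1
    have e0 : s = .inl (0, i) := by
      by_contra hne
      rw [Pi.single_eq_of_ne (Ne.symm hne)] at h0
      exact h01 h0
    have e1 : s = .inl (1, i) := by
      by_contra hne
      rw [Pi.single_eq_of_ne (Ne.symm hne)] at h1
      exact h01 h1
    rw [e0] at e1
    simp at e1
  intro t t' h
  rcases t with i | s <;> rcases t' with i' | s'
  · have h0 := congrFun h (.inl (0, i))
    simp only [dg, spread, Pi.single_eq_same] at h0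
    have : i = i' := by
      by_contra hne
      rw [Pi.single_eq_of_ne hne] at h0
      exact h01 h0
    rw [this]
  · exact absurd h (key i s')
  · exact absurd h.symm (key i' s)
  · have h0 := congrFun h s
    simp only [dg, Pi.single_eq_same] at h0
    have : s = s' := by
      by_contra hne
      rw [Pi.single_eq_of_ne hne] at h0
      exact h01 h0
    rw [this]

theorem p_inj : S_inj := by
  intro κ m r y t t' h
  have h3 := congrArg Subtype.val h
  simp only [nbr] at h3
  exact inj_dg (add_left_cancel h3)

end Pool.Agent.Lib.MP_33d9ce_co.Cst
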