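import Pool.Agent.Lib.MP_33d9ce_co.Cst.StmD

/-!
# Spanning hypercubes, constant density: piece `inv` (few candidates outside force a concentrated row)
-/

set_option autoImplicit false

noncomputable section

open Classical Finset

namespace Pool.Agent.Lib.MP_33d9ce_co.Cst

open Slack (Cell Ev Od Dir nbr shift Lab)

/-- The elements of `C` inside `A`, as a finset of the subtype, are at most `|A|` many. -/
private theorem inv_card_in {V : Type} [Fintype V] (A C : Finset V) :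
    (({v | v.1 ∈ C} : Finset {v // v ∈ A}).card : ℝ) ≤ A.card := by
  have h : ({v | v.1 ∈ C} : Finset {v // v ∈ A}).card ≤ Fintype.card {v // v ∈ A} := card_le_univ _
  have h2 : Fintype.card {v // v ∈ A} = A.card := by simp
  rw [h2] at h
  exact_mod_cast h

/-- The elements of `C` outside `A`, as a finset of the subtype. -/
private theorem inv_card_out {V : Type} [Fintype V] (A C : Finset V) :
    ({v | v.1 ∈ C} : Finset {v // v ∉ A}).card = (C.filter (· ∉ A)).card := by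
  refine card_bij (fun v _ => v.1) ?_ ?_ ?_
  · intro v hv
    rw [mem_filter] at hv ⊢
    exact ⟨hv.2, v.2⟩
  · intro a _ b _ hab
    exact Subtype.ext hab
  · intro b hb
    rw [mem_filter] at hb
    exact ⟨⟨b, hb.2⟩, by simpa using hb.1, rfl⟩

theorem p_inv : S_inv := by
  intro V _ A C row _ h1 hC
  obtain ⟨B', hB'⟩ : ∃ B' : Finset {v // v ∉ A}, B' = ({v | v.1 ∈ C} : Finset {v // v ∉ A}) := ⟨_, rfl⟩
  obtain ⟨A', hA'⟩ : ∃ A' : Finset {v // v ∈ A}, A' = ({v | v.1 ∈ C} : Finset {v // v ∈ A}) := ⟨_, rfl⟩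
  have hb : B'.card = (C.filter (· ∉ A)).card := by rw [hB']; exact inv_card_out A C
  have ha : (A'.card : ℝ) ≤ A.card := by rw [hA']; exact inv_card_in A C
  have hsum : ∑ w ∈ (B' ×ˢ B') ×ˢ (A' ×ˢ A'), row w = 1 := by
    rw [← h1]
    refine sum_subset (subset_univ _) ?_
    intro w _ hw
    by_contra hne
    obtain ⟨h11, h12, h21, h22⟩ := hC w hne
    apply hw
    simp only [mem_product, hB', hA', mem_filter, mem_univ, true_and]
    exact ⟨⟨h11, h12⟩, h21, h22⟩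
  have hcs := sq_sum_le_card_mul_sum_sq (s := (B' ×ˢ B') ×ˢ (A' ×ˢ A')) (f := row)
  rw [hsum] at hcs
  have hcard : ((((B' ×ˢ B') ×ˢ (A' ×ˢ A')).card : ℕ) : ℝ) = (B'.card : ℝ) ^ 2 * (A'.card : ℝ) ^ 2 := by
    simp only [card_product]
    push_cast
    ring
  rw [hcard] at hcs
  have hle : ∑ w ∈ (B' ×ˢ B') ×ˢ (A' ×ˢ A'), row w ^ 2 ≤ ∑ w, row w ^ 2 :=
    sum_le_sum_of_subset_of_nonneg (subset_univ _) fun w _ _ => sq_nonneg _
  have hS : 0 ≤ ∑ w, row w ^ 2 := sum_nonneg fun w _ => sq_nonneg _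
  have h3 : (1 : ℝ) ≤ (B'.card : ℝ) ^ 2 * ((A.card : ℝ) ^ 2 * ∑ w, row w ^ 2) := by
    have h4 : (A'.card : ℝ) ^ 2 ≤ (A.card : ℝ) ^ 2 := by gcongr
    calc (1 : ℝ) = 1 ^ 2 := by norm_num
      _ ≤ (B'.card : ℝ) ^ 2 * (A'.card : ℝ) ^ 2 * ∑ w ∈ (B' ×ˢ B') ×ˢ (A' ×ˢ A'), row w ^ 2 := hcs
      _ ≤ (B'.card : ℝ) ^ 2 * (A'.card : ℝ) ^ 2 * ∑ w, row w ^ 2 := by gcongr
      _ ≤ (B'.card : ℝ) ^ 2 * (A.card : ℝ) ^ 2 * ∑ w, row w ^ 2 := by gcongr
      _ = (B'.card : ℝ) ^ 2 * ((A.card : ℝ) ^ 2 * ∑ w, row w ^ 2) := by ring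
  rw [← hb, inv_pow]
  have hb0 : (0 : ℝ) < (B'.card : ℝ) ^ 2 := by
    rcases (sq_nonneg (B'.card : ℝ)).eq_or_lt with h | h
    · rw [← h, zero_mul] at h3
      exact absurd h3 (by norm_num)
    · exact h
  rw [inv_eq_one_div, div_le_iff₀' hb0]
  exact h3

end Pool.Agent.Lib.MP_33d9ce_co.Cst
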