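import Pool.Agent.Lib.MP_33d9ce_co.Cst.StmM
import Pool.Agent.Lib.MP_33d9ce_co.Slack.Birkhoff

/-!
# Spanning hypercubes, constant density: existence of the random placements
-/

set_option autoImplicit false

noncomputable section

open Classical Finset

namespace Pool.Agent.Lib.MP_33d9ce_co.Cst

variable {P I S Y T Ξ : Type} [Fintype P] [Fintype I] [Fintype S] [Fintype Y] [Fintype T] [Fintype Ξ]

theorem law_u_nonneg (D : Mod P I S Y T Ξ) (ξ : Ξ) (p : P) (i : I) (s : S) : 0 ≤ D.u ξ p i s := by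
  unfold Mod.u
  split_ifs
  · positivity
  · exact le_rfl

theorem law_u_sum (D : Mod P I S Y T Ξ) (h : ∀ ξ p i, (D.al ξ p i).Nonempty) (ξ : Ξ) (p : P) (i : I) :
    ∑ s, D.u ξ p i s = 1 := by
  have h1 : 0 < (D.al ξ p i).card := Finset.card_pos.2 (h ξ p i)
  unfold Mod.u
  rw [sum_ite_mem, univ_inter, sum_const, nsmul_eq_mul]
  exact mul_inv_cancel₀ (by exact_mod_cast h1.ne')

/-- the product law -/
theorem law_prod (m : P → S → ℝ) (h0 : ∀ p s, 0 ≤ m p s) (h1 : ∀ p, ∑ s, m p s = 1) :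
    (∀ τ : P → S, 0 ≤ ∏ p, m p (τ p)) ∧ ∑ τ : P → S, ∏ p, m p (τ p) = 1 ∧
      ∀ p s, ∑ τ : P → S, (if τ p = s then ∏ q, m q (τ q) else 0) = m p s := by
  refine ⟨fun τ => Finset.prod_nonneg fun p _ => h0 p (τ p), ?_, ?_⟩
  · rw [← Fintype.prod_sum]
    exact Finset.prod_eq_one fun p _ => h1 p
  · intro p s
    have e1 : ∀ τ : P → S, (if τ p = s then ∏ q, m q (τ q) else 0) =
        ∏ q, (if q = p then (if τ q = s then m q (τ q) else 0) else m q (τ q)) := by
      intro τ
      by_cases h : τ p = s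
      · rw [if_pos h]
        refine Finset.prod_congr rfl fun q _ => ?_
        by_cases hq : q = p
        · rw [if_pos hq, hq, if_pos h]
        · rw [if_neg hq]
      · rw [if_neg h]
        symm
        apply Finset.prod_eq_zero (Finset.mem_univ p)
        rw [if_pos rfl, if_neg h]
    rw [Finset.sum_congr rfl fun τ _ => e1 τ]
    have e2 := Fintype.prod_sum (fun (q : P) (x : S) => if q = p then (if x = s then m q x else 0) else m q x)
    rw [← e2, Finset.prod_eq_single p]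
    · simp
    · intro q _ hq
      simp only [if_neg hq]
      exact h1 q
    · intro h
      exact absurd (Finset.mem_univ p) h

theorem p_law : S_law := by
  intro P I S Y T Ξ _ _ _ _ _ _ D good hne hcol
  have h1 : ∀ (ξ : Ξ) (i : I), ∃ ν : (P → S) → ℝ, (∀ τ, 0 ≤ ν τ) ∧ ∑ τ, ν τ = 1 ∧
      (good ξ → ∀ τ, ν τ ≠ 0 → Function.Injective τ) ∧
      ∀ p s, ∑ τ, (if τ p = s then ν τ else 0) = D.u ξ p i s := by
    intro ξ i
    by_cases hg : good ξ
    · obtain ⟨ν, m1, m2, m3, m4⟩ := Slack.exists_inj_law (fun p s => D.u ξ p i s)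
        (fun p s => law_u_nonneg D ξ p i s) (fun p => law_u_sum D hne ξ p i) (hcol ξ hg i)
      exact ⟨ν, m1, m2, fun _ => m3, m4⟩
    · obtain ⟨m1, m2, m4⟩ := law_prod (fun p s => D.u ξ p i s)
        (fun p s => law_u_nonneg D ξ p i s) (fun p => law_u_sum D hne ξ p i)
      exact ⟨_, m1, m2, fun h => absurd h hg, m4⟩
  choose μ m1 m2 m3 m4 using h1
  exact ⟨μ, ⟨m1, m2, fun ξ hg i => m3 ξ i hg, m4⟩⟩

end Pool.Agent.Lib.MP_33d9ce_co.Cst
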