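import Pool.Agent.Lib.MP_33d9ce_co.Cst.StmM

/-!
# Spanning hypercubes, constant density: the law of the images is a probability distribution
-/

set_option autoImplicit false

noncomputable section

open Classical Finset

namespace Pool.Agent.Lib.MP_33d9ce_co.Cst

theorem p_lawsum : S_lawsum := by
  intro P I S Y T Ξ _ _ _ _ _ _ D hne ξ y
  have hu0 : ∀ p i s, 0 ≤ D.u ξ p i s := by
    intro p i s
    unfold Mod.u
    split_ifs
    · positivity
    · exact le_refl _
  have hu1 : ∀ p i, ∑ s, D.u ξ p i s = 1 := by
    intro p i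
    unfold Mod.u
    have hc : ((D.al ξ p i).card : ℝ) ≠ 0 := by
      have := (hne ξ p i).card_pos
      positivity
    rw [← Finset.sum_filter, Finset.sum_const, nsmul_eq_mul]
    have hf : Finset.univ.filter (fun s => s ∈ D.al ξ p i) = D.al ξ p i := by
      ext s
      simp
    rw [hf]
    exact mul_inv_cancel₀ hc
  refine ⟨?_, ?_, ?_⟩
  · intro a
    unfold Mod.law
    exact Finset.prod_nonneg fun t _ => hu0 _ _ _
  · unfold Mod.law
    have h := Finset.prod_univ_sum (fun _ : T => (Finset.univ : Finset S))
      (fun (t : T) (s : S) => D.u ξ (D.nb y t).1 (D.nb y t).2 s)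
    rw [Fintype.piFinset_univ] at h
    rw [← h]
    exact Finset.prod_eq_one fun t _ => hu1 _ _
  · intro a ha t
    by_contra hn
    apply ha
    unfold Mod.law
    apply Finset.prod_eq_zero (Finset.mem_univ t)
    unfold Mod.u
    rw [if_neg hn]

end Pool.Agent.Lib.MP_33d9ce_co.Cst
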