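import Pool.Agent.Lib.MP_33d9ce_co.Cst.StmC1

set_option autoImplicit false

noncomputable section

open Classical Finset

namespace Pool.Agent.Lib.MP_33d9ce_co.Cst

open Slack (Cell Ev Od Dir nbr)

theorem lgeo_sub {κ : ℕ} (cell : Cell κ → Cell κ) (u u1 : Cell κ) (D : ℕ)
    (h : hammingDist u u1 ≤ D) : nc cell 1 u1 ⊆ nc cell (D + 1) u := by
  unfold nc
  apply Finset.image_subset_image
  intro v hv
  rw [Finset.mem_filter] at hv ⊢
  refine ⟨hv.1, ?_⟩
  have := hammingDist_triangle u u1 v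
  omega

theorem p_lgeo : S_lgeo := by
  intro κ X Ω _ ok E al cell L w u l hl hle
  unfold lev at hle
  rw [Finset.le_sup_iff (show (⊥ : ℕ) < l from hl)] at hle
  obtain ⟨⟨j, u1⟩, hp, hle⟩ := hle
  rw [Finset.mem_filter, Finset.mem_product, Finset.mem_range] at hp
  obtain ⟨⟨hj, -⟩, hbad⟩ := hp
  dsimp only at hj hbad hle
  have hlj : l ≤ j + 1 := by omega
  have hd : hammingDist u u1 ≤ 2 * (j + 1 - l) := by omega
  have hsub := lgeo_sub cell u u1 _ hd
  by_cases hc : kap j < (nc cell (2 * (j + 1 - l) + 1) u).card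
  · exact Or.inl ⟨j, hlj, hj, hc⟩
  · right
    rw [not_lt] at hc
    rcases hbad with hb | ⟨h2, hb⟩
    · exact absurd (lt_of_lt_of_le hb (Finset.card_le_card hsub)) (not_lt.2 hc)
    · exact ⟨j, h2, hlj, hj, hc, _, hsub, hb⟩

end Pool.Agent.Lib.MP_33d9ce_co.Cst
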