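import Pool.Agent.Lib.MP_33d9ce_co.Cst.StmM

set_option autoImplicit false

noncomputable section

open Classical Finset

namespace Pool.Agent.Lib.MP_33d9ce_co.Cst

variable {P I S Y T Ξ : Type} [Fintype P] [Fintype I] [Fintype S] [Fintype Y] [Fintype T] [Fintype Ξ]

theorem lin_add (μ : Ξ → I → (P → S) → ℝ) (F G : Ξ → (I → P → S) → ℝ) :
    Ex μ (fun ξ σ => F ξ σ + G ξ σ) = Ex μ F + Ex μ G := by
  unfold Ex
  simp only [mul_add, Finset.sum_add_distrib]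

theorem lin_smul (μ : Ξ → I → (P → S) → ℝ) (c : ℝ) (F : Ξ → (I → P → S) → ℝ) :
    Ex μ (fun ξ σ => c * F ξ σ) = c * Ex μ F := by
  unfold Ex
  rw [mul_left_comm c]
  congr 1
  rw [Finset.mul_sum]
  apply Finset.sum_congr rfl
  intro ξ _
  rw [Finset.mul_sum]
  apply Finset.sum_congr rfl
  intro σ _
  ring

theorem lin_zero (μ : Ξ → I → (P → S) → ℝ) : Ex μ (fun _ _ => (0 : ℝ)) = 0 := by
  unfold Ex
  simp

theorem lin_sum (μ : Ξ → I → (P → S) → ℝ) {K : Type} (s : Finset K)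
    (F : K → Ξ → (I → P → S) → ℝ) :
    Ex μ (fun ξ σ => ∑ k ∈ s, F k ξ σ) = ∑ k ∈ s, Ex μ (F k) := by
  induction s using Finset.induction_on with
  | empty =>
    simp only [Finset.sum_empty]
    exact lin_zero μ
  | insert a s ha ih =>
    simp only [Finset.sum_insert ha]
    rw [lin_add, ih]

theorem lin_mono (μ : Ξ → I → (P → S) → ℝ) (h0 : ∀ ξ i τ, 0 ≤ μ ξ i τ)
    (F G : Ξ → (I → P → S) → ℝ)
    (h : ∀ ξ σ, (∏ i, μ ξ i (σ i)) ≠ 0 → F ξ σ ≤ G ξ σ) : Ex μ F ≤ Ex μ G := by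
  unfold Ex
  apply mul_le_mul_of_nonneg_left _ (by positivity)
  apply Finset.sum_le_sum
  intro ξ _
  apply Finset.sum_le_sum
  intro σ _
  by_cases hz : (∏ i, μ ξ i (σ i)) = 0
  · rw [hz, zero_mul, zero_mul]
  · exact mul_le_mul_of_nonneg_left (h ξ σ hz) (Finset.prod_nonneg fun i _ => h0 ξ i (σ i))

theorem lin_const [Nonempty Ξ] (μ : Ξ → I → (P → S) → ℝ) (h1 : ∀ ξ i, ∑ τ, μ ξ i τ = 1) (c : ℝ) :
    Ex μ (fun _ _ => c) = c := by
  have hw : ∀ ξ, ∑ σ : I → P → S, (∏ i, μ ξ i (σ i)) = 1 := by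
    intro ξ
    have h := Finset.prod_univ_sum (fun _ : I => (Finset.univ : Finset (P → S)))
      (fun i τ => μ ξ i τ)
    rw [Fintype.piFinset_univ] at h
    rw [← h]
    simp only [h1, Finset.prod_const_one]
  unfold Ex
  simp only [← Finset.sum_mul, hw, one_mul]
  rw [Finset.sum_const, Finset.card_univ, nsmul_eq_mul, ← mul_assoc, inv_mul_cancel₀, one_mul]
  exact_mod_cast Fintype.card_ne_zero

theorem p_lin : S_lin := by
  intro P I S Y T Ξ _ _ _ _ _ _ _ D good μ hμ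
  refine ⟨fun F G => lin_add μ F G, fun c F => lin_smul μ c F, fun K s F => lin_sum μ s F,
    fun F G h => lin_mono μ hμ.nonneg F G h, fun c => lin_const μ hμ.sum_one c, ?_⟩
  intro F hF
  by_contra hcon
  push Not at hcon
  have h1 : Ex μ (fun _ _ => (1 : ℝ)) ≤ Ex μ F :=
    lin_mono μ hμ.nonneg _ _ (fun ξ σ h => hcon ξ σ h)
  rw [lin_const μ hμ.sum_one] at h1
  linarith

end Pool.Agent.Lib.MP_33d9ce_co.Cst
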