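import Pool.Agent.Lib.MP_33d9ce_co.Cst.StmC1

set_option autoImplicit false

noncomputable section

open Classical Finset

namespace Pool.Agent.Lib.MP_33d9ce_co.Cst

open Slack (Cell Ev Od Dir nbr)

theorem p_lip : S_lip := by
  intro κ X Ω _ ok E al cell L w u u' h
  unfold lev
  refine Finset.sup_le fun p hp => ?_
  have h1 := Finset.le_sup (f := fun p : ℕ × Cell κ => p.1 + 1 - (hammingDist u' p.2 + 1) / 2) hp
  have h2 : hammingDist u' p.2 ≤ hammingDist u' u + hammingDist u p.2 := hammingDist_triangle _ _ _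
  rw [hammingDist_comm u' u] at h2

  omega

end Pool.Agent.Lib.MP_33d9ce_co.Cst
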