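import Pool.Agent.Lib.MP_33d9ce_co.Cst.StmC3

/-!
# Spanning hypercubes, constant density: expected loads
-/

set_option autoImplicit false

noncomputable section

open Classical Finset

namespace Pool.Agent.Lib.MP_33d9ce_co.Cst

open Slack (Cell Ev Od Dir nbr shift)

private theorem load_ne {κ : ℕ} {I S X W0 Ω : Type} [Fintype I] [Fintype S] [Fintype X] [Fintype W0]
    [Fintype Ω] (e : Env κ I S X W0 Ω) (η x : ℝ) (a : ℕ) (h : e.Ok η x a) : Nonempty e.Xi := by
  obtain ⟨w0⟩ := h.nonempty0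
  exact ⟨(fun _ => w0, ⟨fun z => (h.nonempty z.2).choose, fun z => (h.nonempty z.2).choose_spec⟩)⟩

private theorem load_law_nonneg {P I S Y T Ξ : Type} [Fintype T]
    (D : Mod P I S Y T Ξ) (ξ : Ξ) (y : Y) (b : T → S) : 0 ≤ D.law ξ y b := by
  unfold Mod.law
  refine Finset.prod_nonneg fun t _ => ?_
  unfold Mod.u
  split_ifs
  · positivity
  · exact le_refl 0

/-- the number of words with a prescribed letter -/
private theorem load_words {B : Type} [Fintype B] (a : ℕ) (i : Fin a) (v : B) :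
    ∑ w : Fin a → B, (if w i = v then (1 : ℝ) else 0) = (Fintype.card B : ℝ) ^ (a - 1) := by
  have h1 : (univ.filter fun w : Fin a → B => w i = v) =
      Fintype.piFinset fun k => if k = i then {v} else univ := by
    ext w
    rw [Finset.mem_filter, Fintype.mem_piFinset]
    constructor
    · rintro ⟨-, h⟩ k
      by_cases hk : k = i
      · subst hk
        rw [if_pos rfl, Finset.mem_singleton]
        exact h
      · rw [if_neg hk]
        exact Finset.mem_univ _
    · intro h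
      refine ⟨Finset.mem_univ _, ?_⟩
      have := h i
      rw [if_pos rfl, Finset.mem_singleton] at this
      exact this
  rw [← Finset.sum_filter, Finset.sum_const, nsmul_eq_mul, mul_one, h1, Fintype.card_piFinset]
  rw [← Finset.mul_prod_erase _ _ (Finset.mem_univ i)]
  rw [if_pos rfl, Finset.card_singleton, one_mul]
  have h2 : ∀ k ∈ (univ : Finset (Fin a)).erase i, (if k = i then ({v} : Finset B) else univ).card =
      Fintype.card B := by
    intro k hk
    rw [if_neg (Finset.ne_of_mem_erase hk), Finset.card_univ]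
  rw [Finset.prod_congr rfl h2, Finset.prod_const, Finset.card_erase_of_mem (Finset.mem_univ i),
    Finset.card_univ, Fintype.card_fin]
  push_cast
  rfl

private theorem load_swap {Ξ A I W : Type} [Fintype Ξ] [Fintype A] [Fintype I] [Fintype W] (J : Finset ℕ)
    (G : Ξ → A → ℕ → I → W → ℝ) :
    ∑ ξ, ∑ b, ∑ j ∈ J, ∑ i, ∑ w, G ξ b j i w = ∑ j ∈ J, ∑ i, ∑ w, ∑ ξ, ∑ b, G ξ b j i w := by
  have h1 : ∀ ξ, ∑ b, ∑ j ∈ J, ∑ i, ∑ w, G ξ b j i w = ∑ j ∈ J, ∑ i, ∑ w, ∑ b, G ξ b j i w := by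
    intro ξ
    rw [Finset.sum_comm]
    refine Finset.sum_congr rfl fun j _ => ?_
    rw [Finset.sum_comm]
    refine Finset.sum_congr rfl fun i _ => ?_
    rw [Finset.sum_comm]
  rw [Finset.sum_congr rfl fun ξ _ => h1 ξ, Finset.sum_comm]
  refine Finset.sum_congr rfl fun j _ => ?_
  rw [Finset.sum_comm]
  refine Finset.sum_congr rfl fun i _ => ?_
  rw [Finset.sum_comm]

/-- abstract bound for one odd vertex -/
private theorem load_abs {Ξ A B : Type} [Fintype Ξ] [Fintype A] [Fintype B] (a : ℕ) (J : Finset ℕ)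
    (lw : Ξ → A → ℝ) (cl : ℕ → Ξ → Prop) (p : ℕ → Ξ → A → (Fin a → B) → ℝ) (F : Ξ → A → ℝ) (v : B)
    (hl : ∀ ξ b, 0 ≤ lw ξ b) (ha : 0 < a)
    (hF : ∀ ξ b, F ξ b ≤ ∑ j ∈ J, if cl j ξ then 2 / a * ∑ i, mg (p j ξ b) i v else 0)
    (K : ℕ → ℝ) (hK : ∀ j ∈ J, ∀ w, ∑ ξ, (if cl j ξ then ∑ b, lw ξ b * p j ξ b w else 0) ≤ K j) :
    ∑ ξ, ∑ b, lw ξ b * F ξ b ≤ ∑ j ∈ J, 2 * (Fintype.card B : ℝ) ^ (a - 1) * K j := by
  have ha' : (0 : ℝ) < a := by exact_mod_cast ha
  calc ∑ ξ, ∑ b, lw ξ b * F ξ b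
      ≤ ∑ ξ, ∑ b, lw ξ b * ∑ j ∈ J, (if cl j ξ then 2 / a * ∑ i, mg (p j ξ b) i v else 0) :=
        Finset.sum_le_sum fun ξ _ => Finset.sum_le_sum fun b _ =>
          mul_le_mul_of_nonneg_left (hF ξ b) (hl ξ b)
    _ = ∑ j ∈ J, ∑ i : Fin a, ∑ w : Fin a → B, (if w i = v then (1 : ℝ) else 0) *
          (2 / a * ∑ ξ, (if cl j ξ then ∑ b, lw ξ b * p j ξ b w else 0)) := by
        have e1 : ∀ ξ b, lw ξ b * ∑ j ∈ J, (if cl j ξ then 2 / a * ∑ i, mg (p j ξ b) i v else 0) =
            ∑ j ∈ J, ∑ i : Fin a, ∑ w : Fin a → B, (if w i = v then (1 : ℝ) else 0) *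
              (2 / a * (if cl j ξ then lw ξ b * p j ξ b w else 0)) := by
          intro ξ b
          rw [Finset.mul_sum]
          refine Finset.sum_congr rfl fun j _ => ?_
          by_cases hc : cl j ξ
          · simp only [if_pos hc]
            rw [Finset.mul_sum, Finset.mul_sum]
            refine Finset.sum_congr rfl fun i _ => ?_
            unfold mg
            rw [Finset.mul_sum, Finset.mul_sum]
            refine Finset.sum_congr rfl fun w _ => ?_
            by_cases hw : w i = v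
            · rw [if_pos hw, if_pos hw]
              ring
            · rw [if_neg hw, if_neg hw]
              ring
          · simp only [if_neg hc, mul_zero, Finset.sum_const_zero]
        have e2 : ∀ j ξ w, (if cl j ξ then ∑ b, lw ξ b * p j ξ b w else 0) =
            ∑ b, (if cl j ξ then lw ξ b * p j ξ b w else 0) := by
          intro j ξ w
          by_cases hc : cl j ξ
          · simp only [if_pos hc]
          · simp only [if_neg hc, Finset.sum_const_zero]
        have e3 : ∀ (j : ℕ) (i : Fin a) (w : Fin a → B), (if w i = v then (1 : ℝ) else 0) *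
            (2 / a * ∑ ξ, (if cl j ξ then ∑ b, lw ξ b * p j ξ b w else 0)) =
            ∑ ξ, ∑ b, (if w i = v then (1 : ℝ) else 0) * (2 / a * (if cl j ξ then lw ξ b * p j ξ b w else 0)) := by
          intro j i w
          rw [Finset.mul_sum, Finset.mul_sum]
          refine Finset.sum_congr rfl fun ξ _ => ?_
          rw [e2, Finset.mul_sum, Finset.mul_sum]
        rw [Finset.sum_congr rfl fun j _ => Finset.sum_congr rfl fun i _ =>
          Finset.sum_congr rfl fun w _ => e3 j i w]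
        rw [Finset.sum_congr rfl fun ξ _ => Finset.sum_congr rfl fun b _ => e1 ξ b]
        exact load_swap J (fun ξ b j i w => (if w i = v then (1 : ℝ) else 0) *
              (2 / a * (if cl j ξ then lw ξ b * p j ξ b w else 0)))
    _ ≤ ∑ j ∈ J, ∑ i : Fin a, ∑ w : Fin a → B, (if w i = v then (1 : ℝ) else 0) * (2 / a * K j) := by
        refine Finset.sum_le_sum fun j hj => Finset.sum_le_sum fun i _ => Finset.sum_le_sum fun w _ => ?_
        refine mul_le_mul_of_nonneg_left ?_ ?_
        · exact mul_le_mul_of_nonneg_left (hK j hj w) (by positivity)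
        · split_ifs
          · exact zero_le_one
          · exact le_refl 0
    _ = ∑ j ∈ J, 2 * (Fintype.card B : ℝ) ^ (a - 1) * K j := by
        refine Finset.sum_congr rfl fun j _ => ?_
        simp only [← Finset.sum_mul, load_words]
        rw [Finset.sum_const, Finset.card_univ, Fintype.card_fin, nsmul_eq_mul]
        field_simp

private theorem load_cell (κ : ℕ) : (Fintype.card (Cell κ) : ℝ) = 2 ^ κ := by
  have : Fintype.card (Cell κ) = 2 ^ κ := by
    unfold Cell
    rw [Fintype.card_fun, ZMod.card, Fintype.card_fin]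
  rw [this]
  push_cast
  rfl

private theorem load_inst {α : Type} (i1 i2 : Fintype α) (F : α → ℝ) (c : ℝ)
    (h : @Finset.sum α ℝ _ (@Finset.univ α i1) F ≤ c * (@Fintype.card α i1 : ℝ)) :
    @Finset.sum α ℝ _ (@Finset.univ α i2) F ≤ c * (@Fintype.card α i2 : ℝ) := by
  cases Subsingleton.elim i1 i2
  exact h

private theorem load_filt {α : Type} [Fintype α] (p : α → Prop) (d1 d2 : DecidablePred p) (c : ℝ)
    (h : ((@Finset.filter α p d1 univ).card : ℝ) ≤ c) : ((@Finset.filter α p d2 univ).card : ℝ) ≤ c := by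
  cases Subsingleton.elim d1 d2
  exact h

theorem p_load (h1 : S_fr1) (h2 : S_pr2) (h3 : S_im) (h4 : S_inj) (h5 : S_lin) : S_load := by
  intro κ m r aa S X W0 B _ _ _ _ e η x z0 H Dn t adj om ep g δ μ hOk hT hadj hLvl hμ v
  have : Nonempty e.Xi := load_ne e η x aa hOk
  obtain ⟨him, -⟩ := h3 _ _ _ _ _ _ (e.mod m r) e.good μ hμ (fun y => h4 κ m r y)
  have hcard : (0 : ℝ) < Fintype.card e.Xi := by exact_mod_cast Fintype.card_pos
  have haa : 0 < aa := by have := hT.aa_ge; omega
  have key : ∀ y : Cell κ × Od κ m r, Ex μ (fun ξ σ => Fr e z0 H y v ξ ((e.mod m r).im σ y)) ≤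
      ∑ j ∈ Icc 1 e.L, 2 * (Fintype.card B : ℝ) ^ (aa - 1) *
        (((if geom e.cell kap e.L j y.1 then 1 else 0) + sml e.L ep j) * ((e.W j).card : ℝ)⁻¹) := by
    intro y
    have e1 := him y (fun ξ b => Fr e z0 H y v ξ b)
    have hF : ∀ (ξ : e.Xi) (b : Dir κ m r → S), Fr e z0 H y v ξ b ≤
        ∑ j ∈ Icc 1 e.L, if e.cls j y.1 ξ then 2 / aa * ∑ i, mg (pR e y j ξ b) i v else 0 :=
      fun ξ b => (h1 κ m r aa S X W0 B e η x z0 H Dn t adj hOk hT hadj y ξ b).2.2.2.1 v
    have hK : ∀ j ∈ Icc 1 e.L, ∀ w,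
        ∑ ξ : e.Xi, (if e.cls j y.1 ξ then ∑ b, (e.mod m r).law ξ y b * pR e y j ξ b w else 0) ≤
        (((if geom e.cell kap e.L j y.1 then 1 else 0) + sml e.L ep j) * ((e.W j).card : ℝ)⁻¹) *
          Fintype.card e.Xi :=
      by
        intro j hj w
        have h := h2 κ m r S X W0 (Fin aa → B) e η x aa om ep g δ hOk hLvl y j
          (Finset.mem_Icc.mp hj).1 (Finset.mem_Icc.mp hj).2 w
        exact load_inst _ _ _ _ h
    have hl : ∀ (ξ : e.Xi) (b : Dir κ m r → S), 0 ≤ (e.mod m r).law ξ y b :=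
      fun ξ b => load_law_nonneg (e.mod m r) ξ y b
    have e2 := load_abs aa (Icc 1 e.L) (fun (ξ : e.Xi) (b : Dir κ m r → S) => (e.mod m r).law ξ y b)
      (fun j ξ => e.cls j y.1 ξ)
      (fun j ξ b => pR e y j ξ b) (fun ξ b => Fr e z0 H y v ξ b) v
      hl haa hF
      (fun j => (((if geom e.cell kap e.L j y.1 then 1 else 0) + sml e.L ep j) * ((e.W j).card : ℝ)⁻¹) *
        Fintype.card e.Xi) hK
    have e3 : Ex μ (fun ξ σ => Fr e z0 H y v ξ ((e.mod m r).im σ y)) =
        (Fintype.card e.Xi : ℝ)⁻¹ * ∑ ξ : e.Xi, ∑ b, (e.mod m r).law ξ y b * Fr e z0 H y v ξ b := by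
      refine e1.trans ?_
      congr 1
      refine Finset.sum_congr rfl fun ξ _ => ?_
      congr 1
      ext x
      simp
    rw [e3]
    calc (Fintype.card e.Xi : ℝ)⁻¹ * ∑ ξ : e.Xi, ∑ b, (e.mod m r).law ξ y b * Fr e z0 H y v ξ b
        ≤ (Fintype.card e.Xi : ℝ)⁻¹ * ∑ j ∈ Icc 1 e.L, 2 * (Fintype.card B : ℝ) ^ (aa - 1) *
          ((((if geom e.cell kap e.L j y.1 then 1 else 0) + sml e.L ep j) * ((e.W j).card : ℝ)⁻¹) *
            Fintype.card e.Xi) := mul_le_mul_of_nonneg_left e2 (inv_nonneg.mpr hcard.le)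
      _ = _ := by
          rw [Finset.mul_sum]
          refine Finset.sum_congr rfl fun j _ => ?_
          field_simp
  refine (Finset.sum_le_sum fun y _ => key y).trans ?_
  rw [Finset.sum_comm]
  refine Finset.sum_le_sum fun j hj => ?_
  obtain ⟨hj1, hj2⟩ := Finset.mem_Icc.mp hj
  have hg := hLvl.geo j hj1 hj2
  have s1 : ∑ y : Cell κ × Od κ m r, ((if geom e.cell kap e.L j y.1 then (1 : ℝ) else 0) + sml e.L ep j) ≤
      ((g j + sml e.L ep j) * 2 ^ κ) * Fintype.card (Od κ m r) := by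
    rw [Fintype.sum_prod_type]
    have s0 : ∀ u : Cell κ, ∑ g : Od κ m r,
        ((if geom e.cell kap e.L j (u, g).1 then (1 : ℝ) else 0) + sml e.L ep j) =
        Fintype.card (Od κ m r) * ((if geom e.cell kap e.L j u then 1 else 0) + sml e.L ep j) := by
      intro u
      rw [← nsmul_eq_mul, ← Finset.card_univ, ← Finset.sum_const]
    rw [Finset.sum_congr rfl fun u _ => s0 u]
    rw [← Finset.mul_sum, Finset.sum_add_distrib, Finset.sum_const, Finset.card_univ, nsmul_eq_mul,
      ← Finset.sum_filter, Finset.sum_const, nsmul_eq_mul, mul_one, load_cell]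
    have hO : (0 : ℝ) ≤ Fintype.card (Od κ m r) := Nat.cast_nonneg _
    rw [mul_comm]
    refine mul_le_mul_of_nonneg_right ?_ hO
    rw [add_mul]
    refine add_le_add ?_ (le_of_eq (mul_comm _ _))
    exact load_filt _ _ _ _ hg
  calc ∑ y : Cell κ × Od κ m r, 2 * (Fintype.card B : ℝ) ^ (aa - 1) *
        (((if geom e.cell kap e.L j y.1 then 1 else 0) + sml e.L ep j) * ((e.W j).card : ℝ)⁻¹)
      = 2 * (Fintype.card B : ℝ) ^ (aa - 1) * ((e.W j).card : ℝ)⁻¹ *
        ∑ y : Cell κ × Od κ m r, ((if geom e.cell kap e.L j y.1 then (1 : ℝ) else 0) + sml e.L ep j) := by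
        rw [Finset.mul_sum]
        refine Finset.sum_congr rfl fun y _ => ?_
        ring
    _ ≤ 2 * (Fintype.card B : ℝ) ^ (aa - 1) * ((e.W j).card : ℝ)⁻¹ *
        (((g j + sml e.L ep j) * 2 ^ κ) * Fintype.card (Od κ m r)) :=
        mul_le_mul_of_nonneg_left s1 (by positivity)
    _ = _ := by ring

end Pool.Agent.Lib.MP_33d9ce_co.Cst
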