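import Pool.Agent.Lib.MP_33d9ce_co.Cst.StmC2

/-!
# Spanning hypercubes, constant density: locality
-/

set_option autoImplicit false

noncomputable section

open Classical Finset

namespace Pool.Agent.Lib.MP_33d9ce_co.Cst

open Slack (Cell Ev Od Dir nbr)

private theorem loc_nc {κ : ℕ} (cell : Cell κ → Cell κ) {D D' : ℕ} {u v : Cell κ}
    (h : hammingDist u v + D ≤ D') : nc cell D v ⊆ nc cell D' u := by
  intro q hq
  unfold nc at hq ⊢
  rw [Finset.mem_image] at hq ⊢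
  obtain ⟨p, hp, rfl⟩ := hq
  refine ⟨p, ?_, rfl⟩
  have hp' := (Finset.mem_filter.1 hp).2
  refine Finset.mem_filter.2 ⟨Finset.mem_univ _, ?_⟩
  exact (hammingDist_triangle u v p).trans (by omega)

private theorem loc_rr {κ : ℕ} {X Ω : Type} (ok : X → Ω → Prop) (E : ℕ → ℕ → Finset X)
    (st : Finset (Cell κ)) (w w' : Cell κ → ℕ → Ω) (l : ℕ) (h : ∀ q ∈ st, ∀ j, w q j = w' q j) :
    rr ok E st w l = rr ok E st w' l := by
  unfold rr
  refine Finset.filter_congr fun x _ => ?_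
  refine forall₂_congr fun q hq => ?_
  rw [h q hq, h q hq]

private theorem loc_vw {κ : ℕ} {I S X W0 Ω : Type} [Fintype I] [Fintype S] [Fintype X] [Fintype W0]
    [Fintype Ω] (e : Env κ I S X W0 Ω) (A : Finset (Cell κ)) (ξ ξ' : e.Xi)
    (h : ∀ q ∈ A, ξ.1 q = ξ'.1 q ∧ ∀ j, ξ.2.1 (q, j) = ξ'.2.1 (q, j)) (q : Cell κ) (hq : q ∈ A)
    (j : ℕ) : e.vw ξ.2 q j = e.vw ξ'.2 q j := by
  unfold Env.vw
  exact (h q hq).2 _

private theorem loc_lev (h2 : S_lz) {κ : ℕ} {I S X W0 Ω : Type} [Fintype I] [Fintype S] [Fintype X]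
    [Fintype W0] [Fintype Ω] (e : Env κ I S X W0 Ω) (u v : Cell κ) (hv : v ∈ b1 u) (ξ ξ' : e.Xi)
    (h : ∀ q ∈ e.zone u, ξ.1 q = ξ'.1 q ∧ ∀ j, ξ.2.1 (q, j) = ξ'.2.1 (q, j)) :
    e.lv ξ.2 v = e.lv ξ'.2 v ∧ (e.bd ξ.2 e.L v ↔ e.bd ξ'.2 e.L v) := by
  have hd : hammingDist u v ≤ 1 := (Finset.mem_filter.1 hv).2
  refine h2 κ X Ω e.ok e.E e.al e.cell e.L (e.vw ξ.2) (e.vw ξ'.2) v ?_
  intro q hq j
  refine loc_vw e (e.zone u) ξ ξ' h q ?_ j
  exact loc_nc e.cell (by omega) hq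

private theorem loc_al (h2 : S_lz) {κ : ℕ} {I S X W0 Ω : Type} [Fintype I] [Fintype S] [Fintype X]
    [Fintype W0] [Fintype Ω] (e : Env κ I S X W0 Ω) (u v : Cell κ) (hv : v ∈ b1 u) (ξ ξ' : e.Xi)
    (h : ∀ q ∈ e.zone u, ξ.1 q = ξ'.1 q ∧ ∀ j, ξ.2.1 (q, j) = ξ'.2.1 (q, j)) (i : I) :
    e.alw ξ v i = e.alw ξ' v i := by
  have hd : hammingDist u v ≤ 1 := (Finset.mem_filter.1 hv).2
  have hsub : ∀ q ∈ nc e.cell 1 v, q ∈ e.zone u := by
    intro q hq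
    exact loc_nc e.cell (by omega) hq
  have hl := (loc_lev h2 e u v hv ξ ξ' h).1
  have hpos : ∀ l, e.pos l ξ v i = e.pos l ξ' v i := by
    intro l
    unfold Env.pos
    refine Finset.filter_congr fun s _ => ?_
    have e1 : (∀ q ∈ nc e.cell 1 v, e.ok0 (e.f i s) (ξ.1 q)) ↔
        ∀ q ∈ nc e.cell 1 v, e.ok0 (e.f i s) (ξ'.1 q) := by
      refine forall₂_congr fun q hq => ?_
      rw [(h q (hsub q hq)).1]
    have e2 : (∀ q ∈ nc e.cell 1 v, e.ok (e.f i s) (e.vw ξ.2 q 1)) ↔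
        ∀ q ∈ nc e.cell 1 v, e.ok (e.f i s) (e.vw ξ'.2 q 1) := by
      refine forall₂_congr fun q hq => ?_
      rw [loc_vw e (e.zone u) ξ ξ' h q (hsub q hq) 1]
    rw [e1, e2, loc_rr e.ok e.E (nc e.cell 1 v) (e.vw ξ.2) (e.vw ξ'.2) l
      (fun q hq j => loc_vw e (e.zone u) ξ ξ' h q (hsub q hq) j)]
  unfold Env.alw
  rw [hl, hpos]

theorem p_loc (h1 : S_nb1) (h2 : S_lz) : S_loc := by
  intro κ m r S X W0 Ω _ _ _ _ e
  have hyf : ∀ u, e.Loc (e.zone u) (fun ξ => e.yf ξ.2 u) := by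
    intro u ξ ξ' h
    show (b1 u).inf' (b1_nonempty u) (lev e.ok e.E e.al e.cell e.L (e.vw ξ.2)) =
      (b1 u).inf' (b1_nonempty u) (lev e.ok e.E e.al e.cell e.L (e.vw ξ'.2))
    refine Finset.inf'_congr _ rfl fun v hv => ?_
    exact (loc_lev h2 e u v hv ξ ξ' h).1
  refine ⟨hyf, ?_, ?_, ?_, ?_⟩
  · intro j u ξ ξ' h
    have e1 := hyf u ξ ξ' h
    simp only at e1
    show (e.yf ξ.2 u = j ∧ ∀ v ∈ b1 u, ¬ e.bd ξ.2 e.L v) =
      (e.yf ξ'.2 u = j ∧ ∀ v ∈ b1 u, ¬ e.bd ξ'.2 e.L v)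
    rw [e1]
    congr 1
    apply propext
    refine forall₂_congr fun v hv => ?_
    exact not_congr (loc_lev h2 e u v hv ξ ξ' h).2
  · intro y b ξ ξ' h
    show (e.mod m r).law ξ y b = (e.mod m r).law ξ' y b
    unfold Mod.law
    refine Finset.prod_congr rfl fun t _ => ?_
    have e1 : (e.mod m r).al ξ (nbr y t).1 (nbr y t).2 = (e.mod m r).al ξ' (nbr y t).1 (nbr y t).2 :=
      loc_al h2 e y.1 (nbr y t).1 (h1 κ m r y t).1 ξ ξ' h (nbr y t).2
    show (e.mod m r).u ξ (nbr y t).1 (nbr y t).2 (b t) = (e.mod m r).u ξ' (nbr y t).1 (nbr y t).2 (b t)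
    unfold Mod.u
    rw [e1]
  · intro A β F z c hF ξ ξ' h
    refine hF _ _ fun q hq => ⟨(h q hq).1, fun j => ?_⟩
    show Function.update ξ.2.1 z c.1 (q, j) = Function.update ξ'.2.1 z c.1 (q, j)
    by_cases hz : (q, j) = z
    · subst hz
      rw [Function.update_self, Function.update_self]
    · rw [Function.update_of_ne hz, Function.update_of_ne hz]
      exact (h q hq).2 j
  · intro A β F q0 c hF ξ ξ' h
    refine hF _ _ fun q hq => ⟨?_, (h q hq).2⟩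
    show Function.update ξ.1 q0 c q = Function.update ξ'.1 q0 c q
    by_cases hz : q = q0
    · subst hz
      rw [Function.update_self, Function.update_self]
    · rw [Function.update_of_ne hz, Function.update_of_ne hz]
      exact (h q hq).1

end Pool.Agent.Lib.MP_33d9ce_co.Cst
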