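import Pool.Agent.Lib.MP_33d9ce_co.Cst.StmD

set_option autoImplicit false

noncomputable section

open Classical Finset

namespace Pool.Agent.Lib.MP_33d9ce_co.Cst

theorem p_many : S_many := by
  intro W _ _ K m0 c hc h
  have hN : (0 : ℝ) < Fintype.card W := by exact_mod_cast Fintype.card_pos
  have e1 : ∑ w, (K w - m0 * (Fintype.card W : ℝ)⁻¹) = ∑ w, K w - m0 := by
    rw [Finset.sum_sub_distrib, Finset.sum_const, Finset.card_univ, nsmul_eq_mul]
    field_simp
  have e2 : (∑ w, K w - m0) ^ 2 ≤ c ^ 2 := by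
    rw [← e1]
    have h1 := sq_sum_le_card_mul_sum_sq (s := (Finset.univ : Finset W))
      (f := fun w => K w - m0 * (Fintype.card W : ℝ)⁻¹)
    rw [Finset.card_univ] at h1
    refine h1.trans ?_
    have h2 := mul_le_mul_of_nonneg_left h hN.le
    refine h2.trans (le_of_eq ?_)
    field_simp
  have e3 := abs_le_of_sq_le_sq e2 hc
  linarith [neg_abs_le (∑ w, K w - m0)]

end Pool.Agent.Lib.MP_33d9ce_co.Cst
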