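import Pool.Agent.Lib.MP_33d9ce_co.Cst.StmC1

/-!
# Spanning hypercubes, constant density: marginals of a product set
-/

set_option autoImplicit false

noncomputable section

open Classical Finset

namespace Pool.Agent.Lib.MP_33d9ce_co.Cst

private theorem marg_fiber {Z K Ω : Type} [Fintype Z] [Fintype K] (W : Z → Finset Ω) (h : K → Z)
    (hh : Function.Injective h) (g : K → Ω) (hg : g ∈ Fintype.piFinset fun k => W (h k)) :
    ((Fintype.piFinset W).filter fun ω => (fun k => ω (h k)) = g).card =
      ∏ z, if ∃ k, h k = z then 1 else (W z).card := by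
  rw [Fintype.mem_piFinset] at hg
  have e : ((Fintype.piFinset W).filter fun ω => (fun k => ω (h k)) = g) =
      Fintype.piFinset fun z => if hz : ∃ k, h k = z then {g hz.choose} else W z := by
    ext ω
    rw [mem_filter, Fintype.mem_piFinset, Fintype.mem_piFinset]
    constructor
    · rintro ⟨h1, h2⟩ z
      by_cases hz : ∃ k, h k = z
      · rw [dif_pos hz, mem_singleton, ← h2]
        show ω z = ω (h hz.choose)
        rw [hz.choose_spec]
      · rw [dif_neg hz]
        exact h1 z
    · intro h1
      have h3 : ∀ k, ω (h k) = g k := by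
        intro k
        have h2 := h1 (h k)
        have hz : ∃ k', h k' = h k := ⟨k, rfl⟩
        rw [dif_pos hz, mem_singleton] at h2
        rw [h2]
        congr 1
        exact hh hz.choose_spec
      refine ⟨fun z => ?_, funext h3⟩
      by_cases hz : ∃ k, h k = z
      · obtain ⟨k, rfl⟩ := hz
        rw [h3 k]
        exact hg k
      · have h2 := h1 z
        rw [dif_neg hz] at h2
        exact h2
  rw [e, Fintype.card_piFinset]
  refine prod_congr rfl fun z _ => ?_
  by_cases hz : ∃ k, h k = z
  · rw [dif_pos hz, if_pos hz, card_singleton]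
  · rw [dif_neg hz, if_neg hz]

private theorem marg_count {Z K Ω : Type} [Fintype Z] [Fintype K] (W : Z → Finset Ω) (h : K → Z)
    (hh : Function.Injective h) (G : (K → Ω) → Prop) :
    ((Fintype.piFinset W).filter fun ω => G (fun k => ω (h k))).card =
      ((Fintype.piFinset fun k => W (h k)).filter G).card *
        ∏ z, if ∃ k, h k = z then 1 else (W z).card := by
  have hmap : ∀ ω ∈ (Fintype.piFinset W).filter fun ω => G (fun k => ω (h k)),
      (fun k => ω (h k)) ∈ (Fintype.piFinset fun k => W (h k)).filter G := by
    intro ω hω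
    rw [mem_filter, Fintype.mem_piFinset] at hω
    rw [mem_filter, Fintype.mem_piFinset]
    exact ⟨fun k => hω.1 (h k), hω.2⟩
  rw [card_eq_sum_card_fiberwise (f := fun ω : Z → Ω => fun k => ω (h k)) hmap,
    sum_congr rfl (g := fun _ => ∏ z, if ∃ k, h k = z then 1 else (W z).card), sum_const,
    smul_eq_mul]
  intro g hg
  rw [mem_filter] at hg
  rw [← marg_fiber W h hh g hg.1, filter_filter]
  congr 1
  refine filter_congr fun ω _ => ?_
  constructor
  · exact fun h1 => h1.2
  · intro h1
    refine ⟨?_, h1⟩
    rw [h1]
    exact hg.2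

/-- marginals of a product set -/
theorem p_marg : S_marg := by
  intro Z K Ω _ _ W h G hh _
  have h1 := marg_count W h hh G
  have h2 := marg_count W h hh (fun _ => True)
  rw [filter_true, filter_true] at h2
  rw [h1, h2]
  push_cast
  ring

end Pool.Agent.Lib.MP_33d9ce_co.Cst
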