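import Pool.Agent.Lib.MP_33d9ce_co.Cst.StmD

/-!
# Spanning hypercubes, constant density: the top level
-/

set_option autoImplicit false

noncomputable section

open Classical Finset

namespace Pool.Agent.Lib.MP_33d9ce_co.Cst

private theorem nL_kap (j : ℕ) : kap (j + 1) = 10 ^ 7 * 2500 ^ j := rfl

private theorem nL_pow (j : ℕ) : (j + 1) ^ 2 ≤ 2500 ^ j := by
  have h : j + 1 ≤ 50 ^ j := by
    induction j with
    | zero => simp
    | succ k ih =>
      rw [pow_succ]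
      omega
  calc (j + 1) ^ 2 ≤ (50 ^ j) ^ 2 := Nat.pow_le_pow_left h 2
    _ = 2500 ^ j := by rw [← pow_mul, mul_comm, pow_mul]; norm_num

private theorem nL_exp1 : (10 : ℝ) ^ 7 ≤ Real.exp 17 := by
  have h := Real.exp_one_gt_d9
  have h1 : Real.exp 17 = (Real.exp 1) ^ 17 := by
    rw [← Real.exp_nat_mul]; norm_num
  rw [h1]
  calc (10 : ℝ) ^ 7 ≤ (2.7182818283 : ℝ) ^ 17 := by norm_num
    _ ≤ (Real.exp 1) ^ 17 := pow_le_pow_left₀ (by norm_num) h.le 17

private theorem nL_exp2 : (2500 : ℝ) ≤ Real.exp 8 := by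
  have h := Real.exp_one_gt_d9
  have h1 : Real.exp 8 = (Real.exp 1) ^ 8 := by
    rw [← Real.exp_nat_mul]; norm_num
  rw [h1]
  calc (2500 : ℝ) ≤ (2.7182818283 : ℝ) ^ 8 := by norm_num
    _ ≤ (Real.exp 1) ^ 8 := pow_le_pow_left₀ (by norm_num) h.le 8

theorem p_nL : S_nL := by
  intro κ hκ
  have hex : ∃ L, κ + 1 ≤ kap L := by
    refine ⟨κ + 1 + 1, ?_⟩
    rw [nL_kap]
    have h1 := nL_pow (κ + 1)
    nlinarith
  obtain ⟨j, hj1, hj2⟩ : ∃ j, kap (j + 1) ≤ κ ∧ κ + 1 ≤ kap (j + 2) := by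
    have h1 := Nat.find_spec hex
    have h2 : 2 ≤ Nat.find hex := by
      by_contra hlt
      push Not at hlt
      have h3 : kap (Nat.find hex) = 10 ^ 7 := by
        have : Nat.find hex = 0 ∨ Nat.find hex = 1 := by omega
        rcases this with h | h
        · rw [h]; rfl
        · rw [h]; rfl
      omega
    refine ⟨Nat.find hex - 2, ?_, ?_⟩
    · have h3 := Nat.find_min hex (m := Nat.find hex - 2 + 1) (by omega)
      omega
    · rw [show Nat.find hex - 2 + 2 = Nat.find hex by omega]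
      exact h1
  have hk1 : 10 ^ 7 * 2500 ^ j ≤ κ := hj1
  have hk2 : κ + 1 ≤ 10 ^ 7 * 2500 ^ (j + 1) := hj2
  have hp := nL_pow j
  refine ⟨j + 2, by omega, hj2, hj1, ?_, ?_, ?_⟩
  · show 10 ^ 7 * 2500 ^ (j + 1) ≤ 2500 * κ
    have h7 : 2500 ^ (j + 1) = 2500 ^ j * 2500 := pow_succ 2500 j
    rw [h7]
    omega
  · nlinarith
  · have h1 : (κ : ℝ) + 1 ≤ Real.exp (17 + 8 * (j + 1)) := by
      have h2 : (κ : ℝ) + 1 ≤ 10 ^ 7 * 2500 ^ (j + 1) := by exact_mod_cast hk2
      refine h2.trans ?_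
      rw [Real.exp_add]
      refine mul_le_mul nL_exp1 ?_ (by positivity) (Real.exp_pos _).le
      have h3 : Real.exp (8 * (j + 1)) = (Real.exp 8) ^ (j + 1) := by
        rw [← Real.exp_nat_mul]
        congr 1
        push_cast
        ring
      rw [h3]
      exact pow_le_pow_left₀ (by norm_num) nL_exp2 _
    calc ((κ : ℝ) + 1) ^ (4 * (j + 2) + 8) ≤ (Real.exp (17 + 8 * (j + 1))) ^ (4 * (j + 2) + 8) :=
          pow_le_pow_left₀ (by positivity) h1 _
      _ = Real.exp (((4 * (j + 2) + 8 : ℕ) : ℝ) * (17 + 8 * (j + 1))) := by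
          rw [← Real.exp_nat_mul]
      _ ≤ Real.exp (κ / 1000) := by
          apply Real.exp_le_exp.2
          have h4 : (10 : ℝ) ^ 7 * 2500 ^ j ≤ κ := by exact_mod_cast hk1
          have h5 : ((j : ℝ) + 1) ^ 2 ≤ 2500 ^ j := by exact_mod_cast hp
          have h6 : (0 : ℝ) ≤ j := Nat.cast_nonneg j
          push_cast
          nlinarith

end Pool.Agent.Lib.MP_33d9ce_co.Cst
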