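import Pool.Agent.Lib.MP_33d9ce_co.Cst.StmD

/-! Piece nal: lower bounds for `alv`, `omv`. -/

set_option autoImplicit false

noncomputable section

open Classical Finset

namespace Pool.Agent.Lib.MP_33d9ce_co.Cst

private theorem nal_base : Real.exp (-(16 / 10 ^ 19)) ≤ 1 - 8 * (1 / 10 ^ 19) := by
  have h : (16 / 10 ^ 19 : ℝ) + 1 ≤ Real.exp (16 / 10 ^ 19) := Real.add_one_le_exp _
  rw [Real.exp_neg, inv_le_iff_one_le_mul₀ (Real.exp_pos _)]
  calc (1 : ℝ) ≤ (1 - 8 * (1 / 10 ^ 19)) * (16 / 10 ^ 19 + 1) := by norm_num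
    _ ≤ _ := mul_le_mul_of_nonneg_left h (by norm_num)

private theorem nal_pow (N : ℕ) : Real.exp (-(16 / 10 ^ 19 * N)) ≤ (1 - 8 * (1 / 10 ^ 19)) ^ N := by
  have h := pow_le_pow_left₀ (Real.exp_pos _).le nal_base N
  rw [← Real.exp_nat_mul] at h
  have e : (N : ℝ) * -(16 / 10 ^ 19) = -(16 / 10 ^ 19 * N) := by ring
  rwa [e] at h

private theorem nal_kap (j : ℕ) : kap (j + 1) = 10 ^ 7 * 2500 ^ j := rfl

private theorem nal_succ (l : ℕ) : kap (l + 1) ≤ 2500 * kap l ∧ kap l ≤ kap (l + 1) := by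
  rcases l with _ | j
  · have h0 : kap 0 = 10 ^ 7 := rfl
    have h1 : kap (0 + 1) = 10 ^ 7 * 2500 ^ 0 := nal_kap 0
    rw [h0, h1]
    norm_num
  · have h1 := nal_kap j
    have h2 := nal_kap (j + 1)
    rw [pow_succ 2500 j] at h2
    obtain ⟨m, hm⟩ : ∃ m : ℕ, m = 2500 ^ j := ⟨_, rfl⟩
    rw [← hm] at h1 h2
    constructor
    · omega
    · omega

private theorem nal_mono {l L : ℕ} (h : l ≤ L) : kap l ≤ kap L :=
  monotone_nat_of_le_succ (fun l => (nal_succ l).2) h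

theorem p_nal : S_nal := by
  intro κ L hL
  constructor
  · intro l hl
    have h1 : kap l ≤ 2500 * κ := (nal_mono hl).trans hL
    have h2 := (nal_succ l).1
    have h3 : kap l + kap (l + 1) ≤ 6252500 * κ := by omega
    have h4 := nal_pow (kap l + kap (l + 1))
    have h5 : ((kap l + kap (l + 1) : ℕ) : ℝ) ≤ 6252500 * κ := by exact_mod_cast h3
    have h6 : Real.exp (-(κ / 10 ^ 10 : ℝ)) ≤ Real.exp (-(16 / 10 ^ 19 * ((kap l + kap (l + 1) : ℕ) : ℝ))) := by
      apply Real.exp_le_exp.mpr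
      have hk : (0 : ℝ) ≤ κ := Nat.cast_nonneg κ
      generalize ((kap l + kap (l + 1) : ℕ) : ℝ) = N at h5 ⊢
      linarith
    have h7 := h6.trans h4
    unfold alv
    linarith
  · intro j hj
    have h1 : kap j ≤ 2500 * κ := (nal_mono hj).trans hL
    have h2 := (nal_succ j).1
    have h2' := (nal_succ (j + 1)).1
    have e : j + 1 + 1 = j + 2 := rfl
    rw [e] at h2'
    have h3 : 100 * kap (j + 1) + 100 * kap (j + 2) ≤ 1563125000000 * κ := by omega
    have h4 := nal_pow (100 * kap (j + 1) + 100 * kap (j + 2))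
    have h5 : ((100 * kap (j + 1) + 100 * kap (j + 2) : ℕ) : ℝ) ≤ 1563125000000 * κ := by exact_mod_cast h3
    have h6 : Real.exp (-(κ / 10 ^ 5 : ℝ)) ≤
        Real.exp (-(16 / 10 ^ 19 * ((100 * kap (j + 1) + 100 * kap (j + 2) : ℕ) : ℝ))) := by
      apply Real.exp_le_exp.mpr
      have hk : (0 : ℝ) ≤ κ := Nat.cast_nonneg κ
      generalize ((100 * kap (j + 1) + 100 * kap (j + 2) : ℕ) : ℝ) = N at h5 ⊢
      linarith
    have h7 := h6.trans h4
    unfold omv
    linarith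

end Pool.Agent.Lib.MP_33d9ce_co.Cst
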