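import Pool.Agent.Lib.MP_33d9ce_co.Cst.StmD

/-!
# Spanning hypercubes, constant density: numbers
-/

set_option autoImplicit false

noncomputable section

open Classical Finset

namespace Pool.Agent.Lib.MP_33d9ce_co.Cst

private theorem narr_front (κ n L : ℕ) (hκ : 10 ^ 7 ≤ κ) (hn : n ≤ 5 * κ + 4) (hL : L + 1 ≤ κ) :
    2 * ((2 : ℝ) ^ n + (L + 1) * (κ + 2) * (((2 : ℝ) ^ n) ^ 1210 + 1) ^ (2 * (κ + 1))) *
      2 ^ (n - 1 - κ) ≤ 2 ^ (100000 * κ ^ 2) := by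
  have one_le : (1 : ℝ) ≤ 2 := by norm_num
  have h1 : (2 : ℝ) ^ n ≤ 2 ^ (5 * κ + 4) := pow_le_pow_right₀ one_le hn
  have h2 : (2 : ℝ) ^ (n - 1 - κ) ≤ 2 ^ (5 * κ + 4) := pow_le_pow_right₀ one_le (by omega)
  have h3 : ((2 : ℝ) ^ n) ^ 1210 + 1 ≤ 2 ^ ((5 * κ + 4) * 1210 + 1) := by
    have h4 : ((2 : ℝ) ^ n) ^ 1210 ≤ 2 ^ ((5 * κ + 4) * 1210) := by
      rw [pow_mul]
      exact pow_le_pow_left₀ (by positivity) h1 1210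
    have h5 : (1 : ℝ) ≤ 2 ^ ((5 * κ + 4) * 1210) := one_le_pow₀ one_le
    have h6 : (2 : ℝ) ^ ((5 * κ + 4) * 1210 + 1) = 2 ^ ((5 * κ + 4) * 1210) * 2 := pow_succ _ _
    rw [h6, mul_two]
    exact add_le_add h4 h5
  set E : ℕ := ((5 * κ + 4) * 1210 + 1) * (2 * (κ + 1)) with hE
  have h4 : (((2 : ℝ) ^ n) ^ 1210 + 1) ^ (2 * (κ + 1)) ≤ 2 ^ E := by
    exact (pow_le_pow_left₀ (by positivity) h3 (2 * (κ + 1))).trans (le_of_eq (pow_mul _ _ _).symm)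
  have h5 : ((L : ℝ) + 1) ≤ 2 ^ κ := by
    have : L + 1 ≤ 2 ^ κ := hL.trans Nat.lt_two_pow_self.le
    exact_mod_cast this
  have h6 : ((κ : ℝ) + 2) ≤ 2 ^ (κ + 2) := by
    have : κ + 2 ≤ 2 ^ (κ + 2) := Nat.lt_two_pow_self.le
    exact_mod_cast this
  have h7 : ((L : ℝ) + 1) * (κ + 2) * (((2 : ℝ) ^ n) ^ 1210 + 1) ^ (2 * (κ + 1)) ≤
      2 ^ (E + 2 * κ + 2) := by
    calc ((L : ℝ) + 1) * (κ + 2) * (((2 : ℝ) ^ n) ^ 1210 + 1) ^ (2 * (κ + 1))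
        ≤ 2 ^ κ * 2 ^ (κ + 2) * 2 ^ E := by gcongr
      _ = 2 ^ (E + 2 * κ + 2) := by
          rw [← pow_add, ← pow_add]
          congr 1
          ring
  have hE1 : 5 * κ + 4 ≤ E + 2 * κ + 2 := by
    rw [hE]
    nlinarith
  have h8 : (2 : ℝ) ^ n + (L + 1) * (κ + 2) * (((2 : ℝ) ^ n) ^ 1210 + 1) ^ (2 * (κ + 1)) ≤
      2 ^ (E + 2 * κ + 3) := by
    have h9 : (2 : ℝ) ^ n ≤ 2 ^ (E + 2 * κ + 2) := h1.trans (pow_le_pow_right₀ one_le hE1)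
    have h10 : (2 : ℝ) ^ (E + 2 * κ + 3) = 2 ^ (E + 2 * κ + 2) + 2 ^ (E + 2 * κ + 2) := by
      have h11 : (2 : ℝ) ^ ((E + 2 * κ + 2) + 1) = 2 ^ (E + 2 * κ + 2) * 2 := pow_succ _ _
      exact h11.trans (mul_two _)
    rw [h10]
    exact add_le_add h9 h7
  calc 2 * ((2 : ℝ) ^ n + (L + 1) * (κ + 2) * (((2 : ℝ) ^ n) ^ 1210 + 1) ^ (2 * (κ + 1))) *
      2 ^ (n - 1 - κ) ≤ 2 * 2 ^ (E + 2 * κ + 3) * 2 ^ (5 * κ + 4) := by gcongr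
    _ = 2 ^ (1 + (E + 2 * κ + 3) + (5 * κ + 4)) := by
        rw [pow_add 2 (1 + (E + 2 * κ + 3)), pow_add 2 1, pow_one]
    _ ≤ 2 ^ (100000 * κ ^ 2) := by
        apply pow_le_pow_right₀ one_le
        rw [hE]
        nlinarith

private theorem narr_exp (κ : ℕ) (hκ : 10 ^ 7 ≤ κ) :
    (1000000 : ℝ) * κ ^ 2 ≤ ((97 / 100 : ℝ) ^ κ) ^ 2 * (17 / 16 * 2 ^ κ) / 4 := by
  have hκR : (10 ^ 7 : ℝ) ≤ κ := by exact_mod_cast hκ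
  have h1 : ((97 / 100 : ℝ) ^ κ) ^ 2 * (17 / 16 * 2 ^ κ) / 4 = 17 / 64 * (18818 / 10000) ^ κ := by
    have h2 : (18818 / 10000 : ℝ) ^ κ = ((97 / 100 : ℝ) ^ κ) ^ 2 * 2 ^ κ := by
      rw [← pow_mul, mul_comm κ 2, pow_mul, ← mul_pow]
      norm_num
    rw [h2]
    ring
  rw [h1]
  have h2 : (3 / 2 : ℝ) ^ κ ≤ (18818 / 10000) ^ κ :=
    pow_le_pow_left₀ (by norm_num) (by norm_num) κ
  have h3 : ((3 / 2 : ℝ) ^ (κ / 4)) ^ 4 ≤ (3 / 2) ^ κ := by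
    rw [← pow_mul]
    exact pow_le_pow_right₀ (by norm_num) (Nat.div_mul_le_self κ 4)
  have h4 : (κ : ℝ) / 8 ≤ (3 / 2 : ℝ) ^ (κ / 4) := by
    have h5 := one_add_mul_le_pow (by norm_num : (-2 : ℝ) ≤ 1 / 2) (κ / 4)
    have h6 : (κ : ℝ) ≤ 4 * ((κ / 4 : ℕ) : ℝ) + 3 := by
      have : κ ≤ 4 * (κ / 4) + 3 := by omega
      exact_mod_cast this
    norm_num at h5 ⊢
    linarith
  have h5 : ((κ : ℝ) / 8) ^ 4 ≤ ((3 / 2 : ℝ) ^ (κ / 4)) ^ 4 :=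
    pow_le_pow_left₀ (by positivity) h4 4
  have h6 : ((κ : ℝ) / 8) ^ 4 = κ ^ 2 * κ ^ 2 / 4096 := by ring
  have h7 : (10 ^ 7 : ℝ) ^ 2 ≤ κ ^ 2 := pow_le_pow_left₀ (by norm_num) hκR 2
  have h8 : (10 ^ 7 : ℝ) ^ 2 * κ ^ 2 ≤ κ ^ 2 * κ ^ 2 :=
    mul_le_mul_of_nonneg_right h7 (by positivity)
  have h9 : (κ : ℝ) ^ 2 * κ ^ 2 / 4096 ≤ (18818 / 10000) ^ κ := by
    rw [← h6]
    exact (h5.trans h3).trans h2
  nlinarith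

theorem p_narr : S_narr := by
  intro κ n L hκ hn hL
  have h1 := narr_front κ n L hκ hn hL
  have h2 := narr_exp κ hκ
  have h3 : (2 : ℝ) ^ (100000 * κ ^ 2) ≤ Real.exp (100000 * κ ^ 2) := by
    have h4 : (2 : ℝ) ≤ Real.exp 1 := by
      have := Real.add_one_le_exp (1 : ℝ)
      linarith
    have h5 := pow_le_pow_left₀ (by norm_num : (0 : ℝ) ≤ 2) h4 (100000 * κ ^ 2)
    rw [← Real.exp_nat_mul] at h5
    push_cast at h5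
    rwa [mul_one] at h5
  have h4 : Real.exp (-(((97 / 100 : ℝ) ^ κ) ^ 2 * (17 / 16 * 2 ^ κ) / 4)) ≤
      Real.exp (-(1000000 * κ ^ 2)) := by
    apply Real.exp_le_exp.2
    linarith
  have hκR : (10 ^ 7 : ℝ) ≤ κ := by exact_mod_cast hκ
  calc 2 * ((2 : ℝ) ^ n + (L + 1) * (κ + 2) * (((2 : ℝ) ^ n) ^ 1210 + 1) ^ (2 * (κ + 1))) *
        2 ^ (n - 1 - κ) * Real.exp (-(((97 / 100 : ℝ) ^ κ) ^ 2 * (17 / 16 * 2 ^ κ) / 4))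
      ≤ Real.exp (100000 * κ ^ 2) * Real.exp (-(1000000 * κ ^ 2)) :=
        mul_le_mul (h1.trans h3) h4 (Real.exp_pos _).le (Real.exp_pos _).le
    _ = Real.exp (-(900000 * κ ^ 2)) := by
        rw [← Real.exp_add]
        congr 1
        ring
    _ < 1 := by
        rw [Real.exp_lt_one_iff]
        have : (0 : ℝ) < κ ^ 2 := by positivity
        linarith

end Pool.Agent.Lib.MP_33d9ce_co.Cst
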