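import Pool.Agent.Lib.MP_33d9ce_co.Cst.StmC2

/-!
# Spanning hypercubes, constant density: the base points of the neighbours
-/

set_option autoImplicit false

noncomputable section

open Classical Finset

namespace Pool.Agent.Lib.MP_33d9ce_co.Cst

open Slack (Cell Ev Od Dir nbr dc)

theorem nb1_dist {κ m r : ℕ} (u : Cell κ) (t : Dir κ m r) : hammingDist u (u + dc t) ≤ 1 := by
  unfold hammingDist
  cases t with
  | inl i =>
    refine le_trans (Finset.card_le_card (t := {i}) ?_) (by simp)
    intro j hj
    rw [Finset.mem_filter] at hj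
    rw [Finset.mem_singleton]
    by_contra h
    apply hj.2
    simp [dc, Pi.single_eq_of_ne h]
  | inr s => simp [dc]

theorem p_nb1 : S_nb1 := by
  intro κ m r y t
  have h : hammingDist y.1 (nbr y t).1 ≤ 1 := nb1_dist y.1 t
  refine ⟨?_, fun cell => ?_⟩
  · unfold b1
    rw [Finset.mem_filter]
    exact ⟨Finset.mem_univ _, h⟩
  · unfold nc
    refine Finset.mem_image.2 ⟨y.1, ?_, rfl⟩
    rw [Finset.mem_filter]
    exact ⟨Finset.mem_univ _, by rw [hammingDist_comm]; exact h⟩

end Pool.Agent.Lib.MP_33d9ce_co.Cst
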