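import Pool.Agent.Lib.MP_33d9ce_co.Cst.StmD

/-!
# Spanning hypercubes, constant density: the numerical estimate nblk
-/

set_option autoImplicit false

noncomputable section

open Classical Finset

namespace Pool.Agent.Lib.MP_33d9ce_co.Cst

private theorem nblk_growth (m : ℕ) (hm : 50 ≤ m) : (2000 * m + 2004 : ℝ) ≤ (3 / 2) ^ m * (3 / 4) := by
  induction m, hm using Nat.le_induction with
  | base => norm_num
  | succ m hm ih =>
    have hk : (50 : ℝ) ≤ m := by exact_mod_cast hm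
    rw [pow_succ]
    push_cast
    nlinarith

private theorem nblk_all (κ n : ℕ) (hκ : 10 ^ 7 ≤ κ) (h1 : 5 * κ ≤ n) (h2 : n ≤ 5 * κ + 4) :
  (2 : ℝ) ^ n * (2 ^ (n - 1) * (1 - (1 - 1 / 10 ^ 12) ^ n) ^ (2 ^ (κ / 200))) ≤ 1 / 16 := by
  obtain ⟨m, hm⟩ : ∃ m, m = κ / 200 := ⟨_, rfl⟩
  rw [← hm]
  have b1 : 50 ≤ m := by omega
  have b2 : n ≤ 1000 * (m + 1) := by omega
  obtain ⟨p, hp⟩ : ∃ p : ℝ, p = (1 - 1 / 10 ^ 12) ^ n := ⟨_, rfl⟩
  rw [← hp]
  have p0 : 0 ≤ p := by rw [hp]; exact pow_nonneg (by norm_num) _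
  have p1 : p ≤ 1 := by rw [hp]; exact pow_le_one₀ (by norm_num) (by norm_num)
  have p2 : (3 / 4 : ℝ) ^ (m + 1) ≤ p := by
    have q1 : (3 / 4 : ℝ) ≤ (1 - 1 / 10 ^ 12) ^ 1000 := by
      have h := one_add_mul_le_pow (a := (-(1 / 10 ^ 12) : ℝ)) (by norm_num) 1000
      rw [← sub_eq_add_neg] at h
      refine le_trans ?_ h
      norm_num
    calc (3 / 4 : ℝ) ^ (m + 1) ≤ ((1 - 1 / 10 ^ 12) ^ 1000) ^ (m + 1) := pow_le_pow_left₀ (by norm_num) q1 _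
      _ = (1 - 1 / 10 ^ 12) ^ (1000 * (m + 1)) := by rw [← pow_mul]
      _ ≤ p := by rw [hp]; exact pow_le_pow_of_le_one (by norm_num) (by norm_num) b2
  have p3 : (2 * n + 4 : ℝ) ≤ 2 ^ m * p := by
    have g := nblk_growth m b1
    have b3 : (n : ℝ) ≤ 1000 * (m + 1) := by exact_mod_cast b2
    calc (2 * n + 4 : ℝ) ≤ 2000 * m + 2004 := by linarith
      _ ≤ (3 / 2) ^ m * (3 / 4) := g
      _ = 2 ^ m * (3 / 4) ^ (m + 1) := by
        rw [pow_succ (3 / 4 : ℝ), ← mul_assoc, ← mul_pow]; norm_num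
      _ ≤ 2 ^ m * p := by gcongr
  have p4 : (1 - p) ^ (2 ^ m) ≤ Real.exp (-(2 * n + 4)) := by
    have h : 1 - p ≤ Real.exp (-p) := by
      have := Real.add_one_le_exp (-p); linarith
    calc (1 - p) ^ (2 ^ m) ≤ (Real.exp (-p)) ^ (2 ^ m) := pow_le_pow_left₀ (by linarith) h _
      _ = Real.exp (-(2 ^ m * p)) := by
        rw [← Real.exp_nat_mul]; congr 1; push_cast; ring
      _ ≤ Real.exp (-(2 * n + 4)) := Real.exp_le_exp.2 (by linarith)
  have p5 : Real.exp (-(2 * n + 4 : ℝ)) ≤ (1 / 2) ^ (2 * n + 4) := by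
    have h : Real.exp (-1 : ℝ) ≤ 1 / 2 := by
      have h1 := Real.add_one_le_exp (1 : ℝ)
      rw [Real.exp_neg]
      rw [one_div]
      apply inv_anti₀ (by norm_num)
      linarith
    calc Real.exp (-(2 * n + 4 : ℝ)) = (Real.exp (-1)) ^ (2 * n + 4) := by
          rw [← Real.exp_nat_mul]; congr 1; push_cast; ring
      _ ≤ (1 / 2) ^ (2 * n + 4) := pow_le_pow_left₀ (Real.exp_pos _).le h _
  calc (2 : ℝ) ^ n * (2 ^ (n - 1) * (1 - p) ^ (2 ^ m)) ≤ 2 ^ n * (2 ^ n * (1 / 2) ^ (2 * n + 4)) := by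
        have h3 : (2 : ℝ) ^ (n - 1) ≤ 2 ^ n := pow_le_pow_right₀ (by norm_num) (by omega)
        have h4 : 0 ≤ (1 - p) ^ (2 ^ m) := pow_nonneg (by linarith) _
        have h5 := p4.trans p5
        gcongr
    _ = 1 / 16 := by
        have : (2 : ℝ) ^ n * (2 ^ n * (1 / 2) ^ (2 * n + 4)) = (2 * 2 * (1 / 2) ^ 2) ^ n * (1 / 2) ^ 4 := by
          rw [pow_add, pow_mul, ← mul_assoc, ← mul_assoc, ← mul_pow, ← mul_pow]
        rw [this]; norm_num

theorem p_nblk : S_nblk := fun κ n hκ h1 h2 => nblk_all κ n hκ h1 h2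

end Pool.Agent.Lib.MP_33d9ce_co.Cst
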