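import Pool.Agent.Lib.MP_33d9ce_co.Cst.StmD

/-!
# Spanning hypercubes, constant density: the numerical estimate nden
-/

set_option autoImplicit false

noncomputable section

open Classical Finset

namespace Pool.Agent.Lib.MP_33d9ce_co.Cst

private theorem nden_exp (κ : ℕ) (c : ℝ) (hc : 0 ≤ c) (hc' : c ≤ 1 - 1 / 10 ^ 5) : c ^ κ ≤ Real.exp (-(κ / 10 ^ 5 : ℝ)) := by
  have h1 : c ≤ Real.exp (-(1 / 10 ^ 5 : ℝ)) := by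
    have := Real.add_one_le_exp (-(1 / 10 ^ 5 : ℝ))
    linarith
  calc c ^ κ ≤ (Real.exp (-(1 / 10 ^ 5 : ℝ))) ^ κ := pow_le_pow_left₀ hc h1 κ
    _ = Real.exp (-(κ / 10 ^ 5 : ℝ)) := by
      rw [← Real.exp_nat_mul]; congr 1; ring

private theorem nden_a (κ n : ℕ) (hκ : 10 ^ 7 ≤ κ) (h1 : 5 * κ ≤ n) :
    (1 : ℝ) ≤ 25 ^ n * ((24 ^ n)⁻¹ * (Real.exp (-(κ / 10 ^ 5 : ℝ)) / 8)) := by
  have e1 : (25 : ℝ) ^ n * (24 ^ n)⁻¹ = (25 / 24) ^ n := by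
    rw [div_pow, div_eq_mul_inv]
  have e2 : (6 / 5 : ℝ) ^ κ ≤ (25 / 24) ^ n := by
    calc (6 / 5 : ℝ) ^ κ ≤ ((25 / 24) ^ 5) ^ κ := pow_le_pow_left₀ (by norm_num) (by norm_num) κ
      _ = (25 / 24) ^ (5 * κ) := by rw [pow_mul]
      _ ≤ (25 / 24) ^ n := pow_le_pow_right₀ (by norm_num) h1
  have e3 := nden_exp κ (9 / 10) (by norm_num) (by norm_num)
  have e4 : (8 : ℝ) ≤ (6 / 5 * (9 / 10)) ^ κ := by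
    have := one_add_mul_le_pow (a := (2 / 25 : ℝ)) (by norm_num) κ
    have hk : (10 ^ 7 : ℝ) ≤ κ := by exact_mod_cast hκ
    have e5 : (1 + 2 / 25 : ℝ) = 6 / 5 * (9 / 10) := by norm_num
    rw [e5] at this
    linarith
  calc (1 : ℝ) = 8 / 8 := by norm_num
    _ ≤ (6 / 5 * (9 / 10)) ^ κ / 8 := by gcongr
    _ = (6 / 5 : ℝ) ^ κ * (9 / 10) ^ κ / 8 := by rw [mul_pow]
    _ ≤ (25 / 24) ^ n * Real.exp (-(κ / 10 ^ 5 : ℝ)) / 8 := by gcongr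
    _ = _ := by rw [← e1]; ring

private theorem nden_b (κ n : ℕ) (hκ : 10 ^ 7 ≤ κ) (h2 : n ≤ 5 * κ + 4) :
    (1210 : ℝ) * (2 ^ 1210 * 25 ^ n) ≤ ((103 / 100 : ℝ) ^ κ) ^ 600 := by
  have e1 : (5 * 25 ^ 5 : ℝ) ≤ (103 / 100) ^ 600 := by
    have e2 : (438 / 100 : ℝ) ≤ (103 / 100) ^ 50 := by norm_num
    calc (5 * 25 ^ 5 : ℝ) ≤ (438 / 100) ^ 12 := by norm_num
      _ ≤ ((103 / 100) ^ 50) ^ 12 := pow_le_pow_left₀ (by norm_num) e2 12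
      _ = (103 / 100) ^ 600 := by rw [← pow_mul]
  have e3 : (1210 : ℝ) * (2 ^ 1210 * 25 ^ 4) ≤ 5 ^ κ := by
    calc (1210 : ℝ) * (2 ^ 1210 * 25 ^ 4) ≤ 5 ^ 5 * (5 ^ 1210 * 5 ^ 8) := by
          have a1 : (1210 : ℝ) ≤ 5 ^ 5 := by norm_num
          have a2 : (2 : ℝ) ^ 1210 ≤ 5 ^ 1210 := pow_le_pow_left₀ (by norm_num) (by norm_num) _
          have a3 : (25 : ℝ) ^ 4 ≤ 5 ^ 8 := by norm_num
          gcongr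
      _ = 5 ^ 1223 := by rw [← pow_add, ← pow_add]
      _ ≤ 5 ^ κ := pow_le_pow_right₀ (by norm_num) (le_trans (by norm_num) hκ)
  calc (1210 : ℝ) * (2 ^ 1210 * 25 ^ n) ≤ 1210 * (2 ^ 1210 * 25 ^ (5 * κ + 4)) := by
        have : (25 : ℝ) ^ n ≤ 25 ^ (5 * κ + 4) := pow_le_pow_right₀ (by norm_num) h2
        gcongr
    _ = (1210 * (2 ^ 1210 * 25 ^ 4)) * (25 ^ 5) ^ κ := by
        rw [pow_add (25 : ℝ) (5 * κ) 4, pow_mul (25 : ℝ) 5 κ]; ring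
    _ ≤ 5 ^ κ * (25 ^ 5) ^ κ := by gcongr
    _ = (5 * 25 ^ 5) ^ κ := by rw [mul_pow]
    _ ≤ ((103 / 100) ^ 600) ^ κ := pow_le_pow_left₀ (by norm_num) e1 κ
    _ = ((103 / 100 : ℝ) ^ κ) ^ 600 := by rw [← pow_mul, ← pow_mul, mul_comm]

private theorem nden_c (κ n : ℕ) (hκ : 10 ^ 7 ≤ κ) (h2 : n ≤ 5 * κ + 4) :
    ((986 / 1000 : ℝ) ^ κ) ^ 1210 ≤ (24 ^ n)⁻¹ * (Real.exp (-(κ / 10 ^ 5 : ℝ)) / 8) := by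
  have e1 : (986 / 1000 : ℝ) ^ 1210 ≤ (24 ^ 5)⁻¹ * (1 / 3) := by
    have e2 : (986 / 1000 : ℝ) ^ 110 ≤ 2121 / 10000 := by norm_num
    calc (986 / 1000 : ℝ) ^ 1210 = ((986 / 1000) ^ 110) ^ 11 := by rw [← pow_mul]
      _ ≤ (2121 / 10000) ^ 11 := pow_le_pow_left₀ (by positivity) e2 11
      _ ≤ (24 ^ 5)⁻¹ * (1 / 3) := by norm_num
  have e3 : (24 ^ 4 * 8 : ℝ) ≤ 2 ^ κ := by
    calc (24 ^ 4 * 8 : ℝ) ≤ 2 ^ 22 := by norm_num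
      _ ≤ 2 ^ κ := pow_le_pow_right₀ (by norm_num) (le_trans (by norm_num) hκ)
  have e4 := nden_exp κ (2 / 3) (by norm_num) (by norm_num)
  have e5 : (1 / 3 : ℝ) ^ κ ≤ (24 ^ 4)⁻¹ * (Real.exp (-(κ / 10 ^ 5 : ℝ)) / 8) := by
    calc (1 / 3 : ℝ) ^ κ = (2 / 3) ^ κ * (2 ^ κ)⁻¹ := by
          rw [← inv_pow, ← mul_pow]; norm_num
      _ ≤ Real.exp (-(κ / 10 ^ 5 : ℝ)) * (24 ^ 4 * 8)⁻¹ := by gcongr
      _ = _ := by rw [mul_inv]; ring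
  calc ((986 / 1000 : ℝ) ^ κ) ^ 1210 = ((986 / 1000) ^ 1210) ^ κ := by rw [← pow_mul, ← pow_mul, mul_comm]
    _ ≤ ((24 ^ 5)⁻¹ * (1 / 3)) ^ κ := pow_le_pow_left₀ (by positivity) e1 κ
    _ = ((24 ^ 5)⁻¹) ^ κ * (1 / 3) ^ κ := by rw [mul_pow]
    _ ≤ ((24 ^ 5)⁻¹) ^ κ * ((24 ^ 4)⁻¹ * (Real.exp (-(κ / 10 ^ 5 : ℝ)) / 8)) := by gcongr
    _ = (24 ^ (5 * κ + 4))⁻¹ * (Real.exp (-(κ / 10 ^ 5 : ℝ)) / 8) := by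
        rw [pow_add (24 : ℝ) (5 * κ) 4, pow_mul (24 : ℝ) 5 κ, mul_inv, inv_pow]; ring
    _ ≤ (24 ^ n)⁻¹ * (Real.exp (-(κ / 10 ^ 5 : ℝ)) / 8) := by
        have : (24 : ℝ) ^ n ≤ 24 ^ (5 * κ + 4) := pow_le_pow_right₀ (by norm_num) h2
        gcongr

theorem p_nden : S_nden := fun κ n hκ h1 h2 => ⟨nden_a κ n hκ h1, nden_b κ n hκ h2, nden_c κ n hκ h2⟩

end Pool.Agent.Lib.MP_33d9ce_co.Cst
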