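import Pool.Agent.Lib.MP_33d9ce_co.Cst.StmC2

/-!
# Spanning hypercubes, constant density: piece near
-/

set_option autoImplicit false

noncomputable section

open Classical Finset

namespace Pool.Agent.Lib.MP_33d9ce_co.Cst

open Slack (Cell Ev Od Dir nbr dc dg)

theorem near_two {ι : Type} (c : ι → ZMod 2) : c + c = 0 := by
  funext i
  have : ∀ a : ZMod 2, a + a = 0 := by decide
  exact this (c i)

def near_g {κ : ℕ} (p : Cell κ × Option (Fin κ)) : Cell κ :=
  match p.2 with
  | none => p.1
  | some i => Function.update p.1 i (p.1 i + 1)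

theorem near_ball (κ : ℕ) (w : Cell κ) (a : ℕ) :
    (({v | hammingDist v w ≤ a} : Finset (Cell κ))).card ≤ (κ + 1) ^ a := by
  induction a with
  | zero =>
    have h : ({v | hammingDist v w ≤ 0} : Finset (Cell κ)) ⊆ ({w} : Finset (Cell κ)) := by
      intro c hc
      simp only [Finset.mem_filter, Finset.mem_univ, true_and, Nat.le_zero,
        hammingDist_eq_zero] at hc
      simpa using hc
    simpa using Finset.card_le_card h
  | succ a ih =>
    have h : ({v | hammingDist v w ≤ a + 1} : Finset (Cell κ)) ⊆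
        (({v | hammingDist v w ≤ a} : Finset (Cell κ)) ×ˢ
          (Finset.univ : Finset (Option (Fin κ)))).image near_g := by
      intro c hc
      simp only [Finset.mem_filter, Finset.mem_univ, true_and] at hc
      rw [Finset.mem_image]
      by_cases h1 : hammingDist c w ≤ a
      · exact ⟨(c, none), by simp [h1], rfl⟩
      · have h2 : c ≠ w := by
          rintro rfl
          simp at h1
        obtain ⟨i, hi⟩ := Function.ne_iff.1 h2
        refine ⟨(Function.update c i (w i), some i), ?_, ?_⟩
        · simp only [Finset.mem_product, Finset.mem_filter, Finset.mem_univ, true_and,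
            and_true]
          have h3 : hammingDist (Function.update c i (w i)) w < hammingDist c w := by
            unfold hammingDist
            apply Finset.card_lt_card
            rw [Finset.ssubset_iff_of_subset]
            · refine ⟨i, by simpa using hi, by simp⟩
            · intro j hj
              simp only [Finset.mem_filter, Finset.mem_univ, true_and] at hj ⊢
              by_cases hji : j = i
              · subst hji
                exact hi
              · rwa [Function.update_of_ne hji] at hj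
          omega
        · show Function.update (Function.update c i (w i)) i
            ((Function.update c i (w i)) i + 1) = c
          rw [Function.update_idem, Function.update_self]
          have h4 : w i + 1 = c i := by
            have : ∀ x y : ZMod 2, x ≠ y → y + 1 = x := by decide
            exact this _ _ hi
          rw [h4, Function.update_eq_self]
    calc (({v | hammingDist v w ≤ a + 1} : Finset (Cell κ))).card ≤ _ := Finset.card_le_card h
      _ ≤ (({v | hammingDist v w ≤ a} : Finset (Cell κ)) ×ˢ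
          (Finset.univ : Finset (Option (Fin κ)))).card := Finset.card_image_le
      _ = (({v | hammingDist v w ≤ a} : Finset (Cell κ))).card * (κ + 1) := by
          rw [Finset.card_product, Finset.card_univ, Fintype.card_option, Fintype.card_fin]
      _ ≤ (κ + 1) ^ a * (κ + 1) := Nat.mul_le_mul_right _ ih
      _ = (κ + 1) ^ (a + 1) := (pow_succ _ _).symm

theorem near_symm {κ m r : ℕ} {S X W0 Ω : Type} [Fintype S] [Fintype X] [Fintype W0] [Fintype Ω]
    (e : Env κ (Ev κ m r) S X W0 Ω) (y y' : Cell κ × Od κ m r) (h : near e y y') : near e y' y := by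
  rcases h with ⟨t, t', h⟩ | h
  · exact Or.inl ⟨t', t, h.symm⟩
  · exact Or.inr fun hd => h hd.symm

theorem near_grp {κ m r : ℕ} (y : Cell κ × Od κ m r) :
    (({y' | ∃ t t', (nbr y t).2 = (nbr y' t').2} : Finset (Cell κ × Od κ m r))).card ≤
      Fintype.card (Dir κ m r) ^ 2 * 2 ^ κ := by
  have hsub : ({y' | ∃ t t', (nbr y t).2 = (nbr y' t').2} : Finset (Cell κ × Od κ m r)) ⊆
      (univ : Finset (Dir κ m r × Dir κ m r)).biUnion fun tt =>
        univ.filter fun y' : Cell κ × Od κ m r => y'.2.1 = y.2.1 + dg tt.1 + dg tt.2 := by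
    intro y' hy'
    obtain ⟨t, t', htt⟩ := (Finset.mem_filter.mp hy').2
    have h1 : y.2.1 + dg t = y'.2.1 + dg t' := congrArg Subtype.val htt
    refine Finset.mem_biUnion.mpr ⟨(t, t'), Finset.mem_univ _, Finset.mem_filter.mpr
      ⟨Finset.mem_univ _, ?_⟩⟩
    show y'.2.1 = y.2.1 + dg t + dg t'
    rw [h1, add_assoc, near_two, add_zero]
  refine (Finset.card_le_card hsub).trans (Finset.card_biUnion_le.trans ?_)
  have h1 : ∀ tt ∈ (univ : Finset (Dir κ m r × Dir κ m r)),
      (univ.filter fun y' : Cell κ × Od κ m r => y'.2.1 = y.2.1 + dg tt.1 + dg tt.2).card ≤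
        2 ^ κ := by
    intro tt _
    have hc : Fintype.card (Cell κ) = 2 ^ κ := by simp [ZMod.card]
    rw [← hc, ← Finset.card_univ]
    refine Finset.card_le_card_of_injOn (fun y' => y'.1) (fun _ _ => Finset.mem_univ _) ?_
    intro a ha b hb hab
    have ha' := (Finset.mem_filter.mp ha).2
    have hb' := (Finset.mem_filter.mp hb).2
    exact Prod.ext hab (Subtype.ext (ha'.trans hb'.symm))
  refine (Finset.sum_le_card_nsmul _ _ _ h1).trans (le_of_eq ?_)
  rw [Finset.card_univ, Fintype.card_prod, smul_eq_mul]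
  ring

theorem near_zone {κ : ℕ} (cell : Cell κ → Cell κ) (D : ℕ) (δ : ℝ)
    (hδ : ∀ u, (({v | cell v = cell u} : Finset (Cell κ)).card : ℝ) ≤ δ) (u : Cell κ) :
    (({u' | ¬ Disjoint (nc cell D u) (nc cell D u')} : Finset (Cell κ)).card : ℝ) ≤
      (κ + 1) ^ (2 * D) * δ := by
  have hδ0 : 0 ≤ δ := le_trans (Nat.cast_nonneg _) (hδ u)
  have hsub : ({u' | ¬ Disjoint (nc cell D u) (nc cell D u')} : Finset (Cell κ)) ⊆
      ({z | hammingDist z u ≤ D} : Finset (Cell κ)).biUnion fun z =>
        ({z' | cell z' = cell z} : Finset (Cell κ)).biUnion fun z' =>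
          ({u' | hammingDist u' z' ≤ D} : Finset (Cell κ)) := by
    intro u' hu'
    have h := (Finset.mem_filter.mp hu').2
    rw [Finset.not_disjoint_iff] at h
    obtain ⟨q, hq, hq'⟩ := h
    obtain ⟨z, hz, hzq⟩ := Finset.mem_image.mp hq
    obtain ⟨z', hz', hzq'⟩ := Finset.mem_image.mp hq'
    refine Finset.mem_biUnion.mpr ⟨z, ?_, Finset.mem_biUnion.mpr ⟨z', ?_, ?_⟩⟩
    · refine Finset.mem_filter.mpr ⟨Finset.mem_univ _, ?_⟩
      rw [hammingDist_comm]
      exact (Finset.mem_filter.mp hz).2
    · exact Finset.mem_filter.mpr ⟨Finset.mem_univ _, by rw [hzq', hzq]⟩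
    · exact Finset.mem_filter.mpr ⟨Finset.mem_univ _, (Finset.mem_filter.mp hz').2⟩
  have h1 : ∀ z : Cell κ, (((({z' | cell z' = cell z} : Finset (Cell κ)).biUnion fun z' =>
      ({u' | hammingDist u' z' ≤ D} : Finset (Cell κ))).card : ℕ) : ℝ) ≤ δ * (κ + 1) ^ D := by
    intro z
    have h2 : ((({z' | cell z' = cell z} : Finset (Cell κ)).biUnion fun z' =>
        ({u' | hammingDist u' z' ≤ D} : Finset (Cell κ))).card) ≤
          (({z' | cell z' = cell z} : Finset (Cell κ)).card) * (κ + 1) ^ D := by
      refine Finset.card_biUnion_le.trans ((Finset.sum_le_card_nsmul _ _ ((κ + 1) ^ D) ?_).trans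
        (le_of_eq (smul_eq_mul _ _)))
      intro z' _
      exact near_ball κ z' D
    calc (((({z' | cell z' = cell z} : Finset (Cell κ)).biUnion fun z' =>
        ({u' | hammingDist u' z' ≤ D} : Finset (Cell κ))).card : ℕ) : ℝ) ≤
          (((({z' | cell z' = cell z} : Finset (Cell κ)).card) * (κ + 1) ^ D : ℕ) : ℝ) := by
            exact_mod_cast h2
      _ = ((({z' | cell z' = cell z} : Finset (Cell κ)).card : ℕ) : ℝ) * (κ + 1) ^ D := by
            push_cast; ring
      _ ≤ δ * (κ + 1) ^ D := mul_le_mul_of_nonneg_right (hδ z) (by positivity)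
  calc (({u' | ¬ Disjoint (nc cell D u) (nc cell D u')} : Finset (Cell κ)).card : ℝ) ≤
        ((∑ z ∈ ({z | hammingDist z u ≤ D} : Finset (Cell κ)),
          (({z' | cell z' = cell z} : Finset (Cell κ)).biUnion fun z' =>
            ({u' | hammingDist u' z' ≤ D} : Finset (Cell κ))).card : ℕ) : ℝ) := by
          exact_mod_cast (Finset.card_le_card hsub).trans Finset.card_biUnion_le
    _ = ∑ z ∈ ({z | hammingDist z u ≤ D} : Finset (Cell κ)),
          (((({z' | cell z' = cell z} : Finset (Cell κ)).biUnion fun z' =>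
            ({u' | hammingDist u' z' ≤ D} : Finset (Cell κ))).card : ℕ) : ℝ) := by push_cast; rfl
    _ ≤ ∑ z ∈ ({z | hammingDist z u ≤ D} : Finset (Cell κ)), δ * (κ + 1) ^ D :=
        Finset.sum_le_sum fun z _ => h1 z
    _ = ((({z | hammingDist z u ≤ D} : Finset (Cell κ)).card : ℕ) : ℝ) * (δ * (κ + 1) ^ D) := by
        rw [Finset.sum_const, nsmul_eq_mul]
    _ ≤ (((κ + 1) ^ D : ℕ) : ℝ) * (δ * (κ + 1) ^ D) := by
        refine mul_le_mul_of_nonneg_right ?_ (by positivity)
        exact_mod_cast near_ball κ u D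
    _ = (κ + 1) ^ (2 * D) * δ := by
        push_cast
        ring

theorem p_near : S_near := by
  intro κ m r S X W0 Ω _ _ _ _ e δ hδ
  refine ⟨fun y y' h => near_symm e y y' h, fun y => ?_⟩
  have hsub : ({y' | near e y y'} : Finset (Cell κ × Od κ m r)) ⊆
      (({u' | ¬ Disjoint (e.zone y.1) (e.zone u')} : Finset (Cell κ)) ×ˢ
        (univ : Finset (Od κ m r))) ∪
      ({y' | ∃ t t', (nbr y t).2 = (nbr y' t').2} : Finset (Cell κ × Od κ m r)) := by
    intro y' hy'
    rcases (Finset.mem_filter.mp hy').2 with h | h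
    · exact Finset.mem_union_right _ (Finset.mem_filter.mpr ⟨Finset.mem_univ _, h⟩)
    · exact Finset.mem_union_left _ (Finset.mem_product.mpr
        ⟨Finset.mem_filter.mpr ⟨Finset.mem_univ _, h⟩, Finset.mem_univ _⟩)
  have hz := near_zone e.cell (2 * e.L + 4) δ hδ y.1
  have hg := near_grp (κ := κ) (m := m) (r := r) y
  have e1 : 2 * (2 * e.L + 4) = 4 * e.L + 8 := by ring
  rw [e1] at hz
  have hc : (({y' | near e y y'} : Finset (Cell κ × Od κ m r)).card : ℝ) ≤
      (({u' | ¬ Disjoint (e.zone y.1) (e.zone u')} : Finset (Cell κ)).card : ℝ) *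
        Fintype.card (Od κ m r) +
      ((({y' | ∃ t t', (nbr y t).2 = (nbr y' t').2} : Finset (Cell κ × Od κ m r)).card : ℕ) : ℝ) := by
    have := (Finset.card_le_card hsub).trans (Finset.card_union_le _ _)
    rw [Finset.card_product, Finset.card_univ] at this
    exact_mod_cast this
  refine hc.trans (add_le_add ?_ ?_)
  · exact mul_le_mul_of_nonneg_right hz (Nat.cast_nonneg _)
  · exact_mod_cast hg

end Pool.Agent.Lib.MP_33d9ce_co.Cst
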