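import Pool.Agent.Lib.MP_33d9ce_co.Cst.StmD

/-!
# Spanning hypercubes, constant density: the remaining inequalities between the parameters
-/

set_option autoImplicit false

noncomputable section

open Classical Finset

namespace Pool.Agent.Lib.MP_33d9ce_co.Cst

theorem nlast_pow (q c : ℝ) (hq0 : 0 ≤ q) (hq1 : q ≤ 1) (hc0 : 0 ≤ c) (hc : c * q ^ 240 ≤ 1) (κ : ℕ)
    (hκ : 240 ≤ κ) : c * q ^ κ ≤ 1 := by
  have h : q ^ κ ≤ q ^ 240 := pow_le_pow_of_le_one hq0 hq1 hκ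
  exact (mul_le_mul_of_nonneg_left h hc0).trans hc

theorem nlast_two (n : ℕ) (hn : 6 ≤ n) : 8 * n ≤ 2 ^ n := by
  induction n, hn using Nat.le_induction with
  | base => norm_num
  | succ n hn ih =>
    have h2 : 2 ^ (n + 1) = 2 ^ n + 2 ^ n := by ring
    omega

theorem nlast_eps (κ n : ℕ) (hκ : 1 ≤ κ) (hn : n ≤ 5 * κ + 4) :
    (999 / 1000 : ℝ) ^ κ ≤ (1 - 4 * (1 / 10 ^ 12)) ^ n := by
  have h1 : (999 / 1000 : ℝ) ≤ (1 - 4 * (1 / 10 ^ 12)) ^ 9 := by norm_num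
  have h2 : (999 / 1000 : ℝ) ^ κ ≤ ((1 - 4 * (1 / 10 ^ 12)) ^ 9) ^ κ :=
    pow_le_pow_left₀ (by norm_num) h1 κ
  have h3 : ((1 - 4 * (1 / 10 ^ 12) : ℝ) ^ 9) ^ κ = (1 - 4 * (1 / 10 ^ 12)) ^ (9 * κ) := by
    rw [← pow_mul]
  have h4 : (1 - 4 * (1 / 10 ^ 12) : ℝ) ^ (9 * κ) ≤ (1 - 4 * (1 / 10 ^ 12)) ^ n :=
    pow_le_pow_of_le_one (by norm_num) (by norm_num) (by omega)
  calc (999 / 1000 : ℝ) ^ κ ≤ _ := h2
    _ = _ := h3
    _ ≤ _ := h4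

theorem nlast_k (κ : ℕ) : (2 : ℝ) ^ (κ / 200) ≤ (101 / 100) ^ κ := by
  have h1 : (2 : ℝ) ^ (κ / 200) ≤ ((101 / 100) ^ 200) ^ (κ / 200) :=
    pow_le_pow_left₀ (by norm_num) (by norm_num) _
  have h2 : (((101 / 100 : ℝ)) ^ 200) ^ (κ / 200) = (101 / 100) ^ (200 * (κ / 200)) := by
    rw [← pow_mul]
  have h3 : (101 / 100 : ℝ) ^ (200 * (κ / 200)) ≤ (101 / 100) ^ κ :=
    pow_le_pow_right₀ (by norm_num) (Nat.mul_div_le κ 200)
  calc (2 : ℝ) ^ (κ / 200) ≤ _ := h1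
    _ = _ := h2
    _ ≤ _ := h3

theorem p_nlast : S_nlast := by
  intro κ n L hκ hn1 hn2 hL
  have hκ1 : 240 ≤ κ := le_trans (by norm_num) hκ
  have he := nlast_eps κ n (by omega) hn2
  have he0 : (0 : ℝ) < (999 / 1000 : ℝ) ^ κ := by positivity
  have hE0 : (0 : ℝ) < (1 - 4 * (1 / 10 ^ 12)) ^ n := lt_of_lt_of_le he0 he
  have hT : (0 : ℝ) < 2 ^ (n - 1) := by positivity
  refine ⟨?_, ?_, ?_, ?_, ?_⟩
  · have h1 : (2 : ℝ) ^ (n - 1) = 2 ^ n / 2 := by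
      have : n = (n - 1) + 1 := by omega
      rw [this, pow_succ]
      simp
    have h2 : (24 : ℝ) ^ n = 2 ^ n * 2 ^ n * 6 ^ n := by
      rw [← mul_pow, ← mul_pow]; norm_num
    have h3 : (2 : ℝ) ^ (n - 1) * (L * ((24 ^ n)⁻¹ * 6 ^ n)) = L / (2 * 2 ^ n) := by
      rw [h1, h2]
      have hp : (2 : ℝ) ^ n ≠ 0 := by positivity
      have hq : (6 : ℝ) ^ n ≠ 0 := by positivity
      field_simp
    rw [h3]
    have h4 : 8 * n ≤ 2 ^ n := nlast_two n (by omega)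
    have h5 : (8 : ℝ) * n ≤ 2 ^ n := by exact_mod_cast h4
    have h6 : (L : ℝ) ≤ n := by
      have : L ≤ n := by omega
      exact_mod_cast this
    rw [div_le_iff₀ (by positivity)]
    linarith
  · have h1 := nlast_pow (92 / 100) (8 * (64 / 15) * 2000 ^ 2 * (16 / 15)) (by norm_num) (by norm_num)
      (by norm_num) (by norm_num) κ hκ1
    have h2 : (88 / 100 : ℝ) ^ κ * (103 / 100) ^ κ ≤ (92 / 100) ^ κ * (986 / 1000) ^ κ := by
      rw [← mul_pow, ← mul_pow]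
      exact pow_le_pow_left₀ (by norm_num) (by norm_num) κ
    have h3 : (0 : ℝ) < (986 / 1000 : ℝ) ^ κ := by positivity
    have h4 : (8 * (64 / 15) * 2000 ^ 2 * (16 / 15)) * ((88 / 100 : ℝ) ^ κ * (103 / 100) ^ κ) ≤
        (986 / 1000) ^ κ := by
      calc (8 * (64 / 15) * 2000 ^ 2 * (16 / 15)) * ((88 / 100 : ℝ) ^ κ * (103 / 100) ^ κ)
          ≤ (8 * (64 / 15) * 2000 ^ 2 * (16 / 15)) * ((92 / 100 : ℝ) ^ κ * (986 / 1000) ^ κ) :=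
            mul_le_mul_of_nonneg_left h2 (by norm_num)
        _ = ((8 * (64 / 15) * 2000 ^ 2 * (16 / 15)) * (92 / 100 : ℝ) ^ κ) * (986 / 1000) ^ κ := by ring
        _ ≤ 1 * (986 / 1000) ^ κ := mul_le_mul_of_nonneg_right h1 h3.le
        _ = _ := one_mul _
    calc 8 * (((88 / 100 : ℝ) ^ κ * 2 ^ (n - 1)) * (64 / 15 * (103 / 100) ^ κ)) * 2000 ^ 2
        = ((8 * (64 / 15) * 2000 ^ 2 * (16 / 15)) * ((88 / 100 : ℝ) ^ κ * (103 / 100) ^ κ)) *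
          (15 / 16 * 2 ^ (n - 1)) := by ring
      _ ≤ (986 / 1000) ^ κ * (15 / 16 * 2 ^ (n - 1)) :=
          mul_le_mul_of_nonneg_right h4 (by positivity)
  · have h1 := nlast_pow (977 / 1000) 8 (by norm_num) (by norm_num) (by norm_num) (by norm_num) κ hκ1
    have h2 : (88 / 100 : ℝ) ^ κ ≤ (977 / 1000) ^ κ * (((95 / 100) ^ κ) ^ 2 * (999 / 1000) ^ κ) := by
      rw [← pow_mul, mul_comm κ 2, pow_mul, ← mul_pow, ← mul_pow]
      exact pow_le_pow_left₀ (by norm_num) (by norm_num) κ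
    have h3 : (0 : ℝ) < ((95 / 100) ^ κ) ^ 2 * (999 / 1000) ^ κ := by positivity
    have h4 : 8 * (88 / 100 : ℝ) ^ κ ≤ ((95 / 100) ^ κ) ^ 2 * (1 - 4 * (1 / 10 ^ 12)) ^ n := by
      calc 8 * (88 / 100 : ℝ) ^ κ
          ≤ 8 * ((977 / 1000) ^ κ * (((95 / 100) ^ κ) ^ 2 * (999 / 1000) ^ κ)) :=
            mul_le_mul_of_nonneg_left h2 (by norm_num)
        _ = (8 * (977 / 1000) ^ κ) * (((95 / 100) ^ κ) ^ 2 * (999 / 1000) ^ κ) := by ring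
        _ ≤ 1 * (((95 / 100) ^ κ) ^ 2 * (999 / 1000) ^ κ) := mul_le_mul_of_nonneg_right h1 h3.le
        _ = ((95 / 100) ^ κ) ^ 2 * (999 / 1000) ^ κ := one_mul _
        _ ≤ _ := mul_le_mul_of_nonneg_left he (by positivity)
    calc 8 * (((88 / 100 : ℝ) ^ κ * 2 ^ (n - 1)) * ((1 - 4 * (1 / 10 ^ 12)) ^ n)⁻¹)
        = (8 * (88 / 100 : ℝ) ^ κ) * (((1 - 4 * (1 / 10 ^ 12)) ^ n)⁻¹ * 2 ^ (n - 1)) := by ring
      _ ≤ (((95 / 100) ^ κ) ^ 2 * (1 - 4 * (1 / 10 ^ 12)) ^ n) *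
          (((1 - 4 * (1 / 10 ^ 12)) ^ n)⁻¹ * 2 ^ (n - 1)) :=
          mul_le_mul_of_nonneg_right h4 (by positivity)
      _ = ((95 / 100) ^ κ) ^ 2 * 2 ^ (n - 1) *
          ((1 - 4 * (1 / 10 ^ 12)) ^ n * ((1 - 4 * (1 / 10 ^ 12)) ^ n)⁻¹) := by ring
      _ = ((95 / 100) ^ κ) ^ 2 * 2 ^ (n - 1) := by
          rw [mul_inv_cancel₀ hE0.ne', mul_one]
  · have h1 := nlast_pow (96 / 100) 2000 (by norm_num) (by norm_num) (by norm_num) (by norm_num) κ hκ1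
    have h2 := nlast_k κ
    have h3 : (0 : ℝ) < 2 ^ (κ / 200) := by positivity
    have h4 : (95 / 100 : ℝ) ^ κ * 2 ^ (κ / 200) ≤ (96 / 100) ^ κ := by
      calc (95 / 100 : ℝ) ^ κ * 2 ^ (κ / 200) ≤ (95 / 100 : ℝ) ^ κ * (101 / 100) ^ κ :=
            mul_le_mul_of_nonneg_left h2 (by positivity)
        _ = (95 / 100 * (101 / 100)) ^ κ := by rw [mul_pow]
        _ ≤ (96 / 100) ^ κ := pow_le_pow_left₀ (by norm_num) (by norm_num) κ
    rw [inv_eq_one_div, div_div, le_div_iff₀ (by positivity)]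
    nlinarith
  · have h1 := nlast_pow (96 / 100) 10000 (by norm_num) (by norm_num) (by norm_num) (by norm_num) κ hκ1
    have h2 : (95 / 100 : ℝ) ^ κ ≤ (96 / 100) ^ κ * (999 / 1000) ^ κ := by
      rw [← mul_pow]
      exact pow_le_pow_left₀ (by norm_num) (by norm_num) κ
    have h3 : 10000 * (95 / 100 : ℝ) ^ κ ≤ (999 / 1000) ^ κ := by
      calc 10000 * (95 / 100 : ℝ) ^ κ ≤ 10000 * ((96 / 100) ^ κ * (999 / 1000) ^ κ) :=
            mul_le_mul_of_nonneg_left h2 (by norm_num)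
        _ = (10000 * (96 / 100) ^ κ) * (999 / 1000) ^ κ := by ring
        _ ≤ 1 * (999 / 1000) ^ κ := mul_le_mul_of_nonneg_right h1 he0.le
        _ = _ := one_mul _
    linarith

end Pool.Agent.Lib.MP_33d9ce_co.Cst
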