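import Pool.Agent.Lib.MP_33d9ce_co.Cst.StmD

/-!
# Spanning hypercubes, constant density: the numerical estimate nnear
-/

set_option autoImplicit false

noncomputable section

open Classical Finset

namespace Pool.Agent.Lib.MP_33d9ce_co.Cst

private theorem nnear_one (κ n : ℕ) (hκ : 10 ^ 7 ≤ κ) (h1 : 5 * κ ≤ n) :
    Real.exp (κ / 1000) * (337 / 192) ^ κ * 2 ^ (n - 1 - κ) ≤ (88 / 100 : ℝ) ^ κ * 2 ^ (n - 1) / 2 := by
  have e1 : Real.exp (κ / 1000 : ℝ) ≤ (1000 / 999) ^ κ := by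
    have h0 : Real.exp (1 / 1000 : ℝ) ≤ 1000 / 999 := by
      have h := Real.add_one_le_exp (-(1 / 1000 : ℝ))
      rw [Real.exp_neg] at h
      have hp := Real.exp_pos (1 / 1000 : ℝ)
      have h2 : (999 / 1000 : ℝ) ≤ (Real.exp (1 / 1000))⁻¹ := by linarith
      have h3 := (le_inv_comm₀ (by norm_num) hp).1 h2
      calc Real.exp (1 / 1000 : ℝ) ≤ (999 / 1000)⁻¹ := h3
        _ = 1000 / 999 := by norm_num
    calc Real.exp (κ / 1000 : ℝ) = (Real.exp (1 / 1000 : ℝ)) ^ κ := by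
          rw [← Real.exp_nat_mul]; congr 1; ring
      _ ≤ _ := pow_le_pow_left₀ (Real.exp_pos _).le h0 κ
  have e2 : (2 : ℝ) ^ (n - 1) = 2 ^ κ * 2 ^ (n - 1 - κ) := by
    rw [← pow_add]; congr 1; omega
  have e3 : (1000 / 999 * (337 / 192) / 2 : ℝ) ^ κ ≤ (88 / 100) ^ κ / 2 := by
    have h := one_add_mul_le_pow (a := (1 / 879 : ℝ)) (by norm_num) κ
    have hk : (10 ^ 7 : ℝ) ≤ κ := by exact_mod_cast hκ
    have h2 : (2 : ℝ) ≤ (880 / 879) ^ κ := by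
      have e5 : (1 + 1 / 879 : ℝ) = 880 / 879 := by norm_num
      rw [e5] at h
      linarith
    calc (1000 / 999 * (337 / 192) / 2 : ℝ) ^ κ ≤ (879 / 1000) ^ κ := pow_le_pow_left₀ (by norm_num) (by norm_num) κ
      _ = (879 / 1000) ^ κ * 2 / 2 := by ring
      _ ≤ (879 / 1000) ^ κ * (880 / 879) ^ κ / 2 := by gcongr
      _ = (88 / 100) ^ κ / 2 := by rw [← mul_pow]; norm_num
  calc Real.exp (κ / 1000) * (337 / 192) ^ κ * 2 ^ (n - 1 - κ)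
      ≤ (1000 / 999) ^ κ * (337 / 192) ^ κ * 2 ^ (n - 1 - κ) := by gcongr
    _ = (1000 / 999 * (337 / 192) / 2 : ℝ) ^ κ * 2 ^ (n - 1) := by
        have e6 : (1000 / 999 * (337 / 192) / 2 : ℝ) ^ κ * 2 ^ κ = (1000 / 999) ^ κ * (337 / 192) ^ κ := by
          rw [← mul_pow, ← mul_pow]; norm_num
        rw [e2, ← mul_assoc, e6]
    _ ≤ (88 / 100) ^ κ / 2 * 2 ^ (n - 1) := by gcongr
    _ = _ := by ring

private theorem nnear_two (κ n : ℕ) (hκ : 10 ^ 7 ≤ κ) (h1 : 5 * κ ≤ n) (h2 : n ≤ 5 * κ + 4) :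
    (n : ℝ) ^ 2 * 2 ^ κ ≤ (88 / 100 : ℝ) ^ κ * 2 ^ (n - 1) / 2 := by
  have a1 : (n : ℝ) ≤ 6 * κ := by
    have : n ≤ 6 * κ := by omega
    exact_mod_cast this
  have a2 : (κ : ℝ) ≤ 2 ^ κ := by
    have := (Nat.lt_two_pow_self (n := κ)).le
    exact_mod_cast this
  have a3 : (144 : ℝ) ≤ 3 ^ κ := by
    calc (144 : ℝ) ≤ 3 ^ 5 := by norm_num
      _ ≤ 3 ^ κ := pow_le_pow_right₀ (by norm_num) (le_trans (by norm_num) hκ)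
  have a4 : (2 : ℝ) ^ (5 * κ) ≤ 2 * 2 ^ (n - 1) := by
    rw [← pow_succ']
    exact pow_le_pow_right₀ (by norm_num) (by omega)
  have a5 : (n : ℝ) ^ 2 ≤ 36 * (2 ^ κ * 2 ^ κ) := by
    calc (n : ℝ) ^ 2 ≤ (6 * (κ : ℝ)) ^ 2 := by gcongr
      _ = 36 * ((κ : ℝ) * κ) := by ring
      _ ≤ 36 * ((2 : ℝ) ^ κ * 2 ^ κ) := by gcongr
  have a6 : (4 : ℝ) * ((n : ℝ) ^ 2 * 2 ^ κ) ≤ (88 / 100 : ℝ) ^ κ * (2 * 2 ^ (n - 1)) := by
    calc (4 : ℝ) * ((n : ℝ) ^ 2 * 2 ^ κ) ≤ 4 * ((36 * (2 ^ κ * 2 ^ κ)) * 2 ^ κ) := by gcongr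
      _ = 144 * (2 ^ κ * 2 ^ κ * 2 ^ κ) := by ring
      _ ≤ 3 ^ κ * (2 ^ κ * 2 ^ κ * 2 ^ κ) := by gcongr
      _ = 24 ^ κ := by rw [← mul_pow, ← mul_pow, ← mul_pow]; norm_num
      _ ≤ (88 / 100 * 32) ^ κ := pow_le_pow_left₀ (by norm_num) (by norm_num) κ
      _ = (88 / 100 : ℝ) ^ κ * 2 ^ (5 * κ) := by rw [mul_pow, pow_mul]; norm_num
      _ ≤ _ := by gcongr
  linarith

private theorem nnear_all (κ n : ℕ) (hκ : 10 ^ 7 ≤ κ) (h1 : 5 * κ ≤ n) (h2 : n ≤ 5 * κ + 4) :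
  Real.exp (κ / 1000) * (337 / 192) ^ κ * 2 ^ (n - 1 - κ) + (n : ℝ) ^ 2 * 2 ^ κ ≤ (88 / 100 : ℝ) ^ κ * 2 ^ (n - 1) := by
  have := nnear_one κ n hκ h1
  have := nnear_two κ n hκ h1 h2
  linarith

theorem p_nnear : S_nnear := fun κ n hκ h1 h2 => nnear_all κ n hκ h1 h2

end Pool.Agent.Lib.MP_33d9ce_co.Cst
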