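import Pool.Agent.Lib.MP_33d9ce_co.Cst.StmD

/-!
# Spanning hypercubes, constant density: sums over the levels
-/

set_option autoImplicit false

noncomputable section

open Classical Finset

namespace Pool.Agent.Lib.MP_33d9ce_co.Cst

private theorem nsum_kap_succ (j : ℕ) : kap (j + 2) = 2500 * kap (j + 1) := by
  show 10 ^ 7 * 2500 ^ (j + 1) = 2500 * (10 ^ 7 * 2500 ^ j)
  ring

private theorem nsum_kap_le (j : ℕ) : kap (j + 1) ≤ 2500 * kap j := by
  rcases j with _ | j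
  · show 10 ^ 7 * 2500 ^ 0 ≤ 2500 * 10 ^ 7
    norm_num
  · exact (nsum_kap_succ j).le

private theorem nsum_kap_mono : Monotone kap := by
  refine monotone_nat_of_le_succ fun j => ?_
  rcases j with _ | j
  · show 10 ^ 7 ≤ 10 ^ 7 * 2500 ^ 0
    norm_num
  · rw [nsum_kap_succ j]
    omega

private theorem nsum_kap_ge (j : ℕ) : 5000000 * (j + 1) ≤ kap j := by
  rcases j with _ | j
  · show 5000000 * (0 + 1) ≤ 10 ^ 7
    norm_num
  · induction j with
    | zero =>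
      show 5000000 * (0 + 1 + 1) ≤ 10 ^ 7 * 2500 ^ 0
      norm_num
    | succ j ih =>
      rw [nsum_kap_succ j]
      omega

private theorem nsum_geo (s : Finset ℕ) : ∑ l ∈ s, (1 / 2 : ℝ) ^ l ≤ 2 := by
  have h := Summable.sum_le_tsum s (fun i _ => by positivity : ∀ i ∉ s, 0 ≤ (1 / 2 : ℝ) ^ i)
    summable_geometric_two
  rwa [tsum_geometric_two] at h

private theorem nsum_pow (x : ℝ) (hx0 : 0 ≤ x) (hx1 : x ≤ 1 / 2) (N : ℕ) :
    Real.exp (-(2 * x * N)) ≤ (1 - x) ^ N := by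
  have h1 : Real.exp (-(2 * x)) ≤ 1 - x := by
    have h2 : 1 + 2 * x ≤ Real.exp (2 * x) := by
      have := Real.add_one_le_exp (2 * x)
      linarith
    rw [Real.exp_neg, inv_le_comm₀ (Real.exp_pos _) (by linarith)]
    refine le_trans ?_ h2
    rw [inv_le_iff_one_le_mul₀ (by linarith)]
    nlinarith
  have h3 := pow_le_pow_left₀ (Real.exp_pos _).le h1 N
  rw [← Real.exp_nat_mul] at h3
  have h4 : (N : ℝ) * -(2 * x) = -(2 * x * N) := by ring
  rwa [h4] at h3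

private theorem nsum_half_exp (K : ℕ) : (1 / 2 : ℝ) ^ K ≤ Real.exp (-(K / 20000 : ℝ)) := by
  have h1 : (1 / 2 : ℝ) ≤ Real.exp (-(1 / 20000 : ℝ)) := by
    have := Real.add_one_le_exp (-(1 / 20000 : ℝ))
    linarith
  have h2 := pow_le_pow_left₀ (by norm_num : (0 : ℝ) ≤ 1 / 2) h1 K
  rw [← Real.exp_nat_mul] at h2
  have h3 : (K : ℝ) * -(1 / 20000 : ℝ) = -(K / 20000 : ℝ) := by ring
  rwa [h3] at h2

private theorem nsum_exp_half (M : ℕ) : Real.exp (-(M : ℝ)) ≤ (1 / 2 : ℝ) ^ M := by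
  have h1 : Real.exp (-(1 : ℝ)) ≤ 1 / 2 := by
    rw [Real.exp_neg]
    have := Real.add_one_le_exp (1 : ℝ)
    rw [inv_le_comm₀ (Real.exp_pos _) (by norm_num)]
    norm_num at this ⊢
    linarith
  have h2 := pow_le_pow_left₀ (Real.exp_pos _).le h1 M
  rw [← Real.exp_nat_mul] at h2
  have h3 : (M : ℝ) * -(1 : ℝ) = -(M : ℝ) := by ring
  rwa [h3] at h2

private theorem nsum_sml (L i : ℕ) : sml L epv (i + 1) ≤ gv (i + 1) := by
  have hterm : ∀ j ∈ (Ico 2 L).filter (fun j => i + 1 ≤ j + 1),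
      (2 : ℝ) ^ kap j * epv j ≤ (1 / 2) ^ kap i * (1 / 2) * (1 / 2) ^ j := by
    intro j hj
    rw [mem_filter, mem_Ico] at hj
    obtain ⟨⟨hj2, _⟩, hij⟩ := hj
    obtain ⟨j', rfl⟩ : ∃ j', j = j' + 1 := ⟨j - 1, by omega⟩
    have h1 : kap i ≤ kap (j' + 1) := nsum_kap_mono (by omega)
    have h2 := nsum_kap_ge (j' + 1)
    have h3 : 12 * kap (j' + 1 + 1) = kap (j' + 1) + 29999 * kap (j' + 1) := by
      rw [show j' + 1 + 1 = j' + 2 from rfl, nsum_kap_succ j']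
      ring
    have h4 : (2 : ℝ) ^ kap (j' + 1) * epv (j' + 1) = 2 * (1 / 2) ^ (29999 * kap (j' + 1)) := by
      unfold epv
      rw [h3, pow_add]
      have h5 : (2 : ℝ) ^ kap (j' + 1) * (1 / 2) ^ kap (j' + 1) = 1 := by
        rw [← mul_pow]
        norm_num
      calc (2 : ℝ) ^ kap (j' + 1) *
            (2 * ((1 / 2) ^ kap (j' + 1) * (1 / 2) ^ (29999 * kap (j' + 1))))
          = ((2 : ℝ) ^ kap (j' + 1) * (1 / 2) ^ kap (j' + 1)) *
            (2 * (1 / 2) ^ (29999 * kap (j' + 1))) := by ring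
        _ = _ := by rw [h5, one_mul]
    rw [h4]
    have h6 : kap i + (j' + 1) + 2 ≤ 29999 * kap (j' + 1) := by omega
    have h7 : (1 / 2 : ℝ) ^ (29999 * kap (j' + 1)) ≤ (1 / 2) ^ (kap i + (j' + 1) + 2) :=
      pow_le_pow_of_le_one (by norm_num) (by norm_num) h6
    calc 2 * (1 / 2 : ℝ) ^ (29999 * kap (j' + 1)) ≤ 2 * (1 / 2) ^ (kap i + (j' + 1) + 2) := by
          linarith
      _ = (1 / 2) ^ kap i * (1 / 2) * (1 / 2) ^ (j' + 1) := by
          rw [pow_add, pow_add]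
          ring
  have h1 : sml L epv (i + 1) ≤ (1 / 2) ^ kap i := by
    unfold sml
    refine (sum_le_sum hterm).trans ?_
    rw [← mul_sum]
    have h2 := nsum_geo ((Ico 2 L).filter (fun j => i + 1 ≤ j + 1))
    have h3 : (0 : ℝ) ≤ (1 / 2) ^ kap i := by positivity
    calc (1 / 2 : ℝ) ^ kap i * (1 / 2) * ∑ j ∈ (Ico 2 L).filter (fun j => i + 1 ≤ j + 1), (1 / 2 : ℝ) ^ j
        ≤ (1 / 2) ^ kap i * (1 / 2) * 2 := by
          apply mul_le_mul_of_nonneg_left h2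
          positivity
      _ = (1 / 2) ^ kap i := by ring
  refine h1.trans ?_
  show (1 / 2 : ℝ) ^ kap i ≤ Real.exp (-(kap (i + 1 - 1) / 20000 : ℝ))
  rw [Nat.add_sub_cancel]
  exact nsum_half_exp (kap i)

private theorem nsum_gs (L i : ℕ) :
    gv (i + 1) + sml L epv (i + 1) ≤ 2 * Real.exp (-(kap i / 20000 : ℝ)) := by
  have h := nsum_sml L i
  have h1 : gv (i + 1) = Real.exp (-(kap i / 20000 : ℝ)) := by
    unfold gv
    rw [Nat.add_sub_cancel]
  rw [h1] at h ⊢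
  linarith

private theorem nsum_sml_nonneg (L l : ℕ) : 0 ≤ sml L epv l := by
  unfold sml
  refine sum_nonneg fun j _ => ?_
  unfold epv
  positivity

private theorem nsum_gs_nonneg (L l : ℕ) : 0 ≤ gv l + sml L epv l := by
  have := nsum_sml_nonneg L l
  have h : 0 ≤ gv l := (Real.exp_pos _).le
  linarith

private theorem nsum_alv (i : ℕ) : (alv (i + 1))⁻¹ ≤ 4 * Real.exp (kap i / 10 ^ 10) := by
  have hN : kap (i + 1) + kap (i + 1 + 1) ≤ 6252500 * kap i := by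
    have h1 := nsum_kap_le i
    have h2 := nsum_kap_le (i + 1)
    omega
  have h1 := nsum_pow (8 * (1 / 10 ^ 19)) (by norm_num) (by norm_num) (kap (i + 1) + kap (i + 1 + 1))
  have h2 : Real.exp (-(kap i / 10 ^ 10)) ≤
      Real.exp (-(2 * (8 * (1 / 10 ^ 19)) * ((kap (i + 1) + kap (i + 1 + 1) : ℕ) : ℝ))) := by
    apply Real.exp_le_exp.2
    have h3 : ((kap (i + 1) + kap (i + 1 + 1) : ℕ) : ℝ) ≤ 6252500 * (kap i : ℝ) := by
      exact_mod_cast hN
    have h4 : (0 : ℝ) ≤ kap i := Nat.cast_nonneg _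
    have h5 : 2 * (8 * (1 / 10 ^ 19 : ℝ)) * ((kap (i + 1) + kap (i + 1 + 1) : ℕ) : ℝ) ≤
        2 * (8 * (1 / 10 ^ 19)) * (6252500 * (kap i : ℝ)) :=
      mul_le_mul_of_nonneg_left h3 (by norm_num)
    have h6 : 2 * (8 * (1 / 10 ^ 19 : ℝ)) * (6252500 * (kap i : ℝ)) ≤ kap i / 10 ^ 10 := by
      nlinarith
    linarith
  have h3 : 1 / 4 * Real.exp (-(kap i / 10 ^ 10)) ≤ alv (i + 1) := by
    unfold alv
    have := h2.trans h1
    linarith
  have h4 : 0 < 1 / 4 * Real.exp (-(kap i / 10 ^ 10)) := by positivity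
  refine (inv_anti₀ h4 h3).trans (le_of_eq ?_)
  rw [Real.exp_neg, mul_inv, inv_inv]
  norm_num

private theorem nsum_omv (i : ℕ) : (omv (i + 1))⁻¹ ≤ 8 * Real.exp (kap i / 300000) := by
  have hN : 100 * kap (i + 1 + 1) + 100 * kap (i + 1 + 2) ≤ 1563125000000 * kap i := by
    have h1 := nsum_kap_le i
    have h2 := nsum_kap_le (i + 1)
    have h3 := nsum_kap_le (i + 1 + 1)
    have h4 : kap (i + 1 + 2) = kap (i + 1 + 1 + 1) := rfl
    omega
  have h1 := nsum_pow (8 * (1 / 10 ^ 19)) (by norm_num) (by norm_num)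
    (100 * kap (i + 1 + 1) + 100 * kap (i + 1 + 2))
  have h2 : Real.exp (-(kap i / 300000 : ℝ)) ≤
      Real.exp (-(2 * (8 * (1 / 10 ^ 19)) *
        ((100 * kap (i + 1 + 1) + 100 * kap (i + 1 + 2) : ℕ) : ℝ))) := by
    apply Real.exp_le_exp.2
    have h3 : ((100 * kap (i + 1 + 1) + 100 * kap (i + 1 + 2) : ℕ) : ℝ) ≤
        1563125000000 * (kap i : ℝ) := by
      exact_mod_cast hN
    have h4 : (0 : ℝ) ≤ kap i := Nat.cast_nonneg _
    have h5 : 2 * (8 * (1 / 10 ^ 19 : ℝ)) *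
        ((100 * kap (i + 1 + 1) + 100 * kap (i + 1 + 2) : ℕ) : ℝ) ≤
        2 * (8 * (1 / 10 ^ 19)) * (1563125000000 * (kap i : ℝ)) :=
      mul_le_mul_of_nonneg_left h3 (by norm_num)
    have h6 : 2 * (8 * (1 / 10 ^ 19 : ℝ)) * (1563125000000 * (kap i : ℝ)) ≤ kap i / 300000 := by
      nlinarith
    linarith
  have h3 : 1 / 8 * Real.exp (-(kap i / 300000 : ℝ)) ≤ omv (i + 1) := by
    unfold omv
    have := h2.trans h1
    linarith
  have h4 : 0 < 1 / 8 * Real.exp (-(kap i / 300000 : ℝ)) := by positivity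
  refine (inv_anti₀ h4 h3).trans (le_of_eq ?_)
  rw [Real.exp_neg, mul_inv, inv_inv]
  norm_num

/-- the common bound -/
private theorem nsum_term (L i : ℕ) (c a : ℝ) (hc : c ≤ 8 * Real.exp (kap i * a))
    (ha : a ≤ 1 / 200000) :
    c * (gv (i + 1) + sml L epv (i + 1)) ≤ 16 * (1 / 2) ^ 100 * (1 / 2) ^ (i + 1) := by
  have h1 := nsum_gs L i
  have hK : (5000000 : ℝ) * (i + 1) ≤ kap i := by exact_mod_cast nsum_kap_ge i
  have hK0 : (0 : ℝ) ≤ kap i := Nat.cast_nonneg _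
  have h2 : c * (gv (i + 1) + sml L epv (i + 1)) ≤
      8 * Real.exp (kap i * a) * (2 * Real.exp (-(kap i / 20000 : ℝ))) :=
    mul_le_mul hc h1 (nsum_gs_nonneg L _) (by positivity)
  have h3 : 8 * Real.exp (kap i * a) * (2 * Real.exp (-(kap i / 20000 : ℝ))) =
      16 * Real.exp (kap i * a + -(kap i / 20000 : ℝ)) := by
    rw [Real.exp_add]
    ring
  have h4 : Real.exp (kap i * a + -(kap i / 20000 : ℝ)) ≤
      Real.exp (-((200 * (i + 1) : ℕ) : ℝ)) := by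
    apply Real.exp_le_exp.2
    have h5 : (kap i : ℝ) * a ≤ kap i * (1 / 200000) := mul_le_mul_of_nonneg_left ha hK0
    push_cast
    nlinarith
  have h5 := nsum_exp_half (200 * (i + 1))
  have h6 : (1 / 2 : ℝ) ^ (200 * (i + 1)) ≤ (1 / 2) ^ (100 + (i + 1)) :=
    pow_le_pow_of_le_one (by norm_num) (by norm_num) (by omega)
  rw [pow_add] at h6
  have h7 := (h4.trans h5).trans h6
  calc c * (gv (i + 1) + sml L epv (i + 1))
      ≤ 16 * Real.exp (kap i * a + -(kap i / 20000 : ℝ)) := by rw [← h3]; exact h2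
    _ ≤ 16 * ((1 / 2) ^ 100 * (1 / 2) ^ (i + 1)) := by linarith
    _ = 16 * (1 / 2) ^ 100 * (1 / 2) ^ (i + 1) := by ring

theorem p_nsum : S_nsum := by
  intro κ L hL hκ
  refine ⟨?_, ?_, ?_⟩
  · have h1 : (2 : ℝ) ^ κ * epv L ≤ 1 / 32 := by
      have hK : κ + 1 ≤ kap (L + 1) := hκ.trans (nsum_kap_mono (Nat.le_succ L))
      have h2 : (1 / 2 : ℝ) ^ (12 * kap (L + 1)) ≤ (1 / 2) ^ (κ + 7) :=
        pow_le_pow_of_le_one (by norm_num) (by norm_num) (by omega)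
      have h3 : (2 : ℝ) ^ κ * (1 / 2) ^ κ = 1 := by
        rw [← mul_pow]
        norm_num
      have h4 : (0 : ℝ) < 2 ^ κ := by positivity
      unfold epv
      calc (2 : ℝ) ^ κ * (2 * (1 / 2) ^ (12 * kap (L + 1)))
          ≤ (2 : ℝ) ^ κ * (2 * (1 / 2) ^ (κ + 7)) := by
            apply mul_le_mul_of_nonneg_left _ h4.le
            linarith
        _ = ((2 : ℝ) ^ κ * (1 / 2) ^ κ) * (2 * (1 / 2) ^ 7) := by
            rw [pow_add]
            ring
        _ ≤ 1 / 32 := by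
            rw [h3]
            norm_num
    have h2 : ∑ l ∈ Icc 2 L, (alv l)⁻¹ * (gv l + sml L epv l) ≤
        ∑ l ∈ Icc 2 L, 16 * (1 / 2) ^ 100 * (1 / 2 : ℝ) ^ l := by
      refine sum_le_sum fun l hl => ?_
      rw [mem_Icc] at hl
      obtain ⟨i, rfl⟩ : ∃ i, l = i + 1 := ⟨l - 1, by omega⟩
      refine nsum_term L i _ (1 / 10 ^ 10) ?_ (by norm_num)
      refine (nsum_alv i).trans ?_
      rw [mul_one_div]
      have := Real.exp_pos ((kap i : ℝ) / 10 ^ 10)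
      linarith
    rw [← mul_sum] at h2
    have h3 := nsum_geo (Icc 2 L)
    have h4 : 16 * (1 / 2) ^ 100 * ∑ l ∈ Icc 2 L, (1 / 2 : ℝ) ^ l ≤ 16 * (1 / 2) ^ 100 * 2 :=
      mul_le_mul_of_nonneg_left h3 (by positivity)
    have h5 : 16 * (1 / 2 : ℝ) ^ 100 * 2 ≤ 1 / 32000 := by norm_num
    linarith
  · have h2 : ∑ j ∈ Icc 1 L, (gv j + sml L epv j) * (omv j)⁻¹ ≤
        ∑ l ∈ Icc 1 L, 16 * (1 / 2) ^ 100 * (1 / 2 : ℝ) ^ l := by
      refine sum_le_sum fun l hl => ?_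
      rw [mem_Icc] at hl
      obtain ⟨i, rfl⟩ : ∃ i, l = i + 1 := ⟨l - 1, by omega⟩
      rw [mul_comm]
      refine nsum_term L i _ (1 / 300000) ?_ (by norm_num)
      refine (nsum_omv i).trans ?_
      rw [mul_one_div]
    rw [← mul_sum] at h2
    have h3 := nsum_geo (Icc 1 L)
    have h4 : 16 * (1 / 2) ^ 100 * ∑ l ∈ Icc 1 L, (1 / 2 : ℝ) ^ l ≤ 16 * (1 / 2) ^ 100 * 2 :=
      mul_le_mul_of_nonneg_left h3 (by positivity)
    have h5 : 16 * (1 / 2 : ℝ) ^ 100 * 2 ≤ 1 / 32000 := by norm_num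
    linarith
  · have h1 := nsum_term L 0 1 0 (by simp) (by norm_num)
    rw [one_mul] at h1
    refine h1.trans ?_
    norm_num

end Pool.Agent.Lib.MP_33d9ce_co.Cst
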