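import Pool.Agent.Lib.MP_33d9ce_co.Cst.StmD

set_option autoImplicit false

noncomputable section

open Classical Finset

namespace Pool.Agent.Lib.MP_33d9ce_co.Cst

/-- `2 ^ n` is large -/
theorem num_pow (n : ℕ) (hn : 5 * 10 ^ 7 ≤ n) : (10 : ℝ) ^ 25 ≤ 2 ^ n := by
  have h1 : (2 : ℝ) ^ 84 ≤ 2 ^ n := pow_le_pow_right₀ (by norm_num) (by omega)
  have h2 : (10 : ℝ) ^ 25 ≤ 2 ^ 84 := by norm_num
  exact h2.trans h1

theorem p_num (h1 : S_nL) (h2 : S_nal) (h3 : S_nsum) (h4 : S_narr) (h5 : S_nx) (h6 : S_nden) (h7 : S_nnear)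
    (h8 : S_nblk) (h9 : S_nlast) : S_num := by
  refine ⟨5 * 10 ^ 7, fun n hn => ?_⟩
  have hκ : 10 ^ 7 ≤ n / 5 := by omega
  obtain ⟨κ, hκe⟩ : ∃ κ, κ = n / 5 := ⟨_, rfl⟩
  rw [← hκe] at hκ
  have hn1 : 5 * κ ≤ n := by omega
  have hn2 : n ≤ 5 * κ + 4 := by omega
  obtain ⟨L, hL2, htop, hbelow, hL2500, hL100, hLpow⟩ := h1 κ hκ
  have hL1 : L + 1 ≤ κ := by omega
  obtain ⟨al1, om1⟩ := h2 κ L hL2500
  obtain ⟨s1, s2, s3⟩ := h3 κ L hL2 htop
  have a1 := h4 κ n L hκ hn2 hL1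
  obtain ⟨x1, x2⟩ := h5 κ hκ
  obtain ⟨d1, d2, d3⟩ := h6 κ n hκ hn1 hn2
  have e1 := h7 κ n hκ hn1 hn2
  have b1 := h8 κ n hκ hn1 hn2
  obtain ⟨l1, l2, l3, l4, l5⟩ := h9 κ n L hκ hn1 hn2 hL1
  have hpow := num_pow n hn
  have hpp : (0 : ℝ) < 2 ^ n := by positivity
  have hp1 : (2 : ℝ) ^ n = 2 * 2 ^ (n - 1) := by
    rw [← pow_succ']
    congr 1
    omega
  have hq : (0 : ℝ) < 2 ^ (n - 1) := by positivity
  have hf1 : ((⌊(2 : ℝ) ^ n / 10 ^ 23⌋₊ : ℕ) : ℝ) ≤ 2 ^ n / 10 ^ 23 := Nat.floor_le (by positivity)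
  have hf2 : (2 : ℝ) ^ n / 10 ^ 23 - 1 < ((⌊(2 : ℝ) ^ n / 10 ^ 23⌋₊ : ℕ) : ℝ) := Nat.sub_one_lt_floor _
  have hf3 : ((⌊(2 : ℝ) ^ n / 10 ^ 23⌋₊ : ℕ) : ℝ) ≤ 2 * 2 ^ (n - 1) / 10 ^ 23 := by
    refine hf1.trans (le_of_eq ?_)
    rw [hp1]
  have h24 : (0 : ℝ) < (24 ^ n)⁻¹ := by positivity
  have h25 : (0 : ℝ) < 25 ^ n := by positivity
  refine ⟨κ, κ / 200, n - 4 * κ - 4 * (κ / 200), ⌊(2 : ℝ) ^ n / 10 ^ 23⌋₊, L, (97 / 100) ^ κ, (24 ^ n)⁻¹, 25 ^ n,
    (103 / 100) ^ κ, (986 / 1000) ^ κ, (88 / 100) ^ κ * 2 ^ (n - 1), (95 / 100) ^ κ, ?_, ?_⟩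
  · refine
      { n_eq := by omega
        κ_ge := by omega
        L_ge := hL2
        L_le := hL100
        top := htop
        below := hbelow
        h_le := ?_
        x_pos := by positivity
        h_x := ?_
        array := a1
        al_ge := fun l _ hl => x2.trans (al1 l hl)
        z0_pos := h24
        H_pos := by positivity
        dens := ?_
        trunc := d2
        th_pos := by positivity
        root := ?_
        near := ?_
        good := s1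
        large := l1
        blocks := b1
        load := s2
        expand := l2
        first := s3
        er_nonneg := by positivity
        err := l3
        err1 := l4
        err2 := l5 }
    · have h := hq.le
      have h1 : (1210 : ℝ) * (2 * 2 ^ (n - 1) / 10 ^ 23) ≤ 1 / 10 ^ 19 * (15 / 16 * 2 ^ (n - 1)) := by
        have e1 : (1210 : ℝ) * (2 * 2 ^ (n - 1) / 10 ^ 23) = (2420 / 10 ^ 23) * 2 ^ (n - 1) := by ring
        have e2 : (1 : ℝ) / 10 ^ 19 * (15 / 16 * 2 ^ (n - 1)) = (15 / (16 * 10 ^ 19)) * 2 ^ (n - 1) := by ring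
        rw [e1, e2]
        exact mul_le_mul_of_nonneg_right (by norm_num) h
      exact (mul_le_mul_of_nonneg_left hf3 (by norm_num)).trans h1
    · have h1 : ((⌊(2 : ℝ) ^ n / 10 ^ 23⌋₊ : ℕ) : ℝ) / 2 ^ (n - 1) ≤ 2 / 10 ^ 23 := by
        rw [div_le_iff₀ hq]
        refine hf3.trans (le_of_eq ?_)
        ring
      linarith
    · intro j _ hj
      refine d1.trans ?_
      exact mul_le_mul_of_nonneg_left (mul_le_mul_of_nonneg_left (om1 j hj) h24.le) h25.le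
    · intro j _ hj
      exact d3.trans (mul_le_mul_of_nonneg_left (om1 j hj) h24.le)
    · refine le_trans ?_ e1
      refine add_le_add_left (mul_le_mul_of_nonneg_right (mul_le_mul_of_nonneg_right hLpow ?_) ?_) _
      · positivity
      · positivity
  · have : (2 : ℝ) ^ n / 10 ^ 24 ≤ 2 ^ n / 10 ^ 23 - 1 := by
      norm_num at hpow ⊢
      linarith
    exact this.trans hf2.le

end Pool.Agent.Lib.MP_33d9ce_co.Cst
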