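import Pool.Agent.Lib.MP_33d9ce_co.Cst.StmC1

set_option autoImplicit false

noncomputable section

open Classical Finset

namespace Pool.Agent.Lib.MP_33d9ce_co.Cst

open Slack (Cell Ev Od Dir nbr)

theorem p_own : S_own := by
  intro κ X Ω _ ok E al cell L w u
  constructor
  · intro l hl hb
    unfold lev
    have h1 : (l, u) ∈ ((range L ×ˢ (univ : Finset (Cell κ))).filter fun p => bad ok E al cell w p.1 p.2) := by
      rw [Finset.mem_filter, Finset.mem_product, Finset.mem_range]
      exact ⟨⟨hl, Finset.mem_univ _⟩, hb⟩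
    have h2 := Finset.le_sup (f := fun p : ℕ × Cell κ => p.1 + 1 - (hammingDist u p.2 + 1) / 2) h1
    refine le_trans ?_ h2
    simp
  · unfold lev
    refine Finset.sup_le fun p hp => ?_
    rw [Finset.mem_filter, Finset.mem_product, Finset.mem_range] at hp
    have := hp.1.1
    omega

end Pool.Agent.Lib.MP_33d9ce_co.Cst
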