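import Pool.Agent.Lib.MP_33d9ce_co.Cst.StmC3

set_option autoImplicit false

noncomputable section

open Classical Finset

namespace Pool.Agent.Lib.MP_33d9ce_co.Cst

open Slack (Cell Ev Od Dir nbr shift)

theorem p01_inst {A : Type} (i1 i2 : Fintype A) (F : A → ℝ) :
    @Finset.sum A ℝ _ (@Finset.univ A i1) F = @Finset.sum A ℝ _ (@Finset.univ A i2) F := by
  rw [Subsingleton.elim i1 i2]

theorem p_p01 (h1 : S_ups) (h2 : S_bayes) (h3 : S_sup) (h4 : S_alp) (h5 : S_lawsum) : S_p01 := by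
  intro κ m r S X W0 Ω _ _ _ _ e η x a hok y ξ b
  have hal : ∀ ξ p i, ((e.mod m r).al ξ p i).Nonempty :=
    fun ξ p i => (h4 κ (Ev κ m r) S X W0 Ω e η x a hok ξ p i).1
  have hls := h5 (Cell κ) (Ev κ m r) S (Cell κ × Od κ m r) (Dir κ m r) e.Xi (e.mod m r) hal
  have hup := (h1 κ (Ev κ m r) S X W0 Ω e).2 (e.cell y.1)
  obtain ⟨b1, _, b3, _⟩ := h2 e.Xi W0 (Dir κ m r → S) (fun ξ b => (e.mod m r).law ξ y b)
    (fun ξ => e.yf ξ.2 y.1 = 0) (e.up0 (e.cell y.1)) hup (fun ξ b => (hls ξ y).1 b)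
    (fun ξ => (p01_inst _ _ _).trans (hls ξ y).2.1)
  refine ⟨?_, ?_, ?_, ?_⟩
  · intro w
    unfold pR0
    split_ifs with h
    · exact b1 ξ b w
    · exact le_refl 0
  · intro h w
    unfold pR0
    rw [if_neg h]
  · intro h hlaw
    have hs := b3 ξ b h hlaw
    unfold pR0
    simp only [if_pos h]
    exact hs
  · intro w hw t
    unfold pR0 at hw
    split_ifs at hw with h
    · have hpw : pw (fun ξ b => (e.mod m r).law ξ y b) (fun ξ : e.Xi => e.yf ξ.2 y.1 = 0)
          (e.up0 (e.cell y.1)) ξ b w ≠ 0 := by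
        intro h0
        apply hw
        unfold post
        rw [h0, zero_div]
      unfold pw at hpw
      split_ifs at hpw with hcl
      · have h6 := ((h3 κ m r S X W0 Ω e η x a hok y (e.up0 (e.cell y.1) ξ w)).2 hcl).1 b hpw t
        have h7 : (e.up0 (e.cell y.1) ξ w).1 (e.cell y.1) = w := by
          unfold Env.up0
          exact Function.update_self _ _ _
        rw [h7] at h6
        exact h6
      · exact absurd rfl hpw
    · exact absurd rfl hw

end Pool.Agent.Lib.MP_33d9ce_co.Cst
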