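import Pool.Agent.Lib.MP_33d9ce_co.Cst.StmC3

/-!
# Spanning hypercubes, constant density: moments of the rows of the family 0
-/

set_option autoImplicit false

noncomputable section

open Classical Finset

namespace Pool.Agent.Lib.MP_33d9ce_co.Cst

open Slack (Cell Ev Od Dir nbr shift)

private theorem p02_ite {Ξ A : Type} [Fintype Ξ] [Fintype A] (cl : Ξ → Prop) (f g k : Ξ → A → ℝ)
    (h1 : ∀ ξ, cl ξ → ∀ b, k ξ b = g ξ b) (h2 : ∀ ξ, ¬ cl ξ → ∀ b, k ξ b = 0) :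
    ∑ ξ, ∑ b, f ξ b * k ξ b = ∑ ξ, (if cl ξ then ∑ b, f ξ b * g ξ b else 0) := by
  refine Finset.sum_congr rfl fun ξ _ => ?_
  by_cases h : cl ξ
  · rw [if_pos h]
    exact Finset.sum_congr rfl fun b _ => by rw [h1 ξ h b]
  · rw [if_neg h]
    exact Finset.sum_eq_zero fun b _ => by rw [h2 ξ h b, mul_zero]

private theorem p02_card {Ξ : Type} [Fintype Ξ] (p q : Ξ → Prop) [i : DecidablePred p] [j : DecidablePred q]
    (h : ∀ ξ, p ξ ↔ q ξ) :
    (((univ : Finset Ξ).filter p).card : ℝ) = (((univ : Finset Ξ).filter q).card : ℝ) := by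
  congr 2
  ext ξ
  rw [Finset.mem_filter, Finset.mem_filter, h ξ]

theorem p_p02 (h1 : S_ups) (h2 : S_bayes) (h3 : S_sq) (h4 : S_hat0) (h5 : S_im) (h6 : S_inj) (_h7 : S_lin)
    (h8 : S_alp) (h9 : S_lawsum) : S_p02 := by
  intro κ m r S X W0 Ω _ _ _ _ e η x a μ hok hμ y
  haveI hW0 : Nonempty W0 := hok.nonempty0
  haveI hXi : Nonempty e.Xi :=
    ⟨(fun _ => hok.nonempty0.some, ⟨fun z => (hok.nonempty z.2).choose, fun z => (hok.nonempty z.2).choose_spec⟩)⟩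
  have hXi0 : 0 < (Fintype.card e.Xi : ℝ) := by exact_mod_cast Fintype.card_pos
  have hW00 : 0 < (Fintype.card W0 : ℝ) := by exact_mod_cast Fintype.card_pos
  have hne : ∀ ξ p i, ((e.mod m r).al ξ p i).Nonempty :=
    fun ξ p i => (h8 κ (Ev κ m r) S X W0 Ω e η x a hok ξ p i).1
  have hls : ∀ ξ, (∀ b : Dir κ m r → S, 0 ≤ (e.mod m r).law ξ y b) ∧
      ∑ b : Dir κ m r → S, (e.mod m r).law ξ y b = 1 := by
    intro ξ
    have h := h9 (Cell κ) (Ev κ m r) S (Cell κ × Od κ m r) (Dir κ m r) e.Xi (e.mod m r) hne ξ y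
    exact ⟨h.1, (Finset.sum_congr (Finset.ext fun a => by simp) fun _ _ => rfl).trans h.2.1⟩
  have him : ∀ F : e.Xi → (Dir κ m r → S) → ℝ, Ex μ (fun ξ σ => F ξ ((e.mod m r).im σ y)) =
      (Fintype.card e.Xi : ℝ)⁻¹ * ∑ ξ, ∑ b : Dir κ m r → S, (e.mod m r).law ξ y b * F ξ b := by
    intro F
    refine ((h5 (Cell κ) (Ev κ m r) S (Cell κ × Od κ m r) (Dir κ m r) e.Xi (e.mod m r) e.good μ hμ
      (fun y => h6 κ m r y)).1 y F).trans ?_
    refine congrArg₂ _ rfl (Finset.sum_congr rfl fun ξ _ => ?_)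
    exact Finset.sum_congr (Finset.ext fun a => by simp) fun _ _ => rfl
  have hup : Up (e.up0 (e.cell y.1)) := (h1 κ (Ev κ m r) S X W0 Ω e).2 (e.cell y.1)
  have hb := h2 e.Xi W0 (Dir κ m r → S) (fun ξ b => (e.mod m r).law ξ y b) (fun ξ => e.yf ξ.2 y.1 = 0)
    (e.up0 (e.cell y.1)) hup (fun ξ b => (hls ξ).1 b) (fun ξ => (hls ξ).2)
  constructor
  · intro w
    have e1 := him (fun ξ b => pR0 e y ξ b w)
    rw [e1]
    have e2 := (hb.2.2.2 w).trans (@p02_card e.Xi _ (fun ξ => e.yf (e.up0 (e.cell y.1) ξ w).2 y.1 = 0)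
      (fun ξ => e.yf ξ.2 y.1 = 0) (fun ξ => propDecidable _) (fun ξ => instDecidableEqNat _ _)
      (fun ξ => Iff.rfl))
    have e4 := p02_ite (fun ξ : e.Xi => e.yf ξ.2 y.1 = 0) (fun ξ b => (e.mod m r).law ξ y b)
      (fun ξ b => post (fun ξ b => (e.mod m r).law ξ y b) (fun ξ => e.yf ξ.2 y.1 = 0)
        (e.up0 (e.cell y.1)) ξ b w) (fun ξ b => pR0 e y ξ b w)
      (fun ξ h b => if_pos h) (fun ξ h b => if_neg h)
    have e5 := congrArg (fun z : ℝ => (Fintype.card W0 : ℝ)⁻¹ * z) e2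
    rw [← mul_assoc, inv_mul_cancel₀ hW00.ne', one_mul] at e5
    refine (congrArg (fun z : ℝ => (Fintype.card e.Xi : ℝ)⁻¹ * z) (e4.trans e5)).trans ?_
    rw [div_eq_mul_inv]
    ring
  · have e1 := him (fun ξ b => ∑ w, pR0 e y ξ b w ^ 2)
    rw [e1]
    have hs := h3 e.Xi W0 (Dir κ m r → S) (fun ξ b => (e.mod m r).law ξ y b) (fun ξ => e.yf ξ.2 y.1 = 0)
      (e.up0 (e.cell y.1)) hup (fun ξ b => (hls ξ).1 b) (fun ξ => (hls ξ).2)
      (((1 - 4 * η) ^ Fintype.card (Dir κ m r))⁻¹)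
      (fun ξ => h4 κ m r S X W0 Ω e η x a hok y ξ)
    have e4 := p02_ite (fun ξ : e.Xi => e.yf ξ.2 y.1 = 0) (fun ξ b => (e.mod m r).law ξ y b)
      (fun ξ b => ∑ w, post (fun ξ b => (e.mod m r).law ξ y b) (fun ξ => e.yf ξ.2 y.1 = 0)
        (e.up0 (e.cell y.1)) ξ b w ^ 2) (fun ξ b => ∑ w, pR0 e y ξ b w ^ 2)
      (fun ξ h b => Finset.sum_congr rfl fun w _ => by
        unfold pR0
        rw [if_pos h])
      (fun ξ h b => Finset.sum_eq_zero fun w _ => by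
        unfold pR0
        rw [if_neg h]
        norm_num)
    refine (congrArg (fun z : ℝ => (Fintype.card e.Xi : ℝ)⁻¹ * z) e4).le.trans ?_
    refine (mul_le_mul_of_nonneg_left hs (inv_nonneg.mpr hXi0.le)).trans (le_of_eq ?_)
    field_simp

end Pool.Agent.Lib.MP_33d9ce_co.Cst
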