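import Pool.Agent.Lib.MP_33d9ce_co.Cst.StmC1

set_option autoImplicit false

noncomputable section

open Classical Finset

namespace Pool.Agent.Lib.MP_33d9ce_co.Cst

open Slack (Cell Ev Od Dir nbr)

/-- the ball of radius 1 has at most `κ + 1` points -/
theorem pgood_ball {κ : ℕ} (u : Cell κ) :
    ({v | hammingDist u v ≤ 1} : Finset (Cell κ)).card ≤ κ + 1 := by
  have hsub : ({v | hammingDist u v ≤ 1} : Finset (Cell κ)) ⊆
      insert u ((univ : Finset (Fin κ)).image fun i => u + Pi.single i 1) := by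
    intro v hv
    rw [Finset.mem_filter] at hv
    have hv := hv.2
    rw [Finset.mem_insert]
    rcases Nat.lt_or_ge (hammingDist u v) 1 with h0 | h1
    · left
      have : hammingDist u v = 0 := by omega
      exact (hammingDist_eq_zero.1 this).symm
    · right
      have h2 : hammingDist u v = 1 := le_antisymm hv h1
      unfold hammingDist at h2
      rw [Finset.card_eq_one] at h2
      obtain ⟨i, hi⟩ := h2
      rw [Finset.mem_image]
      refine ⟨i, Finset.mem_univ _, ?_⟩
      funext j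
      have hj : u j ≠ v j ↔ j = i := by
        have := Finset.ext_iff.1 hi j
        simpa using this
      by_cases hji : j = i
      · subst hji
        have hne : u j ≠ v j := hj.2 rfl
        rw [Pi.add_apply, Pi.single_eq_same]
        generalize u j = a at *
        generalize v j = b at *
        clear hj hi
        revert a b
        decide
      · have heq : u j = v j := by
          by_contra hne
          exact hji (hj.1 hne)
        rw [Pi.add_apply, Pi.single_eq_of_ne hji, add_zero, heq]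
  refine (Finset.card_le_card hsub).trans ((Finset.card_insert_le _ _).trans ?_)
  exact Nat.succ_le_succ (Finset.card_image_le.trans (by simp))

theorem pgood_nc {κ : ℕ} (cell : Cell κ → Cell κ) (u : Cell κ) : (nc cell 1 u).card ≤ κ + 1 :=
  Finset.card_image_le.trans (pgood_ball u)

section

variable {κ : ℕ} {I S X W0 Ω : Type} [Fintype I] [Fintype S] [Fintype X] [Fintype W0] [Fintype Ω]
  (e : Env κ I S X W0 Ω)

/-- the cost of the high levels -/
def pgood_cost (ω : e.L1) : ℝ :=
  ∑ u ∈ univ.filter (fun u : Cell κ => 2 ≤ e.lv ω u), (e.al (e.lv ω u))⁻¹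

theorem pgood_cost_nonneg (hal : ∀ l, 0 < e.al l) (ω : e.L1) : 0 ≤ pgood_cost e ω :=
  Finset.sum_nonneg fun _ _ => inv_nonneg.2 (hal _).le

theorem pgood_cost_le (h3 : S_own) (hal : ∀ l, 0 < e.al l) (ω : e.L1) :
    pgood_cost e ω ≤ ∑ l ∈ Icc 2 e.L, ∑ u : Cell κ, (if l ≤ e.lv ω u then (e.al l)⁻¹ else 0) := by
  unfold pgood_cost
  rw [Finset.sum_comm, Finset.sum_filter]
  refine Finset.sum_le_sum fun u _ => ?_
  split_ifs with h
  · have hL : e.lv ω u ≤ e.L := (h3 κ X Ω e.ok e.E e.al e.cell e.L (e.vw ω) u).2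
    have hmem : e.lv ω u ∈ Icc 2 e.L := Finset.mem_Icc.2 ⟨h, hL⟩
    refine le_trans ?_ (Finset.single_le_sum (f := fun l => if l ≤ e.lv ω u then (e.al l)⁻¹ else 0)
      (fun l _ => ?_) hmem)
    · rw [if_pos le_rfl]
    · split_ifs
      · exact inv_nonneg.2 (hal _).le
      · exact le_rfl
  · refine Finset.sum_nonneg fun l _ => ?_
    split_ifs
    · exact inv_nonneg.2 (hal _).le
    · exact le_rfl

theorem pgood_bad (h2 : S_ptb) (om ep : ℕ → ℝ)
    (hT : TOut e.ok e.L kap e.al om ep e.W e.E) (hL : 2 ≤ e.L) (htop : κ + 1 ≤ kap e.L) :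
    (((univ : Finset e.L1).filter fun ω => ∃ u, e.bd ω e.L u).card : ℝ) ≤
      2 ^ κ * ep e.L * Fintype.card e.L1 := by
  have hsub : ((univ : Finset e.L1).filter fun ω => ∃ u, e.bd ω e.L u) ⊆
      (univ : Finset (Cell κ)).biUnion fun u =>
        (univ : Finset e.L1).filter fun ω => tbad e.ok e.E e.al (nc e.cell 1 u) (e.vw ω) e.L := by
    intro ω hω
    rw [Finset.mem_filter] at hω
    obtain ⟨-, u, hu⟩ := hω
    rw [Finset.mem_biUnion]
    refine ⟨u, Finset.mem_univ _, Finset.mem_filter.2 ⟨Finset.mem_univ _, ?_⟩⟩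
    rcases hu with hu | ⟨-, hu⟩
    · exact absurd (lt_of_lt_of_le hu ((pgood_nc e.cell u).trans htop)) (lt_irrefl _)
    · exact hu
  calc (((univ : Finset e.L1).filter fun ω => ∃ u, e.bd ω e.L u).card : ℝ)
      ≤ (((univ : Finset (Cell κ)).biUnion fun u =>
        (univ : Finset e.L1).filter fun ω =>
          tbad e.ok e.E e.al (nc e.cell 1 u) (e.vw ω) e.L).card : ℝ) := by
        exact_mod_cast Finset.card_le_card hsub
    _ ≤ ∑ u : Cell κ, (((univ : Finset e.L1).filter fun ω =>
          tbad e.ok e.E e.al (nc e.cell 1 u) (e.vw ω) e.L).card : ℝ) := by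
        exact_mod_cast Finset.card_biUnion_le
    _ ≤ ∑ _u : Cell κ, ep e.L * Fintype.card e.L1 :=
        Finset.sum_le_sum fun u _ =>
          (h2 κ I S X W0 Ω e om ep hT e.L hL le_rfl (nc e.cell 1 u)
            ((pgood_nc e.cell u).trans htop)).1
    _ = 2 ^ κ * ep e.L * Fintype.card e.L1 := by
        rw [Finset.sum_const, Finset.card_univ, nsmul_eq_mul]
        have : (Fintype.card (Cell κ) : ℝ) = 2 ^ κ := by
          rw [Fintype.card_fun, ZMod.card, Fintype.card_fin]
          push_cast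
          rfl
        rw [this]
        ring

theorem pgood_markov (h1 : S_plev) (h3 : S_own) (om ep g : ℕ → ℝ)
    (hT : TOut e.ok e.L kap e.al om ep e.W e.E) (hep : ∀ l, 0 ≤ ep l)
    (hal : ∀ l, 0 < e.al l)
    (hg : ∀ l, 1 ≤ l → l ≤ e.L →
      (({u | geom e.cell kap e.L l u} : Finset (Cell κ)).card : ℝ) ≤ g l * 2 ^ κ) :
    (((univ : Finset e.L1).filter fun ω => ¬ pgood_cost e ω ≤ 2 ^ κ / 1000).card : ℝ) ≤
      1000 * (∑ l ∈ Icc 2 e.L, (e.al l)⁻¹ * (g l + sml e.L ep l)) * Fintype.card e.L1 := by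
  have hcell : (Fintype.card (Cell κ) : ℝ) = 2 ^ κ := by
    rw [Fintype.card_fun, ZMod.card, Fintype.card_fin]
    push_cast
    rfl
  have hpow : (0 : ℝ) < 2 ^ κ := by positivity
  -- the expectation of the cost
  have hE : ∑ ω : e.L1, pgood_cost e ω ≤
      (∑ l ∈ Icc 2 e.L, (e.al l)⁻¹ * (g l + sml e.L ep l)) * 2 ^ κ * Fintype.card e.L1 := by
    calc ∑ ω : e.L1, pgood_cost e ω
        ≤ ∑ ω : e.L1, ∑ l ∈ Icc 2 e.L, ∑ u : Cell κ, (if l ≤ e.lv ω u then (e.al l)⁻¹ else 0) :=
          Finset.sum_le_sum fun ω _ => pgood_cost_le e h3 hal ω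
      _ = ∑ l ∈ Icc 2 e.L, ∑ u : Cell κ, ∑ ω : e.L1, (if l ≤ e.lv ω u then (e.al l)⁻¹ else 0) := by
          rw [Finset.sum_comm]
          exact Finset.sum_congr rfl fun l _ => Finset.sum_comm
      _ ≤ ∑ l ∈ Icc 2 e.L, (e.al l)⁻¹ * (g l + sml e.L ep l) * 2 ^ κ * Fintype.card e.L1 := by
          refine Finset.sum_le_sum fun l hl => ?_
          rw [Finset.mem_Icc] at hl
          have hl1 : 1 ≤ l := by omega
          have hinv : 0 ≤ (e.al l)⁻¹ := inv_nonneg.2 (hal l).le
          calc ∑ u : Cell κ, ∑ ω : e.L1, (if l ≤ e.lv ω u then (e.al l)⁻¹ else 0)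
              = ∑ u : Cell κ, (e.al l)⁻¹ *
                (((univ : Finset e.L1).filter fun ω => l ≤ e.lv ω u).card : ℝ) := by
                refine Finset.sum_congr rfl fun u _ => ?_
                rw [← Finset.sum_filter, Finset.sum_const, nsmul_eq_mul, mul_comm]
            _ ≤ ∑ u : Cell κ, (e.al l)⁻¹ *
                (((if geom e.cell kap e.L l u then 1 else 0) + sml e.L ep l) *
                  Fintype.card e.L1) :=
                Finset.sum_le_sum fun u _ => mul_le_mul_of_nonneg_left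
                  (h1 κ I S X W0 Ω e om ep hT hep l hl1 u).1 hinv
            _ = (e.al l)⁻¹ * Fintype.card e.L1 *
                ((({u | geom e.cell kap e.L l u} : Finset (Cell κ)).card : ℝ) +
                  2 ^ κ * sml e.L ep l) := by
                rw [← Finset.mul_sum, ← Finset.sum_mul, Finset.sum_add_distrib,
                  Finset.sum_const, Finset.card_univ, nsmul_eq_mul, hcell, Finset.sum_boole]
                ring
            _ ≤ (e.al l)⁻¹ * Fintype.card e.L1 * (g l * 2 ^ κ + 2 ^ κ * sml e.L ep l) := by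
                refine mul_le_mul_of_nonneg_left ?_ (mul_nonneg hinv (Nat.cast_nonneg _))
                have := hg l hl1 hl.2
                linarith
            _ = (e.al l)⁻¹ * (g l + sml e.L ep l) * 2 ^ κ * Fintype.card e.L1 := by ring
      _ = _ := by rw [Finset.sum_mul, Finset.sum_mul]
  -- Markov
  have hM : (((univ : Finset e.L1).filter fun ω => ¬ pgood_cost e ω ≤ 2 ^ κ / 1000).card : ℝ) *
      (2 ^ κ / 1000) ≤ ∑ ω : e.L1, pgood_cost e ω := by
    calc (((univ : Finset e.L1).filter fun ω => ¬ pgood_cost e ω ≤ 2 ^ κ / 1000).card : ℝ) *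
          (2 ^ κ / 1000)
        = ∑ _ω ∈ (univ : Finset e.L1).filter (fun ω => ¬ pgood_cost e ω ≤ 2 ^ κ / 1000),
            ((2 : ℝ) ^ κ / 1000) := by rw [Finset.sum_const, nsmul_eq_mul]
      _ ≤ ∑ ω ∈ (univ : Finset e.L1).filter (fun ω => ¬ pgood_cost e ω ≤ 2 ^ κ / 1000),
            pgood_cost e ω := by
          refine Finset.sum_le_sum fun ω hω => ?_
          rw [Finset.mem_filter, not_le] at hω
          exact hω.2.le
      _ ≤ ∑ ω : e.L1, pgood_cost e ω :=
          Finset.sum_le_sum_of_subset_of_nonneg (Finset.filter_subset _ _)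
            fun ω _ _ => pgood_cost_nonneg e hal ω
  have h := hM.trans hE
  have h' : (((univ : Finset e.L1).filter fun ω => ¬ pgood_cost e ω ≤ 2 ^ κ / 1000).card : ℝ) *
      (2 ^ κ / 1000) ≤ (1000 * (∑ l ∈ Icc 2 e.L, (e.al l)⁻¹ * (g l + sml e.L ep l)) *
        Fintype.card e.L1) * (2 ^ κ / 1000) := by
    refine h.trans (le_of_eq ?_)
    ring
  exact le_of_mul_le_mul_right h' (by positivity)

end

theorem p_pgood (h1 : S_plev) (h2 : S_ptb) (h3 : S_own) : S_pgood := by
  intro κ I S X W0 Ω _ _ _ _ _ e η x a om ep g hOk hT hep hg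
  have hbad := pgood_bad e h2 om ep hT hOk.L_ge hOk.top
  have hmk := pgood_markov e h1 h3 om ep g hT hep hOk.al_pos hg
  have hset : ((univ : Finset e.Xi).filter fun ξ => ¬ e.good ξ) ⊆
      (univ : Finset (Cell κ → W0)) ×ˢ
        (((univ : Finset e.L1).filter fun ω => ∃ u, e.bd ω e.L u) ∪
          ((univ : Finset e.L1).filter fun ω => ¬ pgood_cost e ω ≤ 2 ^ κ / 1000)) := by
    intro ξ hξ
    rw [Finset.mem_filter] at hξ
    rw [Finset.mem_product, Finset.mem_union, Finset.mem_filter, Finset.mem_filter]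
    refine ⟨Finset.mem_univ _, ?_⟩
    have hng := hξ.2
    unfold Env.good at hng
    rw [not_and_or] at hng
    rcases hng with h | h
    · left
      refine ⟨Finset.mem_univ _, ?_⟩
      push Not at h
      exact h
    · right
      exact ⟨Finset.mem_univ _, h⟩
  have hcard : (((univ : Finset e.Xi).filter fun ξ => ¬ e.good ξ).card : ℝ) ≤
      Fintype.card (Cell κ → W0) *
        ((((univ : Finset e.L1).filter fun ω => ∃ u, e.bd ω e.L u).card : ℝ) +
          (((univ : Finset e.L1).filter fun ω => ¬ pgood_cost e ω ≤ 2 ^ κ / 1000).card : ℝ)) := by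
    have h := Finset.card_le_card hset
    rw [Finset.card_product, Finset.card_univ] at h
    have h' := h.trans (Nat.mul_le_mul_left _ (Finset.card_union_le _ _))
    exact_mod_cast h'
  have hXi : (Fintype.card e.Xi : ℝ) = Fintype.card (Cell κ → W0) * Fintype.card e.L1 := by
    rw [Fintype.card_prod]
    push_cast
    rfl
  rw [hXi]
  refine hcard.trans ?_
  calc (Fintype.card (Cell κ → W0) : ℝ) *
        ((((univ : Finset e.L1).filter fun ω => ∃ u, e.bd ω e.L u).card : ℝ) +
          (((univ : Finset e.L1).filter fun ω => ¬ pgood_cost e ω ≤ 2 ^ κ / 1000).card : ℝ))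
      ≤ (Fintype.card (Cell κ → W0) : ℝ) * (2 ^ κ * ep e.L * Fintype.card e.L1 +
        1000 * (∑ l ∈ Icc 2 e.L, (e.al l)⁻¹ * (g l + sml e.L ep l)) * Fintype.card e.L1) :=
        mul_le_mul_of_nonneg_left (add_le_add hbad hmk) (Nat.cast_nonneg _)
    _ = _ := by ring

end Pool.Agent.Lib.MP_33d9ce_co.Cst
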