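import Pool.Agent.Lib.MP_33d9ce_co.Cst.StmC1

set_option autoImplicit false

noncomputable section

open Classical Finset

namespace Pool.Agent.Lib.MP_33d9ce_co.Cst

open Slack (Cell Ev Od Dir nbr)

private theorem plev_sml_nonneg (L : ℕ) (ep : ℕ → ℝ) (hep : ∀ l, 0 ≤ ep l) (l : ℕ) : 0 ≤ sml L ep l := by
  unfold sml
  refine Finset.sum_nonneg fun j _ => mul_nonneg (pow_nonneg (by norm_num) _) (hep j)

private theorem plev_main (h1 : S_lgeo) (κ : ℕ) (X Ω B : Type) [Fintype X] [Fintype B] (ok : X → Ω → Prop)
    (E : ℕ → ℕ → Finset X) (al : ℕ → ℝ) (cell : Cell κ → Cell κ) (L : ℕ) (ep : ℕ → ℝ)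
    (hep : ∀ l, 0 ≤ ep l) (w : B → Cell κ → ℕ → Ω)
    (hw : ∀ l, 2 ≤ l → l ≤ L → ∀ s : Finset (Cell κ), s.card ≤ kap l →
      (((univ : Finset B).filter fun b => tbad ok E al s (w b) l).card : ℝ) ≤ ep l * Fintype.card B)
    (l : ℕ) (hl : 1 ≤ l) (u : Cell κ) :
    (((univ : Finset B).filter fun b => l ≤ lev ok E al cell L (w b) u).card : ℝ) ≤
      ((if geom cell kap L l u then 1 else 0) + sml L ep l) * Fintype.card B := by
  have hs := plev_sml_nonneg L ep hep l
  have hN : (0 : ℝ) ≤ Fintype.card B := Nat.cast_nonneg _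
  by_cases hg : geom cell kap L l u
  · rw [if_pos hg]
    have h2 : (((univ : Finset B).filter fun b => l ≤ lev ok E al cell L (w b) u).card : ℝ) ≤
        Fintype.card B := by
      have := Finset.card_filter_le (univ : Finset B) (fun b => l ≤ lev ok E al cell L (w b) u)
      rw [Finset.card_univ] at this
      exact_mod_cast this
    nlinarith [mul_nonneg hs hN]
  · rw [if_neg hg, zero_add]
    let Bs : ℕ → Finset B := fun j =>
      if (nc cell (2 * (j + 1 - l) + 1) u).card ≤ kap j then
        (nc cell (2 * (j + 1 - l) + 1) u).powerset.biUnion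
          (fun s => (univ : Finset B).filter fun b => tbad ok E al s (w b) j)
      else ∅
    have hsub : ((univ : Finset B).filter fun b => l ≤ lev ok E al cell L (w b) u) ⊆
        ((Ico 2 L).filter (fun j => l ≤ j + 1)).biUnion Bs := by
      intro b hb
      rw [Finset.mem_filter] at hb
      rcases h1 κ X Ω ok E al cell L (w b) u l hl hb.2 with h | ⟨j, hj2, hjl, hjL, hc, s, hss, ht⟩
      · exact absurd h hg
      · rw [Finset.mem_biUnion]
        refine ⟨j, ?_, ?_⟩
        · rw [Finset.mem_filter, Finset.mem_Ico]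
          exact ⟨⟨hj2, hjL⟩, hjl⟩
        · change b ∈ (if (nc cell (2 * (j + 1 - l) + 1) u).card ≤ kap j then
              (nc cell (2 * (j + 1 - l) + 1) u).powerset.biUnion
                (fun s => (univ : Finset B).filter fun b => tbad ok E al s (w b) j)
            else ∅)
          rw [if_pos hc, Finset.mem_biUnion]
          refine ⟨s, Finset.mem_powerset.2 hss, ?_⟩
          rw [Finset.mem_filter]
          exact ⟨Finset.mem_univ _, ht⟩
    have hBs : ∀ j ∈ (Ico 2 L).filter (fun j => l ≤ j + 1),
        ((Bs j).card : ℝ) ≤ 2 ^ kap j * ep j * Fintype.card B := by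
      intro j hj
      rw [Finset.mem_filter, Finset.mem_Ico] at hj
      obtain ⟨⟨hj2, hjL⟩, hjl⟩ := hj
      have hpos : (0 : ℝ) ≤ 2 ^ kap j * ep j * Fintype.card B :=
        mul_nonneg (mul_nonneg (pow_nonneg (by norm_num) _) (hep j)) hN
      by_cases hc : (nc cell (2 * (j + 1 - l) + 1) u).card ≤ kap j
      · have e1 : Bs j = (nc cell (2 * (j + 1 - l) + 1) u).powerset.biUnion
            (fun s => (univ : Finset B).filter fun b => tbad ok E al s (w b) j) := if_pos hc
        rw [e1]
        have e2 : ((((nc cell (2 * (j + 1 - l) + 1) u).powerset.biUnion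
            (fun s => (univ : Finset B).filter fun b => tbad ok E al s (w b) j)).card : ℕ) : ℝ) ≤
            ∑ s ∈ (nc cell (2 * (j + 1 - l) + 1) u).powerset,
              (((univ : Finset B).filter fun b => tbad ok E al s (w b) j).card : ℝ) := by
          have := Finset.card_biUnion_le (s := (nc cell (2 * (j + 1 - l) + 1) u).powerset)
            (t := fun s => (univ : Finset B).filter fun b => tbad ok E al s (w b) j)
          exact_mod_cast this
        refine e2.trans ?_
        have e3 : ∑ s ∈ (nc cell (2 * (j + 1 - l) + 1) u).powerset,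
              (((univ : Finset B).filter fun b => tbad ok E al s (w b) j).card : ℝ) ≤
            ∑ s ∈ (nc cell (2 * (j + 1 - l) + 1) u).powerset, ep j * Fintype.card B := by
          refine Finset.sum_le_sum fun s hs' => ?_
          exact hw j hj2 hjL.le s ((Finset.card_le_card (Finset.mem_powerset.1 hs')).trans hc)
        refine e3.trans ?_
        rw [Finset.sum_const, Finset.card_powerset, nsmul_eq_mul, mul_assoc]
        refine mul_le_mul_of_nonneg_right ?_ (mul_nonneg (hep j) hN)
        push_cast
        exact pow_le_pow_right₀ (by norm_num) hc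
      · have e1 : Bs j = ∅ := if_neg hc
        rw [e1, Finset.card_empty, Nat.cast_zero]
        exact hpos
    have e4 : (((univ : Finset B).filter fun b => l ≤ lev ok E al cell L (w b) u).card : ℝ) ≤
        ∑ j ∈ (Ico 2 L).filter (fun j => l ≤ j + 1), ((Bs j).card : ℝ) := by
      have := (Finset.card_le_card hsub).trans (Finset.card_biUnion_le
        (s := (Ico 2 L).filter (fun j => l ≤ j + 1)) (t := Bs))
      exact_mod_cast this
    refine e4.trans ((Finset.sum_le_sum hBs).trans (le_of_eq ?_))
    unfold sml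
    rw [Finset.sum_mul]

theorem p_plev (h1 : S_lgeo) (h2 : S_ptb) : S_plev := by
  intro κ I S X W0 Ω _ _ _ _ _ e om ep hT hep l hl u
  have hp := h2 κ I S X W0 Ω e om ep hT
  refine ⟨?_, fun z c => ?_⟩
  · exact plev_main h1 κ X Ω e.L1 e.ok e.E e.al e.cell e.L ep hep (fun ω => e.vw ω)
      (fun l hl hL s hs => (hp l hl hL s hs).1) l hl u
  · exact plev_main h1 κ X Ω e.L1 e.ok e.E e.al e.cell e.L ep hep (fun ω => e.vw (e.up1 ω z c))
      (fun l hl hL s hs => (hp l hl hL s hs).2 z c) l hl u

end Pool.Agent.Lib.MP_33d9ce_co.Cst
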