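import Pool.Agent.Lib.MP_33d9ce_co.Cst.StmM

/-!
# Spanning hypercubes, constant density: pairs of positive weight
-/

set_option autoImplicit false

noncomputable section

open Classical Finset

namespace Pool.Agent.Lib.MP_33d9ce_co.Cst

/-- **pos**: pairs of positive weight. -/
theorem p_pos : S_pos := by
  intro P I S Y T Ξ _ _ _ _ _ _ D good μ hμ ξ σ hne
  have hi : ∀ i, μ ξ i (σ i) ≠ 0 := fun i => Finset.prod_ne_zero_iff.mp hne i (Finset.mem_univ i)
  have hu : ∀ p i, D.u ξ p i (σ i p) ≠ 0 := by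
    intro p i
    have hpos : 0 < μ ξ i (σ i) := lt_of_le_of_ne (hμ.nonneg ξ i (σ i)) (Ne.symm (hi i))
    have hle : μ ξ i (σ i) ≤ D.u ξ p i (σ i p) := by
      rw [← hμ.marg ξ i p (σ i p)]
      have h1 : μ ξ i (σ i) = if (σ i) p = σ i p then μ ξ i (σ i) else 0 := by
        rw [if_pos rfl]
      calc μ ξ i (σ i) = (if (σ i) p = σ i p then μ ξ i (σ i) else 0) := h1
        _ ≤ ∑ τ : P → S, (if τ p = σ i p then μ ξ i τ else 0) :=
          Finset.single_le_sum (f := fun τ : P → S => if τ p = σ i p then μ ξ i τ else 0)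
            (fun τ _ => by
              split_ifs
              · exact hμ.nonneg ξ i τ
              · exact le_rfl) (Finset.mem_univ (σ i))
    exact ne_of_gt (lt_of_lt_of_le hpos hle)
  refine ⟨fun hg i => hμ.inj ξ hg i (σ i) (hi i), ?_, ?_⟩
  · intro y
    unfold Mod.law
    refine Finset.prod_ne_zero_iff.mpr fun t _ => ?_
    exact hu (D.nb y t).1 (D.nb y t).2
  · intro p i
    by_contra hn
    apply hu p i
    unfold Mod.u
    rw [if_neg hn]

end Pool.Agent.Lib.MP_33d9ce_co.Cst
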