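import Pool.Agent.Lib.MP_33d9ce_co.Cst.StmC3

/-! Piece pr1: elementary properties of the rows `pR`. -/

set_option autoImplicit false

noncomputable section

open Classical Finset

namespace Pool.Agent.Lib.MP_33d9ce_co.Cst

open Slack (Cell Ev Od Dir nbr shift)

private theorem pr1_sum {Ω : Type} [Fintype Ω] (s : Finset Ω) (f : {w // w ∈ s} → ℝ) :
    ∑ w, (if h : w ∈ s then f ⟨w, h⟩ else 0) = ∑ c : {w // w ∈ s}, f c := by
  have h1 : ∑ w, (if h : w ∈ s then f ⟨w, h⟩ else 0) = ∑ w ∈ s, (if h : w ∈ s then f ⟨w, h⟩ else 0) := by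
    symm
    refine Finset.sum_subset (Finset.subset_univ s) fun w _ hw => ?_
    rw [dif_neg hw]
  rw [h1, ← Finset.sum_coe_sort s]
  refine Finset.sum_congr rfl fun c _ => ?_
  rw [dif_pos c.2]

theorem p_pr1 (h1 : S_ups) (h2 : S_bayes) (h3 : S_sup) (h4 : S_alp) (h5 : S_lawsum) : S_pr1 := by
  intro κ m r S X W0 Ω _ _ _ _ e η x a hok y j hj1 hjL ξ b
  have hmin : min j e.L = j := min_eq_left hjL
  have hal : ∀ (ξ : e.Xi) p i, ((e.mod m r).al ξ p i).Nonempty := fun ξ p i =>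
    (h4 κ (Ev κ m r) S X W0 Ω e η x a hok ξ p i).1
  have hlaw := fun (ξ : e.Xi) =>
    h5 (Cell κ) (Ev κ m r) S (Cell κ × Od κ m r) (Dir κ m r) e.Xi (e.mod m r) hal ξ y
  obtain ⟨b1, b2, b3, -⟩ := @h2 e.Xi {w // w ∈ e.W (min j e.L)} (Dir κ m r → S) _ _
    (@Pi.instFintype (Dir κ m r) (fun _ => S) (fun a b => propDecidable (a = b)) _ _)
    (fun ξ b => (e.mod m r).law ξ y b) (e.cls j y.1)
    (e.upA (e.cell y.1, ⟨min j e.L, by omega⟩))
    ((h1 κ (Ev κ m r) S X W0 Ω e).1 (e.cell y.1, ⟨min j e.L, by omega⟩))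
    (fun ξ b => (hlaw ξ).1 b) (fun ξ => (hlaw ξ).2.1)
  have hs : ∑ w, pR e y j ξ b w = ∑ c : {w // w ∈ e.W (min j e.L)},
      post (fun ξ b => (e.mod m r).law ξ y b) (e.cls j y.1)
        (e.upA (e.cell y.1, ⟨min j e.L, by omega⟩)) ξ b c := by
    rw [← pr1_sum]
    rfl
  refine ⟨?_, ?_, ?_, ?_⟩
  · intro w
    unfold pR
    split_ifs with h
    · exact b1 ξ b ⟨w, h⟩
    · exact le_refl 0
  · rw [hs]
    exact b2 ξ b
  · intro hc hl
    rw [hs]
    exact b3 ξ b hc hl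
  · intro w hw
    unfold pR at hw
    split_ifs at hw with h
    · refine ⟨by rw [hmin] at h; exact h, fun t => ?_⟩
      have hpw : pw (fun ξ b => (e.mod m r).law ξ y b) (e.cls j y.1)
          (e.upA (e.cell y.1, ⟨min j e.L, by omega⟩)) ξ b ⟨w, h⟩ ≠ 0 := by
        intro h0
        apply hw
        unfold post
        rw [h0, zero_div]
      unfold pw at hpw
      split_ifs at hpw with hc
      · have := (h3 κ m r S X W0 Ω e η x a hok y
          (e.upA (e.cell y.1, ⟨min j e.L, by omega⟩) ξ ⟨w, h⟩)).1 j hj1 hjL hc b hpw t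
        have hv : e.vw (e.upA (e.cell y.1, ⟨min j e.L, by omega⟩) ξ ⟨w, h⟩).2 (e.cell y.1) j = w := by
          unfold Env.vw Env.upA Env.up1
          exact Function.update_self _ _ _
        rw [hv] at this
        exact this
      · exact absurd rfl hpw
    · exact absurd rfl hw

end Pool.Agent.Lib.MP_33d9ce_co.Cst
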