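import Pool.Agent.Lib.MP_33d9ce_co.Cst.StmC3

/-!
# Spanning hypercubes, constant density: large atoms are rare
-/

set_option autoImplicit false

noncomputable section

open Classical Finset

namespace Pool.Agent.Lib.MP_33d9ce_co.Cst

open Slack (Cell Ev Od Dir nbr shift)

private theorem pr3_univ {α : Type} (i1 i2 : Fintype α) (f : α → ℝ) :
    @Finset.sum α ℝ _ (@Finset.univ α i1) f = @Finset.sum α ℝ _ (@Finset.univ α i2) f := by
  cases Subsingleton.elim i1 i2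
  rfl

private theorem pr3_hat (h3 : S_hatR) {κ m r : ℕ} {S X W0 Ω : Type} [Fintype S] [Fintype X] [Fintype W0]
    [Fintype Ω] (e : Env κ (Ev κ m r) S X W0 Ω) (η x : ℝ) (a : ℕ) (h : e.Ok η x a)
    (y : Cell κ × Od κ m r) (j : ℕ) (hj : 1 ≤ j) (k : ℕ) (hk : k < e.L + 1) (hkj : k = j) (ξ : e.Xi) :
    ∃ hat : (Dir κ m r → S) → ℝ, (∀ b, 0 ≤ hat b) ∧ ∑ b, hat b ≤ 6 ^ Fintype.card (Dir κ m r) ∧
      ∀ c, e.cls j y.1 (e.upA (e.cell y.1, ⟨k, hk⟩) ξ c) →
        ∀ b, (e.mod m r).law (e.upA (e.cell y.1, ⟨k, hk⟩) ξ c) y b ≤ hat b := by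
  subst hkj
  exact h3 κ m r S X W0 Ω e η x a h y k hj hk ξ

/-- **pr3**: large atoms are rare. -/
theorem p_pr3 (h1 : S_ups) (h2 : S_big) (h3 : S_hatR) (h4 : S_alp) (h5 : S_lawsum) : S_pr3 := by
  intro κ m r S X W0 Ω _ _ _ _ e η x a h y j hj1 hjL z0 hz0
  have hne : ∀ ξ p i, ((e.mod m r).al ξ p i).Nonempty :=
    fun ξ p i => (h4 κ (Ev κ m r) S X W0 Ω e η x a h ξ p i).1
  have hlaw := h5 _ _ _ _ _ _ (e.mod m r) hne
  have hsum : ∀ ξ, ∑ b : Dir κ m r → S, (e.mod m r).law ξ y b = 1 := by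
    intro ξ
    exact (pr3_univ _ _ _).trans (hlaw ξ y).2.1
  have hk : min j e.L < e.L + 1 := by omega
  have hup := (h1 κ (Ev κ m r) S X W0 Ω e).1 (e.cell y.1, ⟨min j e.L, hk⟩)
  have hnC : Nonempty {w // w ∈ e.W (min j e.L)} := (h.nonempty _).to_subtype
  have key := h2 e.Xi {w // w ∈ e.W (min j e.L)} (Dir κ m r → S) (fun ξ b => (e.mod m r).law ξ y b)
    (e.cls j y.1) (e.upA (e.cell y.1, ⟨min j e.L, hk⟩)) hup (fun ξ b => (hlaw ξ y).1 b)
    hsum (6 ^ Fintype.card (Dir κ m r)) z0 hz0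
    (fun ξ => pr3_hat h3 e η x a h y j hj1 (min j e.L) hk (min_eq_left hjL) ξ)
  refine le_trans (sum_le_sum fun ξ _ => ?_) key
  by_cases hc : e.cls j y.1 ξ
  · rw [if_pos hc, if_pos hc]
    refine sum_le_sum fun b _ => mul_le_mul_of_nonneg_left ?_ ((hlaw ξ y).1 b)
    by_cases hb : bigR e z0 y j ξ b
    · rw [if_pos hb, if_pos]
      obtain ⟨w, hw⟩ := hb
      unfold pR at hw
      by_cases hwW : w ∈ e.W (min j e.L)
      · rw [dif_pos hwW] at hw
        refine ⟨⟨w, hwW⟩, ?_⟩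
        rw [Fintype.card_coe]
        exact hw
      · rw [dif_neg hwW, zero_mul] at hw
        exact absurd hw (by norm_num)
    · rw [if_neg hb]
      split_ifs
      · exact zero_le_one
      · exact le_rfl
  · rw [if_neg hc, if_neg hc]

end Pool.Agent.Lib.MP_33d9ce_co.Cst
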