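import Pool.Agent.Lib.MP_33d9ce_co.Cst.StmC3

/-!
# Spanning hypercubes, constant density: the piece `S_pr4` (locality of the posteriors)
-/

set_option autoImplicit false

noncomputable section

open Classical Finset

namespace Pool.Agent.Lib.MP_33d9ce_co.Cst

open Slack (Cell Ev Od Dir nbr shift)

private theorem pr4_post {Ξ C A : Type} [Fintype C] (lw : Ξ → A → ℝ) (cl : Ξ → Prop) (up : Ξ → C → Ξ)
    (ξ ξ' : Ξ) (a : A) (c : C) (h1 : ∀ c, lw (up ξ c) a = lw (up ξ' c) a) (h2 : ∀ c, cl (up ξ c) = cl (up ξ' c)) :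
    post lw cl up ξ a c = post lw cl up ξ' a c := by
  have key : ∀ c, pw lw cl up ξ a c = pw lw cl up ξ' a c := by
    intro c
    unfold pw
    by_cases h : cl (up ξ c)
    · have h' : cl (up ξ' c) := by rw [← h2 c]; exact h
      rw [if_pos h, if_pos h', h1 c]
    · have h' : ¬ cl (up ξ' c) := by rw [← h2 c]; exact h
      rw [if_neg h, if_neg h']
  unfold post
  rw [key c, Finset.sum_congr rfl fun c _ => key c]

section

variable {κ m r : ℕ} {S X W0 Ω : Type} [Fintype S] [Fintype X] [Fintype W0] [Fintype Ω]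

private theorem pr4_a (e : Env κ (Ev κ m r) S X W0 Ω) (A : Finset (Cell κ)) (β : Type) (F : e.Xi → β)
    (hA : ∀ (A : Finset (Cell κ)) (β : Type) (F : e.Xi → β) z c, e.Loc A F → e.Loc A (fun ξ => F (e.upA z ξ c)))
    (hF : e.Loc A F) (z) (c) (ξ ξ' : e.Xi) (hξ : ∀ q ∈ A, ξ.1 q = ξ'.1 q ∧ ∀ j, ξ.2.1 (q, j) = ξ'.2.1 (q, j)) :
    F (e.upA z ξ c) = F (e.upA z ξ' c) := hA A β F z c hF ξ ξ' hξ

private theorem pr4_0 (e : Env κ (Ev κ m r) S X W0 Ω) (A : Finset (Cell κ)) (β : Type) (F : e.Xi → β)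
    (hA : ∀ (A : Finset (Cell κ)) (β : Type) (F : e.Xi → β) z c, e.Loc A F → e.Loc A (fun ξ => F (e.up0 z ξ c)))
    (hF : e.Loc A F) (z) (c) (ξ ξ' : e.Xi) (hξ : ∀ q ∈ A, ξ.1 q = ξ'.1 q ∧ ∀ j, ξ.2.1 (q, j) = ξ'.2.1 (q, j)) :
    F (e.up0 z ξ c) = F (e.up0 z ξ' c) := hA A β F z c hF ξ ξ' hξ

private theorem pr4_pR (h1 : S_loc) (e : Env κ (Ev κ m r) S X W0 Ω) (y : Cell κ × Od κ m r) (b : Dir κ m r → S)
    (j : ℕ) (w : Ω) (ξ ξ' : e.Xi)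
    (hξ : ∀ q ∈ e.zone y.1, ξ.1 q = ξ'.1 q ∧ ∀ j, ξ.2.1 (q, j) = ξ'.2.1 (q, j)) :
    pR e y j ξ b w = pR e y j ξ' b w := by
  obtain ⟨hyf, hcls, hlaw, hA, h0⟩ := h1 κ m r S X W0 Ω e
  unfold pR
  by_cases h : w ∈ e.W (min j e.L)
  · rw [dif_pos h, dif_pos h]
    apply pr4_post
    · intro c
      exact pr4_a e (e.zone y.1) ℝ (fun ξ => (e.mod m r).law ξ y b) hA (hlaw y b) _ c ξ ξ' hξ
    · intro c
      exact pr4_a e (e.zone y.1) Prop (e.cls j y.1) hA (hcls j y.1) _ c ξ ξ' hξ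
  · rw [dif_neg h, dif_neg h]

private theorem pr4_pR0 (h1 : S_loc) (e : Env κ (Ev κ m r) S X W0 Ω) (y : Cell κ × Od κ m r) (b : Dir κ m r → S)
    (w : W0) (ξ ξ' : e.Xi)
    (hξ : ∀ q ∈ e.zone y.1, ξ.1 q = ξ'.1 q ∧ ∀ j, ξ.2.1 (q, j) = ξ'.2.1 (q, j)) :
    pR0 e y ξ b w = pR0 e y ξ' b w := by
  obtain ⟨hyf, hcls, hlaw, hA, h0⟩ := h1 κ m r S X W0 Ω e
  have hy : e.yf ξ.2 y.1 = e.yf ξ'.2 y.1 := hyf y.1 ξ ξ' hξ
  unfold pR0
  by_cases h : e.yf ξ.2 y.1 = 0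
  · have h' : e.yf ξ'.2 y.1 = 0 := by rw [← hy]; exact h
    rw [if_pos h, if_pos h']
    apply pr4_post
    · intro c
      exact pr4_0 e (e.zone y.1) ℝ (fun ξ => (e.mod m r).law ξ y b) h0 (hlaw y b) _ c ξ ξ' hξ
    · intro c
      have h3 := pr4_0 e (e.zone y.1) ℕ (fun ξ => e.yf ξ.2 y.1) h0 (hyf y.1) (e.cell y.1) c ξ ξ' hξ
      exact congrArg (fun n : ℕ => n = 0) h3
  · have h' : ¬ e.yf ξ'.2 y.1 = 0 := by rw [← hy]; exact h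
    rw [if_neg h, if_neg h']

end

/-- proof of `S_pr4` -/
theorem p_pr4 (h1 : S_loc) : S_pr4 := by
  intro κ m r S X W0 Ω _ _ _ _ e y b
  refine ⟨fun j w ξ ξ' hξ => pr4_pR h1 e y b j w ξ ξ' hξ, fun z0 j ξ ξ' hξ => ?_,
    fun w ξ ξ' hξ => pr4_pR0 h1 e y b w ξ ξ' hξ⟩
  have h2 : ∀ w, pR e y j ξ b w = pR e y j ξ' b w := fun w => pr4_pR h1 e y b j w ξ ξ' hξ
  show bigR e z0 y j ξ b = bigR e z0 y j ξ' b
  unfold bigR
  apply propext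
  apply exists_congr
  intro w
  rw [h2 w]

end Pool.Agent.Lib.MP_33d9ce_co.Cst
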