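import Pool.Agent.Lib.MP_33d9ce_co.Cst.StmC1

set_option autoImplicit false

noncomputable section

open Classical Finset

namespace Pool.Agent.Lib.MP_33d9ce_co.Cst

open Slack (Cell Ev Od Dir nbr)

/-- counting over the subtype of the product set -/
theorem ptb_cnt {Z Ω : Type} [Fintype Z] [Fintype Ω] (W : Z → Finset Ω) (P : (Z → Ω) → Prop) :
    ((univ : Finset {ω : Z → Ω // ∀ z, ω z ∈ W z}).filter fun ω => P ω.1).card =
      ((Fintype.piFinset W).filter P).card := by
  refine Finset.card_bij (fun ω _ => ω.1) ?_ ?_ ?_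
  · intro ω hω
    simp only [Finset.mem_filter, Finset.mem_univ, true_and, Fintype.mem_piFinset] at hω ⊢
    exact ⟨ω.2, hω⟩
  · intro a _ b _ hab
    exact Subtype.ext hab
  · intro b hb
    simp only [Finset.mem_filter, Fintype.mem_piFinset] at hb
    exact ⟨⟨b, hb.1⟩, by simpa using hb.2, rfl⟩

theorem ptb_card {Z Ω : Type} [Fintype Z] [Fintype Ω] (W : Z → Finset Ω) :
    Fintype.card {ω : Z → Ω // ∀ z, ω z ∈ W z} = (Fintype.piFinset W).card := by
  have h := ptb_cnt W (fun _ => True)
  simpa using h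

/-- prescribing one coordinate -/
theorem ptb_fib {Z Ω : Type} [Fintype Z] [Fintype Ω] (W : Z → Finset Ω) (P : (Z → Ω) → Prop) (z : Z) (c : Ω)
    (hc : c ∈ W z) :
    ((Fintype.piFinset W).filter fun ω => P (Function.update ω z c)).card =
      (W z).card * ((Fintype.piFinset W).filter fun ω => ω z = c ∧ P ω).card := by
  rw [← Finset.card_product]
  refine Finset.card_bij' (fun ω _ => (ω z, Function.update ω z c)) (fun p _ => Function.update p.2 z p.1) ?_ ?_ ?_ ?_
  · intro ω hω
    simp only [Finset.mem_filter, Fintype.mem_piFinset, Finset.mem_product] at hω ⊢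
    refine ⟨hω.1 z, ?_, by simp, hω.2⟩
    intro y
    by_cases h : y = z
    · subst h; simpa using hc
    · rw [Function.update_of_ne h]; exact hω.1 y
  · intro p hp
    simp only [Finset.mem_filter, Fintype.mem_piFinset, Finset.mem_product] at hp ⊢
    refine ⟨?_, ?_⟩
    · intro y
      by_cases h : y = z
      · subst h; simpa using hp.1
      · rw [Function.update_of_ne h]; exact hp.2.1 y
    · have : Function.update (Function.update p.2 z p.1) z c = p.2 := by
        rw [Function.update_idem, ← hp.2.2.1, Function.update_eq_self]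
      rw [this]
      exact hp.2.2.2
  · intro ω _
    simp
  · intro p hp
    simp only [Finset.mem_filter, Fintype.mem_piFinset, Finset.mem_product] at hp
    refine Prod.ext ?_ ?_
    · simp
    · show Function.update (Function.update p.2 z p.1) z c = p.2
      rw [Function.update_idem, ← hp.2.2.1, Function.update_eq_self]

/-- the product set over a sum type and `prs` -/
theorem ptb_prs {ι Ω : Type} [Fintype ι] [Fintype Ω] (A B : Finset Ω) (W : ι ⊕ ι → Finset Ω)
    (hA : ∀ i, W (Sum.inl i) = A) (hB : ∀ i, W (Sum.inr i) = B) (R : (ι → Ω) → (ι → Ω) → Prop) :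
    ((Fintype.piFinset W).filter fun g => R (fun i => g (Sum.inl i)) (fun i => g (Sum.inr i))).card =
      ((prs ι ι A B).filter fun p => R p.1 p.2).card := by
  refine Finset.card_bij' (fun g _ => ((fun i => g (Sum.inl i)), (fun i => g (Sum.inr i))))
    (fun p _ => Sum.elim p.1 p.2) ?_ ?_ ?_ ?_
  · intro g hg
    simp only [prs, Finset.mem_filter, Fintype.mem_piFinset, Finset.mem_product] at hg ⊢
    exact ⟨⟨fun i => hA i ▸ hg.1 (Sum.inl i), fun i => hB i ▸ hg.1 (Sum.inr i)⟩, hg.2⟩
  · intro p hp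
    simp only [prs, Finset.mem_filter, Fintype.mem_piFinset, Finset.mem_product] at hp ⊢
    refine ⟨?_, by simpa using hp.2⟩
    rintro (i | i)
    · rw [hA]; exact hp.1.1 i
    · rw [hB]; exact hp.1.2 i
  · intro g _
    funext k
    rcases k with i | i <;> rfl
  · intro p _
    rfl




/-- the core statement over abstract index types -/
theorem ptb_core (h2 : S_marg) {Z ι Ω : Type} [Fintype Z] [Fintype ι] [Fintype Ω] (WZ : Z → Finset Ω)
    (A B : Finset Ω) (hK : ι ⊕ ι → Z) (hKinj : Function.Injective hK) (hA : ∀ i, WZ (hK (Sum.inl i)) = A)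
    (hB : ∀ i, WZ (hK (Sum.inr i)) = B) (hAne : A.Nonempty) (hBne : B.Nonempty) (hne : ∀ z, (WZ z).Nonempty)
    (Q : (Z → Ω) → Prop) (TBk : (ι → Ω) → (ι → Ω) → Prop)
    (hQ : ∀ ω, Q ω ↔ TBk (fun i => ω (hK (Sum.inl i))) (fun i => ω (hK (Sum.inr i)))) (ep : ℝ)
    (hu : (((prs ι ι A B).filter fun p => TBk p.1 p.2).card : ℝ) ≤ ep * (prs ι ι A B).card)
    (hleft : ∀ i0, ∀ c ∈ A, (((prs ι ι A B).filter fun p => p.1 i0 = c ∧ TBk p.1 p.2).card : ℝ) * A.card ≤
      ep * (prs ι ι A B).card)
    (hright : ∀ i0, ∀ c ∈ B, (((prs ι ι A B).filter fun p => p.2 i0 = c ∧ TBk p.1 p.2).card : ℝ) * B.card ≤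
      ep * (prs ι ι A B).card) :
    (((Fintype.piFinset WZ).filter Q).card : ℝ) ≤ ep * (Fintype.piFinset WZ).card ∧
    ∀ z c, c ∈ WZ z → (((Fintype.piFinset WZ).filter fun ω => Q (Function.update ω z c)).card : ℝ) ≤
      ep * (Fintype.piFinset WZ).card := by
  set PR := prs ι ι A B with hPR
  have hPRpos : (0 : ℝ) < PR.card := by
    have : PR.Nonempty := by
      rw [hPR]
      unfold prs
      refine Finset.Nonempty.product ?_ ?_
      · exact Fintype.piFinset_nonempty.2 fun _ => hAne
      · exact Fintype.piFinset_nonempty.2 fun _ => hBne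
    exact_mod_cast this.card_pos
  have hprc : ((Fintype.piFinset fun k => WZ (hK k)).card : ℝ) = PR.card := by
    have h := ptb_prs (ι := ι) A B (fun k => WZ (hK k)) hA hB (fun _ _ => True)
    simp only [Finset.filter_true] at h
    exact_mod_cast h
  -- the general marginal statement
  have hmarg : ∀ R : (ι → Ω) → (ι → Ω) → Prop,
      (((Fintype.piFinset WZ).filter fun ω => R (fun i => ω (hK (Sum.inl i))) (fun i => ω (hK (Sum.inr i)))).card : ℝ) *
        PR.card = ((PR.filter fun p => R p.1 p.2).card : ℝ) * ((Fintype.piFinset WZ).card : ℝ) := by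
    intro R
    have h := h2 Z (ι ⊕ ι) Ω WZ hK
      (fun g => R (fun i => g (Sum.inl i)) (fun i => g (Sum.inr i))) hKinj hne
    have h' := ptb_prs (ι := ι) A B (fun k => WZ (hK k)) hA hB R
    have hi : (fun a b => Classical.propDecidable (a = b) : DecidableEq (ι ⊕ ι)) = instDecidableEqSum :=
      Subsingleton.elim _ _
    rw [hi] at h
    rw [hprc, h'] at h
    exact h
  have hL0 : (0 : ℝ) ≤ (Fintype.piFinset WZ).card := Nat.cast_nonneg _
  have hfirst : (((Fintype.piFinset WZ).filter Q).card : ℝ) ≤ ep * (Fintype.piFinset WZ).card := by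
    have hm := hmarg TBk
    have hfe : (Fintype.piFinset WZ).filter Q =
        (Fintype.piFinset WZ).filter fun ω => TBk (fun i => ω (hK (Sum.inl i))) (fun i => ω (hK (Sum.inr i))) := by
      apply Finset.filter_congr
      intro ω _
      exact hQ ω
    rw [hfe]
    refine le_of_mul_le_mul_right ?_ hPRpos
    rw [hm]
    calc ((PR.filter fun p => TBk p.1 p.2).card : ℝ) * ((Fintype.piFinset WZ).card : ℝ)
        ≤ (ep * PR.card) * ((Fintype.piFinset WZ).card : ℝ) := mul_le_mul_of_nonneg_right hu hL0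
      _ = ep * ((Fintype.piFinset WZ).card : ℝ) * PR.card := by ring
  refine ⟨hfirst, ?_⟩
  intro z c hc
  by_cases hz : ∃ k, hK k = z
  · obtain ⟨k, rfl⟩ := hz
    rw [ptb_fib WZ Q (hK k) c hc]
    rcases k with i0 | i0
    · have hm : (((Fintype.piFinset WZ).filter fun ω => ω (hK (Sum.inl i0)) = c ∧
            TBk (fun i => ω (hK (Sum.inl i))) (fun i => ω (hK (Sum.inr i)))).card : ℝ) * PR.card =
          ((PR.filter fun p => p.1 i0 = c ∧ TBk p.1 p.2).card : ℝ) * ((Fintype.piFinset WZ).card : ℝ) := by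
        convert hmarg (fun p q => p i0 = c ∧ TBk p q)
      have hfe : ((Fintype.piFinset WZ).filter fun ω => ω (hK (Sum.inl i0)) = c ∧ Q ω) =
          (Fintype.piFinset WZ).filter fun ω => ω (hK (Sum.inl i0)) = c ∧
            TBk (fun i => ω (hK (Sum.inl i))) (fun i => ω (hK (Sum.inr i))) := by
        apply Finset.filter_congr
        intro ω _
        rw [hQ ω]
      rw [hfe]
      rw [hA i0] at hc ⊢
      have hb := hleft i0 c hc
      refine le_of_mul_le_mul_right ?_ hPRpos
      push_cast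
      generalize (((Fintype.piFinset WZ).filter fun ω => ω (hK (Sum.inl i0)) = c ∧
            TBk (fun i => ω (hK (Sum.inl i))) (fun i => ω (hK (Sum.inr i)))).card : ℝ) = F at hm ⊢
      calc (A.card : ℝ) * F * PR.card = (A.card : ℝ) * (F * PR.card) := by ring
        _ = (A.card : ℝ) * (((PR.filter fun p => p.1 i0 = c ∧ TBk p.1 p.2).card : ℝ) *
            ((Fintype.piFinset WZ).card : ℝ)) := by rw [hm]
        _ = (((PR.filter fun p => p.1 i0 = c ∧ TBk p.1 p.2).card : ℝ) * (A.card : ℝ)) *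
            ((Fintype.piFinset WZ).card : ℝ) := by ring
        _ ≤ (ep * PR.card) * ((Fintype.piFinset WZ).card : ℝ) := mul_le_mul_of_nonneg_right hb hL0
        _ = ep * ((Fintype.piFinset WZ).card : ℝ) * PR.card := by ring
    · have hm : (((Fintype.piFinset WZ).filter fun ω => ω (hK (Sum.inr i0)) = c ∧
            TBk (fun i => ω (hK (Sum.inl i))) (fun i => ω (hK (Sum.inr i)))).card : ℝ) * PR.card =
          ((PR.filter fun p => p.2 i0 = c ∧ TBk p.1 p.2).card : ℝ) * ((Fintype.piFinset WZ).card : ℝ) := by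
        convert hmarg (fun p q => q i0 = c ∧ TBk p q)
      have hfe : ((Fintype.piFinset WZ).filter fun ω => ω (hK (Sum.inr i0)) = c ∧ Q ω) =
          (Fintype.piFinset WZ).filter fun ω => ω (hK (Sum.inr i0)) = c ∧
            TBk (fun i => ω (hK (Sum.inl i))) (fun i => ω (hK (Sum.inr i))) := by
        apply Finset.filter_congr
        intro ω _
        rw [hQ ω]
      rw [hfe]
      rw [hB i0] at hc ⊢
      have hb := hright i0 c hc
      refine le_of_mul_le_mul_right ?_ hPRpos
      push_cast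
      generalize (((Fintype.piFinset WZ).filter fun ω => ω (hK (Sum.inr i0)) = c ∧
            TBk (fun i => ω (hK (Sum.inl i))) (fun i => ω (hK (Sum.inr i)))).card : ℝ) = F at hm ⊢
      calc (B.card : ℝ) * F * PR.card = (B.card : ℝ) * (F * PR.card) := by ring
        _ = (B.card : ℝ) * (((PR.filter fun p => p.2 i0 = c ∧ TBk p.1 p.2).card : ℝ) *
            ((Fintype.piFinset WZ).card : ℝ)) := by rw [hm]
        _ = (((PR.filter fun p => p.2 i0 = c ∧ TBk p.1 p.2).card : ℝ) * (B.card : ℝ)) *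
            ((Fintype.piFinset WZ).card : ℝ) := by ring
        _ ≤ (ep * PR.card) * ((Fintype.piFinset WZ).card : ℝ) := mul_le_mul_of_nonneg_right hb hL0
        _ = ep * ((Fintype.piFinset WZ).card : ℝ) * PR.card := by ring
  · have hfe : ((Fintype.piFinset WZ).filter fun ω => Q (Function.update ω z c)) =
        (Fintype.piFinset WZ).filter Q := by
      apply Finset.filter_congr
      intro ω _
      rw [hQ, hQ ω]
      have hk : ∀ k, Function.update ω z c (hK k) = ω (hK k) := by
        intro k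
        apply Function.update_of_ne
        intro h
        exact hz ⟨k, h⟩
      simp only [hk]
    rw [hfe]
    exact hfirst

/-- the same with an arbitrary decidable equality and an arbitrary finiteness instance for the product set -/
theorem ptb_core2 (h2 : S_marg) {Z ι Ω : Type} [Fintype Z] [Fintype ι] [Fintype Ω] (WZ : Z → Finset Ω)
    (A B : Finset Ω) (hK : ι ⊕ ι → Z) (hKinj : Function.Injective hK) (hA : ∀ i, WZ (hK (Sum.inl i)) = A)
    (hB : ∀ i, WZ (hK (Sum.inr i)) = B) (hAne : A.Nonempty) (hBne : B.Nonempty) (hne : ∀ z, (WZ z).Nonempty)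
    (Q : (Z → Ω) → Prop) (TBk : (ι → Ω) → (ι → Ω) → Prop)
    (hQ : ∀ ω, Q ω ↔ TBk (fun i => ω (hK (Sum.inl i))) (fun i => ω (hK (Sum.inr i)))) (ep : ℝ)
    (hu : (((prs ι ι A B).filter fun p => TBk p.1 p.2).card : ℝ) ≤ ep * (prs ι ι A B).card)
    (hleft : ∀ i0, ∀ c ∈ A, (((prs ι ι A B).filter fun p => p.1 i0 = c ∧ TBk p.1 p.2).card : ℝ) * A.card ≤
      ep * (prs ι ι A B).card)
    (hright : ∀ i0, ∀ c ∈ B, (((prs ι ι A B).filter fun p => p.2 i0 = c ∧ TBk p.1 p.2).card : ℝ) * B.card ≤
      ep * (prs ι ι A B).card)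
    (iz : DecidableEq Z) (ifi : Fintype {ω : Z → Ω // ∀ z, ω z ∈ WZ z}) :
    (((univ : Finset {ω : Z → Ω // ∀ z, ω z ∈ WZ z}).filter fun ω => Q ω.1).card : ℝ) ≤
      ep * Fintype.card {ω : Z → Ω // ∀ z, ω z ∈ WZ z} ∧
    ∀ z c, c ∈ WZ z → (((univ : Finset {ω : Z → Ω // ∀ z, ω z ∈ WZ z}).filter fun ω =>
      Q (Function.update ω.1 z c)).card : ℝ) ≤ ep * Fintype.card {ω : Z → Ω // ∀ z, ω z ∈ WZ z} := by
  have hi : iz = (fun a b => Classical.propDecidable (a = b)) := Subsingleton.elim _ _
  subst hi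
  have hj : ifi = Subtype.fintype _ := Subsingleton.elim _ _
  subst hj
  obtain ⟨p1, p2⟩ := ptb_core h2 WZ A B hK hKinj hA hB hAne hBne hne Q TBk hQ ep hu hleft hright
  have hc := ptb_card WZ
  rw [hc]
  refine ⟨?_, ?_⟩
  · rw [ptb_cnt WZ Q]
    exact p1
  · intro z c hc'
    rw [ptb_cnt WZ (fun ω => Q (Function.update ω z c))]
    exact p2 z c hc'

theorem p_ptb (h1 : S_tbt) (h2 : S_marg) : S_ptb := by
  intro κ I S X W0 Ω _ _ _ _ _ e om ep hT l hl2 hlL s hs
  obtain ⟨hne, -, hT3⟩ := hT
  have hcs : Fintype.card {q // q ∈ s} = s.card := by simp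
  obtain ⟨hu, hleft, hright⟩ := hT3 l hl2 hlL {q // q ∈ s} (by rw [hcs]; exact hs)
  let hK : {q // q ∈ s} ⊕ {q // q ∈ s} → Cell κ × Fin (e.L + 1) :=
    Sum.elim (fun q => (q.1, ⟨l - 1, by omega⟩)) (fun q => (q.1, ⟨l, by omega⟩))
  have hKinj : Function.Injective hK := by
    rintro (a | a) (b | b) hab
    · simp only [hK, Sum.elim_inl, Prod.mk.injEq] at hab
      exact congrArg Sum.inl (Subtype.ext hab.1)
    · simp only [hK, Sum.elim_inl, Sum.elim_inr, Prod.mk.injEq, Fin.mk.injEq] at hab
      omega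
    · simp only [hK, Sum.elim_inl, Sum.elim_inr, Prod.mk.injEq, Fin.mk.injEq] at hab
      omega
    · simp only [hK, Sum.elim_inr, Prod.mk.injEq] at hab
      exact congrArg Sum.inr (Subtype.ext hab.1)
  have hQ : ∀ ω : Cell κ × Fin (e.L + 1) → Ω,
      tbad e.ok e.E e.al s (fun q j => ω (q, ⟨min j e.L, by omega⟩)) l ↔
        TB e.ok (e.E l (Fintype.card {q // q ∈ s})) (e.al l) (fun i => ω (hK (Sum.inl i)))
          (fun i => ω (hK (Sum.inr i))) := by
    intro ω
    have h := h1 κ X Ω e.ok e.E e.al s (fun q j => ω (q, ⟨min j e.L, by omega⟩)) l (by omega)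
    have e1 : (fun q : {q // q ∈ s} => ω (q.1, ⟨min (l - 1) e.L, by omega⟩)) =
        fun i => ω (hK (Sum.inl i)) := by
      funext i
      simp only [hK, Sum.elim_inl]
      congr 3
      omega
    have e2 : (fun q : {q // q ∈ s} => ω (q.1, ⟨min l e.L, by omega⟩)) =
        fun i => ω (hK (Sum.inr i)) := by
      funext i
      simp only [hK, Sum.elim_inr]
      congr 3
      omega
    rw [h, ← e1, ← e2]
  have key := ptb_core2 h2 (fun z : Cell κ × Fin (e.L + 1) => e.W z.2) (e.W (l - 1)) (e.W l) hK hKinj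
    (fun _ => rfl) (fun _ => rfl) (hne _) (hne _) (fun _ => hne _)
    (fun ω => tbad e.ok e.E e.al s (fun q j => ω (q, ⟨min j e.L, by omega⟩)) l)
    (fun p q => TB e.ok (e.E l (Fintype.card {q // q ∈ s})) (e.al l) p q) hQ (ep l) hu hleft hright
    inferInstance inferInstance
  refine ⟨?_, ?_⟩
  · exact key.1
  · intro z c
    have h := key.2 z c.1 c.2
    convert h using 4
    exact Iff.rfl

end Pool.Agent.Lib.MP_33d9ce_co.Cst
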