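import Pool.Agent.Lib.MP_33d9ce_co.Cst.StmC2

/-!
# Spanning hypercubes, constant density: cardinalities of the sets of allowed positions
-/

set_option autoImplicit false

noncomputable section

open Classical Finset

namespace Pool.Agent.Lib.MP_33d9ce_co.Cst

open Slack (Cell Ev Od Dir nbr)

private theorem size_one (κ : ℕ) (I S X W0 Ω : Type) [Fintype I] [Fintype S] [Fintype X] [Fintype W0]
    [Fintype Ω] (e : Env κ I S X W0 Ω) (η x : ℝ) (a : ℕ) (h : e.Ok η x a) (ξ : e.Xi) (u : Cell κ) (i : I)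
    (l : ℕ) (hl : l ≤ 1) (hk : (nc e.cell 1 u).card ≤ kap 0) :
    33 / 32 * 2 ^ κ ≤ ((e.pos l ξ u i).card : ℝ) := by
  have hc : (univ : Finset S) ⊆ e.pos l ξ u i ∪ (nc e.cell 1 u).biUnion fun q =>
      ({s | ¬ e.ok0 (e.f i s) (ξ.1 q)} : Finset S) ∪ ({s | ¬ e.ok (e.f i s) (e.vw ξ.2 q 1)} : Finset S) := by
    intro s _
    by_cases hs : s ∈ e.pos l ξ u i
    · exact mem_union_left _ hs
    · refine mem_union_right _ ?_
      by_contra hn
      apply hs
      unfold Env.pos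
      simp only [mem_filter, mem_univ, true_and]
      have hq : ∀ q ∈ nc e.cell 1 u, e.ok0 (e.f i s) (ξ.1 q) ∧ e.ok (e.f i s) (e.vw ξ.2 q 1) := by
        intro q hq
        by_contra hb
        apply hn
        refine mem_biUnion.mpr ⟨q, hq, ?_⟩
        simp only [mem_union, mem_filter, mem_univ, true_and]
        tauto
      refine ⟨fun _ q hqq => (hq q hqq).1, fun _ q hqq => (hq q hqq).2, fun h2 => ?_⟩
      omega
  have h1 : (Fintype.card S : ℝ) ≤ (e.pos l ξ u i).card + (nc e.cell 1 u).card *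
      (4 * η * 2 ^ κ + a * η * 2 ^ κ) := by
    have h2 : Fintype.card S ≤ (e.pos l ξ u i).card + ∑ q ∈ nc e.cell 1 u,
        ((({s | ¬ e.ok0 (e.f i s) (ξ.1 q)} : Finset S)).card +
          (({s | ¬ e.ok (e.f i s) (e.vw ξ.2 q 1)} : Finset S)).card) := by
      calc Fintype.card S = (univ : Finset S).card := rfl
        _ ≤ _ := card_le_card hc
        _ ≤ _ := card_union_le _ _
        _ ≤ _ := Nat.add_le_add_left (card_biUnion_le.trans
          (sum_le_sum fun q _ => card_union_le _ _)) _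
    calc (Fintype.card S : ℝ) ≤ (e.pos l ξ u i).card + ∑ q ∈ nc e.cell 1 u,
        (((({s | ¬ e.ok0 (e.f i s) (ξ.1 q)} : Finset S)).card : ℝ) +
          ((({s | ¬ e.ok (e.f i s) (e.vw ξ.2 q 1)} : Finset S)).card : ℝ)) := by exact_mod_cast h2
      _ ≤ (e.pos l ξ u i).card + ∑ _q ∈ nc e.cell 1 u, (4 * η * 2 ^ κ + a * η * 2 ^ κ) :=
        add_le_add le_rfl (sum_le_sum fun q _ => add_le_add (h.fair0 i _) (h.fair1 i _))
      _ = _ := by rw [sum_const, nsmul_eq_mul]
  have h3 : (16 : ℝ) * Fintype.card S = 17 * 2 ^ κ := by exact_mod_cast h.cardS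
  have hη := h.η_pos
  have hpow : (0 : ℝ) < 2 ^ κ := by positivity
  have h4 : ((nc e.cell 1 u).card : ℝ) * (4 * η * 2 ^ κ + a * η * 2 ^ κ) ≤ 1 / 32 * 2 ^ κ := by
    have h5 : ((nc e.cell 1 u).card : ℝ) ≤ (kap 0 : ℕ) := by exact_mod_cast hk
    have h6 : (0 : ℝ) ≤ 4 * η * 2 ^ κ + a * η * 2 ^ κ := by positivity
    have h7 := h.room
    calc ((nc e.cell 1 u).card : ℝ) * (4 * η * 2 ^ κ + a * η * 2 ^ κ)
        ≤ ((kap 0 : ℕ) : ℝ) * (4 * η * 2 ^ κ + a * η * 2 ^ κ) := mul_le_mul_of_nonneg_right h5 h6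
      _ = (((kap 0 : ℕ) : ℝ) * ((4 + a) * η)) * 2 ^ κ := by ring
      _ ≤ 1 / 32 * 2 ^ κ := by
        refine mul_le_mul_of_nonneg_right ?_ hpow.le
        linarith
  linarith

private theorem size_two (κ : ℕ) (I S X W0 Ω : Type) [Fintype I] [Fintype S] [Fintype X] [Fintype W0]
    [Fintype Ω] (e : Env κ I S X W0 Ω) (η x : ℝ) (a : ℕ) (h : e.Ok η x a) (ξ : e.Xi) (u : Cell κ) (i : I)
    (l : ℕ) (hl : 2 ≤ l) (hL : l ≤ e.L)
    (hb : ¬ tbad e.ok e.E e.al (nc e.cell 1 u) (e.vw ξ.2) l) :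
    e.al l / 2 * Fintype.card S ≤ ((e.pos l ξ u i).card : ℝ) ∧
    ∀ q ∈ nc e.cell 1 u, ∀ j, (j = l - 1 ∨ j = l) →
      (e.posm l ξ u i (q, j)).card ≤ 3 * (e.pos l ξ u i).card := by
  have hpos : e.pos l ξ u i = ({s | e.f i s ∈ rr e.ok e.E (nc e.cell 1 u) (e.vw ξ.2) l} : Finset S) := by
    unfold Env.pos
    ext s
    simp only [mem_filter, mem_univ, true_and]
    constructor
    · exact fun hs => hs.2.2 hl
    · exact fun hs => ⟨fun h1 => by omega, fun h1 => by omega, fun _ => hs⟩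
  have hposm : ∀ z, e.posm l ξ u i z =
      ({s | e.f i s ∈ rrm e.ok e.E (nc e.cell 1 u) (e.vw ξ.2) l z} : Finset S) := by
    intro z
    unfold Env.posm
    ext s
    simp only [mem_filter, mem_univ, true_and]
    constructor
    · exact fun hs => hs.2.2 hl
    · exact fun hs => ⟨fun h1 => by omega, fun h1 => by omega, fun _ => hs⟩
  unfold tbad at hb
  push Not at hb
  obtain ⟨hb1, hb2⟩ := hb
  have hX0 := h.nonemptyX
  have hX : (0 : ℝ) < Fintype.card X := by exact_mod_cast Fintype.card_pos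
  have hS : (0 : ℝ) ≤ Fintype.card S := Nat.cast_nonneg _
  have hr := abs_le.mp (h.fairr i u (e.vw ξ.2) l hl hL)
  rw [← hpos] at hr
  have hal := h.al_ge l hl hL
  have halp := h.al_pos l
  have hx := h.x_nonneg
  obtain ⟨p, hp⟩ : ∃ p : ℝ, p = ((rr e.ok e.E (nc e.cell 1 u) (e.vw ξ.2) l).card : ℝ) / Fintype.card X := ⟨_, rfl⟩
  rw [← hp] at hr
  have hp1 : e.al l ≤ p := by
    rw [hp, le_div_iff₀ hX]
    exact hb1
  have hlow : (Fintype.card S : ℝ) * (p - x) ≤ (e.pos l ξ u i).card := by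
    have := hr.1
    nlinarith
  refine ⟨?_, ?_⟩
  · have h1 : e.al l / 2 ≤ p - x := by linarith
    calc e.al l / 2 * Fintype.card S ≤ (p - x) * Fintype.card S := mul_le_mul_of_nonneg_right h1 hS
      _ = Fintype.card S * (p - x) := mul_comm _ _
      _ ≤ _ := hlow
  · intro q hq j hj
    have hm := (abs_le.mp (h.fairm i u (e.vw ξ.2) l (q, j) hl hL)).2
    rw [← hposm] at hm
    have h2 := hb2 q hq j hj
    have h3 : ((rrm e.ok e.E (nc e.cell 1 u) (e.vw ξ.2) l (q, j)).card : ℝ) / Fintype.card X ≤ 2 * p := by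
      rw [hp, ← mul_div_assoc]
      refine div_le_div_of_nonneg_right ?_ hX.le
      exact_mod_cast h2
    have h4 : ((e.posm l ξ u i (q, j)).card : ℝ) ≤ Fintype.card S * (2 * p + x) := by
      have h5 : (Fintype.card S : ℝ) *
          (((rrm e.ok e.E (nc e.cell 1 u) (e.vw ξ.2) l (q, j)).card : ℝ) / Fintype.card X) ≤
          Fintype.card S * (2 * p) := mul_le_mul_of_nonneg_left h3 hS
      nlinarith
    have h6 : ((e.posm l ξ u i (q, j)).card : ℝ) ≤ 3 * (e.pos l ξ u i).card := by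
      have h7 : (2 * p + x) ≤ 3 * (p - x) := by linarith
      have h8 : (Fintype.card S : ℝ) * (2 * p + x) ≤ Fintype.card S * (3 * (p - x)) :=
        mul_le_mul_of_nonneg_left h7 hS
      nlinarith
    exact_mod_cast h6

/-- **size**: cardinalities of the sets of allowed positions. -/
theorem p_size : S_size := by
  intro κ I S X W0 Ω _ _ _ _ _ e η x a h ξ u i l
  exact ⟨fun hl hk => size_one κ I S X W0 Ω e η x a h ξ u i l hl hk,
    fun h2 hL hb => size_two κ I S X W0 Ω e η x a h ξ u i l h2 hL hb⟩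

end Pool.Agent.Lib.MP_33d9ce_co.Cst
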