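import Pool.Agent.Lib.MP_33d9ce_co.Cst.StmM

/-!
# The square norm of the posterior
-/

set_option autoImplicit false

noncomputable section

open Classical Finset

namespace Pool.Agent.Lib.MP_33d9ce_co.Cst

section

variable {Ξ C A : Type} [Fintype Ξ] [Fintype C] [Fintype A] {lw : Ξ → A → ℝ} {cl : Ξ → Prop} {up : Ξ → C → Ξ}

theorem sq_pw (h : Up up) (ξ : Ξ) (c c' : C) (a : A) : pw lw cl up (up ξ c) a c' = pw lw cl up ξ a c' := by
  simp [pw, h.idem]

theorem sq_post (h : Up up) (ξ : Ξ) (c c' : C) (a : A) : post lw cl up (up ξ c) a c' = post lw cl up ξ a c' := by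
  simp [post, sq_pw h]

theorem sq_avg (h : Up up) (b : Ξ → A → ℝ) (hb : ∀ ξ c a, b (up ξ c) a = b ξ a) :
    (Fintype.card C : ℝ) * ∑ ξ, (if cl ξ then ∑ a, lw ξ a * b ξ a else 0) =
      ∑ ξ, ∑ a, (∑ c, pw lw cl up ξ a c) * b ξ a := by
  rw [h.avg]
  refine sum_congr rfl fun ξ _ => ?_
  simp only [sum_mul]
  rw [sum_comm]
  refine sum_congr rfl fun c _ => ?_
  by_cases hc : cl (up ξ c)
  · simp [hc, pw, hb]
  · simp [hc, pw]

theorem sq_pw_nonneg (hl : ∀ ξ a, 0 ≤ lw ξ a) (ξ : Ξ) (a : A) (c : C) : 0 ≤ pw lw cl up ξ a c := by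
  unfold pw
  split_ifs
  · exact hl _ _
  · exact le_rfl

theorem sq_pw_le {ξ : Ξ} {hat : A → ℝ} (h0 : ∀ a, 0 ≤ hat a) (h1 : ∀ c, cl (up ξ c) → ∀ a, lw (up ξ c) a ≤ hat a)
    (a : A) (c : C) : pw lw cl up ξ a c ≤ hat a := by
  unfold pw
  split_ifs with hc
  · exact h1 c hc a
  · exact h0 a

end

theorem p_sq (_h1 : S_bayes) : S_sq := by
  intro Ξ C A _ _ _ _ lw cl up hup hl _ Λ hhat
  have hC : (0 : ℝ) < Fintype.card C := by exact_mod_cast Fintype.card_pos
  set b : Ξ → A → ℝ := fun ξ a => ∑ c, post lw cl up ξ a c ^ 2 with hbdef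
  have hb : ∀ ξ c a, b (up ξ c) a = b ξ a := by
    intro ξ c a
    simp only [hbdef, sq_post hup]
  have key := sq_avg (lw := lw) (cl := cl) hup b hb
  have hle : ∑ ξ, ∑ a, (∑ c, pw lw cl up ξ a c) * b ξ a ≤ ∑ _ξ : Ξ, Λ := by
    refine sum_le_sum fun ξ _ => ?_
    obtain ⟨hat, h0, hs, hm⟩ := hhat ξ
    have hterm : ∀ a, (∑ c, pw lw cl up ξ a c) * b ξ a ≤ hat a := by
      intro a
      have hZ0 : 0 ≤ ∑ c', pw lw cl up ξ a c' := sum_nonneg fun c' _ => sq_pw_nonneg hl ξ a c'
      rcases hZ0.eq_or_lt with hZ | hZ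
      · rw [← hZ, zero_mul]
        exact h0 a
      · have h2 : ∀ c, post lw cl up ξ a c ^ 2 * (∑ c', pw lw cl up ξ a c') ≤ hat a * post lw cl up ξ a c := by
          intro c
          have hp : post lw cl up ξ a c * (∑ c', pw lw cl up ξ a c') = pw lw cl up ξ a c := by
            unfold post
            field_simp
          have hp0 : 0 ≤ post lw cl up ξ a c := div_nonneg (sq_pw_nonneg hl ξ a c) hZ.le
          calc post lw cl up ξ a c ^ 2 * (∑ c', pw lw cl up ξ a c')
              = post lw cl up ξ a c * (post lw cl up ξ a c * (∑ c', pw lw cl up ξ a c')) := by ring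
            _ = post lw cl up ξ a c * pw lw cl up ξ a c := by rw [hp]
            _ ≤ post lw cl up ξ a c * hat a := mul_le_mul_of_nonneg_left (sq_pw_le h0 hm a c) hp0
            _ = hat a * post lw cl up ξ a c := by ring
        have h3 : ∑ c, post lw cl up ξ a c = 1 := by
          unfold post
          rw [← sum_div]
          exact div_self hZ.ne'
        calc (∑ c, pw lw cl up ξ a c) * b ξ a = ∑ c, post lw cl up ξ a c ^ 2 * (∑ c', pw lw cl up ξ a c') := by
              rw [hbdef, mul_comm]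
              simp only
              rw [sum_mul]
          _ ≤ ∑ c, hat a * post lw cl up ξ a c := sum_le_sum fun c _ => h2 c
          _ = hat a * ∑ c, post lw cl up ξ a c := by rw [mul_sum]
          _ = hat a := by rw [h3, mul_one]
    exact (sum_le_sum fun a _ => hterm a).trans hs
  rw [← key] at hle
  simp only [sum_const, card_univ, nsmul_eq_mul] at hle
  have h5 : (Fintype.card C : ℝ) * ∑ ξ, (if cl ξ then ∑ a, lw ξ a * b ξ a else 0) ≤
      Fintype.card C * (Λ * (Fintype.card C : ℝ)⁻¹ * Fintype.card Ξ) := by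
    calc (Fintype.card C : ℝ) * ∑ ξ, (if cl ξ then ∑ a, lw ξ a * b ξ a else 0)
        ≤ Fintype.card Ξ * Λ := hle
      _ = Fintype.card C * (Λ * (Fintype.card C : ℝ)⁻¹ * Fintype.card Ξ) := by
          field_simp
  exact le_of_mul_le_mul_left h5 hC

end Pool.Agent.Lib.MP_33d9ce_co.Cst
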