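import Pool.Agent.Lib.MP_33d9ce_co.Cst.StmC2

/-!
# Spanning hypercubes, constant density: images of positive probability are compatible
-/

set_option autoImplicit false

noncomputable section

open Classical Finset

namespace Pool.Agent.Lib.MP_33d9ce_co.Cst

open Slack (Cell Ev Od Dir nbr)

private theorem sup_law {κ m r : ℕ} {S X W0 Ω : Type} [Fintype S] [Fintype X] [Fintype W0]
    [Fintype Ω] (e : Env κ (Ev κ m r) S X W0 Ω) (ξ : e.Xi) (y : Cell κ × Od κ m r)
    (b : Dir κ m r → S) (h : (e.mod m r).law ξ y b ≠ 0) (t : Dir κ m r) :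
    b t ∈ e.alw ξ (nbr y t).1 (nbr y t).2 := by
  by_contra hcon
  apply h
  unfold Mod.law
  refine Finset.prod_eq_zero (Finset.mem_univ t) ?_
  unfold Mod.u
  exact if_neg hcon

theorem p_sup (h1 : S_nb1) (h2 : S_alp) (h3 : S_fam) : S_sup := by
  intro κ m r S X W0 Ω _ _ _ _ e η x a hok y ξ
  have hlev : ∀ t, e.yf ξ.2 y.1 ≤ e.lv ξ.2 (nbr y t).1 ∧
      e.lv ξ.2 (nbr y t).1 ≤ e.yf ξ.2 y.1 + 1 := by
    intro t
    exact (h3 κ X Ω e.ok e.E e.al e.cell e.L (e.vw ξ.2) y.1).1 _ (h1 κ m r y t).1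
  refine ⟨?_, ?_⟩
  · intro j hj1 hjL hcls b hb t
    have hbt := sup_law e ξ y b hb t
    obtain ⟨hl1, hl2⟩ := hlev t
    have hq := (h1 κ m r y t).2 e.cell
    obtain ⟨-, ha1, ha2⟩ := h2 κ (Ev κ m r) S X W0 Ω e η x a hok ξ (nbr y t).1 (nbr y t).2
    rw [hcls.1] at hl1 hl2
    obtain ⟨l, hl⟩ : ∃ l, l = e.lv ξ.2 (nbr y t).1 := ⟨_, rfl⟩
    rw [← hl] at ha1 ha2 hl1 hl2
    have hpos : e.alw ξ (nbr y t).1 (nbr y t).2 = e.pos l ξ (nbr y t).1 (nbr y t).2 := by
      rcases Nat.lt_or_ge l 2 with h | h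
      · exact (ha1 (by omega)).1
      · exact (ha2 h (hcls.2 _ (h1 κ m r y t).1)).1
    rw [hpos] at hbt
    have hbt' := (Finset.mem_filter.1 hbt).2
    rcases Nat.lt_or_ge l 2 with h | h
    · have hl1' : l = 1 := by omega
      have hj : j = 1 := by omega
      rw [hj]
      exact hbt'.2.1 hl1' _ hq
    · have hrr := (Finset.mem_filter.1 (hbt'.2.2 h)).2 _ hq
      rcases Nat.lt_or_ge j l with h' | h'
      · have : l - 1 = j := by omega
        rw [← this]
        exact hrr.1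
      · have : l = j := by omega
        rw [← this]
        exact hrr.2
  · intro hy0
    have hle : ∀ t, e.lv ξ.2 (nbr y t).1 ≤ 1 := by
      intro t
      have := (hlev t).2
      omega
    refine ⟨?_, ?_⟩
    · intro b hb t
      have hbt := sup_law e ξ y b hb t
      have hq := (h1 κ m r y t).2 e.cell
      obtain ⟨-, ha1, -⟩ := h2 κ (Ev κ m r) S X W0 Ω e η x a hok ξ (nbr y t).1 (nbr y t).2
      rw [(ha1 (hle t)).1] at hbt
      exact (Finset.mem_filter.1 hbt).2.1 (hle t) _ hq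
    · intro t
      obtain ⟨-, ha1, -⟩ := h2 κ (Ev κ m r) S X W0 Ω e η x a hok ξ (nbr y t).1 (nbr y t).2
      have hc := (ha1 (hle t)).2
      have hcard : Fintype.card (Cell κ) = 2 ^ κ := by
        simp [ZMod.card]
      rw [hcard]
      have h0 : (0 : ℝ) < 2 ^ κ := by positivity
      have : ((2 ^ κ : ℕ) : ℝ) ≤ ((e.alw ξ (nbr y t).1 (nbr y t).2).card : ℝ) := by
        push_cast
        linarith
      exact_mod_cast this

end Pool.Agent.Lib.MP_33d9ce_co.Cst
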