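import Pool.Agent.Lib.MP_33d9ce_co.Cst.StmC1

/-!
# Spanning hypercubes, constant density: bad labels of a set of cells as bad label families
-/

set_option autoImplicit false

noncomputable section

open Classical Finset

namespace Pool.Agent.Lib.MP_33d9ce_co.Cst

open Slack (Cell Ev Od Dir nbr)

theorem tbt_rr {κ : ℕ} {X Ω : Type} [Fintype X] (ok : X → Ω → Prop) (E : ℕ → ℕ → Finset X)
    (s : Finset (Cell κ)) (w : Cell κ → ℕ → Ω) (l : ℕ) :
    rr ok E s w l = AA ok (E l s.card) (fun q : {q // q ∈ s} => w q.1 (l - 1))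
      (fun q : {q // q ∈ s} => w q.1 l) := by
  unfold rr AA
  ext x
  simp only [Finset.mem_filter]
  refine and_congr_right fun _ => ?_
  constructor
  · intro h
    exact ⟨fun i => (h i.1 i.2).1, fun i => (h i.1 i.2).2⟩
  · intro h q hq
    exact ⟨h.1 ⟨q, hq⟩, h.2 ⟨q, hq⟩⟩

theorem tbt_left {κ : ℕ} {X Ω : Type} [Fintype X] (ok : X → Ω → Prop) (E : ℕ → ℕ → Finset X)
    (s : Finset (Cell κ)) (w : Cell κ → ℕ → Ω) (l : ℕ) (hl : 1 ≤ l) (i : {q // q ∈ s}) :
    rrm ok E s w l (i.1, l - 1) = AAl ok (E l s.card) (fun q : {q // q ∈ s} => w q.1 (l - 1))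
      (fun q : {q // q ∈ s} => w q.1 l) i := by
  unfold rrm AAl
  ext x
  simp only [Finset.mem_filter]
  refine and_congr_right fun _ => ?_
  constructor
  · intro h
    refine ⟨fun j hj => (h j.1 j.2).1 ?_, fun j => (h j.1 j.2).2 ?_⟩
    · intro he
      exact hj (Subtype.ext (Prod.ext_iff.1 he).1)
    · intro he
      have h2 : l = l - 1 := (Prod.ext_iff.1 he).2
      omega
  · intro h q hq
    refine ⟨fun hn => h.1 ⟨q, hq⟩ ?_, fun _ => h.2 ⟨q, hq⟩⟩
    intro he
    apply hn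
    rw [← he]

theorem tbt_right {κ : ℕ} {X Ω : Type} [Fintype X] (ok : X → Ω → Prop) (E : ℕ → ℕ → Finset X)
    (s : Finset (Cell κ)) (w : Cell κ → ℕ → Ω) (l : ℕ) (hl : 1 ≤ l) (i : {q // q ∈ s}) :
    rrm ok E s w l (i.1, l) = AAr ok (E l s.card) (fun q : {q // q ∈ s} => w q.1 (l - 1))
      (fun q : {q // q ∈ s} => w q.1 l) i := by
  unfold rrm AAr
  ext x
  simp only [Finset.mem_filter]
  refine and_congr_right fun _ => ?_
  constructor
  · intro h
    refine ⟨fun j => (h j.1 j.2).1 ?_, fun j hj => (h j.1 j.2).2 ?_⟩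
    · intro he
      have h2 : l - 1 = l := (Prod.ext_iff.1 he).2
      omega
    · intro he
      exact hj (Subtype.ext (Prod.ext_iff.1 he).1)
  · intro h q hq
    refine ⟨fun _ => h.1 ⟨q, hq⟩, fun hn => h.2 ⟨q, hq⟩ ?_⟩
    intro he
    apply hn
    rw [← he]

theorem p_tbt : S_tbt := by
  intro κ X Ω _ ok E al s w l hl
  have hc : Fintype.card {q // q ∈ s} = s.card := by simp
  rw [hc]
  unfold tbad TB
  rw [tbt_rr]
  refine or_congr Iff.rfl ?_
  constructor
  · rintro ⟨q, hq, j, hj, h⟩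
    rcases hj with hj | hj
    · left
      refine ⟨⟨q, hq⟩, ?_⟩
      rw [hj, tbt_left ok E s w l hl ⟨q, hq⟩] at h
      exact h
    · right
      refine ⟨⟨q, hq⟩, ?_⟩
      rw [hj, tbt_right ok E s w l hl ⟨q, hq⟩] at h
      exact h
  · rintro (⟨i, h⟩ | ⟨i, h⟩)
    · refine ⟨i.1, i.2, l - 1, Or.inl rfl, ?_⟩
      rw [tbt_left ok E s w l hl i]
      exact h
    · refine ⟨i.1, i.2, l, Or.inr rfl, ?_⟩
      rw [tbt_right ok E s w l hl i]
      exact h

end Pool.Agent.Lib.MP_33d9ce_co.Cst
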