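import Pool.Agent.Lib.MP_33d9ce_co.Cst.StmD
import Pool.Agent.Lib.MP_33d9ce_co.Upper

/-! Piece thr. -/

set_option autoImplicit false

noncomputable section

open Classical Finset

namespace Pool.Agent.Lib.MP_33d9ce_co.Cst

private theorem thr_inst {α : Type} {s : Finset α} {p : α → Prop} {d d' : DecidablePred p} :
    (@Finset.filter α p d s).card = (@Finset.filter α p d' s).card := by
  have e : @Finset.filter α p d s = @Finset.filter α p d' s := by
    ext a
    simp only [Finset.mem_filter]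
  rw [e]

private theorem thr_mem {κ m r n h L : ℕ} {x z0 Dn H th Δ er : ℝ} (h1 : S_main)
    (hp : Num κ m r n h L x z0 Dn H th Δ er) : h + 1 ∈ admissible n := by
  refine ⟨by omega, ?_⟩
  intro G _ hdeg
  refine h1 κ m r n h L x z0 Dn H th Δ er hp (Fin (2 ^ n)) G (by simp) ?_
  intro v
  have h1 := hdeg v
  have h2 : ({a | ¬ G.Adj a v} : Finset (Fin (2 ^ n))).card + G.degree v = 2 ^ n := by
    have h3 : (univ.filter fun a => G.Adj a v) = G.neighborFinset v := by
      ext a
      simp [SimpleGraph.adj_comm]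
    have h4 := Finset.card_filter_add_card_filter_not (s := (univ : Finset (Fin (2 ^ n))))
      (fun a => G.Adj a v)
    rw [h3, SimpleGraph.card_neighborFinset_eq_degree, Finset.card_univ, Fintype.card_fin] at h4
    rw [add_comm]
    refine Eq.trans (congrArg (G.degree v + ·) ?_) h4
    exact thr_inst
  have h6 : ({a | ¬ G.Adj a v} : Finset (Fin (2 ^ n))).card ≤ h := by omega
  exact le_trans (le_of_eq thr_inst) h6

theorem p_thr (h1 : S_main) (h2 : S_num) : S_thr := by
  have hA : ∃ n0 : ℕ, ∀ n ≥ n0, (2 : ℝ) ^ n / 10 ^ 24 ≤ threshold n := by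
    obtain ⟨n0, hn0⟩ := h2
    refine ⟨max n0 1, fun n hn => ?_⟩
    obtain ⟨κ, m, r, h, L, x, z0, Dn, H, th, Δ, er, hp, hle⟩ := hn0 n (le_trans (le_max_left _ _) hn)
    have h3 : h + 1 ≤ threshold n :=
      (threshold_isGreatest (le_trans (le_max_right _ _) hn)).2 (thr_mem h1 hp)
    have h4 : (h : ℝ) ≤ threshold n := by exact_mod_cast le_trans (Nat.le_succ h) h3
    exact hle.trans h4
  refine ⟨hA, ?_⟩
  obtain ⟨n0, hn0⟩ := hA
  refine ⟨min (1 / 10 ^ 24) (1 / 2 ^ n0), lt_min (by norm_num) (by positivity), fun n hn => ?_⟩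
  rcases lt_or_ge n n0 with h3 | h3
  · have h4 : 1 ≤ threshold n := (threshold_isGreatest (by omega)).2 (one_mem n)
    have h5 : (1 : ℝ) ≤ threshold n := by exact_mod_cast h4
    refine le_trans ?_ h5
    calc min (1 / 10 ^ 24) (1 / 2 ^ n0) * (2 : ℝ) ^ n ≤ (1 / 2 ^ n0) * 2 ^ n0 := by
          apply mul_le_mul (min_le_right _ _) _ (by positivity) (by positivity)
          exact pow_le_pow_right₀ (by norm_num) h3.le
      _ = 1 := by field_simp
  · refine le_trans ?_ (hn0 n h3)
    calc min (1 / 10 ^ 24) (1 / 2 ^ n0) * (2 : ℝ) ^ n ≤ (1 / 10 ^ 24) * 2 ^ n :=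
          mul_le_mul_of_nonneg_right (min_le_left _ _) (by positivity)
      _ = 2 ^ n / 10 ^ 24 := by ring

end Pool.Agent.Lib.MP_33d9ce_co.Cst
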