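import Pool.Agent.Lib.MP_33d9ce_co.Cst.StmM

/-!
# Spanning hypercubes, constant density: truncated marginals
-/

set_option autoImplicit false

noncomputable section

open Classical Finset

namespace Pool.Agent.Lib.MP_33d9ce_co.Cst

private theorem trunc_mg_nonneg {B : Type} [Fintype B] {a : ℕ} {r : (Fin a → B) → ℝ}
    (hr : ∀ w, 0 ≤ r w) (i : Fin a) (v : B) : 0 ≤ mg r i v := by
  unfold mg
  refine Finset.sum_nonneg fun w _ => ?_
  split_ifs
  · exact hr w
  · exact le_rfl

private theorem trunc_mg_sum {B : Type} [Fintype B] {a : ℕ} (r : (Fin a → B) → ℝ) (i : Fin a)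
    (F : B → ℝ) : ∑ v, F v * mg r i v = ∑ w, F (w i) * r w := by
  unfold mg
  simp only [Finset.mul_sum]
  rw [Finset.sum_comm]
  refine Finset.sum_congr rfl fun w _ => ?_
  rw [Finset.sum_eq_single (w i)]
  · rw [if_pos rfl]
  · intro v _ hv
    rw [if_neg (Ne.symm hv), mul_zero]
  · intro h
    exact absurd (Finset.mem_univ _) h

private theorem trunc_heavy {B : Type} [Fintype B] [Nonempty B] {a : ℕ} {r : (Fin a → B) → ℝ}
    (hr : ∀ w, 0 ≤ r w) (hr1 : ∑ w, r w = 1) {H : ℝ} (hH : 0 < H) (i : Fin a) :
    ((univ.filter fun v : B => H < mg r i v * Fintype.card B).card : ℝ) ≤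
      Fintype.card B * H⁻¹ := by
  have hb : (0 : ℝ) < Fintype.card B := by exact_mod_cast Fintype.card_pos
  have h1 : ∑ v, mg r i v = 1 := by
    have := trunc_mg_sum r i (fun _ => 1)
    simpa [hr1] using this
  have h2 : ((univ.filter fun v : B => H < mg r i v * Fintype.card B).card : ℝ) * H ≤
      Fintype.card B := by
    calc ((univ.filter fun v : B => H < mg r i v * Fintype.card B).card : ℝ) * H
        = ∑ _v ∈ univ.filter (fun v : B => H < mg r i v * Fintype.card B), H := by
          rw [Finset.sum_const, nsmul_eq_mul]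
      _ ≤ ∑ v ∈ univ.filter (fun v : B => H < mg r i v * Fintype.card B),
            mg r i v * Fintype.card B := by
          refine Finset.sum_le_sum fun v hv => ?_
          exact (Finset.mem_filter.1 hv).2.le
      _ ≤ ∑ v, mg r i v * Fintype.card B := by
          refine Finset.sum_le_sum_of_subset_of_nonneg (Finset.filter_subset _ _) fun v _ _ => ?_
          exact mul_nonneg (trunc_mg_nonneg hr i v) hb.le
      _ = Fintype.card B := by rw [← Finset.sum_mul, h1, one_mul]
  rw [← div_eq_mul_inv, le_div_iff₀ hH]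
  exact h2

private theorem trunc_J {B : Type} [Fintype B] [Nonempty B] {a : ℕ} {r : (Fin a → B) → ℝ}
    (hr : ∀ w, 0 ≤ r w) (hr1 : ∑ w, r w = 1) {Dn H : ℝ}
    (hD : ∀ w, r w * (Fintype.card B : ℝ) ^ a ≤ Dn) (hH : 0 < H) (J : Finset (Fin a)) :
    ∑ w, (if ∀ i ∈ J, H < mg r i (w i) * Fintype.card B then r w else 0) ≤
      Dn * (H⁻¹) ^ J.card := by
  have hb : (0 : ℝ) < Fintype.card B := by exact_mod_cast Fintype.card_pos
  have hba : (0 : ℝ) < (Fintype.card B : ℝ) ^ a := pow_pos hb a
  have hD0 : 0 ≤ Dn := by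
    obtain ⟨v⟩ := ‹Nonempty B›
    exact (mul_nonneg (hr fun _ => v) hba.le).trans (hD fun _ => v)
  rw [← Finset.sum_filter]
  have h1 : ∑ w ∈ univ.filter (fun w : Fin a → B => ∀ i ∈ J, H < mg r i (w i) * Fintype.card B),
      r w ≤ ((univ.filter (fun w : Fin a → B =>
        ∀ i ∈ J, H < mg r i (w i) * Fintype.card B)).card : ℝ) *
          (Dn / (Fintype.card B : ℝ) ^ a) := by
    rw [← nsmul_eq_mul, ← Finset.sum_const]
    refine Finset.sum_le_sum fun w _ => ?_
    rw [le_div_iff₀ hba]
    exact hD w
  have h2 : (univ.filter (fun w : Fin a → B =>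
        ∀ i ∈ J, H < mg r i (w i) * Fintype.card B)) =
      Fintype.piFinset (fun i => if i ∈ J then
        (univ.filter fun v : B => H < mg r i v * Fintype.card B) else univ) := by
    ext w
    simp only [Finset.mem_filter, Finset.mem_univ, true_and, Fintype.mem_piFinset]
    constructor
    · intro h i
      by_cases hi : i ∈ J
      · rw [if_pos hi]
        exact Finset.mem_filter.2 ⟨Finset.mem_univ _, h i hi⟩
      · rw [if_neg hi]
        exact Finset.mem_univ _
    · intro h i hi
      have := h i
      rw [if_pos hi] at this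
      exact (Finset.mem_filter.1 this).2
  have h3 : ((univ.filter (fun w : Fin a → B =>
        ∀ i ∈ J, H < mg r i (w i) * Fintype.card B)).card : ℝ) ≤
      (Fintype.card B : ℝ) ^ a * (H⁻¹) ^ J.card := by
    rw [h2, Fintype.card_piFinset, Nat.cast_prod]
    calc ∏ i, (((if i ∈ J then (univ.filter fun v : B => H < mg r i v * Fintype.card B)
            else univ).card : ℕ) : ℝ)
        ≤ ∏ i : Fin a, ((Fintype.card B : ℝ) * if i ∈ J then H⁻¹ else 1) := by
          refine Finset.prod_le_prod (fun i _ => Nat.cast_nonneg _) fun i _ => ?_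
          by_cases hi : i ∈ J
          · rw [if_pos hi, if_pos hi]
            exact trunc_heavy hr hr1 hH i
          · rw [if_neg hi, if_neg hi, mul_one, Finset.card_univ]
      _ = (Fintype.card B : ℝ) ^ a * (H⁻¹) ^ J.card := by
          rw [Finset.prod_mul_distrib, Finset.prod_const, Finset.card_univ, Fintype.card_fin,
            Finset.prod_ite_mem, Finset.univ_inter, Finset.prod_const]
  calc ∑ w ∈ univ.filter (fun w : Fin a → B => ∀ i ∈ J, H < mg r i (w i) * Fintype.card B), r w
      ≤ _ := h1
    _ ≤ ((Fintype.card B : ℝ) ^ a * (H⁻¹) ^ J.card) * (Dn / (Fintype.card B : ℝ) ^ a) :=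
        mul_le_mul_of_nonneg_right h3 (div_nonneg hD0 hba.le)
    _ = Dn * (H⁻¹) ^ J.card := by
        field_simp

private theorem trunc_mass {B : Type} [Fintype B] [Nonempty B] {a t : ℕ} {r : (Fin a → B) → ℝ}
    (hr : ∀ w, 0 ≤ r w) (hr1 : ∑ w, r w = 1) {Dn H : ℝ}
    (hD : ∀ w, r w * (Fintype.card B : ℝ) ^ a ≤ Dn) (hH : 0 < H)
    (hbd : a * (2 ^ a * Dn) ≤ H ^ t) :
    ∑ i : Fin a, ∑ v, (if H < mg r i v * Fintype.card B then mg r i v else 0) ≤ t + 1 := by
  have hb : (0 : ℝ) < Fintype.card B := by exact_mod_cast Fintype.card_pos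
  have hba : (0 : ℝ) < (Fintype.card B : ℝ) ^ a := pow_pos hb a
  have hD0 : 0 ≤ Dn := by
    obtain ⟨v⟩ := ‹Nonempty B›
    exact (mul_nonneg (hr fun _ => v) hba.le).trans (hD fun _ => v)
  -- the heavy coordinates
  obtain ⟨hv, hhv⟩ : ∃ hv : (Fin a → B) → Finset (Fin a),
      ∀ w, hv w = univ.filter fun i => H < mg r i (w i) * Fintype.card B := ⟨_, fun _ => rfl⟩
  have h1 : ∑ i : Fin a, ∑ v, (if H < mg r i v * Fintype.card B then mg r i v else 0) =
      ∑ w, ((hv w).card : ℝ) * r w := by
    have e1 : ∀ i : Fin a, ∑ v, (if H < mg r i v * Fintype.card B then mg r i v else 0) =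
        ∑ w, (if H < mg r i (w i) * Fintype.card B then 1 else 0) * r w := by
      intro i
      rw [← trunc_mg_sum r i (fun v => if H < mg r i v * Fintype.card B then 1 else 0)]
      refine Finset.sum_congr rfl fun v _ => ?_
      split_ifs
      · rw [one_mul]
      · rw [zero_mul]
    simp only [e1]
    rw [Finset.sum_comm]
    refine Finset.sum_congr rfl fun w _ => ?_
    rw [← Finset.sum_mul, hhv w, Finset.sum_boole]
  rw [h1]
  have h2 : ∀ w, ((hv w).card : ℝ) * r w ≤
      t * r w + a * ∑ J ∈ powersetCard t (univ : Finset (Fin a)),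
        (if ∀ i ∈ J, H < mg r i (w i) * Fintype.card B then r w else 0) := by
    intro w
    have hnn : 0 ≤ ∑ J ∈ powersetCard t (univ : Finset (Fin a)),
        (if ∀ i ∈ J, H < mg r i (w i) * Fintype.card B then r w else 0) := by
      refine Finset.sum_nonneg fun J _ => ?_
      split_ifs
      · exact hr w
      · exact le_rfl
    rcases Nat.lt_or_ge (hv w).card t with hlt | hge
    · have h3 : ((hv w).card : ℝ) ≤ t := by exact_mod_cast hlt.le
      have h4 := mul_le_mul_of_nonneg_right h3 (hr w)
      have h5 : 0 ≤ (a : ℝ) * ∑ J ∈ powersetCard t (univ : Finset (Fin a)),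
        (if ∀ i ∈ J, H < mg r i (w i) * Fintype.card B then r w else 0) :=
        mul_nonneg (Nat.cast_nonneg _) hnn
      linarith
    · obtain ⟨J, hJ, hJt⟩ := Finset.exists_subset_card_eq hge
      have h3 : r w ≤ ∑ J ∈ powersetCard t (univ : Finset (Fin a)),
          (if ∀ i ∈ J, H < mg r i (w i) * Fintype.card B then r w else 0) := by
        have hmem : J ∈ powersetCard t (univ : Finset (Fin a)) :=
          Finset.mem_powersetCard.2 ⟨Finset.subset_univ _, hJt⟩
        have h4 := Finset.single_le_sum (f := fun J : Finset (Fin a) =>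
          (if ∀ i ∈ J, H < mg r i (w i) * Fintype.card B then r w else 0)) (fun J _ => by
            show 0 ≤ (if ∀ i ∈ J, H < mg r i (w i) * Fintype.card B then r w else 0)
            split_ifs
            · exact hr w
            · exact le_rfl) hmem
        rwa [if_pos] at h4
        intro i hi
        have := hJ hi
        rw [hhv w] at this
        exact (Finset.mem_filter.1 this).2
      have h4 : ((hv w).card : ℝ) ≤ a := by
        have := Finset.card_le_univ (hv w)
        rw [Fintype.card_fin] at this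
        exact_mod_cast this
      have h5 : ((hv w).card : ℝ) * r w ≤ a * r w := mul_le_mul_of_nonneg_right h4 (hr w)
      have h6 : (a : ℝ) * r w ≤ a * ∑ J ∈ powersetCard t (univ : Finset (Fin a)),
          (if ∀ i ∈ J, H < mg r i (w i) * Fintype.card B then r w else 0) :=
        mul_le_mul_of_nonneg_left h3 (Nat.cast_nonneg _)
      have h7 : 0 ≤ (t : ℝ) * r w := mul_nonneg (Nat.cast_nonneg _) (hr w)
      linarith
  have h3 : ∑ w, ∑ J ∈ powersetCard t (univ : Finset (Fin a)),
      (if ∀ i ∈ J, H < mg r i (w i) * Fintype.card B then r w else 0) ≤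
        2 ^ a * (Dn * (H⁻¹) ^ t) := by
    rw [Finset.sum_comm]
    calc ∑ J ∈ powersetCard t (univ : Finset (Fin a)), ∑ w,
          (if ∀ i ∈ J, H < mg r i (w i) * Fintype.card B then r w else 0)
        ≤ ∑ _J ∈ powersetCard t (univ : Finset (Fin a)), Dn * (H⁻¹) ^ t := by
          refine Finset.sum_le_sum fun J hJ => ?_
          have := trunc_J hr hr1 hD hH J
          rwa [(Finset.mem_powersetCard.1 hJ).2] at this
      _ = ((powersetCard t (univ : Finset (Fin a))).card : ℝ) * (Dn * (H⁻¹) ^ t) := by
          rw [Finset.sum_const, nsmul_eq_mul]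
      _ ≤ 2 ^ a * (Dn * (H⁻¹) ^ t) := by
          refine mul_le_mul_of_nonneg_right ?_ (by positivity)
          rw [Finset.card_powersetCard, Finset.card_univ, Fintype.card_fin]
          exact_mod_cast Nat.choose_le_two_pow a t
  calc ∑ w, ((hv w).card : ℝ) * r w
      ≤ ∑ w, (t * r w + a * ∑ J ∈ powersetCard t (univ : Finset (Fin a)),
        (if ∀ i ∈ J, H < mg r i (w i) * Fintype.card B then r w else 0)) :=
        Finset.sum_le_sum fun w _ => h2 w
    _ = t + a * ∑ w, ∑ J ∈ powersetCard t (univ : Finset (Fin a)),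
        (if ∀ i ∈ J, H < mg r i (w i) * Fintype.card B then r w else 0) := by
        rw [Finset.sum_add_distrib, ← Finset.mul_sum, ← Finset.mul_sum, hr1, mul_one]
    _ ≤ t + a * (2 ^ a * (Dn * (H⁻¹) ^ t)) := by
        have := mul_le_mul_of_nonneg_left h3 (Nat.cast_nonneg (α := ℝ) a)
        linarith
    _ ≤ t + 1 := by
        have hHt : 0 < H ^ t := pow_pos hH t
        have h4 : (a : ℝ) * (2 ^ a * (Dn * (H⁻¹) ^ t)) = a * (2 ^ a * Dn) / H ^ t := by
          rw [inv_pow, div_eq_mul_inv]
          ring
        rw [h4]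
        have := (div_le_one hHt).2 hbd
        linarith

theorem p_trunc : S_trunc := by
  intro B _ _ a t r Dn H hr hr1 hD hH hat hbd
  have hb : (0 : ℝ) < Fintype.card B := by exact_mod_cast Fintype.card_pos
  have ha : (0 : ℝ) < a := by
    have : 0 < a := by omega
    exact_mod_cast this
  have h2a : (0 : ℝ) ≤ 2 / a := by positivity
  have hm0 := trunc_mg_nonneg hr
  have hm1 : ∀ i : Fin a, ∑ v, mg r i v = 1 := by
    intro i
    have := trunc_mg_sum r i (fun _ => 1)
    simpa [hr1] using this
  have h4 : ∀ v, trc r H v ≤ 2 / a * ∑ i, mg r i v := by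
    intro v
    unfold trc
    refine mul_le_mul_of_nonneg_left (Finset.sum_le_sum fun i _ => ?_) h2a
    split_ifs
    · exact le_rfl
    · exact hm0 i v
  refine ⟨?_, ?_, ?_, h4, ?_⟩
  · intro v
    unfold trc
    refine mul_nonneg h2a (Finset.sum_nonneg fun i _ => ?_)
    split_ifs
    · exact hm0 i v
    · exact le_rfl
  · have hmass := trunc_mass (t := t) hr hr1 hD hH hbd
    have e1 : ∑ v, trc r H v = 2 / a * (a - ∑ i : Fin a, ∑ v,
        (if H < mg r i v * Fintype.card B then mg r i v else 0)) := by
      unfold trc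
      rw [← Finset.mul_sum, Finset.sum_comm]
      congr 1
      have e2 : (a : ℝ) = ∑ i : Fin a, ∑ v, mg r i v := by
        rw [Finset.sum_congr rfl fun i _ => hm1 i]
        simp
      rw [e2, ← Finset.sum_sub_distrib]
      refine Finset.sum_congr rfl fun i _ => ?_
      rw [← Finset.sum_sub_distrib]
      refine Finset.sum_congr rfl fun v _ => ?_
      by_cases h : H < mg r i v * Fintype.card B
      · rw [if_pos h, if_neg (not_le.2 h), sub_self]
      · rw [if_neg h, if_pos (not_lt.1 h), sub_zero]
    rw [e1]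
    have e3 : (2 : ℝ) * (t + 1) ≤ a := by exact_mod_cast hat
    calc (1 : ℝ) = 2 / a * (a / 2) := by field_simp
      _ ≤ _ := by
          refine mul_le_mul_of_nonneg_left ?_ h2a
          linarith
  · intro v
    unfold trc
    rw [mul_assoc, Finset.sum_mul]
    calc 2 / (a : ℝ) * ∑ i : Fin a, (if mg r i v * Fintype.card B ≤ H then mg r i v else 0) *
          Fintype.card B
        ≤ 2 / a * ∑ _i : Fin a, H := by
          refine mul_le_mul_of_nonneg_left (Finset.sum_le_sum fun i _ => ?_) h2a
          split_ifs with h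
          · exact h
          · rw [zero_mul]
            exact hH.le
      _ = 2 * H := by
          rw [Finset.sum_const, Finset.card_univ, Fintype.card_fin, nsmul_eq_mul]
          field_simp
  · calc ∑ v, trc r H v ≤ ∑ v, 2 / a * ∑ i, mg r i v := Finset.sum_le_sum fun v _ => h4 v
      _ = 2 / a * ∑ i : Fin a, ∑ v, mg r i v := by
          rw [← Finset.mul_sum, Finset.sum_comm]
      _ = 2 := by
          rw [Finset.sum_congr rfl fun i _ => hm1 i]
          simp only [Finset.sum_const, Finset.card_univ, Fintype.card_fin, nsmul_eq_mul, mul_one]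
          field_simp

end Pool.Agent.Lib.MP_33d9ce_co.Cst
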