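import Pool.Agent.Lib.MP_33d9ce_co.Cst.StmC2

set_option autoImplicit false

noncomputable section

open Classical Finset

namespace Pool.Agent.Lib.MP_33d9ce_co.Cst

open Slack (Cell Ev Od Dir nbr)

theorem ups_gen {Ξ C : Type} [Fintype Ξ] [Fintype C] (up : Ξ → C → Ξ) (old : Ξ → C)
    (h1 : ∀ ξ c c', up (up ξ c) c' = up ξ c') (h2 : ∀ ξ, up ξ (old ξ) = ξ) (h3 : ∀ ξ c, old (up ξ c) = c) :
    Up up where
  idem := h1
  real ξ := ⟨old ξ, h2 ξ⟩
  avg := by
    intro G
    have inv : Function.Involutive (fun x : Ξ × C => ((up x.1 x.2, old x.1) : Ξ × C)) := by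
      rintro ⟨ξ, c⟩
      simp only [Prod.mk.injEq]
      exact ⟨by rw [h1, h2], h3 ξ c⟩
    have e1 := Equiv.sum_comp (inv.toPerm _) (fun x : Ξ × C => G x.1)
    have e2 : ∑ x : Ξ × C, G x.1 = (Fintype.card C : ℝ) * ∑ ξ, G ξ := by
      rw [Fintype.sum_prod_type, Finset.mul_sum]
      refine Finset.sum_congr rfl fun ξ _ => ?_
      simp
    rw [← e2, ← e1, Fintype.sum_prod_type]
    rfl

theorem p_ups : S_ups := by
  intro κ I S X W0 Ω _ _ _ _ _ e
  refine ⟨fun z => ?_, fun q => ?_⟩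
  · refine ups_gen (e.upA z) (fun ξ => ⟨ξ.2.1 z, ξ.2.2 z⟩) ?_ ?_ ?_
    · intro ξ c c'
      refine Prod.ext rfl (Subtype.ext ?_)
      exact Function.update_idem _ _ _
    · intro ξ
      refine Prod.ext rfl (Subtype.ext ?_)
      exact Function.update_eq_self _ _
    · intro ξ c
      exact Subtype.ext (Function.update_self _ _ _)
  · refine ups_gen (e.up0 q) (fun ξ => ξ.1 q) ?_ ?_ ?_
    · intro ξ c c'
      exact Prod.ext (Function.update_idem _ _ _) rfl
    · intro ξ
      exact Prod.ext (Function.update_eq_self _ _) rfl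
    · intro ξ c
      exact Function.update_self _ _ _

end Pool.Agent.Lib.MP_33d9ce_co.Cst
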