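import Pool.Agent.Lib.MP_33d9ce_co.Cst.StmC3

set_option autoImplicit false

noncomputable section

open Classical Finset

namespace Pool.Agent.Lib.MP_33d9ce_co.Cst

open Slack (Cell Ev Od Dir nbr shift)

private theorem var0_nonempty {κ : ℕ} {I S X W0 Ω : Type} [Fintype I] [Fintype S] [Fintype X] [Fintype W0] [Fintype Ω]
    (e : Env κ I S X W0 Ω) (η x : ℝ) (a : ℕ) (hok : e.Ok η x a) : Nonempty e.Xi := by
  obtain ⟨w0⟩ := hok.nonempty0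
  exact ⟨(fun _ => w0, ⟨fun z => (hok.nonempty z.2).choose, fun z => (hok.nonempty z.2).choose_spec⟩)⟩

private theorem var0_alg {A s p q : ℝ} (h : A ≠ 0) (e : A * s = p * q) : A⁻¹ * s = A⁻¹ * p * (A⁻¹ * q) := by
  have : s = A⁻¹ * (p * q) := by rw [← e]; field_simp
  rw [this]; ring

private theorem var0_far {κ m r : ℕ} {S X W0 Ω : Type} [Fintype S] [Fintype X] [Fintype W0] [Fintype Ω]
    (h4 : S_im) (h5 : S_inj) (h6 : S_fac) (h7 : S_loc) (h8 : S_pr4)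
    (e : Env κ (Ev κ m r) S X W0 Ω) (hne : Nonempty e.Xi)
    (μ : e.Xi → Ev κ m r → (Cell κ → S) → ℝ) (hμ : (e.mod m r).IsLaw e.good μ)
    (y y' : Cell κ × Od κ m r) (hn : ¬ near e y y') (w : W0) :
    Ex μ (fun ξ σ => pR0 e y ξ ((e.mod m r).im σ y) w * pR0 e y' ξ ((e.mod m r).im σ y') w) =
      Ex μ (fun ξ σ => pR0 e y ξ ((e.mod m r).im σ y) w) * Ex μ (fun ξ σ => pR0 e y' ξ ((e.mod m r).im σ y') w) := by
  have hinj : ∀ y : Cell κ × Od κ m r, Function.Injective fun t => ((e.mod m r).nb y t).2 := fun y => h5 κ m r y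
  obtain ⟨i1, i2⟩ := h4 (Cell κ) (Ev κ m r) S (Cell κ × Od κ m r) (Dir κ m r) e.Xi (e.mod m r) e.good μ hμ hinj
  unfold near at hn
  push Not at hn
  obtain ⟨hn1, hn2⟩ := hn
  have e1 := i2 y y' (fun ξ b => pR0 e y ξ b w) (fun ξ b => pR0 e y' ξ b w) hn1
  have e2 := i1 y (fun ξ b => pR0 e y ξ b w)
  have e3 := i1 y' (fun ξ b => pR0 e y' ξ b w)
  obtain ⟨-, -, l3, -, -⟩ := h7 κ m r S X W0 Ω e
  have hloc : ∀ (i : Fintype (Dir κ m r → S)) (y : Cell κ × Od κ m r),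
      e.Loc (e.zone y.1) (fun ξ => @Finset.sum (Dir κ m r → S) ℝ _ (@Finset.univ _ i)
        fun b => (e.mod m r).law ξ y b * pR0 e y ξ b w) := by
    intro i y ξ ξ' hξ
    refine Finset.sum_congr rfl fun b _ => ?_
    have a1 := l3 y b ξ ξ' hξ
    have a2 := (h8 κ m r S X W0 Ω e y b).2.2 w ξ ξ' hξ
    simp only at a1 a2
    rw [a1, a2]
  have hc : (Fintype.card e.Xi : ℝ) ≠ 0 := by exact_mod_cast Fintype.card_ne_zero
  rw [e1, e2, e3]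
  exact var0_alg hc (h6 κ (Ev κ m r) S X W0 Ω e (e.zone y.1) (e.zone y'.1) _ _ (hloc _ y) (hloc _ y') hn2)

theorem p_var0 (h1 : S_p02) (h2 : S_p01) (h3 : S_L2) (h4 : S_im) (h5 : S_inj) (h6 : S_fac) (h7 : S_loc) (h8 : S_pr4)
    (h9 : S_near) (h10 : S_lin) : S_var0 := by
  intro κ m r S X W0 Ω _ _ _ _ e η x a Δ μ hok hμ hΔ
  have hne : Nonempty e.Xi := var0_nonempty e η x a hok
  obtain ⟨-, -, s3, s4, -, -⟩ := h10 (Cell κ) (Ev κ m r) S (Cell κ × Od κ m r) (Dir κ m r) e.Xi (e.mod m r) e.good μ hμ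
  have hsym := (h9 κ m r S X W0 Ω e (Fintype.card (Cell κ)) (fun u => by
    exact_mod_cast Finset.card_le_univ _)).1
  have hL2 := h3 (Cell κ) (Ev κ m r) S (Cell κ × Od κ m r) (Dir κ m r) e.Xi W0 (e.mod m r) e.good μ hμ
    (fun y w ξ σ => pR0 e y ξ ((e.mod m r).im σ y) w) (near e) Δ
    (fun y w ξ σ => (h2 κ m r S X W0 Ω e η x a hok y ξ _).1 w) hsym hΔ
    (fun y y' hn w => var0_far h4 h5 h6 h7 h8 e hne μ hμ y y' hn w)
  have hmean : ∀ w : W0, ∑ y : Cell κ × Od κ m r, Ex μ (fun ξ σ => pR0 e y ξ ((e.mod m r).im σ y) w) =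
      (∑ y : Cell κ × Od κ m r, (({ξ | e.yf ξ.2 y.1 = 0} : Finset e.Xi).card / Fintype.card e.Xi : ℝ)) *
        (Fintype.card W0 : ℝ)⁻¹ := by
    intro w
    rw [Finset.sum_mul]
    refine Finset.sum_congr rfl fun y _ => ?_
    rw [(h1 κ m r S X W0 Ω e η x a μ hok hμ y).1 w]
    ring
  simp only [hmean] at hL2
  refine hL2.trans ?_
  have hsq : ∀ y : Cell κ × Od κ m r, ∑ w, Ex μ (fun ξ σ => pR0 e y ξ ((e.mod m r).im σ y) w ^ 2) ≤
      ((1 - 4 * η) ^ Fintype.card (Dir κ m r))⁻¹ * (Fintype.card W0 : ℝ)⁻¹ := by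
    intro y
    rw [← s3 W0 univ (fun w ξ σ => pR0 e y ξ ((e.mod m r).im σ y) w ^ 2)]
    exact (h1 κ m r S X W0 Ω e η x a μ hok hμ y).2
  rcases isEmpty_or_nonempty (Cell κ × Od κ m r) with hE | ⟨⟨y0⟩⟩
  · simp
  · have hΔ0 : 0 ≤ Δ := le_trans (Nat.cast_nonneg _) (hΔ y0)
    refine mul_le_mul_of_nonneg_left ?_ hΔ0
    calc ∑ y, ∑ w, Ex μ (fun ξ σ => pR0 e y ξ ((e.mod m r).im σ y) w ^ 2)
        ≤ ∑ _y : Cell κ × Od κ m r, ((1 - 4 * η) ^ Fintype.card (Dir κ m r))⁻¹ * (Fintype.card W0 : ℝ)⁻¹ :=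
          Finset.sum_le_sum fun y _ => hsq y
      _ = _ := by rw [Finset.sum_const, nsmul_eq_mul]; rfl

end Pool.Agent.Lib.MP_33d9ce_co.Cst
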