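import Pool.Agent.Lib.MP_33d9ce_co.Cst.StmC3

/-!
# Spanning hypercubes, constant density: the second moment of the loads
-/

set_option autoImplicit false

noncomputable section

open Classical Finset

namespace Pool.Agent.Lib.MP_33d9ce_co.Cst

open Slack (Cell Ev Od Dir nbr shift)

private theorem varR_fac {Ξ : Type} (i j : Fintype Ξ) (F F' : Ξ → ℝ)
    (h : (@Fintype.card Ξ i : ℝ) * (@Finset.univ Ξ i).sum (fun ξ => F ξ * F' ξ) =
      (@Finset.univ Ξ i).sum F * (@Finset.univ Ξ i).sum F') :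
    (@Fintype.card Ξ j : ℝ) * (@Finset.univ Ξ j).sum (fun ξ => F ξ * F' ξ) =
      (@Finset.univ Ξ j).sum F * (@Finset.univ Ξ j).sum F' := by
  have hij : i = j := Subsingleton.elim i j
  subst hij
  exact h

theorem p_varR (h1 : S_L2) (h2 : S_fr1) (h3 : S_im) (h4 : S_inj) (h5 : S_fac) (h6 : S_loc) (h7 : S_pr4)
    (h8 : S_near) (h9 : S_lin) : S_varR := by
  intro κ m r aa S X W0 B _ _ _ _ e η x z0 H Dn t adj Δ μ hok htr hadj hμ hΔ
  haveI hXi : Nonempty e.Xi :=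
    ⟨(fun _ => hok.nonempty0.some, ⟨fun z => (hok.nonempty z.2).choose, fun z => (hok.nonempty z.2).choose_spec⟩)⟩
  haveI hB : Nonempty B := htr.nonemptyB
  have hXi0 : 0 < (Fintype.card e.Xi : ℝ) := by exact_mod_cast Fintype.card_pos
  have hB0 : 0 < (Fintype.card B : ℝ) := by exact_mod_cast Fintype.card_pos
  have hfr := h2 κ m r aa S X W0 B e η x z0 H Dn t adj hok htr hadj
  have him := h3 (Cell κ) (Ev κ m r) S (Cell κ × Od κ m r) (Dir κ m r) e.Xi (e.mod m r) e.good μ hμ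
    (fun y => h4 κ m r y)
  have hlin := h9 (Cell κ) (Ev κ m r) S (Cell κ × Od κ m r) (Dir κ m r) e.Xi (e.mod m r) e.good μ hμ
  have hloc := h6 κ m r S X W0 (Fin aa → B) e
  have hnear := h8 κ m r S X W0 (Fin aa → B) e (Fintype.card (Cell κ))
    (fun u => by exact_mod_cast Finset.card_le_univ _)
  -- locality of the rows
  have hFr : ∀ (y : Cell κ × Od κ m r) (v : B) (b : Dir κ m r → S),
      e.Loc (e.zone y.1) (fun ξ => Fr e z0 H y v ξ b) := by
    intro y v b ξ ξ' hξ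
    have hp := h7 κ m r S X W0 (Fin aa → B) e y b
    show Fr e z0 H y v ξ b = Fr e z0 H y v ξ' b
    unfold Fr
    refine Finset.sum_congr rfl fun j _ => ?_
    have e1 : e.cls j y.1 ξ = e.cls j y.1 ξ' := hloc.2.1 j y.1 ξ ξ' hξ
    have e2 : bigR e z0 y j ξ b = bigR e z0 y j ξ' b := hp.2.1 z0 j ξ ξ' hξ
    have e3 : pR e y j ξ b = pR e y j ξ' b := funext fun w => hp.1 j w ξ ξ' hξ
    rw [e1, e2, e3]
  have hG : ∀ (y : Cell κ × Od κ m r) (v : B),
      e.Loc (e.zone y.1) (fun ξ => ∑ b, (e.mod m r).law ξ y b * Fr e z0 H y v ξ b) := by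
    intro y v ξ ξ' hξ
    refine Finset.sum_congr rfl fun b _ => ?_
    have e1 : (e.mod m r).law ξ y b = (e.mod m r).law ξ' y b := hloc.2.2.1 y b ξ ξ' hξ
    have e2 : Fr e z0 H y v ξ b = Fr e z0 H y v ξ' b := hFr y v b ξ ξ' hξ
    rw [e1, e2]
  have hL2 := h1 (Cell κ) (Ev κ m r) S (Cell κ × Od κ m r) (Dir κ m r) e.Xi B (e.mod m r) e.good μ hμ
    (fun y v ξ σ => Fr e z0 H y v ξ ((e.mod m r).im σ y)) (near e) Δ
    (fun y v ξ σ => (hfr y ξ _).1 v) hnear.1 hΔ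
    (by
      intro y y' hnn v
      unfold near at hnn
      push Not at hnn
      obtain ⟨hn1, hn2⟩ := hnn
      have e1 : Ex μ (fun ξ σ => Fr e z0 H y v ξ ((e.mod m r).im σ y) * Fr e z0 H y' v ξ ((e.mod m r).im σ y')) =
          (Fintype.card e.Xi : ℝ)⁻¹ * ∑ ξ : e.Xi, (∑ b, (e.mod m r).law ξ y b * Fr e z0 H y v ξ b) *
            ∑ b, (e.mod m r).law ξ y' b * Fr e z0 H y' v ξ b := by
        refine (him.2 y y' (fun ξ b => Fr e z0 H y v ξ b) (fun ξ b => Fr e z0 H y' v ξ b) hn1).trans ?_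
        refine congrArg₂ _ rfl (Finset.sum_congr rfl fun ξ _ => congrArg₂ _ ?_ ?_)
        · exact Finset.sum_congr (Finset.ext fun a => by simp) fun _ _ => rfl
        · exact Finset.sum_congr (Finset.ext fun a => by simp) fun _ _ => rfl
      have e2 : ∀ y, Ex μ (fun ξ σ => Fr e z0 H y v ξ ((e.mod m r).im σ y)) =
          (Fintype.card e.Xi : ℝ)⁻¹ * ∑ ξ : e.Xi, ∑ b, (e.mod m r).law ξ y b * Fr e z0 H y v ξ b := by
        intro y
        refine (him.1 y (fun ξ b => Fr e z0 H y v ξ b)).trans ?_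
        refine congrArg₂ _ rfl (Finset.sum_congr rfl fun ξ _ => ?_)
        exact Finset.sum_congr (Finset.ext fun a => by simp) fun _ _ => rfl
      have e4 : (Fintype.card e.Xi : ℝ) * ∑ ξ : e.Xi, (∑ b, (e.mod m r).law ξ y b * Fr e z0 H y v ξ b) *
            ∑ b, (e.mod m r).law ξ y' b * Fr e z0 H y' v ξ b =
          (∑ ξ : e.Xi, ∑ b, (e.mod m r).law ξ y b * Fr e z0 H y v ξ b) *
            ∑ ξ : e.Xi, ∑ b, (e.mod m r).law ξ y' b * Fr e z0 H y' v ξ b :=
        varR_fac _ _ _ _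
          (h5 κ (Ev κ m r) S X W0 (Fin aa → B) e (e.zone y.1) (e.zone y'.1) _ _ (hG y v) (hG y' v) hn2)
      refine e1.trans ?_
      have e5 : Ex μ (fun ξ σ => Fr e z0 H y v ξ ((e.mod m r).im σ y)) *
          Ex μ (fun ξ σ => Fr e z0 H y' v ξ ((e.mod m r).im σ y')) =
          (Fintype.card e.Xi : ℝ)⁻¹ * ((Fintype.card e.Xi : ℝ)⁻¹ *
            ((∑ ξ : e.Xi, ∑ b, (e.mod m r).law ξ y b * Fr e z0 H y v ξ b) *
              ∑ ξ : e.Xi, ∑ b, (e.mod m r).law ξ y' b * Fr e z0 H y' v ξ b)) := by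
        rw [e2 y, e2 y']
        ring
      refine Eq.trans ?_ e5.symm
      rw [← e4, ← mul_assoc (Fintype.card e.Xi : ℝ)⁻¹ (Fintype.card e.Xi : ℝ) _,
        inv_mul_cancel₀ hXi0.ne', one_mul])
  refine hL2.trans ?_
  -- the squares
  have hsq : ∀ y : Cell κ × Od κ m r,
      ∑ v, Ex μ (fun ξ σ => Fr e z0 H y v ξ ((e.mod m r).im σ y) ^ 2) ≤ 4 * H / Fintype.card B := by
    intro y
    have e1 := (hlin.2.2.1 B univ (fun v ξ σ => Fr e z0 H y v ξ ((e.mod m r).im σ y) ^ 2)).symm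
    refine e1.le.trans ?_
    refine (hlin.2.2.2.1 _ (fun _ _ => 4 * H / Fintype.card B) ?_).trans (hlin.2.2.2.2.1 _).le
    intro ξ σ _
    have hf := hfr y ξ ((e.mod m r).im σ y)
    have e2 : ∀ v, Fr e z0 H y v ξ ((e.mod m r).im σ y) ^ 2 ≤
        2 * H / Fintype.card B * Fr e z0 H y v ξ ((e.mod m r).im σ y) := by
      intro v
      have f0 := hf.1 v
      have f1 : Fr e z0 H y v ξ ((e.mod m r).im σ y) ≤ 2 * H / Fintype.card B :=
        (le_div_iff₀ hB0).mpr (hf.2.1 v)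
      rw [pow_two]
      exact mul_le_mul_of_nonneg_right f1 f0
    have hH : 0 ≤ 2 * H / Fintype.card B := div_nonneg (by linarith [htr.H_pos]) hB0.le
    calc ∑ v, Fr e z0 H y v ξ ((e.mod m r).im σ y) ^ 2
        ≤ ∑ v, 2 * H / Fintype.card B * Fr e z0 H y v ξ ((e.mod m r).im σ y) :=
          Finset.sum_le_sum fun v _ => e2 v
      _ = 2 * H / Fintype.card B * ∑ v, Fr e z0 H y v ξ ((e.mod m r).im σ y) := (Finset.mul_sum _ _ _).symm
      _ ≤ 2 * H / Fintype.card B * 2 := mul_le_mul_of_nonneg_left hf.2.2.1 hH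
      _ = 4 * H / Fintype.card B := by ring
  rcases isEmpty_or_nonempty (Cell κ × Od κ m r) with hE | hE
  · rw [Finset.univ_eq_empty, Finset.sum_empty, mul_zero, Fintype.card_eq_zero]
    simp
  · have hΔ0 : 0 ≤ Δ := le_trans (Nat.cast_nonneg _) (hΔ hE.some)
    refine mul_le_mul_of_nonneg_left ?_ hΔ0
    calc ∑ y : Cell κ × Od κ m r, ∑ v, Ex μ (fun ξ σ => Fr e z0 H y v ξ ((e.mod m r).im σ y) ^ 2)
        ≤ ∑ _y : Cell κ × Od κ m r, 4 * H / (Fintype.card B : ℝ) := Finset.sum_le_sum fun y _ => hsq y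
      _ = Fintype.card (Cell κ × Od κ m r) * (4 * H / Fintype.card B) := by
          rw [Finset.sum_const, Finset.card_univ, nsmul_eq_mul]

end Pool.Agent.Lib.MP_33d9ce_co.Cst
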