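import Pool.Agent.Lib.MP_33d9ce_co.Cst.C3Defs

/-!
# Spanning hypercubes, constant density: the concrete data and the numerical conditions

`V` is the vertex set of the dense graph, `A` the set of the vertices available for the even vertices of the cube.
-/

set_option autoImplicit false

noncomputable section

open Classical Finset

namespace Pool.Agent.Lib.MP_33d9ce_co.Cst

open Slack (Cell Ev Od Dir nbr Lab)

/-- `x` is adjacent to the four vertices of the label `w` -/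
def okq {V : Type} (adj : V → V → Prop) (A : Finset V) (x : {v // v ∈ A}) (w : Lab A) : Prop :=
  adj x.1 w.1.1.1 ∧ adj x.1 w.1.2.1 ∧ adj x.1 w.2.1.1 ∧ adj x.1 w.2.2.1

/-- `x` is adjacent to all vertices of the label `w` -/
def okb {V : Type} (adj : V → V → Prop) (A : Finset V) {aa : ℕ} (x : {v // v ∈ A}) (w : Fin aa → {v // v ∉ A}) : Prop :=
  ∀ i, adj x.1 (w i).1

/-- the data of the construction -/
def env {V I S : Type} {κ aa : ℕ} (adj : V → V → Prop) (A : Finset V) (cell : Cell κ → Cell κ) (L : ℕ)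
    (W : ℕ → Finset (Fin aa → {v // v ∉ A})) (E : ℕ → ℕ → Finset {v // v ∈ A}) (al : ℕ → ℝ)
    (f : I → S → {v // v ∈ A}) : Env κ I S {v // v ∈ A} (Lab A) (Fin aa → {v // v ∉ A}) where
  cell := cell
  L := L
  W := W
  E := E
  al := al
  ok0 := okq adj A
  ok := okb adj A
  f := f

/-- the proportions of compatible vertices -/
def alv (l : ℕ) : ℝ := 1 / 4 * (1 - 8 * (1 / 10 ^ 19)) ^ (kap l + kap (l + 1))

/-- the densities of the label sets -/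
def omv (j : ℕ) : ℝ := 1 / 8 * (1 - 8 * (1 / 10 ^ 19)) ^ (100 * kap (j + 1) + 100 * kap (j + 2))

/-- the probabilities of bad labels -/
def epv (l : ℕ) : ℝ := 2 * (1 / 2) ^ (12 * kap (l + 1))

/-- the proportions of points with many cells nearby -/
def gv (l : ℕ) : ℝ := Real.exp (-(kap (l - 1) / 20000 : ℝ))

/-- all numerical conditions; `η = 1 / 10 ^ 12`, `θ = 1 / 10 ^ 19`, labels of length `1210` -/
structure Num (κ m r n h L : ℕ) (x z0 Dn H th Δ er : ℝ) : Prop where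
  n_eq : n = 4 * κ + 4 * m + r
  κ_ge : 10000 ≤ κ
  L_ge : 2 ≤ L
  L_le : 100 * (L + 1) ≤ κ
  top : κ + 1 ≤ kap L
  below : kap (L - 1) ≤ κ
  h_le : 1210 * (h : ℝ) ≤ 1 / 10 ^ 19 * (15 / 16 * 2 ^ (n - 1))
  x_pos : 0 < x
  h_x : (h : ℝ) / 2 ^ (n - 1) + 17 / 16 * x ≤ 1 / 10 ^ 12
  array : 2 * ((2 : ℝ) ^ n + (L + 1) * (κ + 2) * (((2 : ℝ) ^ n) ^ 1210 + 1) ^ (2 * (κ + 1))) * 2 ^ (n - 1 - κ) *
    Real.exp (-(x ^ 2 * (17 / 16 * 2 ^ κ) / 4)) < 1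
  al_ge : ∀ l, 2 ≤ l → l ≤ L → 8 * x ≤ alv l
  z0_pos : 0 < z0
  H_pos : 0 < H
  dens : ∀ j, 1 ≤ j → j ≤ L → 1 ≤ Dn * (z0 * omv j)
  trunc : 1210 * (2 ^ 1210 * Dn) ≤ H ^ 600
  th_pos : 0 < th
  root : ∀ j, 1 ≤ j → j ≤ L → th ^ 1210 ≤ z0 * omv j
  near : ((κ : ℝ) + 1) ^ (4 * L + 8) * (337 / 192) ^ κ * 2 ^ (n - 1 - κ) + (n : ℝ) ^ 2 * 2 ^ κ ≤ Δ
  good : 2 ^ κ * epv L + 1000 * ∑ l ∈ Icc 2 L, (alv l)⁻¹ * (gv l + sml L epv l) ≤ 1 / 16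
  large : (2 : ℝ) ^ (n - 1) * (L * (z0 * 6 ^ n)) ≤ 1 / 16
  blocks : (2 : ℝ) ^ n * (2 ^ (n - 1) * (1 - (1 - 1 / 10 ^ 12) ^ n) ^ (2 ^ m)) ≤ 1 / 16
  load : 32 / 15 * ∑ j ∈ Icc 1 L, (gv j + sml L epv j) * (omv j)⁻¹ ≤ 1 / 2000
  expand : 8 * (Δ * (64 / 15 * H)) * 2000 ^ 2 ≤ th * (15 / 16 * 2 ^ (n - 1))
  first : gv 1 + sml L epv 1 ≤ 1 / 1000
  er_nonneg : 0 ≤ er
  err : 8 * (Δ * ((1 - 4 * (1 / 10 ^ 12)) ^ n)⁻¹) ≤ er ^ 2 * 2 ^ (n - 1)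
  err1 : 1000 * er ≤ (2 ^ m)⁻¹ / 2
  err2 : 1000 * er ≤ (1 - 4 * (1 / 10 ^ 12)) ^ n / 10

end Pool.Agent.Lib.MP_33d9ce_co.Cst
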