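import Pool.Agent.Lib.MP_33d9ce_co.Cst.StmC2

/-!
# Spanning hypercubes, constant density: allowed positions
-/

set_option autoImplicit false

noncomputable section

open Classical Finset

namespace Pool.Agent.Lib.MP_33d9ce_co.Cst

private theorem alp_kap {l : ℕ} (h : l ≤ 1) : kap l = kap 0 := by
  rcases Nat.le_one_iff_eq_zero_or_eq_one.mp h with rfl | rfl
  · rfl
  · simp [kap, kp]

theorem p_alp (h1 : S_size) (h2 : S_own) : S_alp := by
  intro κ I S X W0 Ω _ _ _ _ _ e η x a hOk ξ u i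
  obtain ⟨hown1, hown2⟩ := h2 κ X Ω e.ok e.E e.al e.cell e.L (e.vw ξ.2) u
  have hsz := h1 κ I S X W0 Ω e η x a hOk ξ u i
  have hL := hOk.L_ge
  have hSpos : 0 < Fintype.card S := by
    have h := hOk.cardS
    have h3 : 0 < 2 ^ κ := by positivity
    omega
  have : Nonempty S := Fintype.card_pos_iff.mp hSpos
  have hSR : (0 : ℝ) < Fintype.card S := by exact_mod_cast hSpos
  have halw : ∀ r : ℝ, 0 < r → r ≤ ((e.pos (e.lv ξ.2 u) ξ u i).card : ℝ) →
      e.alw ξ u i = e.pos (e.lv ξ.2 u) ξ u i := by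
    intro r hr hc
    have h3 : (0 : ℝ) < ((e.pos (e.lv ξ.2 u) ξ u i).card : ℝ) := lt_of_lt_of_le hr hc
    have h4 : (e.pos (e.lv ξ.2 u) ξ u i).Nonempty := by
      rw [← Finset.card_pos]
      exact_mod_cast h3
    unfold Env.alw
    rw [if_pos h4]
  have hnb : e.lv ξ.2 u < e.L → ¬ bad e.ok e.E e.al e.cell (e.vw ξ.2) (e.lv ξ.2 u) u := by
    intro hlt hb
    have h3 := hown1 (e.lv ξ.2 u) hlt hb
    have h4 : e.lv ξ.2 u = lev e.ok e.E e.al e.cell e.L (e.vw ξ.2) u := rfl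
    omega
  refine ⟨?_, ?_, ?_⟩
  · unfold Env.alw
    split_ifs with h
    · exact h
    · exact univ_nonempty
  · intro hl
    have h3 := hnb (by omega)
    have h4 : (nc e.cell 1 u).card ≤ kap 0 := by
      by_contra h5
      apply h3
      left
      rw [alp_kap hl]
      omega
    have h5 := (hsz (e.lv ξ.2 u)).1 hl h4
    have h6 := halw _ (by positivity) h5
    refine ⟨h6, ?_⟩
    rw [h6]
    exact h5
  · intro hl hbd
    have h3 : ¬ bad e.ok e.E e.al e.cell (e.vw ξ.2) (e.lv ξ.2 u) u := by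
      rcases Nat.lt_or_ge (e.lv ξ.2 u) e.L with h | h
      · exact hnb h
      · have h4 : e.lv ξ.2 u = e.L := le_antisymm hown2 h
        rw [h4]
        exact hbd
    have h4 : ¬ tbad e.ok e.E e.al (nc e.cell 1 u) (e.vw ξ.2) (e.lv ξ.2 u) := fun h5 => h3 (Or.inr ⟨hl, h5⟩)
    have h5 := ((hsz (e.lv ξ.2 u)).2 hl hown2 h4).1
    have h6 := halw _ (mul_pos (half_pos (hOk.al_pos _)) hSR) h5
    refine ⟨h6, h4, ?_⟩
    rw [h6]
    exact h5

end Pool.Agent.Lib.MP_33d9ce_co.Cst
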