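import Pool.Agent.Lib.MP_33d9ce_co.Cst.StmC3

/-!
# Spanning hypercubes, constant density: expansion of the rare vertices
-/

set_option autoImplicit false

noncomputable section

open Classical Finset

namespace Pool.Agent.Lib.MP_33d9ce_co.Cst

/-- expansion of the rare vertices -/
theorem p_exp : S_exp := by
  intro Y B _ _ F Cb Ev Z E0 V2 t0 h0 h1 hs hE hE0 hV ht hVt
  rcases Z.eq_empty_or_nonempty with hZ | ⟨y0, hy0⟩
  · rw [hZ]
    simp
  set N := Z.biUnion Cb with hN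
  have hNt : t0 ≤ (N.card : ℝ) := by
    refine (ht y0 hy0).trans ?_
    exact_mod_cast card_le_card (subset_biUnion_of_mem Cb hy0)
  have hN0 : (0 : ℝ) ≤ N.card := Nat.cast_nonneg _
  set S : ℝ := ∑ v ∈ N, ((∑ y, F y v) - Ev v) with hS
  have e1 : (Z.card : ℝ) ≤ ∑ y ∈ Z, ∑ v ∈ N, F y v := by
    calc (Z.card : ℝ) = ∑ _y ∈ Z, (1 : ℝ) := by rw [sum_const, nsmul_eq_mul, mul_one]
      _ ≤ ∑ y ∈ Z, ∑ v, F y v := sum_le_sum h1
      _ = ∑ y ∈ Z, ∑ v ∈ N, F y v := by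
          refine sum_congr rfl fun y hy => ?_
          symm
          refine sum_subset (subset_univ _) fun v _ hv => ?_
          by_contra hne
          exact hv (mem_biUnion.2 ⟨y, hy, hs y v hne⟩)
  have e2 : ∑ y ∈ Z, ∑ v ∈ N, F y v ≤ ∑ v ∈ N, ∑ y, F y v := by
    rw [sum_comm]
    exact sum_le_sum fun v _ => sum_le_sum_of_subset_of_nonneg (subset_univ _) fun y _ _ => h0 y v
  have e3 : ∑ v ∈ N, ∑ y, F y v = S + ∑ v ∈ N, Ev v := by
    rw [hS, ← sum_add_distrib]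
    exact sum_congr rfl fun v _ => by ring
  have e4 : ∑ v ∈ N, Ev v ≤ N.card * (1 / 2000) := by
    calc ∑ v ∈ N, Ev v ≤ ∑ _v ∈ N, (1 / 2000 : ℝ) := sum_le_sum fun v _ => (hE v).trans hE0
      _ = N.card * (1 / 2000) := by rw [sum_const, nsmul_eq_mul]
  have e5 : S ^ 2 ≤ (N.card * (1 / 2000)) ^ 2 := by
    have h2 : S ^ 2 ≤ N.card * ∑ v ∈ N, ((∑ y, F y v) - Ev v) ^ 2 := sq_sum_le_card_mul_sum_sq
    have h3 : ∑ v ∈ N, ((∑ y, F y v) - Ev v) ^ 2 ≤ V2 :=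
      (sum_le_sum_of_subset_of_nonneg (subset_univ _) fun v _ _ => sq_nonneg _).trans hV
    have h4 : V2 ≤ N.card * (1 / 2000) ^ 2 := by
      have : V2 * 2000 ^ 2 ≤ N.card := hVt.trans hNt
      linarith
    calc S ^ 2 ≤ N.card * ∑ v ∈ N, ((∑ y, F y v) - Ev v) ^ 2 := h2
      _ ≤ N.card * (N.card * (1 / 2000) ^ 2) := mul_le_mul_of_nonneg_left (h3.trans h4) hN0
      _ = _ := by ring
  have e6 : S ≤ N.card * (1 / 2000) := (abs_le_of_sq_le_sq' e5 (by positivity)).2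
  have e7 : (1000 : ℝ) * Z.card ≤ N.card := by
    have := e1.trans e2
    rw [e3] at this
    linarith
  exact_mod_cast e7

end Pool.Agent.Lib.MP_33d9ce_co.Cst
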