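import Pool.Agent.Lib.MP_33d9ce_co.Cst.StmM

/-!
# Functions of disjoint sets of labels are uncorrelated (swap trick)
-/

set_option autoImplicit false

noncomputable section

open Classical Finset

namespace Pool.Agent.Lib.MP_33d9ce_co.Cst

theorem p_ind : S_ind := by
  intro Ξ _ pc F G h hF hG
  let θ : Ξ × Ξ ≃ Ξ × Ξ :=
    { toFun := fun x => (pc x.1 x.2, pc x.2 x.1)
      invFun := fun x => (pc x.1 x.2, pc x.2 x.1)
      left_inv := fun x => by simp [h]
      right_inv := fun x => by simp [h] }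
  calc (Fintype.card Ξ : ℝ) * ∑ ξ, F ξ * G ξ = ∑ x : Ξ × Ξ, F x.1 * G x.1 := by
        rw [Fintype.sum_prod_type]
        simp only [sum_const, card_univ, nsmul_eq_mul]
        rw [mul_sum]
    _ = ∑ x : Ξ × Ξ, F (θ x).1 * G (θ x).1 := (θ.sum_comp fun x => F x.1 * G x.1).symm
    _ = ∑ x : Ξ × Ξ, F x.1 * G x.2 := by
        refine sum_congr rfl fun x _ => ?_
        simp [θ, hF, hG]
    _ = (∑ ξ, F ξ) * ∑ ξ, G ξ := by
        rw [Fintype.sum_prod_type, sum_mul_sum]

end Pool.Agent.Lib.MP_33d9ce_co.Cst
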