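import Pool.Agent.Lib.MP_33d9ce_co.Cst.StmC1

set_option autoImplicit false

noncomputable section

open Classical Finset

namespace Pool.Agent.Lib.MP_33d9ce_co.Cst

open Slack (Cell Ev Od Dir nbr)

theorem lz_rr {κ : ℕ} {X Ω : Type} [Fintype X] (ok : X → Ω → Prop) (E : ℕ → ℕ → Finset X)
    (st : Finset (Cell κ)) (w w' : Cell κ → ℕ → Ω) (l : ℕ) (h : ∀ q ∈ st, ∀ j, w q j = w' q j) :
    rr ok E st w l = rr ok E st w' l := by
  unfold rr
  refine Finset.filter_congr fun x _ => ?_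
  refine forall₂_congr fun q hq => ?_
  rw [h q hq, h q hq]

theorem lz_rrm {κ : ℕ} {X Ω : Type} [Fintype X] (ok : X → Ω → Prop) (E : ℕ → ℕ → Finset X)
    (st : Finset (Cell κ)) (w w' : Cell κ → ℕ → Ω) (l : ℕ) (z : Cell κ × ℕ)
    (h : ∀ q ∈ st, ∀ j, w q j = w' q j) : rrm ok E st w l z = rrm ok E st w' l z := by
  unfold rrm
  refine Finset.filter_congr fun x _ => ?_
  refine forall₂_congr fun q hq => ?_
  rw [h q hq, h q hq]

theorem lz_tbad {κ : ℕ} {X Ω : Type} [Fintype X] (ok : X → Ω → Prop) (E : ℕ → ℕ → Finset X)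
    (al : ℕ → ℝ) (st : Finset (Cell κ)) (w w' : Cell κ → ℕ → Ω) (l : ℕ)
    (h : ∀ q ∈ st, ∀ j, w q j = w' q j) : tbad ok E al st w l ↔ tbad ok E al st w' l := by
  unfold tbad
  rw [lz_rr ok E st w w' l h]
  refine or_congr Iff.rfl (exists_congr fun q => and_congr_right fun _ =>
    exists_congr fun j => and_congr_right fun _ => ?_)
  rw [lz_rrm ok E st w w' l (q, j) h]

theorem lz_bad {κ : ℕ} {X Ω : Type} [Fintype X] (ok : X → Ω → Prop) (E : ℕ → ℕ → Finset X)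
    (al : ℕ → ℝ) (cell : Cell κ → Cell κ) (w w' : Cell κ → ℕ → Ω) (l : ℕ) (u : Cell κ)
    (h : ∀ q ∈ nc cell 1 u, ∀ j, w q j = w' q j) :
    bad ok E al cell w l u ↔ bad ok E al cell w' l u := by
  unfold bad
  rw [lz_tbad ok E al _ w w' l h]

theorem lz_sub {κ : ℕ} (cell : Cell κ → Cell κ) (u u1 : Cell κ) (D : ℕ)
    (h : hammingDist u u1 ≤ D) : nc cell 1 u1 ⊆ nc cell (D + 1) u := by
  unfold nc
  apply Finset.image_subset_image
  intro v hv
  rw [Finset.mem_filter] at hv ⊢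
  refine ⟨hv.1, ?_⟩
  have := hammingDist_triangle u u1 v
  omega

theorem lz_le {κ : ℕ} {X Ω : Type} [Fintype X] (ok : X → Ω → Prop) (E : ℕ → ℕ → Finset X)
    (al : ℕ → ℝ) (cell : Cell κ → Cell κ) (L : ℕ) (w w' : Cell κ → ℕ → Ω) (u : Cell κ)
    (h : ∀ q ∈ nc cell (2 * L + 1) u, ∀ j, w q j = w' q j) :
    lev ok E al cell L w u ≤ lev ok E al cell L w' u := by
  unfold lev
  refine Finset.sup_le fun p hp => ?_
  rw [Finset.mem_filter, Finset.mem_product, Finset.mem_range] at hp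
  obtain ⟨⟨hj, -⟩, hbad⟩ := hp
  by_cases hd : hammingDist u p.2 ≤ 2 * L
  · have hb : bad ok E al cell w' p.1 p.2 :=
      (lz_bad ok E al cell w w' p.1 p.2 fun q hq => h q (lz_sub cell u p.2 _ hd hq)).1 hbad
    exact Finset.le_sup (f := fun p : ℕ × Cell κ => p.1 + 1 - (hammingDist u p.2 + 1) / 2)
      (Finset.mem_filter.2 ⟨Finset.mem_product.2 ⟨Finset.mem_range.2 hj, Finset.mem_univ _⟩, hb⟩)
  · have h0 : p.1 + 1 - (hammingDist u p.2 + 1) / 2 = 0 := by omega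
    rw [h0]
    exact Nat.zero_le _

theorem p_lz : S_lz := by
  intro κ X Ω _ ok E al cell L w w' u h
  refine ⟨le_antisymm (lz_le ok E al cell L w w' u h)
    (lz_le ok E al cell L w' w u fun q hq j => (h q hq j).symm), ?_⟩
  refine lz_bad ok E al cell w w' L u fun q hq => h q ?_
  have h1 : nc cell 1 u ⊆ nc cell (2 * L + 1) u := lz_sub cell u u (2 * L) (by simp)
  exact h1 hq

end Pool.Agent.Lib.MP_33d9ce_co.Cst
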