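import Pool.Agent.Lib.MP_33d9ce_co.Cst.StmD

/-!
# Spanning hypercubes, constant density: numbers
-/

set_option autoImplicit false

noncomputable section

open Classical Finset

namespace Pool.Agent.Lib.MP_33d9ce_co.Cst

theorem p_nx : S_nx := by
  intro κ hκ
  have hk : 1000 ≤ κ := by omega
  constructor
  · have h1 : (97 / 100 : ℝ) ^ κ ≤ (97 / 100) ^ (250 * 4) :=
      pow_le_pow_of_le_one (by norm_num) (by norm_num) hk
    have h0 : (97 / 100 : ℝ) ^ 250 ≤ 1 / 2000 := by norm_num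
    have h2 : (97 / 100 : ℝ) ^ (250 * 4) ≤ (1 / 2000) ^ 4 := by
      rw [pow_mul]
      exact pow_le_pow_left₀ (by positivity) h0 4
    have h3 : 2 / 10 ^ 23 + 17 / 16 * (1 / 2000 : ℝ) ^ 4 ≤ 1 / 10 ^ 12 := by norm_num
    have h4 : (97 / 100 : ℝ) ^ κ ≤ (1 / 2000 : ℝ) ^ 4 := h1.trans h2
    have h5 : 17 / 16 * (97 / 100 : ℝ) ^ κ ≤ 17 / 16 * (1 / 2000 : ℝ) ^ 4 :=
      mul_le_mul_of_nonneg_left h4 (by norm_num)
    exact (add_le_add_right h5 _).trans h3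
  · have h1 : (97 / 99 : ℝ) ^ κ ≤ (97 / 99) ^ 250 :=
      pow_le_pow_of_le_one (by norm_num) (by norm_num) (by omega)
    have h2 : (97 / 99 : ℝ) ^ 250 ≤ 1 / 32 := by norm_num
    have h3 : (97 / 100 : ℝ) ^ κ = (97 / 99) ^ κ * (99 / 100) ^ κ := by
      rw [← mul_pow]
      norm_num
    have h4 : (99 / 100 : ℝ) ^ κ ≤ Real.exp (-(κ / 10 ^ 10 : ℝ)) := by
      have h5 : (99 / 100 : ℝ) ≤ Real.exp (-(1 / 10 ^ 10 : ℝ)) := by
        have := Real.add_one_le_exp (-(1 / 10 ^ 10 : ℝ))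
        norm_num at this ⊢
        linarith
      have h6 := pow_le_pow_left₀ (by norm_num : (0 : ℝ) ≤ 99 / 100) h5 κ
      rw [← Real.exp_nat_mul] at h6
      have h7 : (κ : ℝ) * -(1 / 10 ^ 10 : ℝ) = -(κ / 10 ^ 10 : ℝ) := by ring
      rwa [h7] at h6
    have h8 : (0 : ℝ) < (99 / 100) ^ κ := by positivity
    rw [h3]
    have h9 : (97 / 99 : ℝ) ^ κ * (99 / 100) ^ κ ≤ 1 / 32 * (99 / 100) ^ κ :=
      mul_le_mul_of_nonneg_right (h1.trans h2) h8.le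
    linarith

end Pool.Agent.Lib.MP_33d9ce_co.Cst
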