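import Pool.Agent.Lib.MP_33d9ce_co.Cst.StmD

/-!
# Spanning hypercubes, constant density: the choice of the labels and of the placement
-/

set_option autoImplicit false

noncomputable section

open Classical Finset

namespace Pool.Agent.Lib.MP_33d9ce_co.Cst

open Slack (Cell Ev Od Dir nbr shift)

/-- a scaled expectation -/
private theorem pick_scale {a V : ℝ} (hV : 0 < V) (h : a ≤ V) : (8 * V)⁻¹ * a ≤ 1 / 8 := by
  rw [inv_mul_le_iff₀ (by positivity)]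
  linarith

/-- a scaled value -/
private theorem pick_unscale {a V : ℝ} (hV : 0 < V) (h : (8 * V)⁻¹ * a < 1) : a ≤ 8 * V := by
  rw [inv_mul_lt_iff₀ (by positivity)] at h
  linarith

/-- the choice, abstractly -/
private theorem pick_abs {Ξ Sg : Type} (E : (Ξ → Sg → ℝ) → ℝ) (P : Ξ → Sg → Prop)
    (ladd : ∀ F G : Ξ → Sg → ℝ, E (fun ξ σ => F ξ σ + G ξ σ) = E F + E G)
    (lsm : ∀ (c : ℝ) (F : Ξ → Sg → ℝ), E (fun ξ σ => c * F ξ σ) = c * E F)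
    (llast : ∀ F : Ξ → Sg → ℝ, E F < 1 → ∃ ξ σ, P ξ σ ∧ F ξ σ < 1)
    (G1 G2 G3 K4 K5 K6 : Ξ → Sg → ℝ) (V4 V5 V6 : ℝ)
    (n1 : ∀ ξ σ, 0 ≤ G1 ξ σ) (n2 : ∀ ξ σ, 0 ≤ G2 ξ σ) (n3 : ∀ ξ σ, 0 ≤ G3 ξ σ)
    (n4 : ∀ ξ σ, 0 ≤ K4 ξ σ) (n5 : ∀ ξ σ, 0 ≤ K5 ξ σ) (n6 : ∀ ξ σ, 0 ≤ K6 ξ σ)
    (h4 : 0 < V4) (h5 : 0 < V5) (h6 : 0 < V6)
    (E1 : E G1 ≤ 1 / 16) (E2 : E G2 ≤ 1 / 16) (E3 : E G3 ≤ 1 / 16) (E4 : E K4 ≤ V4) (E5 : E K5 ≤ V5)
    (E6 : E K6 ≤ V6) :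
    ∃ ξ σ, P ξ σ ∧ G1 ξ σ < 1 ∧ G2 ξ σ < 1 ∧ G3 ξ σ < 1 ∧ K4 ξ σ ≤ 8 * V4 ∧ K5 ξ σ ≤ 8 * V5 ∧
      K6 ξ σ ≤ 8 * V6 := by
  have e1 := ladd G1 (fun ξ σ => G2 ξ σ + (G3 ξ σ + ((8 * V4)⁻¹ * K4 ξ σ + ((8 * V5)⁻¹ * K5 ξ σ +
    (8 * V6)⁻¹ * K6 ξ σ))))
  have e2 := ladd G2 (fun ξ σ => G3 ξ σ + ((8 * V4)⁻¹ * K4 ξ σ + ((8 * V5)⁻¹ * K5 ξ σ +
    (8 * V6)⁻¹ * K6 ξ σ)))
  have e3 := ladd G3 (fun ξ σ => (8 * V4)⁻¹ * K4 ξ σ + ((8 * V5)⁻¹ * K5 ξ σ + (8 * V6)⁻¹ * K6 ξ σ))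
  have e4 := ladd (fun ξ σ => (8 * V4)⁻¹ * K4 ξ σ) (fun ξ σ => (8 * V5)⁻¹ * K5 ξ σ + (8 * V6)⁻¹ * K6 ξ σ)
  have e5 := ladd (fun ξ σ => (8 * V5)⁻¹ * K5 ξ σ) (fun ξ σ => (8 * V6)⁻¹ * K6 ξ σ)
  have s4 := lsm (8 * V4)⁻¹ K4
  have s5 := lsm (8 * V5)⁻¹ K5
  have s6 := lsm (8 * V6)⁻¹ K6
  have b4 := pick_scale h4 E4
  have b5 := pick_scale h5 E5
  have b6 := pick_scale h6 E6
  have EF : E (fun ξ σ => G1 ξ σ + (G2 ξ σ + (G3 ξ σ + ((8 * V4)⁻¹ * K4 ξ σ + ((8 * V5)⁻¹ * K5 ξ σ +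
    (8 * V6)⁻¹ * K6 ξ σ))))) < 1 := by
    rw [e1, e2, e3, e4, e5, s4, s5, s6]
    linarith
  obtain ⟨ξ, σ, hP, hF⟩ := llast _ EF
  have m1 := n1 ξ σ
  have m2 := n2 ξ σ
  have m3 := n3 ξ σ
  have m4 : 0 ≤ (8 * V4)⁻¹ * K4 ξ σ := mul_nonneg (by positivity) (n4 ξ σ)
  have m5 : 0 ≤ (8 * V5)⁻¹ * K5 ξ σ := mul_nonneg (by positivity) (n5 ξ σ)
  have m6 : 0 ≤ (8 * V6)⁻¹ * K6 ξ σ := mul_nonneg (by positivity) (n6 ξ σ)
  exact ⟨ξ, σ, hP, by linarith, by linarith, by linarith, pick_unscale h4 (by linarith),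
    pick_unscale h5 (by linarith), pick_unscale h6 (by linarith)⟩

/-- the expectation of a function of the labels alone -/
private theorem pick_good {P I S Y T Ξ : Type} [Fintype P] [Fintype I] [Fintype S] [Fintype Y] [Fintype T]
    [Fintype Ξ] [Nonempty Ξ] (h4 : S_im) (h5 : S_lawsum) (D : Mod P I S Y T Ξ) (good : Ξ → Prop)
    (μ : Ξ → I → (P → S) → ℝ) (hμ : D.IsLaw good μ) (hal : ∀ ξ p i, (D.al ξ p i).Nonempty)
    (hinj : ∀ y, Function.Injective fun t => (D.nb y t).2) (y : Y) (c : ℝ)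
    (hc : (((univ : Finset Ξ).filter fun ξ => ¬ good ξ).card : ℝ) ≤ c * Fintype.card Ξ) :
    Ex μ (fun ξ _ => if good ξ then 0 else 1) ≤ c := by
  have h := (h4 P I S Y T Ξ D good μ hμ hinj).1 y (fun ξ _ => if good ξ then 0 else 1)
  rw [h]
  have h0 : (0 : ℝ) < Fintype.card Ξ := by exact_mod_cast Fintype.card_pos
  rw [inv_mul_le_iff₀ h0]
  refine le_trans (le_of_eq ?_) (hc.trans_eq (mul_comm _ _))
  rw [Finset.card_filter]
  push_cast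
  apply Finset.sum_congr rfl
  intro ξ _
  rw [← Finset.sum_mul, (h5 P I S Y T Ξ D hal ξ y).2.1, one_mul]
  by_cases hg : good ξ
  · rw [if_pos hg, if_neg (not_not.2 hg)]
  · rw [if_neg hg, if_pos hg]

/-- a member of a sum of indicators -/
private theorem pick_ind {K : Type} (s : Finset K) (p : K → Prop) {hd : ∀ k, Decidable (p k)} (a : K) (ha : a ∈ s)
    (h : ∑ k ∈ s, (if p k then (1 : ℝ) else 0) < 1) : ¬ p a := by
  intro hp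
  have h1 := Finset.single_le_sum (f := fun k => if p k then (1 : ℝ) else 0)
    (fun k _ => by split_ifs <;> norm_num) ha
  have h2 : (if p a then (1 : ℝ) else 0) ≤ ∑ k ∈ s, (if p k then (1 : ℝ) else 0) := h1
  rw [if_pos hp] at h2
  linarith

private theorem pick_ind2 {K K' : Type} (s : Finset K) (s' : Finset K') (p : K → K' → Prop)
    {hd : ∀ k k', Decidable (p k k')} (a : K)
    (ha : a ∈ s) (b : K') (hb : b ∈ s')
    (h : ∑ k ∈ s, ∑ k' ∈ s', (if p k k' then (1 : ℝ) else 0) < 1) : ¬ p a b := by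
  rw [← Finset.sum_product'] at h
  exact pick_ind (s ×ˢ s') (fun q => p q.1 q.2) (hd := fun q => hd q.1 q.2) (a, b)
    (Finset.mem_product.2 ⟨ha, hb⟩) h

private theorem pick_nn2 {K K' : Type} (s : Finset K) (s' : Finset K') (p : K → K' → Prop)
    {hd : ∀ k k', Decidable (p k k')} :
    0 ≤ ∑ k ∈ s, ∑ k' ∈ s', (if p k k' then (1 : ℝ) else 0) :=
  Finset.sum_nonneg fun _ _ => Finset.sum_nonneg fun _ _ => by split_ifs <;> norm_num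

private theorem pick_one {K : Type} [Fintype K] (f : K → ℝ) (h : ∀ k, f k ≤ 1) :
    ∑ k, f k ≤ Fintype.card K := by
  calc ∑ k, f k ≤ ∑ _k : K, (1 : ℝ) := Finset.sum_le_sum fun k _ => h k
    _ = Fintype.card K := by rw [Finset.sum_const, nsmul_eq_mul, Finset.card_univ, mul_one]

private theorem pick_const {K : Type} [Fintype K] (f : K → ℝ) (c : ℝ) (h : ∀ k, f k ≤ c) :
    ∑ k, f k ≤ Fintype.card K * c := by
  calc ∑ k, f k ≤ ∑ _k : K, c := Finset.sum_le_sum fun k _ => h k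
    _ = Fintype.card K * c := by rw [Finset.sum_const, nsmul_eq_mul, Finset.card_univ]

private theorem pick_eta {a : ℕ} {η : ℝ} (hη : 0 < η) (h : 32 * (kap 0 * ((4 + a) * η)) ≤ 1) : 4 * η < 1 := by
  have hk : (kap 0 : ℝ) = 10 ^ 7 := by
    have : kap 0 = 10 ^ 7 := rfl
    rw [this]
    norm_num
  rw [hk] at h
  have ha : (0 : ℝ) ≤ a := Nat.cast_nonneg a
  nlinarith [mul_nonneg ha hη.le]

/-- the instance for a general set of labels -/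
@[reducible] private def pick_inst {κ : ℕ} {I S X W0 Ω : Type} [Fintype I] [Fintype S] [Fintype X] [Fintype W0]
    [Fintype Ω] (e : Env κ I S X W0 Ω) : Fintype e.Xi := inferInstance

/-- the instance for labels which are words -/
@[reducible] private def pick_inst' {κ aa : ℕ} {I S X W0 B : Type} [Fintype I] [Fintype S] [Fintype X]
    [Fintype W0] [Fintype B] (e : Env κ I S X W0 (Fin aa → B)) : Fintype e.Xi := inferInstance

private theorem pick_c9 (h9 : S_pgood) {κ : ℕ} {I S X W0 Ω : Type} [Fintype I] [Fintype S] [Fintype X]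
    [Fintype W0] [Fintype Ω] (e : Env κ I S X W0 Ω) (η x : ℝ) (a : ℕ) (om ep g : ℕ → ℝ) (hok : e.Ok η x a)
    (h1 : TOut e.ok e.L kap e.al om ep e.W e.E) (h2 : ∀ l, 0 ≤ ep l)
    (h3 : ∀ l, 1 ≤ l → l ≤ e.L → (({u | geom e.cell kap e.L l u} : Finset (Cell κ)).card : ℝ) ≤ g l * 2 ^ κ)
    [iXi : Fintype e.Xi] :
    (((univ : Finset e.Xi).filter fun ξ => ¬ e.good ξ).card : ℝ) ≤
      (2 ^ κ * ep e.L + 1000 * ∑ l ∈ Icc 2 e.L, (e.al l)⁻¹ * (g l + sml e.L ep l)) * Fintype.card e.Xi := by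
  obtain rfl : iXi = pick_inst e := Subsingleton.elim _ _
  exact h9 κ I S X W0 Ω e η x a om ep g hok h1 h2 h3

private theorem pick_c12 (h12 : S_bigE) {κ m r : ℕ} {S X W0 Ω : Type} [Fintype S] [Fintype X] [Fintype W0]
    [Fintype Ω] (e : Env κ (Ev κ m r) S X W0 Ω) (η x : ℝ) (a : ℕ) (z0 : ℝ)
    (μ : e.Xi → Ev κ m r → (Cell κ → S) → ℝ) (hok : e.Ok η x a) (hz : 0 ≤ z0)
    (hμ : (e.mod m r).IsLaw e.good μ) [iXi : Fintype e.Xi] :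
    Ex μ (fun ξ σ => ∑ y : Cell κ × Od κ m r, ∑ j ∈ Icc 1 e.L,
        if e.cls j y.1 ξ ∧ bigR e z0 y j ξ ((e.mod m r).im σ y) then (1 : ℝ) else 0) ≤
      Fintype.card (Cell κ × Od κ m r) * (e.L * (z0 * 6 ^ Fintype.card (Dir κ m r))) := by
  obtain rfl : iXi = pick_inst e := Subsingleton.elim _ _
  exact h12 κ m r S X W0 Ω e η x a z0 μ hok hz hμ

private theorem pick_c15 (h15 : S_blkE) {κ m r : ℕ} {S X W0 Ω V : Type} [Fintype S] [Fintype X] [Fintype W0]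
    [Fintype Ω] [Fintype V] (e : Env κ (Ev κ m r) S X W0 Ω) (η x : ℝ) (a : ℕ) (adv : X → V → Prop)
    (μ : e.Xi → Ev κ m r → (Cell κ → S) → ℝ) (hok : e.Ok η x a) (hμ : (e.mod m r).IsLaw e.good μ)
    (h : ∀ v i, (({s | ¬ adv (e.f i s) v} : Finset S).card : ℝ) ≤ η * 2 ^ κ) [iXi : Fintype e.Xi] :
    Ex μ (fun ξ σ => ∑ v : V, ∑ y : Cell κ × Od κ m r,
      if e.yf ξ.2 y.1 = 0 ∧ ∀ c : Fin m → ZMod 2, ¬ ∀ t, adv (e.f (nbr (shift c y) t).2 ((e.mod m r).im σ (shift c y) t)) v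
        then (1 : ℝ) else 0) ≤
      Fintype.card V * (Fintype.card (Cell κ × Od κ m r) * (1 - (1 - η) ^ Fintype.card (Dir κ m r)) ^ (2 ^ m)) := by
  obtain rfl : iXi = pick_inst e := Subsingleton.elim _ _
  exact h15 κ m r S X W0 Ω V e η x a adv μ hok hμ h

private theorem pick_c11 (h11 : S_varR) {κ m r aa : ℕ} {S X W0 B : Type} [Fintype S] [Fintype X] [Fintype W0]
    [Fintype B] (e : Env κ (Ev κ m r) S X W0 (Fin aa → B)) (η x : ℝ) (z0 H Dn : ℝ) (t : ℕ) (adj : X → B → Prop)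
    (Δ : ℝ) (μ : e.Xi → Ev κ m r → (Cell κ → S) → ℝ) (hok : e.Ok η x aa)
    (htrn : Trn e z0 H Dn t) (hadj : ∀ x' w, e.ok x' w ↔ ∀ i, adj x' (w i)) (hμ : (e.mod m r).IsLaw e.good μ)
    (hn : ∀ y, (({y' | near e y y'} : Finset (Cell κ × Od κ m r)).card : ℝ) ≤ Δ) [iXi : Fintype e.Xi] :
    Ex μ (fun ξ σ => ∑ v, ((∑ y, Fr e z0 H y v ξ ((e.mod m r).im σ y)) -
        ∑ y, Ex μ (fun ξ σ => Fr e z0 H y v ξ ((e.mod m r).im σ y))) ^ 2) ≤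
      Δ * (Fintype.card (Cell κ × Od κ m r) * (4 * H / Fintype.card B)) := by
  obtain rfl : iXi = pick_inst' e := Subsingleton.elim _ _
  exact h11 κ m r aa S X W0 B e η x z0 H Dn t adj Δ μ hok htrn hadj hμ hn

private theorem pick_c10 (h10 : S_load) {κ m r aa : ℕ} {S X W0 B : Type} [Fintype S] [Fintype X] [Fintype W0]
    [Fintype B] (e : Env κ (Ev κ m r) S X W0 (Fin aa → B)) (η x : ℝ) (z0 H Dn : ℝ) (t : ℕ) (adj : X → B → Prop)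
    (om ep g : ℕ → ℝ) (δ : ℝ) (μ : e.Xi → Ev κ m r → (Cell κ → S) → ℝ) (hok : e.Ok η x aa)
    (htrn : Trn e z0 H Dn t) (hadj : ∀ x' w, e.ok x' w ↔ ∀ i, adj x' (w i)) (hlvl : Lvl e om ep g δ)
    (hμ : (e.mod m r).IsLaw e.good μ) [iXi : Fintype e.Xi] (v : B) :
    ∑ y, Ex μ (fun ξ σ => Fr e z0 H y v ξ ((e.mod m r).im σ y)) ≤
      ∑ j ∈ Icc 1 e.L, 2 * (Fintype.card B : ℝ) ^ (aa - 1) * ((e.W j).card : ℝ)⁻¹ * ((g j + sml e.L ep j) * 2 ^ κ) *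
        Fintype.card (Od κ m r) := by
  obtain rfl : iXi = pick_inst' e := Subsingleton.elim _ _
  exact h10 κ m r aa S X W0 B e η x z0 H Dn t adj om ep g δ μ hok htrn hadj hlvl hμ v

private theorem pick_c13 (h13 : S_p02) {κ m r : ℕ} {S X W0 Ω : Type} [Fintype S] [Fintype X] [Fintype W0]
    [Fintype Ω] (e : Env κ (Ev κ m r) S X W0 Ω) (η x : ℝ) (a : ℕ)
    (μ : e.Xi → Ev κ m r → (Cell κ → S) → ℝ) (hok : e.Ok η x a) (hμ : (e.mod m r).IsLaw e.good μ)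
    (y : Cell κ × Od κ m r) [iXi : Fintype e.Xi] :
    Ex μ (fun ξ σ => ∑ w, pR0 e y ξ ((e.mod m r).im σ y) w ^ 2) ≤
      ((1 - 4 * η) ^ Fintype.card (Dir κ m r))⁻¹ * (Fintype.card W0 : ℝ)⁻¹ := by
  obtain rfl : iXi = pick_inst e := Subsingleton.elim _ _
  exact (h13 κ m r S X W0 Ω e η x a μ hok hμ y).2

private theorem pick_c14 (h14 : S_var0) {κ m r : ℕ} {S X W0 Ω : Type} [Fintype S] [Fintype X] [Fintype W0]
    [Fintype Ω] (e : Env κ (Ev κ m r) S X W0 Ω) (η x : ℝ) (a : ℕ) (Δ : ℝ)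
    (μ : e.Xi → Ev κ m r → (Cell κ → S) → ℝ) (hok : e.Ok η x a) (hμ : (e.mod m r).IsLaw e.good μ)
    (hn : ∀ y, (({y' | near e y y'} : Finset (Cell κ × Od κ m r)).card : ℝ) ≤ Δ) [iXi : Fintype e.Xi] :
    Ex μ (fun ξ σ => ∑ w, ((∑ y, pR0 e y ξ ((e.mod m r).im σ y) w) -
      (∑ y : Cell κ × Od κ m r, (({ξ | e.yf ξ.2 y.1 = 0} : Finset e.Xi).card / Fintype.card e.Xi : ℝ)) *
        (Fintype.card W0 : ℝ)⁻¹) ^ 2) ≤
    Δ * (Fintype.card (Cell κ × Od κ m r) *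
      (((1 - 4 * η) ^ Fintype.card (Dir κ m r))⁻¹ * (Fintype.card W0 : ℝ)⁻¹)) := by
  obtain rfl : iXi = pick_inst e := Subsingleton.elim _ _
  exact h14 κ m r S X W0 Ω e η x a Δ μ hok hμ hn

private theorem pick_c16 (h16 : S_few) {κ m r : ℕ} {S X W0 Ω : Type} [Fintype S] [Fintype X] [Fintype W0]
    [Fintype Ω] (e : Env κ (Ev κ m r) S X W0 Ω) (η x : ℝ) (a : ℕ) (om ep g : ℕ → ℝ) (δ : ℝ) (hok : e.Ok η x a)
    (hlvl : Lvl e om ep g δ) [iXi : Fintype e.Xi] :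
    (1 - (g 1 + sml e.L ep 1)) * Fintype.card (Cell κ × Od κ m r) ≤
      ∑ y : Cell κ × Od κ m r, (({ξ | e.yf ξ.2 y.1 = 0} : Finset e.Xi).card / Fintype.card e.Xi : ℝ) := by
  obtain rfl : iXi = pick_inst e := Subsingleton.elim _ _
  exact h16 κ m r S X W0 Ω e η x a om ep g δ hok hlvl

theorem p_pick (h1 : S_law) (h2 : S_lin) (h3 : S_pos) (h4 : S_im) (h5 : S_lawsum) (h6 : S_inj) (h7 : S_alp)
    (h8 : S_col) (h9 : S_pgood) (h10 : S_load) (h11 : S_varR) (h12 : S_bigE) (h13 : S_p02) (h14 : S_var0)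
    (h15 : S_blkE) (h16 : S_few) : S_pick := by
  intro κ m r aa S X W0 B V _ _ _ _ _ e η x z0 H Dn t adj adv om ep g δ Δ hok htrn hadj hlvl hnear hadv
    hΔ hOd hn1 hn2 hn3
  have hal : ∀ (ξ : e.Xi) (p : Cell κ) (i : Ev κ m r), ((e.mod m r).al ξ p i).Nonempty := fun ξ p i =>
    (h7 κ (Ev κ m r) S X W0 (Fin aa → B) e η x aa hok ξ p i).1
  have hinj : ∀ y : Cell κ × Od κ m r, Function.Injective fun t => ((e.mod m r).nb y t).2 := fun y =>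
    h6 κ m r y
  obtain ⟨μ, hμ⟩ := h1 (Cell κ) (Ev κ m r) S (Cell κ × Od κ m r) (Dir κ m r) e.Xi (e.mod m r) e.good hal
    (fun ξ hξ i s => h8 κ (Ev κ m r) S X W0 (Fin aa → B) e η x aa hok ξ hξ i s)
  have iW : Nonempty W0 := hok.nonempty0
  have iXi : Nonempty e.Xi :=
    ⟨(fun _ => Classical.arbitrary W0, ⟨fun z => (hok.nonempty z.2).choose, fun z => (hok.nonempty z.2).choose_spec⟩)⟩
  have iB : Nonempty B := htrn.nonemptyB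
  obtain ⟨g0⟩ := hOd
  have iY : Nonempty (Cell κ × Od κ m r) := ⟨(fun _ => 0, g0)⟩
  obtain ⟨ladd, lsm, lsum, -, -, llast⟩ := h2 (Cell κ) (Ev κ m r) S (Cell κ × Od κ m r) (Dir κ m r) e.Xi
    (e.mod m r) e.good μ hμ
  have hY : (0 : ℝ) < Fintype.card (Cell κ × Od κ m r) := by exact_mod_cast Fintype.card_pos
  have hB : (0 : ℝ) < Fintype.card B := by exact_mod_cast Fintype.card_pos
  have hW : (0 : ℝ) < Fintype.card W0 := by exact_mod_cast Fintype.card_pos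
  have hXi : (0 : ℝ) < Fintype.card e.Xi := by exact_mod_cast Fintype.card_pos
  have hη : 4 * η < 1 := pick_eta hok.η_pos hok.room
  have hΛ : (0 : ℝ) < ((1 - 4 * η) ^ Fintype.card (Dir κ m r))⁻¹ :=
    inv_pos.2 (pow_pos (by linarith) _)
  have hH := htrn.H_pos
  have q4 : 0 < Δ * (Fintype.card (Cell κ × Od κ m r) * (4 * H / Fintype.card B)) :=
    mul_pos hΔ (mul_pos hY (div_pos (by linarith) hB))
  have q6 : 0 < (Fintype.card (Cell κ × Od κ m r) : ℝ) *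
      (((1 - 4 * η) ^ Fintype.card (Dir κ m r))⁻¹ * (Fintype.card W0 : ℝ)⁻¹) :=
    mul_pos hY (mul_pos hΛ (inv_pos.2 hW))
  have q5 : 0 < Δ * (Fintype.card (Cell κ × Od κ m r) *
      (((1 - 4 * η) ^ Fintype.card (Dir κ m r))⁻¹ * (Fintype.card W0 : ℝ)⁻¹)) := mul_pos hΔ q6
  have E1 : Ex μ (fun ξ _ => if e.good ξ then 0 else 1) ≤ 1 / 16 := by
    refine pick_good h4 h5 (e.mod m r) e.good μ hμ hal hinj (Classical.arbitrary _) (1 / 16) ?_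
    exact (pick_c9 h9 e η x aa om ep g hok hlvl.out hlvl.ep_nonneg hlvl.geo).trans
      (mul_le_mul_of_nonneg_right hn1 hXi.le)
  have E2 := (pick_c12 h12 e η x aa z0 μ hok htrn.z0_pos.le hμ).trans hn2
  have E3 := (pick_c15 h15 e η x aa adv μ hok hμ hadv).trans hn3
  have E4 := pick_c11 h11 e η x z0 H Dn t adj Δ μ hok htrn hadj hμ hnear
  have E5 := pick_c14 h14 e η x aa Δ μ hok hμ hnear
  have E6 : Ex μ (fun ξ σ => ∑ y, ∑ w, pR0 e y ξ ((e.mod m r).im σ y) w ^ 2) ≤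
      Fintype.card (Cell κ × Od κ m r) *
        (((1 - 4 * η) ^ Fintype.card (Dir κ m r))⁻¹ * (Fintype.card W0 : ℝ)⁻¹) := by
    rw [lsum (Cell κ × Od κ m r) univ (fun y ξ σ => ∑ w, pR0 e y ξ ((e.mod m r).im σ y) w ^ 2)]
    exact pick_const _ _ fun y => pick_c13 h13 e η x aa μ hok hμ y
  obtain ⟨ξ, σ, hw, l1, l2, l3, l4, l5, l6⟩ := pick_abs (Ex μ) (fun ξ σ => (∏ i, μ ξ i (σ i)) ≠ 0) ladd lsm
    llast _ _ _ _ _ _ _ _ _ (fun ξ _ => by split_ifs <;> norm_num) (fun ξ σ => pick_nn2 _ _ _)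
    (fun ξ σ => pick_nn2 _ _ _) (fun ξ σ => Finset.sum_nonneg fun v _ => sq_nonneg _)
    (fun ξ σ => Finset.sum_nonneg fun v _ => sq_nonneg _)
    (fun ξ σ => Finset.sum_nonneg fun y _ => Finset.sum_nonneg fun w _ => sq_nonneg _) q4 q5 q6 E1 E2 E3 E4 E5 E6
  obtain ⟨p1, p2, -⟩ := h3 (Cell κ) (Ev κ m r) S (Cell κ × Od κ m r) (Dir κ m r) e.Xi (e.mod m r) e.good μ hμ
    ξ σ hw
  have hg : e.good ξ := by
    by_contra hg
    rw [if_neg hg] at l1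
    exact lt_irrefl _ l1
  refine ⟨ξ, σ, hg, p1 hg, p2, ?_, ?_, ?_, ?_, l6⟩
  · intro y j hj1 hj2 hcls hbig
    exact pick_ind2 _ _ _ y (Finset.mem_univ y) j (Finset.mem_Icc.2 ⟨hj1, hj2⟩) l2 ⟨hcls, hbig⟩
  · intro v y hyf
    by_contra hno
    exact pick_ind2 _ _ _ v (Finset.mem_univ v) y (Finset.mem_univ y) l3 ⟨hyf, fun c hc => hno ⟨c, hc⟩⟩
  · exact ⟨fun v => ∑ y, Ex μ (fun ξ σ => Fr e z0 H y v ξ ((e.mod m r).im σ y)),
      fun v => pick_c10 h10 e η x z0 H Dn t adj om ep g δ μ hok htrn hadj hlvl hμ v, l4⟩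
  · refine ⟨∑ y : Cell κ × Od κ m r, (({ξ | e.yf ξ.2 y.1 = 0} : Finset e.Xi).card / Fintype.card e.Xi : ℝ),
      pick_c16 h16 e η x aa om ep g δ hok hlvl, pick_one _ fun y => ?_, l5⟩
    rw [div_le_one hXi]
    exact_mod_cast Finset.card_le_univ _

end Pool.Agent.Lib.MP_33d9ce_co.Cst
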