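import Pool.Agent.Lib.MP_33d9ce_co.Cst.StmC3

/-!
# Spanning hypercubes, constant density: the expectation of the posterior
-/

set_option autoImplicit false

noncomputable section

open Classical Finset

namespace Pool.Agent.Lib.MP_33d9ce_co.Cst

open Slack (Cell Ev Od Dir nbr shift)

private theorem pr2_sml_nonneg (L : ℕ) (ep : ℕ → ℝ) (h : ∀ l, 0 ≤ ep l) (l : ℕ) : 0 ≤ sml L ep l := by
  unfold sml
  apply Finset.sum_nonneg
  intro i _
  exact mul_nonneg (by positivity) (h i)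

private theorem pr2_prod {A B : Type} [Fintype A] [Fintype B] (p : B → Prop) [DecidablePred p]
    [DecidablePred fun x : A × B => p x.2] :
    (((univ : Finset (A × B)).filter fun x => p x.2).card : ℝ) =
      Fintype.card A * (((univ : Finset B).filter p).card : ℝ) := by
  have : ((univ : Finset (A × B)).filter fun x => p x.2) = (univ : Finset A) ×ˢ ((univ : Finset B).filter p) := by
    ext x
    simp
  rw [this, Finset.card_product]
  push_cast
  rw [Finset.card_univ]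

private theorem pr2_univ {α : Type} (i1 i2 : Fintype α) (f : α → ℝ) :
    @Finset.sum α ℝ _ (@Finset.univ α i1) f = @Finset.sum α ℝ _ (@Finset.univ α i2) f := by
  cases Subsingleton.elim i1 i2
  rfl

private theorem pr2_count (h3 : S_plev) (h4 : S_fam) (κ : ℕ) (I S X W0 Ω : Type) [Fintype I] [Fintype S] [Fintype X]
    [Fintype W0] [Fintype Ω] (e : Env κ I S X W0 Ω) (om ep : ℕ → ℝ) (hT : TOut e.ok e.L kap e.al om ep e.W e.E)
    (hep : ∀ l, 0 ≤ ep l) (j : ℕ) (hj : 1 ≤ j) (u : Cell κ) (z : Cell κ × Fin (e.L + 1)) (c : {w // w ∈ e.W z.2}) :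
    (((univ : Finset e.Xi).filter fun ξ => e.cls j u (e.upA z ξ c)).card : ℝ) ≤
      ((if geom e.cell kap e.L j u then 1 else 0) + sml e.L ep j) * Fintype.card e.Xi := by
  have hsub : ((univ : Finset e.Xi).filter fun ξ => e.cls j u (e.upA z ξ c)) ⊆
      ((univ : Finset e.Xi).filter fun ξ => j ≤ e.lv (e.up1 ξ.2 z c) u) := by
    intro ξ hξ
    rw [Finset.mem_filter] at hξ ⊢
    refine ⟨Finset.mem_univ _, ?_⟩
    have h7 := (h4 κ X Ω e.ok e.E e.al e.cell e.L (e.vw (e.up1 ξ.2 z c)) u).2.2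
    have h8 : e.yf (e.up1 ξ.2 z c) u = j := hξ.2.1
    calc j = e.yf (e.up1 ξ.2 z c) u := h8.symm
      _ ≤ e.lv (e.up1 ξ.2 z c) u := h7
  have h9 : (((univ : Finset e.Xi).filter fun ξ => e.cls j u (e.upA z ξ c)).card : ℝ) ≤
      (((univ : Finset e.Xi).filter fun ξ => j ≤ e.lv (e.up1 ξ.2 z c) u).card : ℝ) := by
    exact_mod_cast Finset.card_le_card hsub
  have hpl := (h3 κ I S X W0 Ω e om ep hT hep j hj u).2 z c
  have hXi : (Fintype.card e.Xi : ℝ) = Fintype.card (Cell κ → W0) * Fintype.card e.L1 := by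
    rw [Fintype.card_prod]
    push_cast
    rfl
  have hW0 : (0 : ℝ) ≤ Fintype.card (Cell κ → W0) := by positivity
  refine le_trans h9 ?_
  rw [hXi]
  refine le_trans (le_of_eq (pr2_prod (A := Cell κ → W0) (B := e.L1) (fun ω => j ≤ e.lv (e.up1 ω z c) u))) ?_
  refine le_trans (mul_le_mul_of_nonneg_left hpl hW0) (le_of_eq ?_)
  ring

theorem p_pr2 (h1 : S_ups) (h2 : S_bayes) (h3 : S_plev) (h4 : S_fam) (h5 : S_alp) (h6 : S_lawsum) : S_pr2 := by
  intro κ m r S X W0 Ω _ _ _ _ e η x a om ep g δ hok hlv y j hj hjL w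
  have hsml : 0 ≤ sml e.L ep j := pr2_sml_nonneg e.L ep hlv.ep_nonneg j
  have hgeo : (0 : ℝ) ≤ (if geom e.cell kap e.L j y.1 then 1 else 0) := by
    split_ifs <;> norm_num
  have hmin : min j e.L = j := min_eq_left hjL
  by_cases h : w ∈ e.W (min j e.L)
  · have hup := (h1 κ (Ev κ m r) S X W0 Ω e).1 (e.cell y.1, ⟨min j e.L, by omega⟩)
    have hlaw := h6 (Cell κ) (Ev κ m r) S (Cell κ × Od κ m r) (Dir κ m r) e.Xi (e.mod m r)
      (fun ξ p i => (h5 κ (Ev κ m r) S X W0 Ω e η x a hok ξ p i).1)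
    have hb := (h2 e.Xi {w // w ∈ e.W (min j e.L)} (Dir κ m r → S) (fun ξ b => (e.mod m r).law ξ y b) (e.cls j y.1)
      (e.upA (e.cell y.1, ⟨min j e.L, by omega⟩)) hup (fun ξ b => (hlaw ξ y).1 b)
      (fun ξ => (pr2_univ _ _ _).trans (hlaw ξ y).2.1)).2.2.2 ⟨w, h⟩
    have hcard : (Fintype.card {w // w ∈ e.W (min j e.L)} : ℝ) = ((e.W j).card : ℝ) := by
      rw [Fintype.card_coe, hmin]
    have hpos : (0 : ℝ) < ((e.W j).card : ℝ) := by
      have := (hok.nonempty j).card_pos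
      exact_mod_cast this
    have hcnt := pr2_count h3 h4 κ (Ev κ m r) S X W0 Ω e om ep hlv.out hlv.ep_nonneg j hj y.1
      (e.cell y.1, ⟨min j e.L, by omega⟩) ⟨w, h⟩
    have hLHS : ∑ ξ, (if e.cls j y.1 ξ then ∑ b, (e.mod m r).law ξ y b * pR e y j ξ b w else 0) =
        ((e.W j).card : ℝ)⁻¹ * (({ξ | e.cls j y.1 (e.upA (e.cell y.1, ⟨min j e.L, by omega⟩) ξ ⟨w, h⟩)} : Finset e.Xi).card : ℝ) := by
      rw [← hb, hcard, ← mul_assoc, inv_mul_cancel₀ hpos.ne', one_mul]
      apply Finset.sum_congr rfl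
      intro ξ _
      congr 1
      apply Finset.sum_congr rfl
      intro b _
      unfold pR
      rw [dif_pos h]
    rw [hLHS]
    refine le_trans (mul_le_mul_of_nonneg_left hcnt (inv_nonneg.mpr hpos.le)) (le_of_eq ?_)
    ring
  · have h0 : ∀ ξ b, pR e y j ξ b w = 0 := by
      intro ξ b
      unfold pR
      rw [dif_neg h]
    simp only [h0, mul_zero, Finset.sum_const_zero, ite_self]
    positivity

end Pool.Agent.Lib.MP_33d9ce_co.Cst
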