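import Pool.Agent.Lib.MP_33d9ce_co.Cst.CDefs

/-!
# Spanning hypercubes, constant density: levels and their probabilities, statements

Conventions: `d = hammingDist`, `b1 u` the ball of radius 1, `nc cell D u` the set of the cells meeting the ball of radius `D` around `u`.
-/

set_option autoImplicit false

noncomputable section

open Classical Finset

namespace Pool.Agent.Lib.MP_33d9ce_co.Cst

open Slack (Cell Ev Od Dir nbr)

/-- **lip**: `lev` changes by at most 1 over the distance 2.  `Finset.sup_le`, and for each term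
`p.1 + 1 - (d(u,p.2)+1)/2 ≤ p.1 + 1 - (d(u',p.2)+1)/2 + 1` since `d(u',p.2) ≤ d(u,p.2) + 2` (`hammingDist_triangle`). -/
def S_lip : Prop := ∀ (κ : ℕ) (X Ω : Type) [Fintype X] (ok : X → Ω → Prop) (E : ℕ → ℕ → Finset X) (al : ℕ → ℝ)
  (cell : Cell κ → Cell κ) (L : ℕ) (w : Cell κ → ℕ → Ω) (u u' : Cell κ), hammingDist u u' ≤ 2 →
  lev ok E al cell L w u ≤ lev ok E al cell L w u' + 1

/-- **own**: a point which is bad at the level `l < L` has a higher level (the term `p = (l, u)`); `lev ≤ L`. -/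
def S_own : Prop := ∀ (κ : ℕ) (X Ω : Type) [Fintype X] (ok : X → Ω → Prop) (E : ℕ → ℕ → Finset X) (al : ℕ → ℝ)
  (cell : Cell κ → Cell κ) (L : ℕ) (w : Cell κ → ℕ → Ω) (u : Cell κ),
  (∀ l, l < L → bad ok E al cell w l u → l + 1 ≤ lev ok E al cell L w u) ∧ lev ok E al cell L w u ≤ L

/-- **fam**, from `lip`: the levels in the ball of radius 1 around `u` are `yl u` or `yl u + 1` (two points of the ball have distance at most 2;
`Finset.inf'_le`, `Finset.exists_mem_eq_inf'`). -/
def S_fam : Prop := ∀ (κ : ℕ) (X Ω : Type) [Fintype X] (ok : X → Ω → Prop) (E : ℕ → ℕ → Finset X) (al : ℕ → ℝ)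
  (cell : Cell κ → Cell κ) (L : ℕ) (w : Cell κ → ℕ → Ω) (u : Cell κ),
  (∀ v ∈ b1 u, yl ok E al cell L w u ≤ lev ok E al cell L w v ∧ lev ok E al cell L w v ≤ yl ok E al cell L w u + 1) ∧
  (∃ v ∈ b1 u, lev ok E al cell L w v = yl ok E al cell L w u) ∧ yl ok E al cell L w u ≤ lev ok E al cell L w u

/-- **lz**: `lev u` depends only on the labels of the cells meeting the ball of radius `2 L + 1` around `u`: a pair `(j, u1)` with `j < L` and
`d(u,u1) ≥ 2 L` contributes `0` to the supremum; for `d(u,u1) ≤ 2 L` the event `bad j u1` depends only on the labels of the cells in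
`nc cell 1 u1 ⊆ nc cell (2 L + 1) u` (`rr`, `rrm` are equal for the two labellings).  (Compare the suprema by `Finset.sup_le` in both
directions.) -/
def S_lz : Prop := ∀ (κ : ℕ) (X Ω : Type) [Fintype X] (ok : X → Ω → Prop) (E : ℕ → ℕ → Finset X) (al : ℕ → ℝ)
  (cell : Cell κ → Cell κ) (L : ℕ) (w w' : Cell κ → ℕ → Ω) (u : Cell κ),
  (∀ q ∈ nc cell (2 * L + 1) u, ∀ j, w q j = w' q j) →
  lev ok E al cell L w u = lev ok E al cell L w' u ∧ (bad ok E al cell w L u ↔ bad ok E al cell w' L u)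

/-- **lgeo**: the reason for a level `≥ l ≥ 1`.  By `Finset.lt_sup_iff` (or `Finset.exists_mem_eq_sup`) there are `j < L`, `u1` with
`bad j u1` and `l ≤ j + 1 - (d(u,u1)+1)/2`, so `l ≤ j + 1` and `d(u,u1) ≤ 2 (j + 1 - l)`, hence
`nc cell 1 u1 ⊆ nc cell (2 (j+1-l) + 1) u`.  If the latter set has more than `kap j` elements: `geom`, with `i = j`.  Otherwise
`kap j < (nc cell 1 u1).card` is impossible, so `2 ≤ j` and `tbad` holds for the set `nc cell 1 u1`. -/
def S_lgeo : Prop := ∀ (κ : ℕ) (X Ω : Type) [Fintype X] (ok : X → Ω → Prop) (E : ℕ → ℕ → Finset X) (al : ℕ → ℝ)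
  (cell : Cell κ → Cell κ) (L : ℕ) (w : Cell κ → ℕ → Ω) (u : Cell κ) (l : ℕ), 1 ≤ l →
  l ≤ lev ok E al cell L w u → geom cell kap L l u ∨
    ∃ j, 2 ≤ j ∧ l ≤ j + 1 ∧ j < L ∧ (nc cell (2 * (j + 1 - l) + 1) u).card ≤ kap j ∧
      ∃ s ⊆ nc cell (2 * (j + 1 - l) + 1) u, tbad ok E al s w j

/-- **tbt**: `tbad` in terms of `TB` (label families indexed by the cells of `s`).  `AA` is `rr`, `AAl` at `q` is `rrm` at `(q, l-1)`, `AAr` at `q` is
`rrm` at `(q, l)` (`l - 1 ≠ l`). -/
def S_tbt : Prop := ∀ (κ : ℕ) (X Ω : Type) [Fintype X] (ok : X → Ω → Prop) (E : ℕ → ℕ → Finset X) (al : ℕ → ℝ)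
  (s : Finset (Cell κ)) (w : Cell κ → ℕ → Ω) (l : ℕ), 1 ≤ l →
  (tbad ok E al s w l ↔ TB ok (E l (Fintype.card {q // q ∈ s})) (al l) (fun q : {q // q ∈ s} => w q.1 (l - 1))
    (fun q : {q // q ∈ s} => w q.1 l))

/-- **marg**: marginals of a product set.  For `q : Z → Finset Ω` nonempty and an injective `h : K → Z` the restriction of a uniform
element of `piFinset W` to `K` is uniform in `piFinset (W ∘ h)`.  (Count the `ω` with `ω ∘ h = g`: `∏_{z not in the range} |W z|`;
`Fintype.card_piFinset`; for instance through the functions which are constant on the range, or by induction; or through the equivalence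
`(K ⊕ {z // z ∉ range h} → Ω) ≃ (Z → Ω)`.) -/
def S_marg : Prop := ∀ (Z K Ω : Type) [Fintype Z] [Fintype K] (W : Z → Finset Ω) (h : K → Z) (G : (K → Ω) → Prop),
  Function.Injective h → (∀ z, (W z).Nonempty) →
  (((Fintype.piFinset W).filter fun ω => G (fun k => ω (h k))).card : ℝ) * (Fintype.piFinset fun k => W (h k)).card =
    ((Fintype.piFinset fun k => W (h k)).filter G).card * (Fintype.piFinset W).card

/-- **ptb**, from `tbt`, `marg`: the probability that the labels of `s` are bad at the level `l` is at most `ep l`, also if one label `z` is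
prescribed.  `card e.L1 = (piFinset (fun z => e.W z.2)).card`; `vw ω q j = ω (q, j)` for `j ≤ L`.  Let `K = {q // q ∈ s} ⊕ {q // q ∈ s}`,
`h (inl q) = (q, l-1)`, `h (inr q) = (q, l)` (injective); `piFinset (W ∘ h)` corresponds to `prs`.  Unconditional: first part of `TOut`.  With the
label `z` replaced by `c`: if `z` is not of the form `h k` then `tbad` does not depend on it; if `z = h k`, then
`|W z| #{ω | tbad (up1 ω z c)} = ∑_{c'} ... `: the number of `ω` with `tbad (up1 ω z c)` is `|W z|` times the number of `ω` with `ω z = c` and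
`tbad ω` (bijection `(ω, c') ↦ up1 ω z c'`), and the latter is given by the second or third part of `TOut`. -/
def S_ptb : Prop := ∀ (κ : ℕ) (I S X W0 Ω : Type) [Fintype I] [Fintype S] [Fintype X] [Fintype W0] [Fintype Ω]
  (e : Env κ I S X W0 Ω) (om ep : ℕ → ℝ), TOut e.ok e.L kap e.al om ep e.W e.E →
  ∀ l, 2 ≤ l → l ≤ e.L → ∀ s : Finset (Cell κ), s.card ≤ kap l →
  (((univ : Finset e.L1).filter fun ω => tbad e.ok e.E e.al s (e.vw ω) l).card : ℝ) ≤ ep l * Fintype.card e.L1 ∧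
  ∀ z c, (((univ : Finset e.L1).filter fun ω => tbad e.ok e.E e.al s (e.vw (e.up1 ω z c)) l).card : ℝ) ≤
    ep l * Fintype.card e.L1

/-- the probability of a high level for label reasons -/
def sml (L : ℕ) (ep : ℕ → ℝ) (l : ℕ) : ℝ := ∑ j ∈ (Ico 2 L).filter (fun j => l ≤ j + 1), 2 ^ kap j * ep j

/-- **plev**, from `lgeo`, `ptb`: the probability of a level `≥ l`, also if one label is prescribed.  If `geom` holds the bound is trivial (`sml ≥ 0`,
the left side is at most `card L1`).  Otherwise union bound over `j` and the subsets `s` of `nc cell (2 (j+1-l) + 1) u`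
(at most `2 ^ kap j` subsets, only for `j` with `(nc ..).card ≤ kap j`; `s.card ≤ kap j`, `j ≤ L`). -/
def S_plev : Prop := ∀ (κ : ℕ) (I S X W0 Ω : Type) [Fintype I] [Fintype S] [Fintype X] [Fintype W0] [Fintype Ω]
  (e : Env κ I S X W0 Ω) (om ep : ℕ → ℝ), TOut e.ok e.L kap e.al om ep e.W e.E → (∀ l, 0 ≤ ep l) →
  ∀ l, 1 ≤ l → ∀ u,
  (((univ : Finset e.L1).filter fun ω => l ≤ e.lv ω u).card : ℝ) ≤
    ((if geom e.cell kap e.L l u then 1 else 0) + sml e.L ep l) * Fintype.card e.L1 ∧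
  ∀ z c, (((univ : Finset e.L1).filter fun ω => l ≤ e.lv (e.up1 ω z c) u).card : ℝ) ≤
    ((if geom e.cell kap e.L l u then 1 else 0) + sml e.L ep l) * Fintype.card e.L1

/-- **pgood**, from `plev`, `ptb`, `own`: the probability of not good labels.  (1) `bad L u` for some `u`: `(nc cell 1 u).card ≤ κ + 1 ≤ kap L`
(the ball of radius 1 has `κ + 1` points), so `tbad` holds; union bound: `2^κ * ep L`.  (2) Markov for
`∑_{u : 2 ≤ lv u} (al (lv u))⁻¹ ≤ ∑_{l=2}^{L} ∑_u [l ≤ lv u] (al l)⁻¹` (the term `l = lv u ≤ L`), with expectation at most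
`∑_l (al l)⁻¹ (g l + sml l) 2^κ`. -/
def S_pgood : Prop := ∀ (κ : ℕ) (I S X W0 Ω : Type) [Fintype I] [Fintype S] [Fintype X] [Fintype W0] [Fintype Ω]
  (e : Env κ I S X W0 Ω) (η x : ℝ) (a : ℕ) (om ep g : ℕ → ℝ), e.Ok η x a → TOut e.ok e.L kap e.al om ep e.W e.E →
  (∀ l, 0 ≤ ep l) →
  (∀ l, 1 ≤ l → l ≤ e.L → (({u | geom e.cell kap e.L l u} : Finset (Cell κ)).card : ℝ) ≤ g l * 2 ^ κ) →
  (((univ : Finset e.Xi).filter fun ξ => ¬ e.good ξ).card : ℝ) ≤
    (2 ^ κ * ep e.L + 1000 * ∑ l ∈ Icc 2 e.L, (e.al l)⁻¹ * (g l + sml e.L ep l)) * Fintype.card e.Xi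

end Pool.Agent.Lib.MP_33d9ce_co.Cst
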