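import Pool.Agent.Lib.MP_33d9ce_co.Cst.StmC1

/-!
# Spanning hypercubes, constant density: allowed positions, hats, locality, statements

Conventions: `d = hammingDist`; `(nbr y t).1 = y.1 + dc t` lies in `b1 y.1` (`dc t` has at most one nonzero coordinate), and then
`e.cell y.1 ∈ nc e.cell 1 (nbr y t).1`.
-/

set_option autoImplicit false

noncomputable section

open Classical Finset

namespace Pool.Agent.Lib.MP_33d9ce_co.Cst

open Slack (Cell Ev Od Dir nbr)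

/-- **nb1**: the base points of the neighbours of `y`.  `hammingDist y.1 (y.1 + dc t) ≤ 1`: for `t = inl i` they differ only in the
coordinate `i`, for `t = inr _` not at all. -/
def S_nb1 : Prop := ∀ (κ m r : ℕ) (y : Cell κ × Od κ m r) (t : Dir κ m r),
  (nbr y t).1 ∈ b1 y.1 ∧ ∀ cell : Cell κ → Cell κ, cell y.1 ∈ nc cell 1 (nbr y t).1

/-- **ups**: the two resamplings.  `idem`: `Function.update_idem`; `real`: take the old label (`Function.update_eq_self`); `avg`: the map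
`(ξ, c) ↦ (up ξ c, old label)` is an involution of `Xi × C` (see `resample` in `Star/ExA.lean`). -/
def S_ups : Prop := ∀ (κ : ℕ) (I S X W0 Ω : Type) [Fintype I] [Fintype S] [Fintype X] [Fintype W0] [Fintype Ω]
  (e : Env κ I S X W0 Ω), (∀ z, Up (e.upA z)) ∧ ∀ q, Up (e.up0 q)

/-- **size**: cardinalities of the sets of allowed positions.  (1) `l ≤ 1`: at most `kap 0` cells, each kills at most `4 η 2^κ + a η 2^κ`
positions (`fair0`, `fair1`), so `(pos l).card ≥ |S| - kap 0 (4 + a) η 2^κ ≥ (17/16 - 1/32) 2^κ` (`cardS`, `room`; `(33/32)`).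
(2) `2 ≤ l`: `pos l = {s | f i s ∈ rr}` and `posm l = {s | f i s ∈ rrm}`; with `p = |rr|/|X| ≥ al l ≥ 8 x` and `|rrm| ≤ 2 |rr|`:
`|pos| ≥ |S| (p - x) ≥ |S| al l / 2` and `|posm| ≤ |S| (2 p + x) ≤ 3 |S| (p - x) ≤ 3 |pos|`. -/
def S_size : Prop := ∀ (κ : ℕ) (I S X W0 Ω : Type) [Fintype I] [Fintype S] [Fintype X] [Fintype W0] [Fintype Ω]
  (e : Env κ I S X W0 Ω) (η x : ℝ) (a : ℕ), e.Ok η x a → ∀ (ξ : e.Xi) (u : Cell κ) (i : I) (l : ℕ),
  (l ≤ 1 → (nc e.cell 1 u).card ≤ kap 0 → 33 / 32 * 2 ^ κ ≤ ((e.pos l ξ u i).card : ℝ)) ∧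
  (2 ≤ l → l ≤ e.L → ¬ tbad e.ok e.E e.al (nc e.cell 1 u) (e.vw ξ.2) l →
    e.al l / 2 * Fintype.card S ≤ ((e.pos l ξ u i).card : ℝ) ∧
    ∀ q ∈ nc e.cell 1 u, ∀ j, (j = l - 1 ∨ j = l) → (e.posm l ξ u i (q, j)).card ≤ 3 * (e.pos l ξ u i).card)

/-- **alp**, from `size`, `own`: the allowed positions.  If `lv u = l < L` then `¬ bad l u` by `own`.  If `l ≤ 1` (`< L` by `L_ge`): so
`(nc cell 1 u).card ≤ kap l = kap 0`.  `S` is nonempty by `cardS`. -/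
def S_alp : Prop := ∀ (κ : ℕ) (I S X W0 Ω : Type) [Fintype I] [Fintype S] [Fintype X] [Fintype W0] [Fintype Ω]
  (e : Env κ I S X W0 Ω) (η x : ℝ) (a : ℕ), e.Ok η x a → ∀ (ξ : e.Xi) (u : Cell κ) (i : I),
  (e.alw ξ u i).Nonempty ∧
  (e.lv ξ.2 u ≤ 1 → e.alw ξ u i = e.pos (e.lv ξ.2 u) ξ u i ∧ 33 / 32 * 2 ^ κ ≤ ((e.alw ξ u i).card : ℝ)) ∧
  (2 ≤ e.lv ξ.2 u → ¬ e.bd ξ.2 e.L u → e.alw ξ u i = e.pos (e.lv ξ.2 u) ξ u i ∧
    ¬ tbad e.ok e.E e.al (nc e.cell 1 u) (e.vw ξ.2) (e.lv ξ.2 u) ∧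
    e.al (e.lv ξ.2 u) / 2 * Fintype.card S ≤ ((e.alw ξ u i).card : ℝ))

/-- **col**, from `alp`: column sums for good labels.  The points with `lv u ≤ 1` contribute at most
`2^κ / (33/32 2^κ) = 32/33`, the others at most `∑ 2 / (al (lv u) |S|) ≤ 2 * (16/17) 2^(-κ) * 2^κ / 1000`. -/
def S_col : Prop := ∀ (κ : ℕ) (I S X W0 Ω : Type) [Fintype I] [Fintype S] [Fintype X] [Fintype W0] [Fintype Ω]
  (e : Env κ I S X W0 Ω) (η x : ℝ) (a : ℕ), e.Ok η x a → ∀ ξ : e.Xi, e.good ξ → ∀ (i : I) (s : S),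
  ∑ u, (if s ∈ e.alw ξ u i then ((e.alw ξ u i).card : ℝ)⁻¹ else 0) ≤ 1

/-- **hatR**, from `nb1`, `size`, `alp`, `fam`: the hat of the family `j ≥ 1`.  For a direction `t` let `(v, i) = nbr y t`, `q = e.cell y.1`,
`z = (q, j)`, `Lt l = posm l ξ v i (q, j)` for `l = j, j + 1`; it does not change if the label `z` of `ξ` is replaced.  Let
`hat a = ∏ t, ∑ l ∈ {j, j+1}, (if a t ∈ Lt l then 3 / |Lt l| else 0)`; `∑ a, hat a = ∏ t, ∑ l ... ≤ 6 ^ |Dir|`.  If `cls j y.1 ξ'`,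
`ξ' = upA z ξ c`, then `l = lv v` is `j` or `j + 1` (`fam`), `l ≤ L`, not `bd L v`, so (`alp`) `alw ξ' v i = pos l ξ' v i ⊆ posm l ξ' v i (q,j) = Lt l`
and `|Lt l| ≤ 3 |pos l ξ' v i|` by `size` (for `l = 1`: `|Lt 1| ≤ |S| = 17/16 2^κ ≤ 3 * 33/32 2^κ`), so the factor `u ξ' v i (a t)` of `law` is at
most the term `l` of the sum. -/
def S_hatR : Prop := ∀ (κ m r : ℕ) (S X W0 Ω : Type) [Fintype S] [Fintype X] [Fintype W0] [Fintype Ω]
  (e : Env κ (Ev κ m r) S X W0 Ω) (η x : ℝ) (a : ℕ), e.Ok η x a → ∀ (y : Cell κ × Od κ m r) (j : ℕ) (_ : 1 ≤ j)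
  (hj : j < e.L + 1) (ξ : e.Xi), ∃ hat : (Dir κ m r → S) → ℝ, (∀ b, 0 ≤ hat b) ∧
    ∑ b, hat b ≤ 6 ^ Fintype.card (Dir κ m r) ∧
    ∀ c, e.cls j y.1 (e.upA (e.cell y.1, ⟨j, hj⟩) ξ c) →
      ∀ b, (e.mod m r).law (e.upA (e.cell y.1, ⟨j, hj⟩) ξ c) y b ≤ hat b

/-- **hat0**, from `nb1`, `alp`, `fam`: the hat of the family 0.  The family `yf` and the levels do not depend on `ξ.1`.  Suppose `yf = 0` (otherwise take
`hat = 0`).  For `(v, i) = nbr y t` the level of `v` is `0` or `1`; let `L0` be the set of the positions `s` satisfying the conditions of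
`pos (lv v) ξ v i` except the one for the label of family 0 of `q = e.cell y.1`.  `alw (up0 q ξ c) v i = {s ∈ L0 | ok0 (f i s) c}` has at least
`33/32 2^κ` elements and at least `|L0| - 4 η 2^κ ≥ (1 - 4η) |L0|`.  `hat a = ∏ t, if a t ∈ L0 then ((1 - 4η) |L0|)⁻¹ else 0`
(see `exists_hat` in `Star/Law.lean`); `4 η < 1` by `room`. -/
def S_hat0 : Prop := ∀ (κ m r : ℕ) (S X W0 Ω : Type) [Fintype S] [Fintype X] [Fintype W0] [Fintype Ω]
  (e : Env κ (Ev κ m r) S X W0 Ω) (η x : ℝ) (a : ℕ), e.Ok η x a → ∀ (y : Cell κ × Od κ m r) (ξ : e.Xi),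
  ∃ hat : (Dir κ m r → S) → ℝ, (∀ b, 0 ≤ hat b) ∧
    ∑ b, hat b ≤ ((1 - 4 * η) ^ Fintype.card (Dir κ m r))⁻¹ ∧
    ∀ c, e.yf (e.up0 (e.cell y.1) ξ c).2 y.1 = 0 →
      ∀ b, (e.mod m r).law (e.up0 (e.cell y.1) ξ c) y b ≤ hat b

/-- **sup**, from `nb1`, `alp`, `fam`: images of positive probability are compatible with the label of `y`, and odd vertices of the family 0 have
neighbours with many allowed positions.  For `law ≠ 0` every `a t` is in `alw ξ v i = pos l ξ v i`, `(v, i) = nbr y t`, `l = lv v`,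
`q = e.cell y.1 ∈ nc e.cell 1 v`.  Family `j ≥ 1`: `l = j`: the label `(q, l)`; `l = j + 1`: the label `(q, l - 1)`, in `rr` if `l ≥ 2`; `l = 1 = j`: second
condition of `pos`.  Family 0: first condition (`l ≤ 1`). -/
def S_sup : Prop := ∀ (κ m r : ℕ) (S X W0 Ω : Type) [Fintype S] [Fintype X] [Fintype W0] [Fintype Ω]
  (e : Env κ (Ev κ m r) S X W0 Ω) (η x : ℝ) (a : ℕ), e.Ok η x a → ∀ (y : Cell κ × Od κ m r) (ξ : e.Xi),
  (∀ j, 1 ≤ j → j ≤ e.L → e.cls j y.1 ξ → ∀ b, (e.mod m r).law ξ y b ≠ 0 →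
    ∀ t, e.ok (e.f (nbr y t).2 (b t)) (e.vw ξ.2 (e.cell y.1) j)) ∧
  (e.yf ξ.2 y.1 = 0 → (∀ b, (e.mod m r).law ξ y b ≠ 0 → ∀ t, e.ok0 (e.f (nbr y t).2 (b t)) (ξ.1 (e.cell y.1))) ∧
    ∀ t, Fintype.card (Cell κ) ≤ (e.alw ξ (nbr y t).1 (nbr y t).2).card)

/-- **loc**, from `nb1`, `lz`: locality.  For `v ∈ b1 u` all labels which matter for `lv v`, `bd L v`, `alw ξ v i` are labels of cells in
`nc e.cell (2 L + 1) v ⊆ zone u`.  (4), (5): if `ξ`, `ξ'` agree on `A` then so do the updated labels. -/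
def S_loc : Prop := ∀ (κ m r : ℕ) (S X W0 Ω : Type) [Fintype S] [Fintype X] [Fintype W0] [Fintype Ω]
  (e : Env κ (Ev κ m r) S X W0 Ω),
  (∀ u, e.Loc (e.zone u) (fun ξ => e.yf ξ.2 u)) ∧ (∀ j u, e.Loc (e.zone u) (fun ξ => e.cls j u ξ)) ∧
  (∀ (y : Cell κ × Od κ m r) b, e.Loc (e.zone y.1) (fun ξ => (e.mod m r).law ξ y b)) ∧
  (∀ (A : Finset (Cell κ)) (β : Type) (F : e.Xi → β) z c, e.Loc A F → e.Loc A (fun ξ => F (e.upA z ξ c))) ∧
  ∀ (A : Finset (Cell κ)) (β : Type) (F : e.Xi → β) q c, e.Loc A F → e.Loc A (fun ξ => F (e.up0 q ξ c))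

/-- **fac**, from `ind`: functions depending on disjoint sets of cells (use `pc A` in `ind`). -/
def S_fac : Prop := ∀ (κ : ℕ) (I S X W0 Ω : Type) [Fintype I] [Fintype S] [Fintype X] [Fintype W0] [Fintype Ω]
  (e : Env κ I S X W0 Ω) (A A' : Finset (Cell κ)) (F F' : e.Xi → ℝ), e.Loc A F → e.Loc A' F' → Disjoint A A' →
  (Fintype.card e.Xi : ℝ) * ∑ ξ, F ξ * F' ξ = (∑ ξ, F ξ) * ∑ ξ, F' ξ

/-- odd vertices with common groups or common zones -/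
def near {κ m r : ℕ} {S X W0 Ω : Type} [Fintype S] [Fintype X] [Fintype W0] [Fintype Ω]
    (e : Env κ (Ev κ m r) S X W0 Ω) (y y' : Cell κ × Od κ m r) : Prop :=
  (∃ t t', (nbr y t).2 = (nbr y' t').2) ∨ ¬ Disjoint (e.zone y.1) (e.zone y'.1)

/-- **near**: few near pairs.  A ball of radius `D` in `Cell κ` has at most `(κ+1)^D` points (induction, see `S_poly`, `P_poly.lean` in `Star`).  If the zones of
`u`, `u'` meet there are `z` within `D = 2L+4` of `u` and `z'` within `D` of `u'` with the same cell: at most `(κ+1)^D δ (κ+1)^D` points `u'`.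
Common groups: `y'.2.1 = y.2.1 + dg t + dg t'` and `y'.1` arbitrary (see `far_count` in `Star/Cube.lean`, `cube_two`). -/
def S_near : Prop := ∀ (κ m r : ℕ) (S X W0 Ω : Type) [Fintype S] [Fintype X] [Fintype W0] [Fintype Ω]
  (e : Env κ (Ev κ m r) S X W0 Ω) (δ : ℝ), (∀ u, (({v | e.cell v = e.cell u} : Finset (Cell κ)).card : ℝ) ≤ δ) →
  (∀ y y', near e y y' → near e y' y) ∧
  ∀ y, (({y' | near e y y'} : Finset (Cell κ × Od κ m r)).card : ℝ) ≤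
    (κ + 1) ^ (4 * e.L + 8) * δ * Fintype.card (Od κ m r) + (Fintype.card (Dir κ m r)) ^ 2 * 2 ^ κ

end Pool.Agent.Lib.MP_33d9ce_co.Cst
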