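import Pool.Agent.Lib.MP_33d9ce_co.Cst.C3Defs

/-!
# Spanning hypercubes, constant density: rows and their expectations, statements

For `1 ≤ j ≤ L` the index `⟨min j e.L, _⟩` in `pR` is `j` (use `have e1 : e.cls (min j e.L) = e.cls j := by rw [h]` etc.).
Abbreviations in the docstrings: `Y = Cell κ × Od κ m r`, `n = |Dir κ m r|`, `law = (e.mod m r).law`, `q = e.cell y.1`,
`P(..)` = proportion of the `ξ : e.Xi`.  From `S_lawsum`: `law ξ y` is a probability distribution (`alw` is nonempty by `S_alp`);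
`Function.Injective fun t => ((e.mod m r).nb y t).2` is the statement `S_inj`.
-/

set_option autoImplicit false

noncomputable section

open Classical Finset

namespace Pool.Agent.Lib.MP_33d9ce_co.Cst

open Slack (Cell Ev Od Dir nbr shift)

/-- **inj**: the neighbours of `y` lie in different groups (`cube_dg_inj` in `Star/Cube.lean`, private there: copy). -/
def S_inj : Prop := ∀ (κ m r : ℕ) (y : Cell κ × Od κ m r), Function.Injective fun t : Dir κ m r => (nbr y t).2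

/-- **pr1**: elementary properties of `pR`, from `ups`, `bayes`, `sup`, `alp`, `lawsum`.  (3): `∑ w, pR = ∑ c : {w // w ∈ W j}, post = 1` by the third part of
`bayes` (`min j L = j`).  (4): `post ≠ 0` gives `cls j y.1 ξ'` and `law ξ' y b ≠ 0` for `ξ' = upA z ξ ⟨w, _⟩`; apply `sup` to `ξ'`, whose label
`vw ξ'.2 q j` is `w` (`Function.update_self`). -/
def S_pr1 : Prop := ∀ (κ m r : ℕ) (S X W0 Ω : Type) [Fintype S] [Fintype X] [Fintype W0] [Fintype Ω]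
  (e : Env κ (Ev κ m r) S X W0 Ω) (η x : ℝ) (a : ℕ), e.Ok η x a → ∀ (y : Cell κ × Od κ m r) (j : ℕ), 1 ≤ j → j ≤ e.L →
  ∀ (ξ : e.Xi) (b : Dir κ m r → S),
  (∀ w, 0 ≤ pR e y j ξ b w) ∧ ∑ w, pR e y j ξ b w ≤ 1 ∧
  (e.cls j y.1 ξ → (e.mod m r).law ξ y b ≠ 0 → ∑ w, pR e y j ξ b w = 1) ∧
  ∀ w, pR e y j ξ b w ≠ 0 → w ∈ e.W j ∧ ∀ t, e.ok (e.f (nbr y t).2 (b t)) w

/-- **pr2**: the expectation of `pR`, from `ups`, `bayes`, `plev`, `fam`, `alp`, `lawsum`.  For `w ∈ W j` by the fourth part of `bayes` the left side is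
`|W j|⁻¹ #{ξ | cls j y.1 (upA z ξ w)}`, and `cls j y.1 ξ'` implies `j = yf ≤ lv` at `y.1` (`fam`), so `plev` (second part, `l = j`; `Xi` is a product,
only the second component matters).  For `w ∉ W j` the left side is 0. -/
def S_pr2 : Prop := ∀ (κ m r : ℕ) (S X W0 Ω : Type) [Fintype S] [Fintype X] [Fintype W0] [Fintype Ω]
  (e : Env κ (Ev κ m r) S X W0 Ω) (η x : ℝ) (a : ℕ) (om ep g : ℕ → ℝ) (δ : ℝ), e.Ok η x a → Lvl e om ep g δ →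
  ∀ (y : Cell κ × Od κ m r) (j : ℕ), 1 ≤ j → j ≤ e.L → ∀ w,
  ∑ ξ, (if e.cls j y.1 ξ then ∑ b, (e.mod m r).law ξ y b * pR e y j ξ b w else 0) ≤
    (((if geom e.cell kap e.L j y.1 then 1 else 0) + sml e.L ep j) * ((e.W j).card : ℝ)⁻¹) * Fintype.card e.Xi

/-- **pr3**: large atoms are rare, from `ups`, `big`, `hatR`, `alp`, `lawsum` (`C = {w // w ∈ W j}`, `z = z0`, `Λ = 6^n`). -/
def S_pr3 : Prop := ∀ (κ m r : ℕ) (S X W0 Ω : Type) [Fintype S] [Fintype X] [Fintype W0] [Fintype Ω]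
  (e : Env κ (Ev κ m r) S X W0 Ω) (η x : ℝ) (a : ℕ), e.Ok η x a → ∀ (y : Cell κ × Od κ m r) (j : ℕ), 1 ≤ j → j ≤ e.L →
  ∀ z0 : ℝ, 0 ≤ z0 →
  ∑ ξ, (if e.cls j y.1 ξ then ∑ b, (e.mod m r).law ξ y b * (if bigR e z0 y j ξ b then 1 else 0) else 0) ≤
    z0 * 6 ^ Fintype.card (Dir κ m r) * Fintype.card e.Xi

/-- **pr4**: locality of `pR`, `pR0`, from `loc`: sums, quotients and conditionals of local functions (`post` and `pw` are built from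
`law (up ξ c) y b` and `cls (up ξ c)`); note that all of them are functions of `ξ` only through local functions. -/
def S_pr4 : Prop := ∀ (κ m r : ℕ) (S X W0 Ω : Type) [Fintype S] [Fintype X] [Fintype W0] [Fintype Ω]
  (e : Env κ (Ev κ m r) S X W0 Ω) (y : Cell κ × Od κ m r) (b : Dir κ m r → S),
  (∀ j w, e.Loc (e.zone y.1) (fun ξ => pR e y j ξ b w)) ∧ (∀ z0 j, e.Loc (e.zone y.1) (fun ξ => bigR e z0 y j ξ b)) ∧
  ∀ w, e.Loc (e.zone y.1) (fun ξ => pR0 e y ξ b w)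

/-- **fr1**: the rows `Fr`, from `pr1`, `trunc`.  At most one `j` has `cls j y.1 ξ` (`j = yf`).  If `cls j`, `law ≠ 0` and not `bigR` then `r = pR e y j ξ b` is a
distribution with `r w * |B|^aa ≤ Dn` (`r w * (z0 |W j|) ≤ 1`, `dens`), so `trunc` applies (mass `≥ 1`, atoms, `≤ 2`).  If `cls j`, not `bigR` but `law = 0` the row may have
a smaller mass: the bounds (1) still hold (`trc r H v * |B| ≤ 2 H` and `∑ v, trc r H v ≤ 2/aa * ∑ i ∑ v mg r i v ≤ 2` for every nonnegative `r` with sum `≤ 1`,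
directly from the definitions).  Support: `trc r H v ≠ 0` gives `mg r i v ≠ 0` for some `i`, so `r w ≠ 0` for some `w` with `w i = v`, and (4) of `pr1`.  Last claim: the
`w` with `r w ≠ 0` lie in `Fintype.piFinset fun _ => Cv`, `Cv = {v | ∀ t, adj ..}`, and `1 = ∑ r w ≤ #{w | r w ≠ 0} / (z0 |W j|)`. -/
def S_fr1 : Prop := ∀ (κ m r aa : ℕ) (S X W0 B : Type) [Fintype S] [Fintype X] [Fintype W0] [Fintype B]
  (e : Env κ (Ev κ m r) S X W0 (Fin aa → B)) (η x : ℝ) (z0 H Dn : ℝ) (t : ℕ) (adj : X → B → Prop), e.Ok η x aa →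
  Trn e z0 H Dn t → (∀ x' w, e.ok x' w ↔ ∀ i, adj x' (w i)) → ∀ (y : Cell κ × Od κ m r) (ξ : e.Xi) (b : Dir κ m r → S),
  (∀ v, 0 ≤ Fr e z0 H y v ξ b) ∧ (∀ v, Fr e z0 H y v ξ b * Fintype.card B ≤ 2 * H) ∧ ∑ v, Fr e z0 H y v ξ b ≤ 2 ∧
  (∀ v, Fr e z0 H y v ξ b ≤ ∑ j ∈ Icc 1 e.L, if e.cls j y.1 ξ then 2 / aa * ∑ i, mg (pR e y j ξ b) i v else 0) ∧
  (∀ v, Fr e z0 H y v ξ b ≠ 0 → ∀ t, adj (e.f (nbr y t).2 (b t)) v) ∧
  ∀ j, 1 ≤ j → j ≤ e.L → e.cls j y.1 ξ → (e.mod m r).law ξ y b ≠ 0 → ¬ bigR e z0 y j ξ b →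
    1 ≤ ∑ v, Fr e z0 H y v ξ b ∧
    z0 * (e.W j).card ≤ ((({v | ∀ t, adj (e.f (nbr y t).2 (b t)) v} : Finset B).card : ℝ)) ^ aa

/-- **load**: the expected loads, from `fr1`, `pr2`, `im`, `inj`, `lin`.  `Ex Fr ≤ ∑ j (2/aa) ∑ i ∑ {w : w i = v} |Xi|⁻¹ ∑ ξ [cls j] ∑ b law * pR w` and for every `i` there are
`|B|^(aa-1)` such `w`; then sum over `y = (u, g)` with `geo`. -/
def S_load : Prop := ∀ (κ m r aa : ℕ) (S X W0 B : Type) [Fintype S] [Fintype X] [Fintype W0] [Fintype B]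
  (e : Env κ (Ev κ m r) S X W0 (Fin aa → B)) (η x : ℝ) (z0 H Dn : ℝ) (t : ℕ) (adj : X → B → Prop) (om ep g : ℕ → ℝ) (δ : ℝ)
  (μ : e.Xi → Ev κ m r → (Cell κ → S) → ℝ), e.Ok η x aa →
  Trn e z0 H Dn t → (∀ x' w, e.ok x' w ↔ ∀ i, adj x' (w i)) → Lvl e om ep g δ → (e.mod m r).IsLaw e.good μ → ∀ v,
  ∑ y, Ex μ (fun ξ σ => Fr e z0 H y v ξ ((e.mod m r).im σ y)) ≤
    ∑ j ∈ Icc 1 e.L, 2 * (Fintype.card B : ℝ) ^ (aa - 1) * ((e.W j).card : ℝ)⁻¹ * ((g j + sml e.L ep j) * 2 ^ κ) *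
      Fintype.card (Od κ m r)

/-- **varR**: the second moment of the loads, from `L2`, `fr1`, `im`, `inj`, `fac`, `loc`, `pr4`, `near`, `lin`.  `Φ y v ξ σ = Fr y v ξ (im σ y)`.  Not near: no common
groups and disjoint zones, so by `im` (second part) `Ex (Φ y v Φ y' v) = |Xi|⁻¹ ∑ ξ G ξ * G' ξ` with `G ξ = ∑ b law ξ y b * Fr y v ξ b` local in `zone y.1`
(`loc`, `pr4`), then `fac`.  `∑ v Φ^2 ≤ (2H/|B|) ∑ v Φ ≤ 4H/|B|`. -/
def S_varR : Prop := ∀ (κ m r aa : ℕ) (S X W0 B : Type) [Fintype S] [Fintype X] [Fintype W0] [Fintype B]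
  (e : Env κ (Ev κ m r) S X W0 (Fin aa → B)) (η x : ℝ) (z0 H Dn : ℝ) (t : ℕ) (adj : X → B → Prop) (Δ : ℝ)
  (μ : e.Xi → Ev κ m r → (Cell κ → S) → ℝ), e.Ok η x aa →
  Trn e z0 H Dn t → (∀ x' w, e.ok x' w ↔ ∀ i, adj x' (w i)) → (e.mod m r).IsLaw e.good μ →
  (∀ y, (({y' | near e y y'} : Finset (Cell κ × Od κ m r)).card : ℝ) ≤ Δ) →
  Ex μ (fun ξ σ => ∑ v, ((∑ y, Fr e z0 H y v ξ ((e.mod m r).im σ y)) -
      ∑ y, Ex μ (fun ξ σ => Fr e z0 H y v ξ ((e.mod m r).im σ y))) ^ 2) ≤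
    Δ * (Fintype.card (Cell κ × Od κ m r) * (4 * H / Fintype.card B))

/-- **bigE**: large atoms, from `pr3`, `im`, `inj`, `lin`. -/
def S_bigE : Prop := ∀ (κ m r : ℕ) (S X W0 Ω : Type) [Fintype S] [Fintype X] [Fintype W0] [Fintype Ω]
  (e : Env κ (Ev κ m r) S X W0 Ω) (η x : ℝ) (a : ℕ) (z0 : ℝ)
  (μ : e.Xi → Ev κ m r → (Cell κ → S) → ℝ), e.Ok η x a → 0 ≤ z0 → (e.mod m r).IsLaw e.good μ →
  Ex μ (fun ξ σ => ∑ y : Cell κ × Od κ m r, ∑ j ∈ Icc 1 e.L,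
      if e.cls j y.1 ξ ∧ bigR e z0 y j ξ ((e.mod m r).im σ y) then (1 : ℝ) else 0) ≤
    Fintype.card (Cell κ × Od κ m r) * (e.L * (z0 * 6 ^ Fintype.card (Dir κ m r)))

/-- **p01**: elementary properties of `pR0`, from `ups`, `bayes`, `sup`, `alp`, `lawsum`. -/
def S_p01 : Prop := ∀ (κ m r : ℕ) (S X W0 Ω : Type) [Fintype S] [Fintype X] [Fintype W0] [Fintype Ω]
  (e : Env κ (Ev κ m r) S X W0 Ω) (η x : ℝ) (a : ℕ), e.Ok η x a → ∀ (y : Cell κ × Od κ m r)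
  (ξ : e.Xi) (b : Dir κ m r → S),
  (∀ w, 0 ≤ pR0 e y ξ b w) ∧ (e.yf ξ.2 y.1 ≠ 0 → ∀ w, pR0 e y ξ b w = 0) ∧
  (e.yf ξ.2 y.1 = 0 → (e.mod m r).law ξ y b ≠ 0 → ∑ w, pR0 e y ξ b w = 1) ∧
  ∀ w, pR0 e y ξ b w ≠ 0 → ∀ t, e.ok0 (e.f (nbr y t).2 (b t)) w

/-- **p02**: moments of `pR0`, from `ups`, `bayes`, `sq`, `hat0`, `im`, `inj`, `lin`, `alp`, `lawsum`.  First: fourth part of `bayes`, the class `yf = 0` does not depend on
`ξ.1`.  Second: `sq` with `Λ = ((1-4η)^n)⁻¹`. -/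
def S_p02 : Prop := ∀ (κ m r : ℕ) (S X W0 Ω : Type) [Fintype S] [Fintype X] [Fintype W0] [Fintype Ω]
  (e : Env κ (Ev κ m r) S X W0 Ω) (η x : ℝ) (a : ℕ)
  (μ : e.Xi → Ev κ m r → (Cell κ → S) → ℝ), e.Ok η x a → (e.mod m r).IsLaw e.good μ → ∀ y : Cell κ × Od κ m r,
  (∀ w, Ex μ (fun ξ σ => pR0 e y ξ ((e.mod m r).im σ y) w) =
    (Fintype.card W0 : ℝ)⁻¹ * (({ξ | e.yf ξ.2 y.1 = 0} : Finset e.Xi).card / Fintype.card e.Xi)) ∧
  Ex μ (fun ξ σ => ∑ w, pR0 e y ξ ((e.mod m r).im σ y) w ^ 2) ≤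
    ((1 - 4 * η) ^ Fintype.card (Dir κ m r))⁻¹ * (Fintype.card W0 : ℝ)⁻¹

/-- **var0**: the second moment of the column sums of the family 0, from `p02`, `p01`, `L2`, `im`, `inj`, `fac`, `loc`, `pr4`, `near`, `lin` (as `varR`). -/
def S_var0 : Prop := ∀ (κ m r : ℕ) (S X W0 Ω : Type) [Fintype S] [Fintype X] [Fintype W0] [Fintype Ω]
  (e : Env κ (Ev κ m r) S X W0 Ω) (η x : ℝ) (a : ℕ) (Δ : ℝ)
  (μ : e.Xi → Ev κ m r → (Cell κ → S) → ℝ), e.Ok η x a → (e.mod m r).IsLaw e.good μ →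
  (∀ y, (({y' | near e y y'} : Finset (Cell κ × Od κ m r)).card : ℝ) ≤ Δ) →
  Ex μ (fun ξ σ => ∑ w, ((∑ y, pR0 e y ξ ((e.mod m r).im σ y) w) -
      (∑ y : Cell κ × Od κ m r, (({ξ | e.yf ξ.2 y.1 = 0} : Finset e.Xi).card / Fintype.card e.Xi : ℝ)) *
        (Fintype.card W0 : ℝ)⁻¹) ^ 2) ≤
    Δ * (Fintype.card (Cell κ × Od κ m r) *
      (((1 - 4 * η) ^ Fintype.card (Dir κ m r))⁻¹ * (Fintype.card W0 : ℝ)⁻¹))

/-- **blkE**: blocks, from `block`, `sup`, `alp`, `inj`, `lin`.  For fixed `ξ`, `v`, `y` with `yf ξ.2 y.1 = 0`: `block` for the block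
`univ.image fun c => shift c y` (`2^m` elements, `shift_card`; no common groups, `shift_disj` in `Slack/CubeB.lean`), all its elements have the base point `y.1`, so the
third part of `sup` applies to them. -/
def S_blkE : Prop := ∀ (κ m r : ℕ) (S X W0 Ω V : Type) [Fintype S] [Fintype X] [Fintype W0] [Fintype Ω] [Fintype V]
  (e : Env κ (Ev κ m r) S X W0 Ω) (η x : ℝ) (a : ℕ) (adv : X → V → Prop)
  (μ : e.Xi → Ev κ m r → (Cell κ → S) → ℝ), e.Ok η x a → (e.mod m r).IsLaw e.good μ →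
  (∀ v i, (({s | ¬ adv (e.f i s) v} : Finset S).card : ℝ) ≤ η * 2 ^ κ) →
  Ex μ (fun ξ σ => ∑ v : V, ∑ y : Cell κ × Od κ m r,
      if e.yf ξ.2 y.1 = 0 ∧ ∀ c : Fin m → ZMod 2, ¬ ∀ t, adv (e.f (nbr (shift c y) t).2 ((e.mod m r).im σ (shift c y) t)) v
        then (1 : ℝ) else 0) ≤
    Fintype.card V * (Fintype.card (Cell κ × Od κ m r) * (1 - (1 - η) ^ Fintype.card (Dir κ m r)) ^ (2 ^ m))

/-- **cnt**: counting with blocks (see `count_shift` in `Slack/CubeB.lean`).  `P y = (y ∈ P0 and Good y)`; `P0` depends only on `y.1`.  The map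
`y ↦ (c, shift c y)` with `c` such that `Good (shift c y)` is injective on `P0` (`shift c (shift c y) = y`), into `(Fin m → ZMod 2) × {y | Good y}`. -/
def S_cnt : Prop := ∀ (κ m r : ℕ) (P0 : Cell κ → Prop) (Good : Cell κ × Od κ m r → Prop),
  (∀ y : Cell κ × Od κ m r, P0 y.1 → ∃ c : Fin m → ZMod 2, Good (shift c y)) →
  ({y | P0 y.1} : Finset (Cell κ × Od κ m r)).card ≤ 2 ^ m * ({y | Good y} : Finset (Cell κ × Od κ m r)).card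

/-- **few**: few vertices of the families `≥ 1`, from `plev`, `fam`: `yf ≥ 1` implies `lv ≥ 1`; sum over `u` with `geo`. -/
def S_few : Prop := ∀ (κ m r : ℕ) (S X W0 Ω : Type) [Fintype S] [Fintype X] [Fintype W0] [Fintype Ω]
  (e : Env κ (Ev κ m r) S X W0 Ω) (η x : ℝ) (a : ℕ) (om ep g : ℕ → ℝ) (δ : ℝ), e.Ok η x a → Lvl e om ep g δ →
  (1 - (g 1 + sml e.L ep 1)) * Fintype.card (Cell κ × Od κ m r) ≤
    ∑ y : Cell κ × Od κ m r, (({ξ | e.yf ξ.2 y.1 = 0} : Finset e.Xi).card / Fintype.card e.Xi : ℝ)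

/-- **exp**: expansion of the rare vertices (Cauchy–Schwarz).  For nonempty `Z`, `N = Z.biUnion Cb`: `|Z| ≤ ∑_{y ∈ Z} ∑ v F y v = ∑_{v ∈ N} ∑_{y ∈ Z} F y v ≤
∑_{v ∈ N} (Ev v + (K v - Ev v)) ≤ E0 |N| + √(|N| V2)`, `K v = ∑ y F y v`, and `V2 ≤ t0 / (2000)^2 ≤ |N| / (2000)^2`. -/
def S_exp : Prop := ∀ (Y B : Type) [Fintype Y] [Fintype B] (F : Y → B → ℝ) (Cb : Y → Finset B) (Ev : B → ℝ)
  (Z : Finset Y) (E0 V2 t0 : ℝ), (∀ y v, 0 ≤ F y v) → (∀ y ∈ Z, 1 ≤ ∑ v, F y v) → (∀ y v, F y v ≠ 0 → v ∈ Cb y) →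
  (∀ v, Ev v ≤ E0) → E0 ≤ 1 / 2000 → ∑ v, ((∑ y, F y v) - Ev v) ^ 2 ≤ V2 → (∀ y ∈ Z, t0 ≤ ((Cb y).card : ℝ)) →
  V2 * 2000 ^ 2 ≤ t0 → 1000 * Z.card ≤ (Z.biUnion Cb).card

end Pool.Agent.Lib.MP_33d9ce_co.Cst
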