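import Pool.Agent.Lib.MP_33d9ce_co.Cst.DDefs
import Pool.Agent.Lib.MP_33d9ce_co.Cst.StmC3
import Pool.Agent.Lib.MP_33d9ce_co.Defs

/-!
# Spanning hypercubes, constant density: the array, the choice of the placement, the numbers, statements
-/

set_option autoImplicit false

noncomputable section

open Classical Finset

namespace Pool.Agent.Lib.MP_33d9ce_co.Cst

open Slack (Cell Ev Od Dir nbr shift Lab)

/-- **arr**, from `S_A` (proved: `main_A` in `Cst/A/Main.lean`; take `S_A` as hypothesis).  Family `𝓡 = V ⊕ (Fin (L + 1) × Fin (κ + 2) × (Fin (2 * (κ + 1)) → Option Ω))`,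
`Ω = Fin aa → {v // v ∉ A}`, `|Ω| ≤ |V| ^ aa`; `Rs (inl v) a = ¬ adj a v`, `Rs (inr (l, k, c)) a = ∃ h : a ∈ A, ⟨a, h⟩ ∈ E l k ∧ ∀ i ω, c i = some ω → okb adj A ⟨a, h⟩ ω`.
The sets `rr`, `rrm` are of this form: `c` enumerates the at most `2 * st.card` labels `w q (l - 1)`, `w q l` (`q ∈ st`) which are not ignored (any surjection of
`Fin (2 * (κ + 1))` onto the options of the finite set of these labels; or: for a finset `T` of labels with `T.card ≤ N` there is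
`c : Fin N → Option Ω` with `∀ ω, ω ∈ T ↔ ∃ i, c i = some ω`). -/
def S_arr : Prop := ∀ (κ L aa : ℕ) (V I S : Type) [Fintype V] [Fintype I] [Fintype S] [Nonempty I] [Nonempty S]
  (adj : V → V → Prop) (A : Finset V) (E : ℕ → ℕ → Finset {v // v ∈ A}) (x : ℝ), 0 < x →
  A.card = Fintype.card I * Fintype.card S →
  2 * ((Fintype.card V : ℝ) + (L + 1) * (κ + 2) * ((Fintype.card V : ℝ) ^ aa + 1) ^ (2 * (κ + 1))) * Fintype.card I *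
    Real.exp (-(x ^ 2 * Fintype.card S / 4)) < 1 →
  ∃ f : I → S → {v // v ∈ A}, Function.Injective (fun p : I × S => f p.1 p.2) ∧
    (∀ v i, |(({s | ¬ adj (f i s).1 v} : Finset S).card : ℝ) -
      Fintype.card S * (((A.filter fun a => ¬ adj a v).card : ℝ) / A.card)| ≤ x * Fintype.card S) ∧
    ∀ (i : I) (st : Finset (Cell κ)) (w : Cell κ → ℕ → Fin aa → {v // v ∉ A}) (l : ℕ), st.card ≤ κ + 1 → l ≤ L →
      |(({s | f i s ∈ rr (okb adj A) E st w l} : Finset S).card : ℝ) -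
        Fintype.card S * (((rr (okb adj A) E st w l).card : ℝ) / Fintype.card {v // v ∈ A})| ≤ x * Fintype.card S ∧
      ∀ z, |(({s | f i s ∈ rrm (okb adj A) E st w l z} : Finset S).card : ℝ) -
        Fintype.card S * (((rrm (okb adj A) E st w l z).card : ℝ) / Fintype.card {v // v ∈ A})| ≤ x * Fintype.card S

/-- **fth**: the labels are fair.  `left`: at most `∑ i, #{x | ¬ adj x (w i)} ≤ aa * h` vertices are incompatible with `w`.  `right`: at most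
`∑ i, #{w | ¬ adj x (w i)} ≤ aa * (h * |B| ^ (aa - 1))` labels are incompatible with `x`, `B = {v // v ∉ A}`. -/
def S_fth : Prop := ∀ (V : Type) [Fintype V] (adj : V → V → Prop) (A : Finset V) (aa h : ℕ) (θ : ℝ), 0 ≤ θ → 16 * θ ≤ 1 →
  (∀ v, (({a | ¬ adj a v} : Finset V).card) ≤ h) → (∀ v, (({a | ¬ adj v a} : Finset V).card) ≤ h) →
  (aa : ℝ) * h ≤ θ * Fintype.card {v // v ∈ A} → (aa : ℝ) * h ≤ θ * Fintype.card {v // v ∉ A} →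
  Fair θ (okb adj A (aa := aa))

/-- **eok**: the standing hypotheses for the concrete data.  `#{s | ¬ adj (f i s) v} ≤ |S| h / |A| + x |S| = (h / 2^(n-1) + 17/16 x) 2^κ ≤ 2^κ / 10^12`; a label of the
family 0 has four vertices, the others 1210.  `nc cell 1 u` has at most `κ + 1` elements (the ball of radius 1 has `κ + 1` points, see the proof of `p_pgood`).
`room`: `32 * (10^7 * (1214 / 10^12)) ≤ 1`.  `alv` is positive and at most 1. -/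
def S_eok : Prop := ∀ (κ L n h : ℕ) (V I S : Type) [Fintype V] [Fintype I] [Fintype S] [Nonempty I]
  (adj : V → V → Prop) (A : Finset V) (cell : Cell κ → Cell κ) (W : ℕ → Finset (Fin 1210 → {v // v ∉ A}))
  (E : ℕ → ℕ → Finset {v // v ∈ A}) (f : I → S → {v // v ∈ A}) (x : ℝ),
  (∀ v, (({a | ¬ adj a v} : Finset V).card) ≤ h) → (A.card : ℝ) = 17 / 16 * 2 ^ (n - 1) →
  16 * Fintype.card S = 17 * 2 ^ κ → 0 < x → (h : ℝ) / 2 ^ (n - 1) + 17 / 16 * x ≤ 1 / 10 ^ 12 → 2 ≤ L → κ + 1 ≤ kap L →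
  kap (L - 1) ≤ κ → (∀ l, 2 ≤ l → l ≤ L → 8 * x ≤ alv l) → (∀ j, (W j).Nonempty) → Nonempty (Lab A) →
  (∀ v i, |(({s | ¬ adj (f i s).1 v} : Finset S).card : ℝ) -
      Fintype.card S * (((A.filter fun a => ¬ adj a v).card : ℝ) / A.card)| ≤ x * Fintype.card S) →
  (∀ (i : I) (st : Finset (Cell κ)) (w : Cell κ → ℕ → Fin 1210 → {v // v ∉ A}) (l : ℕ), st.card ≤ κ + 1 → l ≤ L →
      |(({s | f i s ∈ rr (okb adj A) E st w l} : Finset S).card : ℝ) -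
        Fintype.card S * (((rr (okb adj A) E st w l).card : ℝ) / Fintype.card {v // v ∈ A})| ≤ x * Fintype.card S ∧
      ∀ z, |(({s | f i s ∈ rrm (okb adj A) E st w l z} : Finset S).card : ℝ) -
        Fintype.card S * (((rrm (okb adj A) E st w l z).card : ℝ) / Fintype.card {v // v ∈ A})| ≤ x * Fintype.card S) →
  (env adj A cell L W E alv f).Ok (1 / 10 ^ 12) x 1210 ∧
    ∀ v i, (({s | ¬ adj (f i s).1 v} : Finset S).card : ℝ) ≤ 1 / 10 ^ 12 * 2 ^ κ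

/-- **pick**: the choice of the labels and of the placement, from `law`, `lin`, `pos`, `im`, `lawsum`, `inj`, `alp`, `col`, `pgood`, `load`, `varR`, `bigE`, `p02`,
`var0`, `blkE`, `few`.  `μ` by `law` (`good = e.good`; the column sums by `col`).  Apply the last part of `lin` to the sum of
`[¬ good ξ]` (expectation at most `1/16` by `pgood`; a function of `ξ` alone: `im`, `lawsum`, or directly), the sum in `bigE` (at most `1/16`), the sum in `blkE` (at most `1/16`), the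
sum in `varR` divided by `8 (Δ |Y| 4 H / |B|)`, the sum in `var0` divided by `8 (Δ |Y| Λ / |W0|)`, and `∑ y w, pR0 ^ 2` divided by `8 |Y| Λ / |W0|` (at most `1/8` each): total
`9/16 < 1`.  All terms are nonnegative, so each is `< 1` at the pair `(ξ, σ)` found, which has positive weight (`pos`); the first three terms are sums of numbers `0`, `1`.
`Ev' v` is the expectation in `load`, `m0 = ∑ y, #{yf = 0} / |Xi|` (`few`; every summand is at most 1). -/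
def S_pick : Prop := ∀ (κ m r aa : ℕ) (S X W0 B V : Type) [Fintype S] [Fintype X] [Fintype W0] [Fintype B] [Fintype V]
  (e : Env κ (Ev κ m r) S X W0 (Fin aa → B)) (η x : ℝ) (z0 H Dn : ℝ) (t : ℕ) (adj : X → B → Prop) (adv : X → V → Prop)
  (om ep g : ℕ → ℝ) (δ Δ : ℝ), e.Ok η x aa → Trn e z0 H Dn t → (∀ x' w, e.ok x' w ↔ ∀ i, adj x' (w i)) →
  Lvl e om ep g δ → (∀ y, (({y' | near e y y'} : Finset (Cell κ × Od κ m r)).card : ℝ) ≤ Δ) →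
  (∀ v i, (({s | ¬ adv (e.f i s) v} : Finset S).card : ℝ) ≤ η * 2 ^ κ) → 0 < Δ → Nonempty (Od κ m r) →
  2 ^ κ * ep e.L + 1000 * ∑ l ∈ Icc 2 e.L, (e.al l)⁻¹ * (g l + sml e.L ep l) ≤ 1 / 16 →
  (Fintype.card (Cell κ × Od κ m r) : ℝ) * (e.L * (z0 * 6 ^ Fintype.card (Dir κ m r))) ≤ 1 / 16 →
  (Fintype.card V : ℝ) * (Fintype.card (Cell κ × Od κ m r) * (1 - (1 - η) ^ Fintype.card (Dir κ m r)) ^ (2 ^ m)) ≤ 1 / 16 →
  ∃ (ξ : e.Xi) (σ : Ev κ m r → Cell κ → S), e.good ξ ∧ (∀ i, Function.Injective (σ i)) ∧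
    (∀ y, (e.mod m r).law ξ y ((e.mod m r).im σ y) ≠ 0) ∧
    (∀ y : Cell κ × Od κ m r, ∀ j, 1 ≤ j → j ≤ e.L → e.cls j y.1 ξ → ¬ bigR e z0 y j ξ ((e.mod m r).im σ y)) ∧
    (∀ (v : V) (y : Cell κ × Od κ m r), e.yf ξ.2 y.1 = 0 → ∃ c : Fin m → ZMod 2,
      ∀ t, adv (e.f (nbr (shift c y) t).2 ((e.mod m r).im σ (shift c y) t)) v) ∧
    (∃ Ev' : B → ℝ, (∀ v, Ev' v ≤ ∑ j ∈ Icc 1 e.L, 2 * (Fintype.card B : ℝ) ^ (aa - 1) * ((e.W j).card : ℝ)⁻¹ *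
        ((g j + sml e.L ep j) * 2 ^ κ) * Fintype.card (Od κ m r)) ∧
      ∑ v, ((∑ y, Fr e z0 H y v ξ ((e.mod m r).im σ y)) - Ev' v) ^ 2 ≤
        8 * (Δ * (Fintype.card (Cell κ × Od κ m r) * (4 * H / Fintype.card B)))) ∧
    (∃ m0 : ℝ, (1 - (g 1 + sml e.L ep 1)) * Fintype.card (Cell κ × Od κ m r) ≤ m0 ∧
      m0 ≤ Fintype.card (Cell κ × Od κ m r) ∧
      ∑ w, ((∑ y, pR0 e y ξ ((e.mod m r).im σ y) w) - m0 * (Fintype.card W0 : ℝ)⁻¹) ^ 2 ≤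
        8 * (Δ * (Fintype.card (Cell κ × Od κ m r) *
          (((1 - 4 * η) ^ Fintype.card (Dir κ m r))⁻¹ * (Fintype.card W0 : ℝ)⁻¹)))) ∧
    ∑ y, ∑ w, pR0 e y ξ ((e.mod m r).im σ y) w ^ 2 ≤
      8 * (Fintype.card (Cell κ × Od κ m r) *
        (((1 - 4 * η) ^ Fintype.card (Dir κ m r))⁻¹ * (Fintype.card W0 : ℝ)⁻¹))

/-- **inv**: few candidates outside `A` force a concentrated row.  With `b`, `a` the numbers of the elements of `C` outside and inside `A` the support of `row` has at most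
`b^2 a^2` elements, so by Cauchy–Schwarz `1 = (∑ row)^2 ≤ b^2 a^2 ∑ row^2`, `b > 0` and `a ≤ |A|`. -/
def S_inv : Prop := ∀ (V : Type) [Fintype V] (A C : Finset V) (row : Lab A → ℝ), (∀ w, 0 ≤ row w) → ∑ w, row w = 1 →
  (∀ w, row w ≠ 0 → w.1.1.1 ∈ C ∧ w.1.2.1 ∈ C ∧ w.2.1.1 ∈ C ∧ w.2.2.1 ∈ C) →
  (((C.filter (· ∉ A)).card : ℝ)⁻¹) ^ 2 ≤ (A.card : ℝ) ^ 2 * ∑ w, row w ^ 2

/-- **many**: `(∑ w (K w - m0 / |W|))^2 ≤ |W| ∑ w (K w - m0 / |W|)^2 ≤ (e M)^2`. -/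
def S_many : Prop := ∀ (W : Type) [Fintype W] [Nonempty W] (K : W → ℝ) (m0 c : ℝ), 0 ≤ c →
  ∑ w, (K w - m0 * (Fintype.card W : ℝ)⁻¹) ^ 2 ≤ c ^ 2 * (Fintype.card W : ℝ)⁻¹ → m0 - c ≤ ∑ w, K w

/-- **main**: the assembly. -/
def S_main : Prop := ∀ (κ m r n h L : ℕ) (x z0 Dn H th Δ er : ℝ), Num κ m r n h L x z0 Dn H th Δ er →
  ∀ (V : Type) [Fintype V] (G : SimpleGraph V), Fintype.card V = 2 ^ n →
  (∀ v, (({a | ¬ G.Adj a v} : Finset V).card) ≤ h) → ContainsCube n G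

/-- **nL**: the top level, for `10 ^ 7 ≤ κ`.  `L` is the least number with `κ + 1 ≤ kap L` (`kap (j + 1) = 10 ^ 7 * 2500 ^ j` is unbounded, `kap 0 = kap 1 = 10 ^ 7 ≤ κ`, so
`2 ≤ L` and `kap L = 2500 * kap (L - 1) ≤ 2500 * κ`).  `100 * (L + 1) ≤ 10 ^ 7 * 2500 ^ (L - 2) ≤ κ`.  For the last claim `κ + 1 ≤ 10 ^ 7 * 2500 ^ (L - 1)`,
`log (κ + 1) ≤ 17 + 8 (L - 1)` and `(4 L + 8) (17 + 8 (L - 1)) ≤ 10 ^ 4 * 2500 ^ (L - 2) ≤ κ / 1000` (induction). -/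
def S_nL : Prop := ∀ κ : ℕ, 10 ^ 7 ≤ κ → ∃ L : ℕ, 2 ≤ L ∧ κ + 1 ≤ kap L ∧ kap (L - 1) ≤ κ ∧ kap L ≤ 2500 * κ ∧
  100 * (L + 1) ≤ κ ∧ ((κ : ℝ) + 1) ^ (4 * L + 8) ≤ Real.exp (κ / 1000)

/-- **nal**: lower bounds for `alv`, `omv`, from `kap (l + 1) ≤ 2500 * kap l`, monotonicity of `kap`, and `exp (-2 y) ≤ 1 - y` for `0 ≤ y ≤ 1/2`:
`(1 - 8 / 10^19) ^ N ≥ exp (-(16 N / 10^19))`. -/
def S_nal : Prop := ∀ κ L : ℕ, kap L ≤ 2500 * κ → (∀ l, l ≤ L → Real.exp (-(κ / 10 ^ 10 : ℝ)) / 4 ≤ alv l) ∧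
  ∀ j, j ≤ L → Real.exp (-(κ / 10 ^ 5 : ℝ)) / 8 ≤ omv j

/-- **nsum**: sums over the levels.  For `l ≥ 1`: `sml L epv l ≤ gv l` (every term is `2 * 2 ^ (kap j) * (1/2) ^ (12 * kap (j + 1)) ≤ 2 * (1/2) ^ (29999 * kap j)`,
`kap (j + 1) = 2500 * kap j` for `j ≥ 2`, `j ≥ l - 1`; a geometric sum in `j` because `kap (j + 1) ≥ kap j + 1`).
`(alv l)⁻¹ ≤ 4 * exp (16 (kap l + kap (l + 1)) / 10^19)` with `kap (l + 1) ≤ 2500 ^ 2 * kap (l - 1)` for `l ≥ 1`, and `(omv j)⁻¹ ≤ 8 * exp (1600 (kap (j + 1) + kap (j + 2)) / 10 ^ 19)` with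
`kap (j + 2) ≤ 2500 ^ 3 * kap (j - 1)`.  So all products are at most `16 * exp (-(kap (l - 1) / 25000))`, and `kap (l - 1) ≥ 5 * 10 ^ 6 * l` for `l ≥ 1`: geometric series with ratio
`exp (-200)`. -/
def S_nsum : Prop := ∀ κ L : ℕ, 2 ≤ L → κ + 1 ≤ kap L →
  2 ^ κ * epv L + 1000 * ∑ l ∈ Icc 2 L, (alv l)⁻¹ * (gv l + sml L epv l) ≤ 1 / 16 ∧
  32 / 15 * ∑ j ∈ Icc 1 L, (gv j + sml L epv j) * (omv j)⁻¹ ≤ 1 / 2000 ∧ gv 1 + sml L epv 1 ≤ 1 / 1000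

/-- **narr**: the exponent: everything in front of `exp` is at most `2 ^ (10^5 * κ^2)`, and `(97/100)^(2κ) 2^κ * 17/64 ≥ 10^6 κ^2` for `κ ≥ 10^7`. -/
def S_narr : Prop := ∀ κ n L : ℕ, 10 ^ 7 ≤ κ → n ≤ 5 * κ + 4 → L + 1 ≤ κ →
  2 * ((2 : ℝ) ^ n + (L + 1) * (κ + 2) * (((2 : ℝ) ^ n) ^ 1210 + 1) ^ (2 * (κ + 1))) * 2 ^ (n - 1 - κ) *
    Real.exp (-(((97 / 100 : ℝ) ^ κ) ^ 2 * (17 / 16 * 2 ^ κ) / 4)) < 1

/-- **nx**: `(97/100)^κ ≤ (97/100)^1000`, and `8 * (97/100)^κ ≤ exp (-(κ / 10^10)) / 4` (`exp (-1/100) ≥ 99/100`). -/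
def S_nx : Prop := ∀ κ : ℕ, 10 ^ 7 ≤ κ → 2 / 10 ^ 23 + 17 / 16 * (97 / 100 : ℝ) ^ κ ≤ 1 / 10 ^ 12 ∧
  8 * (97 / 100 : ℝ) ^ κ ≤ Real.exp (-(κ / 10 ^ 10 : ℝ)) / 4

/-- **nden**: `(25/24)^n ≥ ((25/24)^5)^κ`; `25^n ≤ 25^4 (25^5)^κ`, `(103/100)^600 ≥ 5 * 25^5` and `5^κ ≥ 1210 * 2^1210 * 25^4`; `(986/1000)^1210 ≤ 24^(-5) / 3` (numerals, `norm_num`),
`24^n ≤ 24^4 (24^5)^κ`. -/
def S_nden : Prop := ∀ κ n : ℕ, 10 ^ 7 ≤ κ → 5 * κ ≤ n → n ≤ 5 * κ + 4 →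
  (1 : ℝ) ≤ 25 ^ n * ((24 ^ n)⁻¹ * (Real.exp (-(κ / 10 ^ 5 : ℝ)) / 8)) ∧
  (1210 : ℝ) * (2 ^ 1210 * 25 ^ n) ≤ ((103 / 100 : ℝ) ^ κ) ^ 600 ∧
  ((986 / 1000 : ℝ) ^ κ) ^ 1210 ≤ (24 ^ n)⁻¹ * (Real.exp (-(κ / 10 ^ 5 : ℝ)) / 8)

/-- **nnear**: `(337/192)^κ * 2^(n-1-κ) = (337/384)^κ * 2^(n-1)`, `exp (1/1000) * 337/384 ≤ 8785/10000`, and each of the two terms is at most `(88/100)^κ * 2^(n-1) / 2`. -/
def S_nnear : Prop := ∀ κ n : ℕ, 10 ^ 7 ≤ κ → 5 * κ ≤ n → n ≤ 5 * κ + 4 →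
  Real.exp (κ / 1000) * (337 / 192) ^ κ * 2 ^ (n - 1 - κ) + (n : ℝ) ^ 2 * 2 ^ κ ≤ (88 / 100 : ℝ) ^ κ * 2 ^ (n - 1)

/-- **nblk**: `1 - p ≤ exp (-p)`, so the power is at most `exp (-(2^m (1 - 1/10^12)^n))`, and `2^m (1 - 1/10^12)^n ≥ 2 n + 4`: `2 ^ m ≥ 2 ^ (κ / 200 - 1)`, `(1 - 1/10^12)^n ≥ exp (-(2 n / 10^12))`,
`n ≤ 5 κ + 4`. -/
def S_nblk : Prop := ∀ κ n : ℕ, 10 ^ 7 ≤ κ → 5 * κ ≤ n → n ≤ 5 * κ + 4 →
  (2 : ℝ) ^ n * (2 ^ (n - 1) * (1 - (1 - 1 / 10 ^ 12) ^ n) ^ (2 ^ (κ / 200))) ≤ 1 / 16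

/-- **nlast**: the remaining inequalities.  (1) the left side is `L / 2 * 2^(-n)`.  (2) `(88 * 103 / (100 * 986) * 10) = 0.9193 ≤ 0.92` and `0.92^1000` is tiny.  (3)
`(1 - 4/10^12)^n ≥ (999/1000)^κ`.  (4) `2^(κ/200) ≤ (101/100)^κ` because `2 ≤ (101/100)^200`. -/
def S_nlast : Prop := ∀ κ n L : ℕ, 10 ^ 7 ≤ κ → 5 * κ ≤ n → n ≤ 5 * κ + 4 → L + 1 ≤ κ →
  (2 : ℝ) ^ (n - 1) * (L * ((24 ^ n)⁻¹ * 6 ^ n)) ≤ 1 / 16 ∧
  8 * (((88 / 100 : ℝ) ^ κ * 2 ^ (n - 1)) * (64 / 15 * (103 / 100) ^ κ)) * 2000 ^ 2 ≤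
    (986 / 1000 : ℝ) ^ κ * (15 / 16 * 2 ^ (n - 1)) ∧
  8 * (((88 / 100 : ℝ) ^ κ * 2 ^ (n - 1)) * ((1 - 4 * (1 / 10 ^ 12)) ^ n)⁻¹) ≤ ((95 / 100 : ℝ) ^ κ) ^ 2 * 2 ^ (n - 1) ∧
  1000 * (95 / 100 : ℝ) ^ κ ≤ (2 ^ (κ / 200))⁻¹ / 2 ∧
  1000 * (95 / 100 : ℝ) ^ κ ≤ (1 - 4 * (1 / 10 ^ 12)) ^ n / 10

/-- **num**, from all the pieces `n..`: the parameters exist.  `κ = n / 5`, `m = κ / 200`, `r = n - 4 κ - 4 m`, `h = ⌊2^n / 10^23⌋`, `x = (97/100)^κ`, `z0 = (24^n)⁻¹`, `Dn = 25^n`,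
`H = (103/100)^κ`, `th = (986/1000)^κ`, `Δ = (88/100)^κ * 2^(n-1)`, `er = (95/100)^κ`. -/
def S_num : Prop := ∃ n0 : ℕ, ∀ n ≥ n0, ∃ (κ m r h L : ℕ) (x z0 Dn H th Δ er : ℝ),
  Num κ m r n h L x z0 Dn H th Δ er ∧ (2 : ℝ) ^ n / 10 ^ 24 ≤ h

/-- **thr**, from `main`, `num`: the threshold (see `Star/Bound.lean`: `mem_admissible`, `threshold_of_partition`, and `Star/Final.lean`: `all_of_large`). -/
def S_thr : Prop := (∃ n0 : ℕ, ∀ n ≥ n0, (2 : ℝ) ^ n / 10 ^ 24 ≤ threshold n) ∧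
  ∃ c : ℝ, 0 < c ∧ ∀ n : ℕ, 1 ≤ n → c * 2 ^ n ≤ threshold n

end Pool.Agent.Lib.MP_33d9ce_co.Cst
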