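import Mathlib

/-!
# Spanning hypercubes, constant density: configurations of labels, definitions

`ok x w` says that the vertex `x : X` is compatible with the label `w : Ω`.  There are slots `E` for labels and slots
`F` for vertices, in blocks (`bE : E → b`, `bF : F → a`), and a relation `R : a → b → Prop` between the blocks; a vertex in a
slot of the block `l` has to be compatible with the labels in the slots of all related blocks `j`.
-/

set_option autoImplicit false

noncomputable section

open Classical Finset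

namespace Pool.Agent.Lib.MP_33d9ce_co.Cst

section

variable {X Ω a b F E : Type} [Fintype X]

/-- the vertices compatible with all labels of the blocks related to `l` -/
def cn (ok : X → Ω → Prop) (R : a → b → Prop) (bE : E → b) (D : E → Ω) (l : a) : Finset X :=
  {x | ∀ e, R l (bE e) → ok x (D e)}

/-- the same, the slot `e0` being ignored -/
def cnm (ok : X → Ω → Prop) (R : a → b → Prop) (bE : E → b) (D : E → Ω) (e0 : E) (l : a) : Finset X :=
  {x | ∀ e, e ≠ e0 → R l (bE e) → ok x (D e)}

/-- the number of the vertex configurations compatible with the label configuration `D` -/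
def wt (ok : X → Ω → Prop) (R : a → b → Prop) [Fintype F] (bF : F → a) (bE : E → b) (D : E → Ω) : ℝ :=
  ∏ s : F, ((cn ok R bE D (bF s)).card : ℝ)

end

/-- every label is incompatible with at most the proportion `θ` of the vertices, and conversely -/
structure Fair {X Ω : Type} [Fintype X] [Fintype Ω] (θ : ℝ) (ok : X → Ω → Prop) : Prop where
  nonneg : 0 ≤ θ
  small : 16 * θ ≤ 1
  left : ∀ w, (({x | ¬ ok x w} : Finset X).card : ℝ) ≤ θ * Fintype.card X
  right : ∀ x, (({w | ¬ ok x w} : Finset Ω).card : ℝ) ≤ θ * Fintype.card Ω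

section

variable {X Ω ι ι' : Type} [Fintype X]

/-- the vertices of `E` compatible with all labels `p i`, `q i` -/
def AA (ok : X → Ω → Prop) (E : Finset X) (p : ι → Ω) (q : ι' → Ω) : Finset X :=
  E.filter fun x => (∀ i, ok x (p i)) ∧ ∀ i, ok x (q i)

/-- the same, without the label `p i0` -/
def AAl (ok : X → Ω → Prop) (E : Finset X) (p : ι → Ω) (q : ι' → Ω) (i0 : ι) : Finset X :=
  E.filter fun x => (∀ i, i ≠ i0 → ok x (p i)) ∧ ∀ i, ok x (q i)

/-- the same, without the label `q i0` -/
def AAr (ok : X → Ω → Prop) (E : Finset X) (p : ι → Ω) (q : ι' → Ω) (i0 : ι') : Finset X :=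
  E.filter fun x => (∀ i, ok x (p i)) ∧ ∀ i, i ≠ i0 → ok x (q i)

/-- the labels `p`, `q` are bad: few compatible vertices, or one label removes more than half of them -/
def TB (ok : X → Ω → Prop) (E : Finset X) (al : ℝ) (p : ι → Ω) (q : ι' → Ω) : Prop :=
  ((AA ok E p q).card : ℝ) < al * Fintype.card X ∨
    (∃ i0, 2 * (AA ok E p q).card < (AAl ok E p q i0).card) ∨
    ∃ i0, 2 * (AA ok E p q).card < (AAr ok E p q i0).card

end

/-- the pairs of label families with entries in `W` and in `W'` -/
def prs {Ω : Type} (ι ι' : Type) [Fintype ι] [Fintype ι'] (W W' : Finset Ω) : Finset ((ι → Ω) × (ι' → Ω)) :=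
  (Fintype.piFinset fun _ => W) ×ˢ (Fintype.piFinset fun _ => W')

/-- the caps: `k0, k0, k0 * Θ, k0 * Θ ^ 2, ...` -/
def kp (k0 Θ : ℕ) : ℕ → ℕ
  | 0 => k0
  | j + 1 => k0 * Θ ^ j

/-- the output of this part: label sets `W j` (`1 ≤ j ≤ L`) and restrictions `E l k` such that at each level `l` few pairs
of `k ≤ kap l` labels of `W (l - 1)` and `k` labels of `W l` are bad, also if one of the labels is prescribed -/
def TOut {X Ω : Type} [Fintype X] [Fintype Ω] (ok : X → Ω → Prop) (L : ℕ) (kap : ℕ → ℕ) (al om ep : ℕ → ℝ)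
    (W : ℕ → Finset Ω) (E : ℕ → ℕ → Finset X) : Prop :=
  (∀ j, (W j).Nonempty) ∧ (∀ j, 1 ≤ j → j ≤ L → om j * Fintype.card Ω ≤ ((W j).card : ℝ)) ∧
  ∀ l, 2 ≤ l → l ≤ L → ∀ (ι : Type) [Fintype ι], Fintype.card ι ≤ kap l →
    ((((prs ι ι (W (l - 1)) (W l)).filter fun p => TB ok (E l (Fintype.card ι)) (al l) p.1 p.2).card : ℝ) ≤
      ep l * (prs ι ι (W (l - 1)) (W l)).card) ∧
    (∀ i0, ∀ v ∈ W (l - 1), (((prs ι ι (W (l - 1)) (W l)).filter fun p =>
      p.1 i0 = v ∧ TB ok (E l (Fintype.card ι)) (al l) p.1 p.2).card : ℝ) * (W (l - 1)).card ≤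
      ep l * (prs ι ι (W (l - 1)) (W l)).card) ∧
    (∀ i0, ∀ v ∈ W l, (((prs ι ι (W (l - 1)) (W l)).filter fun p =>
      p.2 i0 = v ∧ TB ok (E l (Fintype.card ι)) (al l) p.1 p.2).card : ℝ) * (W l).card ≤
      ep l * (prs ι ι (W (l - 1)) (W l)).card)

end Pool.Agent.Lib.MP_33d9ce_co.Cst
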